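import Mathlib
open MeasureTheory Real
open scoped ENNReal BigOperators

namespace BSheet

/-- strings of `n+1` base-4 digits; a string is a cell of length `4^-(n+1)` of `[0,1]` -/
abbrev Str (n : ℕ) := Fin (n+1) → Fin 4

/-- keep the first `k` digits, the others become 0 -/
def trunc {n : ℕ} (k : ℕ) (x : Str n) : Str n := fun j => if (j:ℕ) < k then x j else 0

def gd (a : Fin 4) : ℝ := if a = 1 ∨ a = 2 then 1 else -1

/-- relative position of the centre of the cell `x` in the level-`k` interval containing it -/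
noncomputable def rel {n : ℕ} (k : ℕ) (x : Str n) : ℝ :=
  (4:ℝ)^k * ((∑ j : Fin (n+1), if k ≤ (j:ℕ) then ((x j : ℕ) : ℝ) * (1/4)^((j:ℕ)+1) else 0)
    + (1/2) * (1/4)^(n+1))

/-- tent function of the level-`k` interval containing `x`, at the centre of the cell `x` -/
noncomputable def chi {n : ℕ} (k : ℕ) (x : Str n) : ℝ := 1 - |2 * rel k x - 1|

theorem trunc_trunc {n : ℕ} (k : ℕ) (x : Str n) : trunc k (trunc k x) = trunc k x := by
  funext j; simp only [trunc]; split_ifs <;> rfl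

/-- base-4 intervals of level at most `n` -/
def Node (n : ℕ) := {p : Fin (n+1) × Str n // trunc p.1 p.2 = p.2}

instance (n : ℕ) : Fintype (Node n) := by unfold Node; infer_instance
instance (n : ℕ) : DecidableEq (Node n) := by unfold Node; infer_instance

def mkNode {n : ℕ} (j : Fin (n+1)) (x : Str n) : Node n := ⟨(j, trunc j x), trunc_trunc _ _⟩

/-- base-4 boxes of `[0,1]^D` of volume `4^-(n-k)` -/
def BIdx (D n k : ℕ) := {r : (Fin D → Fin (n+1)) × (Fin D → Str n) //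
  (∑ i, ((r.1 i : Fin (n+1)) : ℕ)) + k = n ∧ ∀ i, trunc (r.1 i) (r.2 i) = r.2 i}

instance (D n k : ℕ) : Fintype (BIdx D n k) := by unfold BIdx; infer_instance
instance (D n k : ℕ) : DecidableEq (BIdx D n k) := by unfold BIdx; infer_instance

/-- base-4 boxes of `[0,1]^(D+1)` of volume `4^-n` -/
abbrev Idx (D n : ℕ) := (κ : Node n) × BIdx D n κ.1.1

/-- number of shapes -/
def ms (D n k : ℕ) : ℕ :=
  Fintype.card {s : Fin D → Fin (n+1) // (∑ i, ((s i : Fin (n+1)) : ℕ)) + k = n}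

noncomputable def chiB {D n k : ℕ} (r : BIdx D n k) (x : Fin D → Str n) : ℝ :=
  ∏ i, (if trunc (r.1.1 i) (x i) = r.1.2 i then chi (r.1.1 i) (x i) else 0)

noncomputable def psi {D n : ℕ} (a : Idx D n → ℝ) (κ : Node n) (x : Fin D → Str n) : ℝ :=
  (Real.sqrt (ms D n κ.1.1))⁻¹ * ∑ r : BIdx D n κ.1.1, a ⟨κ, r⟩ * chiB r x

noncomputable def W {D n : ℕ} (a : Idx D n → ℝ) (κ : Node n) (x : Fin D → Str n) : ℝ :=
  ∏ j : Fin (n+1), (if j < κ.1.1 then
    (1 + (1/4) * gd (κ.1.2 j) * Real.arctan (psi a (mkNode j κ.1.2) x)) else 1)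

/-- average over the cells of `[0,1]^D` -/
noncomputable def avg {D n : ℕ} (f : (Fin D → Str n) → ℝ) : ℝ :=
  ((4:ℝ)^((n+1)*D))⁻¹ * ∑ x, f x

noncomputable def q {D n : ℕ} (a : Idx D n → ℝ) : Idx D n → ℝ := fun i =>
  (1/4)^(i.1.1.1 : ℕ) * avg (fun x => chiB i.2 x * W a i.1 x
    * (1/2 + (1/16) * Real.arctan (psi a i.1 x)))

noncomputable def vec {D n : ℕ} (x1 : Str n) (x : Fin D → Str n) : Idx D n → ℝ := fun i =>
  (if trunc i.1.1.1 x1 = i.1.1.2 then chi i.1.1.1 x1 else 0) * chiB i.2 x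

/-- the Riesz product weights -/
noncomputable def wt {D n : ℕ} (a : Idx D n → ℝ) (x1 : Str n) (x : Fin D → Str n) : ℝ :=
  ((4:ℝ)^((n+1)*(D+1)))⁻¹ * ∏ j : Fin (n+1),
    (1 + (1/4) * gd (x1 j) * Real.arctan (psi a (mkNode j x1) x))

noncomputable def Amat {D n : ℕ} (a : Idx D n → ℝ) (κ : Node n) :
    Matrix (BIdx D n κ.1.1) (BIdx D n κ.1.1) ℝ := fun r r' =>
  (4:ℝ)^(n - (κ.1.1 : ℕ)) * avg (fun x => W a κ x * (1 + psi a κ x ^ 2)⁻¹ * (chiB r x * chiB r' x))

/-- uniform probability measure on `[-1,1]` -/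
noncomputable def U1 : Measure ℝ := (2⁻¹ : ℝ≥0∞) • volume.restrict (Set.Icc (-1) 1)

noncomputable def mu (D n : ℕ) : Measure (Idx D n → ℝ) := Measure.pi (fun _ => U1)

noncomputable def kbar (D n : ℕ) (κ : Node n) (x : Fin D → Str n) : ℝ :=
  ∫ a, (1 + psi a κ x ^ 2)⁻¹ ∂(mu D n)

noncomputable def Bmat (D n : ℕ) (κ : Node n) :
    Matrix (BIdx D n κ.1.1) (BIdx D n κ.1.1) ℝ := fun r r' =>
  (4:ℝ)^(n - (κ.1.1 : ℕ)) * avg (fun x => kbar D n κ x * (chiB r x * chiB r' x))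

def Kset (D n : ℕ) : Set (Idx D n → ℝ) :=
  {a | ∀ x1 x, |∑ i, a i * vec x1 x i| ≤ 1}

/-- number of shapes (volume `4^-(n-k)`) for which `x` and `y` lie in the same box -/
def cnt {n : ℕ} (D k : ℕ) (x y : Fin D → Str n) : ℕ :=
  Fintype.card {s : Fin D → Fin (n+1) // (∑ i, ((s i : Fin (n+1)) : ℕ)) + k = n ∧
    ∀ i, trunc (s i) (x i) = trunc (s i) (y i)}

noncomputable def rho {n : ℕ} (D k : ℕ) (x y : Fin D → Str n) : ℝ := (cnt D k x y : ℝ) / (ms D n k : ℝ)

/-- covariance majorant -/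
noncomputable def maj {n : ℕ} (D : ℕ) (k : Fin (n+1)) (x y : Fin D → Str n) : ℝ :=
  Real.exp ((1/16) * ∑ j : Fin (n+1), if j < k then rho D j x y else 0) - 1 + rho D k x y

open ProbabilityTheory

/-- centre of the cell `x`, a point of `[0,1]` -/
noncomputable def ctr {n : ℕ} (x : Str n) : ℝ :=
  (∑ j : Fin (n+1), ((x j : ℕ) : ℝ) * (1/4)^((j:ℕ)+1)) + (1/2) * (1/4)^(n+1)

/-- left endpoint of the interval with (truncated) digits `u` -/
noncomputable def lft {n : ℕ} (u : Str n) : ℝ := ∑ j : Fin (n+1), ((u j : ℕ) : ℝ) * (1/4)^((j:ℕ)+1)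

/-- the three points centre, left, right of the level-`k` interval with digits `u` -/
noncomputable def pt {n : ℕ} (k : ℕ) (u : Str n) (e : Fin 3) : ℝ :=
  if e = 0 then lft u + (1/2) * (1/4)^k else if e = 1 then lft u else lft u + (1/4)^k

noncomputable def wgt (e : Fin 3) : ℝ := if e = 0 then 1 else -1/2

/-- levels and digits of the box `i` in all `D+1` coordinates -/
def lev {D n : ℕ} (i : Idx D n) : Fin (D+1) → Fin (n+1) := Fin.cons i.1.1.1 i.2.1.1
def dig {D n : ℕ} (i : Idx D n) : Fin (D+1) → Str n := Fin.cons i.1.1.2 i.2.1.2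

/-- Brownian sheet on `[0,1]^d` -/
structure IsBrownianSheet {Ω : Type*} {mΩ : MeasurableSpace Ω} (d : ℕ)
    (B : (Fin d → unitInterval) → Ω → ℝ) (P : Measure Ω) : Prop where
  gaussian : IsGaussianProcess B P
  mean : ∀ x, ∫ ω, B x ω ∂P = 0
  cov : ∀ x y, cov[B x, B y; P] = ∏ i, min (x i : ℝ) (y i : ℝ)
  continuous : ∀ᵐ ω ∂P, Continuous (fun x => B x ω)

end BSheet

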