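import Pool.Agent.BSheet.Defs
open MeasureTheory Real
open scoped ENNReal BigOperators

namespace BSheet
open ProbabilityTheory
namespace Sol_chi_bounds



theorem chi_bounds_geom (k : ℕ) (m : ℕ) (hm : k ≤ m) :
    (∑ j ∈ Finset.range m, if k ≤ j then (3:ℝ) * (1/4)^(j+1) else 0) = (1/4)^k - (1/4)^m := by
  induction m, hm using Nat.le_induction with
  | base =>
    rw [sub_self]
    refine Finset.sum_eq_zero fun j hj => ?_
    rw [if_neg (not_le.mpr (Finset.mem_range.mp hj))]
  | succ m hm ih =>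
    rw [Finset.sum_range_succ, ih, if_pos hm]
    ring

theorem chi_bounds {n k : ℕ} (hk : k ≤ n) (x : Str n) : 0 ≤ chi k x ∧ chi k x ≤ 1 := by
  have h4 : (0:ℝ) < 4 ^ k := by positivity
  have h0 : 0 ≤ rel k x := by
    unfold rel
    refine mul_nonneg h4.le (add_nonneg (Finset.sum_nonneg fun j _ => ?_) (by positivity))
    split_ifs
    · positivity
    · exact le_rfl
  have h1 : rel k x ≤ 1 := by
    unfold rel
    have hs : (∑ j : Fin (n+1), if k ≤ (j:ℕ) then ((x j : ℕ) : ℝ) * (1/4)^((j:ℕ)+1) else 0) ≤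
        (1/4)^k - (1/4)^(n+1) := by
      rw [← chi_bounds_geom k (n+1) (by omega), ← Fin.sum_univ_eq_sum_range
        (fun j => if k ≤ j then (3:ℝ) * (1/4)^(j+1) else 0)]
      refine Finset.sum_le_sum fun j _ => ?_
      split_ifs
      · have h3 : ((x j : ℕ) : ℝ) ≤ 3 := by
          have : (x j : ℕ) ≤ 3 := by omega
          exact_mod_cast this
        exact mul_le_mul_of_nonneg_right h3 (by positivity)
      · exact le_rfl
    have h5 : (4:ℝ)^k * (1/4)^k = 1 := by
      rw [← mul_pow]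
      norm_num
    have h6 : (0:ℝ) ≤ (1/4)^(n+1) := by positivity
    calc (4:ℝ)^k * ((∑ j : Fin (n+1), if k ≤ (j:ℕ) then ((x j : ℕ) : ℝ) * (1/4)^((j:ℕ)+1) else 0)
          + (1/2) * (1/4)^(n+1)) ≤ (4:ℝ)^k * (1/4)^k :=
          mul_le_mul_of_nonneg_left (by linarith) h4.le
      _ = 1 := h5
  unfold chi
  constructor
  · have : |2 * rel k x - 1| ≤ 1 := abs_le.mpr ⟨by linarith, by linarith⟩
    linarith
  · linarith [abs_nonneg (2 * rel k x - 1)]


end Sol_chi_bounds

alias chi_bounds := Sol_chi_bounds.chi_bounds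

end BSheet
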