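import Pool.Agent.BSheet.Defs
import Pool.Agent.BSheet.L_chi_bounds
open MeasureTheory Real
open scoped ENNReal BigOperators

namespace BSheet
open ProbabilityTheory
namespace Sol_oneD_key




/-- position -/
noncomputable def okpos {n : ℕ} (x : Str n) : ℝ :=
  ∑ j : Fin (n+1), ((x j : ℕ) : ℝ) * (1/4)^((j:ℕ)+1)

theorem ok_zero {n : ℕ} (m : ℕ) (y : Str n) (hy : trunc m y = y) (j : Fin (n+1))
    (hj : m ≤ (j:ℕ)) : y j = 0 := by
  have h := congrFun hy j
  unfold trunc at h
  rw [if_neg (by omega)] at h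
  exact h.symm

theorem ok_iff {n : ℕ} (m : Fin (n+1)) (y : Str n) (hy : trunc m y = y) (a : Fin 4) (x : Str n) :
    trunc ((m:ℕ)+1) x = Function.update y m a ↔ (trunc m x = y ∧ x m = a) := by
  constructor
  · intro h
    have hj : ∀ j : Fin (n+1), (if (j:ℕ) < (m:ℕ)+1 then x j else 0) = Function.update y m a j :=
      fun j => congrFun h j
    constructor
    · funext j
      show (if (j:ℕ) < (m:ℕ) then x j else 0) = y j
      by_cases h1 : (j:ℕ) < (m:ℕ)
      · have h2 := hj j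
        rw [if_pos (by omega), Function.update_of_ne (by rintro rfl; omega)] at h2
        rw [if_pos h1, h2]
      · rw [if_neg h1, ok_zero m y hy j (by omega)]
    · have h2 := hj m
      rw [if_pos (by omega), Function.update_self] at h2
      exact h2
  · rintro ⟨h1, h2⟩
    funext j
    show (if (j:ℕ) < (m:ℕ)+1 then x j else 0) = Function.update y m a j
    have h3 : (if (j:ℕ) < (m:ℕ) then x j else 0) = y j := congrFun h1 j
    by_cases hjm : j = m
    · subst hjm
      rw [if_pos (by omega), Function.update_self, h2]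
    · rw [Function.update_of_ne hjm, ← h3]
      have hne : (j:ℕ) ≠ (m:ℕ) := fun e => hjm (Fin.ext e)
      by_cases h4 : (j:ℕ) < (m:ℕ)
      · rw [if_pos h4, if_pos (by omega)]
      · rw [if_neg h4, if_neg (by omega)]

theorem ok_upd {n : ℕ} (m : Fin (n+1)) (y : Str n) (hy : trunc m y = y) (a : Fin 4) :
    trunc ((m:ℕ)+1) (Function.update y m a) = Function.update y m a := by
  rw [ok_iff m y hy]
  constructor
  · funext j
    show (if (j:ℕ) < (m:ℕ) then Function.update y m a j else 0) = y j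
    by_cases h4 : (j:ℕ) < (m:ℕ)
    · rw [if_pos h4, Function.update_of_ne (by rintro rfl; omega)]
    · rw [if_neg h4, ok_zero m y hy j (by omega)]
  · rw [Function.update_self]

theorem ok_split {n : ℕ} (m : Fin (n+1)) (y : Str n) (hy : trunc m y = y) (f G : Str n → ℝ) :
    ∑ x : Str n, (if trunc m x = y then f x else 0) * G x =
      ∑ a : Fin 4, ∑ x : Str n,
        (if trunc ((m:ℕ)+1) x = Function.update y m a then f x else 0) * G x := by
  rw [Finset.sum_comm]
  refine Finset.sum_congr rfl (fun x _ => ?_)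
  simp only [ok_iff m y hy]
  by_cases h : trunc m x = y
  · simp only [h, true_and]
    rw [if_pos trivial, ← Finset.sum_mul, Finset.sum_ite_eq, if_pos (Finset.mem_univ _)]
  · simp only [h, false_and, if_false, zero_mul, Finset.sum_const_zero]

theorem ok_b {n : ℕ} (b : Fin (n+1) → Str n → ℝ) (hb : ∀ j x, b j x = b j (trunc j x))
    (m : Fin (n+1)) (y : Str n) (a : Fin 4) (j : Fin (n+1)) (hj : (j:ℕ) ≤ (m:ℕ)) :
    b j (Function.update y m a) = b j y := by
  rw [hb j (Function.update y m a), hb j y]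
  congr 1
  funext i
  show (if (i:ℕ) < (j:ℕ) then Function.update y m a i else 0) = if (i:ℕ) < (j:ℕ) then y i else 0
  by_cases h4 : (i:ℕ) < (j:ℕ)
  · rw [if_pos h4, if_pos h4, Function.update_of_ne (by rintro rfl; omega)]
  · rw [if_neg h4, if_neg h4]

theorem ok_prod {n : ℕ} (b : Fin (n+1) → Str n → ℝ) (hb : ∀ j x, b j x = b j (trunc j x))
    (m : Fin (n+1)) (y : Str n) (a : Fin 4) :
    (∏ j : Fin (n+1), if (j:ℕ) < (m:ℕ)+1 then
      (1 + gd (Function.update y m a j) * b j (Function.update y m a)) else 1) =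
    (∏ j : Fin (n+1), if (j:ℕ) < (m:ℕ) then (1 + gd (y j) * b j y) else 1) *
      (1 + gd a * b m y) := by
  have h1 : ∀ j : Fin (n+1), (if (j:ℕ) < (m:ℕ)+1 then
      (1 + gd (Function.update y m a j) * b j (Function.update y m a)) else 1) =
      (if (j:ℕ) < (m:ℕ) then (1 + gd (y j) * b j y) else 1) *
        (if j = m then (1 + gd a * b m y) else 1) := by
    intro j
    by_cases hjm : j = m
    · subst hjm
      rw [if_pos (by omega), if_neg (by omega), if_pos rfl, one_mul, Function.update_self,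
        ok_b b hb _ y a _ le_rfl]
    · have hne : (j:ℕ) ≠ (m:ℕ) := fun e => hjm (Fin.ext e)
      rw [if_neg hjm, mul_one]
      by_cases h4 : (j:ℕ) < (m:ℕ)
      · rw [if_pos h4, if_pos (by omega), Function.update_of_ne hjm, ok_b b hb _ y a _ h4.le]
      · rw [if_neg h4, if_neg (by omega)]
  rw [Finset.prod_congr rfl (fun j _ => h1 j), Finset.prod_mul_distrib, Finset.prod_ite_eq',
    if_pos (Finset.mem_univ _)]

theorem ok_pos {n : ℕ} (m : Fin (n+1)) (y : Str n) (hy : trunc m y = y) (a : Fin 4) :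
    okpos (Function.update y m a) = okpos y + ((a:ℕ):ℝ) * (1/4)^((m:ℕ)+1) := by
  unfold okpos
  have h1 : ∀ j : Fin (n+1), ((Function.update y m a j : ℕ) : ℝ) * (1/4)^((j:ℕ)+1) =
      ((y j : ℕ) : ℝ) * (1/4)^((j:ℕ)+1) +
        (if j = m then ((a:ℕ):ℝ) * (1/4)^((m:ℕ)+1) else 0) := by
    intro j
    by_cases hjm : j = m
    · subst hjm
      rw [if_pos rfl, Function.update_self, ok_zero _ y hy j le_rfl]
      simp
    · rw [if_neg hjm, add_zero, Function.update_of_ne hjm]
  rw [Finset.sum_congr rfl (fun j _ => h1 j), Finset.sum_add_distrib, Finset.sum_ite_eq',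
    if_pos (Finset.mem_univ _)]

theorem ok_gd : gd 0 = -1 ∧ gd 1 = 1 ∧ gd 2 = 1 ∧ gd 3 = -1 := by
  unfold gd
  refine ⟨?_, ?_, ?_, ?_⟩
  · rw [if_neg (by decide)]
  · rw [if_pos (by decide)]
  · rw [if_pos (by decide)]
  · rw [if_neg (by decide)]

theorem ok_aff {n : ℕ} (b : Fin (n+1) → Str n → ℝ) (hb : ∀ j x, b j x = b j (trunc j x))
    (α β : ℝ) (d : ℕ) : ∀ (m : ℕ), m + d = n + 1 → ∀ (y : Str n), trunc m y = y →
    ∑ x : Str n, (if trunc m x = y then α + β * okpos x else 0) * ∏ j, (1 + gd (x j) * b j x)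
      = 4^d * (∏ j : Fin (n+1), if (j:ℕ) < m then (1 + gd (y j) * b j y) else 1) *
        (α + β * (okpos y + (1/2) * ((1/4)^m - (1/4)^(n+1)))) := by
  induction d with
  | zero =>
    intro m hm y hy
    have hm' : m = n + 1 := by omega
    subst hm'
    have ht : ∀ x : Str n, trunc (n+1) x = x := by
      intro x
      funext j
      show (if (j:ℕ) < n+1 then x j else 0) = x j
      rw [if_pos j.2]
    have h1 : ∀ x : Str n, (if trunc (n+1) x = y then α + β * okpos x else 0) *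
        ∏ j, (1 + gd (x j) * b j x) =
        if x = y then (α + β * okpos y) * ∏ j, (1 + gd (y j) * b j y) else 0 := by
      intro x
      rw [ht x]
      by_cases hx : x = y
      · subst hx
        rw [if_pos rfl, if_pos rfl]
      · rw [if_neg hx, if_neg hx, zero_mul]
    rw [Finset.sum_congr rfl (fun x _ => h1 x), Finset.sum_ite_eq', if_pos (Finset.mem_univ _)]
    have h2 : (∏ j : Fin (n+1), if (j:ℕ) < n+1 then (1 + gd (y j) * b j y) else 1) =
        ∏ j : Fin (n+1), (1 + gd (y j) * b j y) :=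
      Finset.prod_congr rfl (fun j _ => by rw [if_pos j.2])
    rw [h2]
    ring
  | succ d ih =>
    intro m hm y hy
    have hmn : m < n + 1 := by omega
    have hs := ok_split (⟨m, hmn⟩ : Fin (n+1)) y hy (fun x => α + β * okpos x)
      (fun x => ∏ j, (1 + gd (x j) * b j x))
    have hih : ∀ a : Fin 4, ∑ x : Str n,
        (if trunc (m+1) x = Function.update y ⟨m, hmn⟩ a then α + β * okpos x else 0) *
          ∏ j, (1 + gd (x j) * b j x) =
        4^d * ((∏ j : Fin (n+1), if (j:ℕ) < m then (1 + gd (y j) * b j y) else 1) *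
          (1 + gd a * b ⟨m, hmn⟩ y)) *
        (α + β * (okpos y + ((a:ℕ):ℝ) * (1/4)^(m+1) + (1/2) * ((1/4)^(m+1) - (1/4)^(n+1)))) := by
      intro a
      rw [ih (m+1) (by omega) _ (ok_upd ⟨m, hmn⟩ y hy a), ok_prod b hb ⟨m, hmn⟩ y a,
        ok_pos ⟨m, hmn⟩ y hy a]
    refine hs.trans ?_
    refine (Finset.sum_congr rfl (fun a _ => hih a)).trans ?_
    rw [Fin.sum_univ_four, ok_gd.1, ok_gd.2.1, ok_gd.2.2.1, ok_gd.2.2.2]
    have c0 : (((0 : Fin 4) : ℕ) : ℝ) = 0 := by norm_num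
    have c1 : (((1 : Fin 4) : ℕ) : ℝ) = 1 := by norm_num
    have c2 : (((2 : Fin 4) : ℕ) : ℝ) = 2 := by norm_num
    have c3 : (((3 : Fin 4) : ℕ) : ℝ) = 3 := by norm_num
    rw [c0, c1, c2, c3]
    ring

theorem ok_rel {n : ℕ} (k : Fin (n+1)) (x : Str n) :
    rel k x = ((x k : ℕ) : ℝ) / 4 + rel ((k:ℕ)+1) x / 4 := by
  unfold rel
  have h1 : ∀ j : Fin (n+1), (if (k:ℕ) ≤ (j:ℕ) then ((x j : ℕ) : ℝ) * (1/4)^((j:ℕ)+1) else 0) =
      (if j = k then ((x k : ℕ) : ℝ) * (1/4)^((k:ℕ)+1) else 0) +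
      (if (k:ℕ)+1 ≤ (j:ℕ) then ((x j : ℕ) : ℝ) * (1/4)^((j:ℕ)+1) else 0) := by
    intro j
    by_cases hjk : j = k
    · subst hjk
      rw [if_pos le_rfl, if_pos rfl, if_neg (by omega), add_zero]
    · have hne : (j:ℕ) ≠ (k:ℕ) := fun e => hjk (Fin.ext e)
      rw [if_neg hjk, zero_add]
      by_cases h4 : (k:ℕ) ≤ (j:ℕ)
      · rw [if_pos h4, if_pos (by omega)]
      · rw [if_neg h4, if_neg (by omega)]
  rw [Finset.sum_congr rfl (fun j _ => h1 j), Finset.sum_add_distrib, Finset.sum_ite_eq',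
    if_pos (Finset.mem_univ _)]
  have h2 : (4:ℝ)^(k:ℕ) * (1/4)^(k:ℕ) = 1 := by
    rw [← mul_pow]; norm_num
  generalize (∑ j : Fin (n+1), (if (k:ℕ)+1 ≤ (j:ℕ) then ((x j : ℕ) : ℝ) * (1/4)^((j:ℕ)+1)
    else 0)) = S
  rw [pow_succ, pow_succ]
  linear_combination (((x k : ℕ) : ℝ) / 4) * h2

theorem ok_rel_bd {n : ℕ} (k : ℕ) (hk : k ≤ n + 1) (x : Str n) : 0 ≤ rel k x ∧ rel k x ≤ 1 := by
  rcases Nat.lt_or_ge n k with h | h
  · have hk' : k = n + 1 := by omega
    subst hk'
    have h1 : rel (n+1) x = 1/2 := by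
      unfold rel
      have h2 : (∑ j : Fin (n+1), (if (n+1) ≤ (j:ℕ) then ((x j : ℕ) : ℝ) * (1/4)^((j:ℕ)+1)
          else 0)) = 0 :=
        Finset.sum_eq_zero (fun j _ => by rw [if_neg (by have := j.2; omega)])
      rw [h2]
      have h3 : (4:ℝ)^(n+1) * (1/4)^(n+1) = 1 := by
        rw [← mul_pow]; norm_num
      linear_combination (1/2) * h3
    rw [h1]
    norm_num
  · have h1 := (chi_bounds h x).1
    unfold chi at h1
    have h2 : |2 * rel k x - 1| ≤ 1 := by linarith
    rw [abs_le] at h2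
    constructor <;> linarith [h2.1, h2.2]

theorem ok_chi {n : ℕ} (k : Fin (n+1)) (x : Str n) :
    chi k x = (if x k = 0 ∨ x k = 1 then 0 else 2) +
      (if x k = 0 ∨ x k = 1 then 2 else -2) * rel k x := by
  obtain ⟨h0, h1⟩ := ok_rel_bd ((k:ℕ)+1) (by have := k.2; omega) x
  have h2 := ok_rel k x
  unfold chi
  have h3 : x k = 0 ∨ x k = 1 ∨ x k = 2 ∨ x k = 3 := by
    generalize x k = a
    revert a
    decide
  rcases h3 with h | h | h | h
  · rw [h] at h2 ⊢
    have c0 : (((0 : Fin 4) : ℕ) : ℝ) = 0 := by norm_num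
    rw [c0] at h2
    rw [if_pos (by decide), if_pos (by decide), abs_of_nonpos (by linarith)]
    ring
  · rw [h] at h2 ⊢
    have c0 : (((1 : Fin 4) : ℕ) : ℝ) = 1 := by norm_num
    rw [c0] at h2
    rw [if_pos (by decide), if_pos (by decide), abs_of_nonpos (by linarith)]
    ring
  · rw [h] at h2 ⊢
    have c0 : (((2 : Fin 4) : ℕ) : ℝ) = 2 := by norm_num
    rw [c0] at h2
    rw [if_neg (by decide), if_neg (by decide), abs_of_nonneg (by linarith)]
    ring
  · rw [h] at h2 ⊢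
    have c0 : (((3 : Fin 4) : ℕ) : ℝ) = 3 := by norm_num
    rw [c0] at h2
    rw [if_neg (by decide), if_neg (by decide), abs_of_nonneg (by linarith)]
    ring

theorem ok_rel_pos {n : ℕ} (k : ℕ) (u x : Str n) (hu : trunc k u = u) (hx : trunc k x = u) :
    rel k x = 4^k * (okpos x - okpos u + (1/2) * (1/4)^(n+1)) := by
  unfold rel okpos
  rw [← Finset.sum_sub_distrib]
  congr 2
  refine Finset.sum_congr rfl (fun j _ => ?_)
  by_cases h4 : k ≤ (j:ℕ)
  · rw [if_pos h4, ok_zero k u hu j h4]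
    simp
  · rw [if_neg h4]
    have h5 : (if (j:ℕ) < k then x j else 0) = u j := congrFun hx j
    rw [if_pos (by omega)] at h5
    rw [h5, sub_self]

theorem oneD_key {n : ℕ} (k : Fin (n+1)) (u : Str n) (hu : trunc k u = u)
    (b : Fin (n+1) → Str n → ℝ) (hb : ∀ j x, b j x = b j (trunc j x)) :
    ∑ x : Str n, (if trunc k x = u then chi k x else 0) * ∏ j, (1 + gd (x j) * b j x)
      = 4^(n+1-(k:ℕ)) * (∏ j, if j < k then (1 + gd (u j) * b j u) else 1) * (1/2 + b k u / 4) := by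
  set A : Fin 4 → ℝ := fun a => if a = 0 ∨ a = 1 then 0 else 2 with hA
  set B : Fin 4 → ℝ := fun a => if a = 0 ∨ a = 1 then 2 else -2 with hB
  have hs := ok_split k u hu (fun x => chi k x) (fun x => ∏ j, (1 + gd (x j) * b j x))
  have hkn := k.2
  have hih : ∀ a : Fin 4, ∑ x : Str n,
      (if trunc ((k:ℕ)+1) x = Function.update u k a then chi k x else 0) *
        ∏ j, (1 + gd (x j) * b j x) =
      4^(n-(k:ℕ)) * ((∏ j : Fin (n+1), if (j:ℕ) < (k:ℕ) then (1 + gd (u j) * b j u) else 1) *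
        (1 + gd a * b k u)) * (A a + B a * ((((a:ℕ):ℝ) + 1/2) / 4)) := by
    intro a
    have h1 : ∀ x : Str n, (if trunc ((k:ℕ)+1) x = Function.update u k a then chi k x else 0) =
        if trunc ((k:ℕ)+1) x = Function.update u k a then
          (A a + B a * 4^(k:ℕ) * (-okpos u + (1/2) * (1/4)^(n+1))) + (B a * 4^(k:ℕ)) * okpos x
        else 0 := by
      intro x
      by_cases hx : trunc ((k:ℕ)+1) x = Function.update u k a
      · rw [if_pos hx, if_pos hx]
        obtain ⟨h2, h3⟩ := (ok_iff k u hu a x).1 hx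
        rw [ok_chi k x, ok_rel_pos k u x hu h2, h3]
        simp only [hA, hB]
        ring
      · rw [if_neg hx, if_neg hx]
    rw [Finset.sum_congr rfl (fun x _ => by rw [h1 x]),
      ok_aff b hb _ _ (n-(k:ℕ)) ((k:ℕ)+1) (by omega) _ (ok_upd k u hu a), ok_prod b hb k u a,
      ok_pos k u hu a]
    have h4 : (4:ℝ)^(k:ℕ) * (1/4)^(k:ℕ) = 1 := by
      rw [← mul_pow]; norm_num
    congr 1
    rw [pow_succ (1/4 : ℝ) (k:ℕ)]
    linear_combination (B a * (((a:ℕ):ℝ) / 4 + 1/8)) * h4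
  refine hs.trans ?_
  refine (Finset.sum_congr rfl (fun a _ => hih a)).trans ?_
  have e1 : n + 1 - (k:ℕ) = (n - (k:ℕ)) + 1 := by omega
  have e2 : (∏ j : Fin (n+1), if j < k then (1 + gd (u j) * b j u) else 1) =
      ∏ j : Fin (n+1), if (j:ℕ) < (k:ℕ) then (1 + gd (u j) * b j u) else 1 :=
    Finset.prod_congr rfl (fun j _ => by simp only [Fin.lt_def])
  rw [e1, e2, Fin.sum_univ_four, ok_gd.1, ok_gd.2.1, ok_gd.2.2.1, ok_gd.2.2.2]
  have a0 : A 0 = 0 := if_pos (by decide)
  have a1 : A 1 = 0 := if_pos (by decide)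
  have a2 : A 2 = 2 := if_neg (by decide)
  have a3 : A 3 = 2 := if_neg (by decide)
  have b0 : B 0 = 2 := if_pos (by decide)
  have b1 : B 1 = 2 := if_pos (by decide)
  have b2 : B 2 = -2 := if_neg (by decide)
  have b3 : B 3 = -2 := if_neg (by decide)
  have c0 : (((0 : Fin 4) : ℕ) : ℝ) = 0 := by norm_num
  have c1 : (((1 : Fin 4) : ℕ) : ℝ) = 1 := by norm_num
  have c2 : (((2 : Fin 4) : ℕ) : ℝ) = 2 := by norm_num
  have c3 : (((3 : Fin 4) : ℕ) : ℝ) = 3 := by norm_num
  rw [a0, a1, a2, a3, b0, b1, b2, b3, c0, c1, c2, c3]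
  ring



end Sol_oneD_key

alias oneD_key := Sol_oneD_key.oneD_key

end BSheet
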