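import Pool.Agent.BSheet.Defs
import Pool.Agent.BSheet.L_chi_bounds
import Pool.Agent.BSheet.L_oneD_key
open MeasureTheory Real
open scoped ENNReal BigOperators

namespace BSheet
open ProbabilityTheory
namespace Sol_gram_lower





theorem gram_lower_ps {ι κ : Type} [Fintype ι] [DecidableEq ι] [Fintype κ] (f : ι → κ → ℝ) :
    ∑ x : ι → κ, ∏ i, f i (x i) = ∏ i, ∑ y, f i y := by
  rw [Finset.prod_univ_sum, Fintype.piFinset_univ]

/-- the factor of the dual function -/
noncomputable def gram_lower_gam {n : ℕ} (k : Fin (n+1)) (u : Str n) (j : Fin (n+1)) (a : Fin 4) : ℝ :=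
  if j < k then (if a = u j then 1 else 0) else if j = k then gd a else 1

/-- the dual function in one coordinate -/
noncomputable def gram_lower_g {n : ℕ} (k : Fin (n+1)) (u : Str n) (x : Str n) : ℝ :=
  if trunc k x = u then gd (x k) else 0

theorem gram_lower_g_prod {n : ℕ} (k : Fin (n+1)) (u : Str n) (hu : trunc k u = u) (x : Str n) :
    gram_lower_g k u x = ∏ j, gram_lower_gam k u j (x j) := by
  unfold gram_lower_g
  by_cases h : trunc k x = u
  · rw [if_pos h, Finset.prod_eq_single k]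
    · rw [gram_lower_gam, if_neg (lt_irrefl k), if_pos rfl]
    · intro j _ hj
      rw [gram_lower_gam]
      by_cases h1 : j < k
      · rw [if_pos h1, if_pos]
        have h2 := congrFun h j
        have h1' : (j:ℕ) < (k:ℕ) := h1
        rw [trunc, if_pos h1'] at h2
        exact h2
      · rw [if_neg h1, if_neg hj]
    · intro h1
      exact absurd (Finset.mem_univ k) h1
  · rw [if_neg h]
    symm
    have hex : ∃ j : Fin (n+1), j < k ∧ x j ≠ u j := by
      by_contra hc
      apply h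
      funext j
      by_cases h1 : (j:ℕ) < (k:ℕ)
      · rw [trunc, if_pos h1]
        by_contra h2
        exact hc ⟨j, h1, h2⟩
      · rw [← hu, trunc, trunc, if_neg h1, if_neg h1]
    obtain ⟨j, hj, hne⟩ := hex
    refine Finset.prod_eq_zero (Finset.mem_univ j) ?_
    rw [gram_lower_gam, if_pos hj, if_neg hne]

theorem gram_lower_gg {n : ℕ} (k k2 : Fin (n+1)) (u u2 : Str n) (hu : trunc k u = u)
    (hu2 : trunc k2 u2 = u2) : ∑ x : Str n, gram_lower_g k u x * gram_lower_g k2 u2 x =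
      if k = k2 ∧ u = u2 then (4:ℝ)^(n+1-(k:ℕ)) else 0 := by
  have h1 : ∀ x : Str n, gram_lower_g k u x * gram_lower_g k2 u2 x =
      ∏ j, (gram_lower_gam k u j (x j) * gram_lower_gam k2 u2 j (x j)) := by
    intro x
    rw [gram_lower_g_prod k u hu, gram_lower_g_prod k2 u2 hu2, Finset.prod_mul_distrib]
  simp_rw [h1]
  rw [gram_lower_ps (fun j a => gram_lower_gam k u j a * gram_lower_gam k2 u2 j a)]
  have hgd : ∑ a : Fin 4, gd a = 0 := by
    rw [Fin.sum_univ_four]
    simp [gd]
  have hgd2 : ∑ a : Fin 4, gd a * gd a = 4 := by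
    rw [Fin.sum_univ_four]
    simp [gd]
    norm_num
  rcases lt_trichotomy k k2 with hk | hk | hk
  · rw [if_neg (fun h => hk.ne h.1)]
    refine Finset.prod_eq_zero (Finset.mem_univ k2) ?_
    have : ∀ a, gram_lower_gam k u k2 a * gram_lower_gam k2 u2 k2 a = gd a := by
      intro a
      rw [gram_lower_gam, if_neg hk.not_gt, if_neg hk.ne', gram_lower_gam, if_neg (lt_irrefl k2),
        if_pos rfl, one_mul]
    simp_rw [this]
    exact hgd
  · subst hk
    by_cases huu : u = u2
    · subst huu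
      rw [if_pos ⟨rfl, rfl⟩]
      have h3 : ∀ j : Fin (n+1), ∑ a, gram_lower_gam k u j a * gram_lower_gam k u j a =
          if j < k then 1 else 4 := by
        intro j
        by_cases h4 : j < k
        · rw [if_pos h4]
          simp only [gram_lower_gam, if_pos h4]
          simp
        · rw [if_neg h4]
          by_cases h5 : j = k
          · simp only [gram_lower_gam, if_neg h4, if_pos h5]
            exact hgd2
          · simp only [gram_lower_gam, if_neg h4, if_neg h5]
            simp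
      simp_rw [h3]
      rw [Finset.prod_ite, Finset.prod_const_one, one_mul, Finset.prod_const]
      congr 1
      have h6 : (Finset.univ.filter (fun j : Fin (n+1) => ¬ j < k)) = Finset.Ici k := by
        ext j
        simp
      rw [h6, Fin.card_Ici]
    · rw [if_neg (fun h => huu h.2)]
      have hex : ∃ j : Fin (n+1), j < k ∧ u j ≠ u2 j := by
        by_contra hc
        apply huu
        funext j
        by_cases h1 : (j:ℕ) < (k:ℕ)
        · by_contra h2
          exact hc ⟨j, h1, h2⟩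
        · rw [← hu, ← hu2, trunc, trunc, if_neg h1, if_neg h1]
      obtain ⟨j, hj, hne⟩ := hex
      refine Finset.prod_eq_zero (Finset.mem_univ j) ?_
      refine Finset.sum_eq_zero fun a _ => ?_
      rw [gram_lower_gam, if_pos hj, gram_lower_gam, if_pos hj]
      by_cases h1 : a = u j
      · rw [if_neg (fun h2 : a = u2 j => hne (h1.symm.trans h2)), mul_zero]
      · rw [if_neg h1, zero_mul]
  · rw [if_neg (fun h => hk.ne h.1.symm)]
    refine Finset.prod_eq_zero (Finset.mem_univ k) ?_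
    have : ∀ a, gram_lower_gam k u k a * gram_lower_gam k2 u2 k a = gd a := by
      intro a
      rw [gram_lower_gam, if_neg (lt_irrefl k), if_pos rfl, gram_lower_gam, if_neg hk.not_gt,
        if_neg hk.ne', mul_one]
    simp_rw [this]
    exact hgd

theorem gram_lower_hg {n : ℕ} (k k2 : Fin (n+1)) (u u2 : Str n) (hu : trunc k u = u)
    (hle : k ≤ k2) : ∑ x : Str n, (if trunc k x = u then chi k x else 0) * gram_lower_g k2 u2 x =
      if k = k2 ∧ u = u2 then (4:ℝ)^(n+1-(k:ℕ)) / 4 else 0 := by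
  have h0 := oneD_key k u hu (fun _ _ => 0) (fun _ _ => rfl)
  have h1 := oneD_key k u hu (fun j x => if j = k2 ∧ trunc j x = u2 then 1 else 0) (fun j x => by
    rw [trunc_trunc])
  have e1 : ∀ x : Str n, ∏ j, (1 + gd (x j) * (if j = k2 ∧ trunc j x = u2 then (1:ℝ) else 0)) =
      1 + gram_lower_g k2 u2 x := by
    intro x
    rw [Finset.prod_eq_single k2]
    · unfold gram_lower_g
      by_cases h : trunc k2 x = u2
      · rw [if_pos ⟨rfl, h⟩, if_pos h, mul_one]
      · rw [if_neg (fun h' => h h'.2), if_neg h, mul_zero]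
    · intro j _ hj
      rw [if_neg (fun h' => hj h'.1), mul_zero, add_zero]
    · intro h
      exact absurd (Finset.mem_univ k2) h
  have e2 : ∏ j : Fin (n+1), (if j < k then
      1 + gd (u j) * (if j = k2 ∧ trunc j u = u2 then (1:ℝ) else 0) else 1) = 1 := by
    refine Finset.prod_eq_one fun j _ => ?_
    by_cases h : j < k
    · rw [if_pos h, if_neg (fun h' => (lt_of_lt_of_le h hle).ne h'.1), mul_zero, add_zero]
    · rw [if_neg h]
  simp only [e1, e2] at h1
  simp only [mul_zero, add_zero, ite_self, Finset.prod_const_one, mul_one, zero_div] at h0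
  have e4 : ∑ x : Str n, (if trunc k x = u then chi k x else 0) * (1 + gram_lower_g k2 u2 x) =
      (∑ x : Str n, (if trunc k x = u then chi k x else 0)) +
      ∑ x : Str n, (if trunc k x = u then chi k x else 0) * gram_lower_g k2 u2 x := by
    rw [← Finset.sum_add_distrib]
    refine Finset.sum_congr rfl fun x _ => ?_
    ring
  rw [e4, h0] at h1
  rw [hu] at h1
  by_cases h : k = k2 ∧ u = u2
  · rw [if_pos h] at h1 ⊢
    linarith
  · rw [if_neg h] at h1 ⊢
    linarith

/-- the dual function -/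
noncomputable def gram_lower_gB {D n k : ℕ} (r : BIdx D n k) (x : Fin D → Str n) : ℝ :=
  ∏ i, gram_lower_g (r.1.1 i) (r.1.2 i) (x i)

theorem gram_lower_vol {D n k : ℕ} (r : BIdx D n k) :
    ∏ i, (4:ℝ)^(n+1-((r.1.1 i : Fin (n+1)) : ℕ)) = (4:ℝ)^((n+1)*D) / 4^(n-k) := by
  rw [Finset.prod_pow_eq_pow_sum]
  have h1 : (∑ i, (n+1-((r.1.1 i : Fin (n+1)) : ℕ))) + (n - k) = (n+1)*D := by
    have h2 := r.2.1
    have h3 : ∑ i, ((r.1.1 i : Fin (n+1)) : ℕ) = n - k := by omega
    rw [← h3, ← Finset.sum_add_distrib]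
    have h4 : ∀ i ∈ (Finset.univ : Finset (Fin D)), n+1-((r.1.1 i : Fin (n+1)) : ℕ) +
        ((r.1.1 i : Fin (n+1)) : ℕ) = n + 1 := by
      intro i _
      have := (r.1.1 i).2
      omega
    rw [Finset.sum_congr rfl h4, Finset.sum_const, Finset.card_univ, Fintype.card_fin,
      smul_eq_mul, mul_comm]
  rw [← h1, pow_add]
  field_simp

theorem gram_lower_gBgB {D n k : ℕ} (r r2 : BIdx D n k) :
    ∑ x : Fin D → Str n, gram_lower_gB r x * gram_lower_gB r2 x =
      if r = r2 then (4:ℝ)^((n+1)*D) / 4^(n-k) else 0 := by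
  have h1 : ∀ x : Fin D → Str n, gram_lower_gB r x * gram_lower_gB r2 x =
      ∏ i, (gram_lower_g (r.1.1 i) (r.1.2 i) (x i) * gram_lower_g (r2.1.1 i) (r2.1.2 i) (x i)) := by
    intro x
    rw [gram_lower_gB, gram_lower_gB, Finset.prod_mul_distrib]
  simp_rw [h1]
  rw [gram_lower_ps (fun i y => gram_lower_g (r.1.1 i) (r.1.2 i) y *
    gram_lower_g (r2.1.1 i) (r2.1.2 i) y)]
  have h2 : ∀ i, ∑ y, gram_lower_g (r.1.1 i) (r.1.2 i) y * gram_lower_g (r2.1.1 i) (r2.1.2 i) y =
      if r.1.1 i = r2.1.1 i ∧ r.1.2 i = r2.1.2 i then (4:ℝ)^(n+1-((r.1.1 i : Fin (n+1)) : ℕ))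
        else 0 := fun i => gram_lower_gg _ _ _ _ (r.2.2 i) (r2.2.2 i)
  simp_rw [h2]
  by_cases h : r = r2
  · subst h
    rw [if_pos rfl, ← gram_lower_vol r]
    refine Finset.prod_congr rfl fun i _ => ?_
    rw [if_pos ⟨rfl, rfl⟩]
  · rw [if_neg h]
    have hex : ∃ i, ¬ (r.1.1 i = r2.1.1 i ∧ r.1.2 i = r2.1.2 i) := by
      by_contra hc
      rw [not_exists] at hc
      apply h
      refine Subtype.ext (Prod.ext ?_ ?_)
      · funext i
        exact (not_not.1 (hc i)).1
      · funext i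
        exact (not_not.1 (hc i)).2
    obtain ⟨i, hi⟩ := hex
    refine Finset.prod_eq_zero (Finset.mem_univ i) ?_
    rw [if_neg hi]

theorem gram_lower_chBgB {D n k : ℕ} (r r2 : BIdx D n k) :
    ∑ x : Fin D → Str n, chiB r x * gram_lower_gB r2 x =
      if r = r2 then (4:ℝ)^((n+1)*D) / 4^(n-k) / 4^D else 0 := by
  have h1 : ∀ x : Fin D → Str n, chiB r x * gram_lower_gB r2 x =
      ∏ i, ((if trunc (r.1.1 i) (x i) = r.1.2 i then chi (r.1.1 i) (x i) else 0) *
        gram_lower_g (r2.1.1 i) (r2.1.2 i) (x i)) := by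
    intro x
    rw [chiB, gram_lower_gB, Finset.prod_mul_distrib]
  simp_rw [h1]
  rw [gram_lower_ps (fun i y => (if trunc (r.1.1 i) y = r.1.2 i then chi (r.1.1 i) y else 0) *
    gram_lower_g (r2.1.1 i) (r2.1.2 i) y)]
  by_cases hlt : ∃ i, r.1.1 i < r2.1.1 i
  · obtain ⟨i, hi⟩ := hlt
    have hne : r ≠ r2 := by
      intro h
      rw [h] at hi
      exact lt_irrefl _ hi
    rw [if_neg hne]
    refine Finset.prod_eq_zero (Finset.mem_univ i) ?_
    rw [gram_lower_hg _ _ _ _ (r.2.2 i) hi.le, if_neg (fun h => hi.ne h.1)]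
  · rw [not_exists] at hlt
    have hle : ∀ i, r2.1.1 i ≤ r.1.1 i := fun i => not_lt.1 (hlt i)
    have heq : ∀ i, r.1.1 i = r2.1.1 i := by
      have h3 := r.2.1
      have h4 := r2.2.1
      have h5 : ∑ i, ((r2.1.1 i : Fin (n+1)) : ℕ) = ∑ i, ((r.1.1 i : Fin (n+1)) : ℕ) := by omega
      have h6 := (Finset.sum_eq_sum_iff_of_le (s := Finset.univ)
        (f := fun i => ((r2.1.1 i : Fin (n+1)) : ℕ)) (g := fun i => ((r.1.1 i : Fin (n+1)) : ℕ))
        (fun i _ => hle i)).1 h5
      intro i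
      exact (Fin.ext (h6 i (Finset.mem_univ i))).symm
    have h2 : ∀ i, ∑ y, (if trunc (r.1.1 i) y = r.1.2 i then chi (r.1.1 i) y else 0) *
        gram_lower_g (r2.1.1 i) (r2.1.2 i) y =
        if r.1.1 i = r2.1.1 i ∧ r.1.2 i = r2.1.2 i then
          (4:ℝ)^(n+1-((r.1.1 i : Fin (n+1)) : ℕ)) / 4 else 0 := fun i =>
        gram_lower_hg _ _ _ _ (r.2.2 i) (heq i).le
    simp_rw [h2]
    by_cases h : r = r2
    · subst h
      rw [if_pos rfl, ← gram_lower_vol r]
      have h7 : ∀ i ∈ (Finset.univ : Finset (Fin D)),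
          (if r.1.1 i = r.1.1 i ∧ r.1.2 i = r.1.2 i then
          (4:ℝ)^(n+1-((r.1.1 i : Fin (n+1)) : ℕ)) / 4 else 0) =
          (4:ℝ)^(n+1-((r.1.1 i : Fin (n+1)) : ℕ)) / 4 := by
        intro i _
        rw [if_pos ⟨rfl, rfl⟩]
      rw [Finset.prod_congr rfl h7, Finset.prod_div_distrib, Finset.prod_const, Finset.card_univ,
        Fintype.card_fin]
    · rw [if_neg h]
      have hex : ∃ i, ¬ (r.1.1 i = r2.1.1 i ∧ r.1.2 i = r2.1.2 i) := by
        by_contra hc
        rw [not_exists] at hc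
        apply h
        refine Subtype.ext (Prod.ext ?_ ?_)
        · funext i
          exact (not_not.1 (hc i)).1
        · funext i
          exact (not_not.1 (hc i)).2
      obtain ⟨i, hi⟩ := hex
      refine Finset.prod_eq_zero (Finset.mem_univ i) ?_
      rw [if_neg hi]

theorem gram_lower_bilin {D n k : ℕ} (v : BIdx D n k → ℝ)
    (f g : BIdx D n k → (Fin D → Str n) → ℝ) (c : ℝ)
    (h : ∀ r r2, ∑ x : Fin D → Str n, f r x * g r2 x = if r = r2 then c else 0) :
    ∑ x : Fin D → Str n, (∑ r, v r * f r x) * (∑ r, v r * g r x) = c * ∑ r, v r ^ 2 := by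
  have h1 : ∀ x : Fin D → Str n, (∑ r, v r * f r x) * (∑ r, v r * g r x) =
      ∑ r, ∑ r2, v r * v r2 * (f r x * g r2 x) := by
    intro x
    rw [Finset.sum_mul_sum]
    refine Finset.sum_congr rfl fun r _ => Finset.sum_congr rfl fun r2 _ => ?_
    ring
  simp_rw [h1]
  rw [Finset.sum_comm]
  have h2 : ∀ r ∈ (Finset.univ : Finset (BIdx D n k)),
      ∑ x : Fin D → Str n, ∑ r2, v r * v r2 * (f r x * g r2 x) = c * v r ^ 2 := by
    intro r _
    rw [Finset.sum_comm]
    have h3 : ∀ r2 ∈ (Finset.univ : Finset (BIdx D n k)),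
        ∑ x : Fin D → Str n, v r * v r2 * (f r x * g r2 x) =
        if r = r2 then c * v r ^ 2 else 0 := by
      intro r2 _
      rw [← Finset.mul_sum, h r r2]
      by_cases h4 : r = r2
      · rw [if_pos h4, if_pos h4, ← h4]
        ring
      · rw [if_neg h4, if_neg h4, mul_zero]
    rw [Finset.sum_congr rfl h3, Finset.sum_ite_eq, if_pos (Finset.mem_univ r)]
  rw [Finset.sum_congr rfl h2, Finset.mul_sum]

theorem gram_lower {D n k : ℕ} (v : BIdx D n k → ℝ) :
    (1/16)^D * ∑ r, v r ^ 2 ≤ (4:ℝ)^(n-k) * avg (fun x => (∑ r, v r * chiB r x)^2) := by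
  set A : ℝ := ∑ r, v r ^ 2 with hA
  set N : ℝ := (4:ℝ)^((n+1)*D) with hN
  have hNpos : 0 < N := by positivity
  have hP : (0:ℝ) < 4^(n-k) := by positivity
  have hQ : (0:ℝ) < 4^D := by positivity
  have e1 := gram_lower_bilin v (fun r x => chiB r x) (fun r x => gram_lower_gB r x) _
    (fun r r2 => gram_lower_chBgB r r2)
  have e2 := gram_lower_bilin v (fun r x => gram_lower_gB r x) (fun r x => gram_lower_gB r x) _
    (fun r r2 => gram_lower_gBgB r r2)
  have e3 : 0 ≤ ∑ x : Fin D → Str n, ((∑ r, v r * chiB r x) -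
      (1/4^D) * (∑ r, v r * gram_lower_gB r x))^2 :=
    Finset.sum_nonneg fun x _ => sq_nonneg _
  have e4 : ∑ x : Fin D → Str n, ((∑ r, v r * chiB r x) -
      (1/4^D) * (∑ r, v r * gram_lower_gB r x))^2 =
      (∑ x : Fin D → Str n, (∑ r, v r * chiB r x)^2) -
      2 * (1/4^D) * (∑ x : Fin D → Str n, (∑ r, v r * chiB r x) *
        (∑ r, v r * gram_lower_gB r x)) +
      (1/4^D)^2 * (∑ x : Fin D → Str n, (∑ r, v r * gram_lower_gB r x) *
        (∑ r, v r * gram_lower_gB r x)) := by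
    rw [Finset.mul_sum, Finset.mul_sum, ← Finset.sum_sub_distrib, ← Finset.sum_add_distrib]
    refine Finset.sum_congr rfl fun x _ => ?_
    ring
  rw [e4, e1, e2] at e3
  have e5 : (1/16 : ℝ)^D = 1/4^D * (1/4^D) := by
    rw [← one_div_pow, ← mul_pow]
    norm_num
  have e6 : 1/4^D * (1/4^D) * (N / 4^(n-k)) * A ≤
      ∑ x : Fin D → Str n, (∑ r, v r * chiB r x)^2 := by
    have : 2 * (1/4^D) * (N / 4^(n-k) / 4^D * A) - (1/4^D)^2 * (N / 4^(n-k) * A) =
        1/4^D * (1/4^D) * (N / 4^(n-k)) * A := by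
      field_simp
      ring
    linarith
  rw [avg, e5]
  have e7 : (4:ℝ)^(n-k) * (N⁻¹ * (1/4^D * (1/4^D) * (N / 4^(n-k)) * A)) =
      1/4^D * (1/4^D) * A := by
    field_simp
  rw [← e7]
  exact mul_le_mul_of_nonneg_left (mul_le_mul_of_nonneg_left e6 (inv_nonneg.2 hNpos.le)) hP.le


end Sol_gram_lower

alias gram_lower := Sol_gram_lower.gram_lower

end BSheet
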