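import Pool.Agent.BSheet.Defs
import Pool.Agent.BSheet.L_chi_bounds
open MeasureTheory Real
open scoped ENNReal BigOperators

namespace BSheet
open ProbabilityTheory
namespace Sol_psi_bound




theorem chiB_nonneg' {D n k : ℕ} (r : BIdx D n k) (x : Fin D → Str n) :
    0 ≤ chiB r x ∧ chiB r x ≤ 1 := by
  unfold chiB
  have h : ∀ i : Fin D, 0 ≤ (if trunc (r.1.1 i) (x i) = r.1.2 i then chi (r.1.1 i) (x i) else 0) ∧
      (if trunc (r.1.1 i) (x i) = r.1.2 i then chi (r.1.1 i) (x i) else 0) ≤ 1 := by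
    intro i
    split_ifs
    · exact chi_bounds (Nat.lt_succ_iff.mp (r.1.1 i).2) (x i)
    · exact ⟨le_refl _, zero_le_one⟩
  exact ⟨Finset.prod_nonneg fun i _ => (h i).1, Finset.prod_le_one (fun i _ => (h i).1)
    (fun i _ => (h i).2)⟩

open Classical in
theorem sum_chiB_le {D n k : ℕ} (x : Fin D → Str n) :
    ∑ r : BIdx D n k, chiB r x ≤ ms D n k := by
  have h1 : ∑ r : BIdx D n k, chiB r x ≤
      ∑ r : BIdx D n k, (if ∀ i, trunc (r.1.1 i) (x i) = r.1.2 i then (1:ℝ) else 0) := by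
    refine Finset.sum_le_sum fun r _ => ?_
    split_ifs with h
    · exact (chiB_nonneg' r x).2
    · push Not at h
      obtain ⟨i, hi⟩ := h
      have : chiB r x = 0 := by
        unfold chiB
        refine Finset.prod_eq_zero (Finset.mem_univ i) ?_
        rw [if_neg hi]
      rw [this]
  refine h1.trans ?_
  rw [← Finset.sum_filter, Finset.sum_const, nsmul_eq_mul, mul_one]
  unfold ms
  rw [← Finset.card_univ]
  have h2 : (Finset.univ.filter fun r : BIdx D n k => ∀ i, trunc (r.1.1 i) (x i) = r.1.2 i).card ≤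
      (Finset.univ : Finset {s : Fin D → Fin (n+1) // (∑ i, ((s i : Fin (n+1)) : ℕ)) + k = n}).card := by
    refine Finset.card_le_card_of_injOn (fun r => ⟨r.1.1, r.2.1⟩) (fun _ _ => Finset.mem_univ _) ?_
    intro r hr r' hr' he
    have hr1 := (Finset.mem_filter.mp hr).2
    have hr2 := (Finset.mem_filter.mp hr').2
    have he1 : r.1.1 = r'.1.1 := by
      have := congrArg Subtype.val he
      exact this
    apply Subtype.ext
    refine Prod.ext he1 ?_
    funext i
    rw [← hr1 i, ← hr2 i, he1]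
  exact_mod_cast h2

theorem psi_bound {D n : ℕ} (a : Idx D n → ℝ) (ha : ∀ i, |a i| ≤ 1) (κ : Node n) (x : Fin D → Str n) :
    psi a κ x ^ 2 ≤ ms D n κ.1.1 := by
  unfold psi
  have hS : |∑ r : BIdx D n κ.1.1, a ⟨κ, r⟩ * chiB r x| ≤ (ms D n κ.1.1 : ℝ) := by
    refine (Finset.abs_sum_le_sum_abs _ _).trans (le_trans ?_ (sum_chiB_le x))
    refine Finset.sum_le_sum fun r _ => ?_
    rw [abs_mul, abs_of_nonneg (chiB_nonneg' r x).1]
    have h1 := ha ⟨κ, r⟩
    have h2 := (chiB_nonneg' r x).1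
    nlinarith
  set S := ∑ r : BIdx D n κ.1.1, a ⟨κ, r⟩ * chiB r x with hSdef
  set m : ℝ := (ms D n κ.1.1 : ℝ) with hm
  have hm0 : 0 ≤ m := Nat.cast_nonneg _
  rw [mul_pow, inv_pow, Real.sq_sqrt hm0]
  rcases hm0.eq_or_lt with h0 | h0
  · rw [← h0]; simp
  · have hS2 : S ^ 2 ≤ m ^ 2 := by
      rw [← sq_abs]
      exact pow_le_pow_left₀ (abs_nonneg _) hS 2
    calc m⁻¹ * S ^ 2 ≤ m⁻¹ * m ^ 2 := by
          exact mul_le_mul_of_nonneg_left hS2 (inv_nonneg.mpr hm0)
      _ = m := by field_simp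


end Sol_psi_bound

alias psi_bound := Sol_psi_bound.psi_bound

end BSheet
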