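import Pool.Agent.BSheet.Defs
import Pool.Agent.BSheet.L_gram_lower
import Pool.Agent.BSheet.L_psi_bound
open MeasureTheory Real
open scoped ENNReal BigOperators

namespace BSheet
open ProbabilityTheory
namespace Sol_Amat_lower





theorem Amat_lower_fac (a : Fin 4) (t : ℝ) : (1/2 : ℝ) ≤ 1 + (1/4) * gd a * Real.arctan t := by
  have h1 := Real.arctan_lt_pi_div_two t
  have h2 := Real.neg_pi_div_two_lt_arctan t
  have h3 := Real.pi_le_four
  unfold gd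
  split_ifs <;> linarith

theorem Amat_lower_W {D n : ℕ} (a : Idx D n → ℝ) (κ : Node n) (x : Fin D → Str n) :
    (1/2 : ℝ)^n ≤ W a κ x := by
  unfold W
  have h1 : ∏ j : Fin (n+1), (if j < κ.1.1 then (1/2 : ℝ) else 1) ≤
      ∏ j : Fin (n+1), (if j < κ.1.1 then
        (1 + (1/4) * gd (κ.1.2 j) * Real.arctan (psi a (mkNode j κ.1.2) x)) else 1) := by
    apply Finset.prod_le_prod
    · intro j _
      split_ifs <;> norm_num
    · intro j _
      split_ifs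
      · exact Amat_lower_fac _ _
      · exact le_refl _
  refine le_trans ?_ h1
  rw [Finset.prod_ite, Finset.prod_const, Finset.prod_const_one, mul_one]
  apply pow_le_pow_of_le_one (by norm_num) (by norm_num)
  have hsub : (Finset.univ.filter (fun j : Fin (n+1) => j < κ.1.1)) ⊆
      Finset.univ.erase (Fin.last n) := by
    intro j hj
    rw [Finset.mem_filter] at hj
    refine Finset.mem_erase.2 ⟨?_, Finset.mem_univ _⟩
    rintro rfl
    exact absurd hj.2 (not_lt.2 (Fin.le_last _))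
  have := Finset.card_le_card hsub
  rw [Finset.card_erase_of_mem (Finset.mem_univ _), Finset.card_univ, Fintype.card_fin] at this
  simpa using this

theorem Amat_lower_eq {D n : ℕ} (a : Idx D n → ℝ) (κ : Node n)
    (v : BIdx D n κ.1.1 → ℝ) :
    ∑ r, ∑ r', v r * Amat a κ r r' * v r' = (4:ℝ)^(n - (κ.1.1 : ℕ)) *
      avg (fun x => W a κ x * (1 + psi a κ x ^ 2)⁻¹ * (∑ r, v r * chiB r x)^2) := by
  unfold Amat avg
  have h1 : ∀ r r' : BIdx D n κ.1.1, v r * ((4:ℝ)^(n - (κ.1.1 : ℕ)) * (((4:ℝ)^((n+1)*D))⁻¹ *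
      ∑ x, W a κ x * (1 + psi a κ x ^ 2)⁻¹ * (chiB r x * chiB r' x))) * v r' =
      (4:ℝ)^(n - (κ.1.1 : ℕ)) * (((4:ℝ)^((n+1)*D))⁻¹ *
        ∑ x, W a κ x * (1 + psi a κ x ^ 2)⁻¹ * ((v r * chiB r x) * (v r' * chiB r' x))) := by
    intro r r'
    have h2 : ∑ x, W a κ x * (1 + psi a κ x ^ 2)⁻¹ * ((v r * chiB r x) * (v r' * chiB r' x)) =
        (v r * v r') * ∑ x, W a κ x * (1 + psi a κ x ^ 2)⁻¹ * (chiB r x * chiB r' x) := by
      rw [Finset.mul_sum]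
      apply Finset.sum_congr rfl
      intro x _
      ring
    rw [h2]
    ring
  simp only [h1]
  simp only [← Finset.mul_sum]
  congr 2
  rw [show (∑ r : BIdx D n κ.1.1, ∑ r' : BIdx D n κ.1.1,
      ∑ x, W a κ x * (1 + psi a κ x ^ 2)⁻¹ * ((v r * chiB r x) * (v r' * chiB r' x))) =
      ∑ r : BIdx D n κ.1.1, ∑ x, ∑ r' : BIdx D n κ.1.1,
        W a κ x * (1 + psi a κ x ^ 2)⁻¹ * ((v r * chiB r x) * (v r' * chiB r' x)) from
      Finset.sum_congr rfl (fun r _ => Finset.sum_comm)]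
  rw [Finset.sum_comm]
  apply Finset.sum_congr rfl
  intro x _
  rw [sq (∑ r : BIdx D n κ.1.1, v r * chiB r x), Finset.sum_mul_sum, Finset.mul_sum]
  apply Finset.sum_congr rfl
  intro r _
  rw [Finset.mul_sum]

theorem Amat_lower {D n : ℕ} (a : Idx D n → ℝ) (ha : ∀ i, |a i| ≤ 1) (κ : Node n)
    (v : BIdx D n κ.1.1 → ℝ) :
    ((1/16)^D * (1/2)^n * (1 + (ms D n κ.1.1 : ℝ))⁻¹) * ∑ r, v r ^ 2
      ≤ ∑ r, ∑ r', v r * Amat a κ r r' * v r' := by
  rw [Amat_lower_eq]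
  have hms : (0:ℝ) < 1 + (ms D n κ.1.1 : ℝ) := by positivity
  have hx : ∀ x : Fin D → Str n, ((1/2 : ℝ)^n * (1 + (ms D n κ.1.1 : ℝ))⁻¹) *
      (∑ r, v r * chiB r x)^2 ≤
      W a κ x * (1 + psi a κ x ^ 2)⁻¹ * (∑ r, v r * chiB r x)^2 := by
    intro x
    apply mul_le_mul_of_nonneg_right _ (sq_nonneg _)
    have h1 := Amat_lower_W a κ x
    have h2 : (1 + (ms D n κ.1.1 : ℝ))⁻¹ ≤ (1 + psi a κ x ^ 2)⁻¹ := by
      apply inv_anti₀ (by positivity)
      have := psi_bound a ha κ x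
      linarith
    have h3 : (0:ℝ) ≤ (1/2 : ℝ)^n := by positivity
    exact mul_le_mul h1 h2 (by positivity) (h3.trans h1)
  have hg := gram_lower v
  have hpos : (0:ℝ) ≤ (1/2 : ℝ)^n * (1 + (ms D n κ.1.1 : ℝ))⁻¹ := by positivity
  calc ((1/16)^D * (1/2)^n * (1 + (ms D n κ.1.1 : ℝ))⁻¹) * ∑ r, v r ^ 2
      = ((1/2 : ℝ)^n * (1 + (ms D n κ.1.1 : ℝ))⁻¹) * ((1/16)^D * ∑ r, v r ^ 2) := by ring
    _ ≤ ((1/2 : ℝ)^n * (1 + (ms D n κ.1.1 : ℝ))⁻¹) *
        ((4:ℝ)^(n - (κ.1.1 : ℕ)) * avg (fun x => (∑ r, v r * chiB r x)^2)) :=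
        mul_le_mul_of_nonneg_left hg hpos
    _ = (4:ℝ)^(n - (κ.1.1 : ℕ)) * (((4:ℝ)^((n+1)*D))⁻¹ * ∑ x : Fin D → Str n,
        ((1/2 : ℝ)^n * (1 + (ms D n κ.1.1 : ℝ))⁻¹) * (∑ r, v r * chiB r x)^2) := by
        unfold avg
        rw [← Finset.mul_sum]
        ring
    _ ≤ _ := by
        unfold avg
        apply mul_le_mul_of_nonneg_left _ (by positivity)
        apply mul_le_mul_of_nonneg_left _ (by positivity)
        exact Finset.sum_le_sum (fun x _ => hx x)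


end Sol_Amat_lower

alias Amat_lower := Sol_Amat_lower.Amat_lower

end BSheet
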