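import Pool.Agent.BSheet.Defs
open MeasureTheory Real
open scoped ENNReal BigOperators

namespace BSheet
open ProbabilityTheory
namespace Sol_mu_prob




theorem U1_prob : IsProbabilityMeasure U1 := by
  constructor
  have h2 : (1:ℝ) - (-1) = 2 := by norm_num
  simp only [U1, Measure.smul_apply, Measure.restrict_apply MeasurableSet.univ, Set.univ_inter,
    Real.volume_Icc, h2, smul_eq_mul]
  rw [ENNReal.ofReal_ofNat]
  exact ENNReal.inv_mul_cancel (by norm_num) (by norm_num)

theorem mu_prob (D n : ℕ) : IsProbabilityMeasure (mu D n) := by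
  haveI := U1_prob
  unfold mu
  infer_instance



end Sol_mu_prob

alias mu_prob := Sol_mu_prob.mu_prob

end BSheet
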