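import Pool.Agent.BSheet.Defs
import Pool.Agent.BSheet.L_chi_bounds
import Pool.Agent.BSheet.L_mu_prob
open MeasureTheory Real
open scoped ENNReal BigOperators

namespace BSheet
open ProbabilityTheory
namespace Sol_kbar_lower





theorem kbar_lower_int (f : ℝ → ℝ) : ∫ t, f t ∂U1 = 2⁻¹ * ∫ t in (-1 : ℝ)..1, f t := by
  unfold U1
  rw [integral_smul_measure, intervalIntegral.integral_of_le (by norm_num),
    integral_Icc_eq_integral_Ioc]
  simp

instance kbar_lower_prob : IsProbabilityMeasure U1 := by
  constructor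
  unfold U1
  rw [Measure.smul_apply, Measure.restrict_apply_univ, Real.volume_Icc, smul_eq_mul]
  have h : (1 : ℝ) - (-1) = 2 := by norm_num
  rw [h, ENNReal.ofReal_ofNat]
  exact ENNReal.inv_mul_cancel (by norm_num) (by norm_num)

theorem kbar_lower_integrable (f : ℝ → ℝ) (hf : Continuous f) : Integrable f U1 := by
  unfold U1
  exact Integrable.smul_measure (hf.continuousOn.integrableOn_compact isCompact_Icc) (by simp)

theorem kbar_lower_prod {I : Type*} [Fintype I] [DecidableEq I] (i j : I) (a : I → ℝ) :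
    ∏ l, ((if l = i then a l else 1) * (if l = j then a l else 1)) = a i * a j := by
  rw [Finset.prod_mul_distrib, Finset.prod_ite_eq' Finset.univ i a,
    Finset.prod_ite_eq' Finset.univ j a]
  simp

theorem kbar_lower_E0 {I : Type} [Fintype I] [DecidableEq I] (i j : I) :
    Integrable (fun a : I → ℝ => a i * a j) (Measure.pi fun _ : I => U1) ∧
    ∫ a : I → ℝ, a i * a j ∂(Measure.pi fun _ : I => U1) = if i = j then 1 / 3 else 0 := by
  have hf : ∀ l : I, Continuous fun t : ℝ => (if l = i then t else 1) * (if l = j then t else 1) := by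
    intro l
    split_ifs <;> fun_prop
  have he : (fun a : I → ℝ => a i * a j) =
      fun a => ∏ l, (fun (l : I) (t : ℝ) => (if l = i then t else 1) * (if l = j then t else 1)) l (a l) := by
    funext a
    rw [← kbar_lower_prod i j a]
  constructor
  · rw [he]
    exact Integrable.fintype_prod fun l => kbar_lower_integrable _ (hf l)
  · rw [he]
    rw [integral_fintype_prod_eq_prod
      (fun (l : I) (t : ℝ) => (if l = i then t else 1) * (if l = j then t else 1))]
    split_ifs with hij
    · subst hij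
      rw [Finset.prod_eq_single i]
      · simp only [if_true]
        rw [kbar_lower_int]
        have h1 : ∀ t : ℝ, t * t = t ^ 2 := fun t => (sq t).symm
        simp only [h1]
        rw [integral_pow]
        norm_num
      · intro l _ hl
        simp only [if_neg hl]
        simp
      · intro h
        exact absurd (Finset.mem_univ i) h
    · apply Finset.prod_eq_zero (Finset.mem_univ i)
      simp only [if_true, if_neg hij, mul_one]
      rw [kbar_lower_int]
      simp

theorem kbar_lower_E {D n : ℕ} (i j : Idx D n) :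
    Integrable (fun a : Idx D n → ℝ => a i * a j) (mu D n) ∧
    ∫ a, a i * a j ∂(mu D n) = if i = j then 1 / 3 else 0 := kbar_lower_E0 i j

theorem kbar_lower_sum {D n k : ℕ} (x : Fin D → Str n) :
    ∑ r : BIdx D n k, chiB r x ^ 2 ≤ (ms D n k : ℝ) := by
  classical
  have h1 : ∀ r : BIdx D n k, chiB r x ^ 2 ≤
      if (∀ i, trunc (r.1.1 i) (x i) = r.1.2 i) then (1 : ℝ) else 0 := by
    intro r
    have hfac : ∀ i, 0 ≤ (if trunc (r.1.1 i) (x i) = r.1.2 i then chi (r.1.1 i) (x i) else 0) ∧
        (if trunc (r.1.1 i) (x i) = r.1.2 i then chi (r.1.1 i) (x i) else 0) ≤ 1 := by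
      intro i
      have hb := chi_bounds (Nat.lt_succ_iff.1 (r.1.1 i).2) (x i)
      split_ifs
      · exact hb
      · exact ⟨le_rfl, zero_le_one⟩
    split_ifs with h
    · have h0 : 0 ≤ chiB r x := Finset.prod_nonneg fun i _ => (hfac i).1
      have h2 : chiB r x ≤ 1 := Finset.prod_le_one (fun i _ => (hfac i).1) (fun i _ => (hfac i).2)
      nlinarith
    · push Not at h
      obtain ⟨i, hi⟩ := h
      have h0 : chiB r x = 0 := by
        unfold chiB
        apply Finset.prod_eq_zero (Finset.mem_univ i)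
        rw [if_neg hi]
      rw [h0]
      norm_num
  refine (Finset.sum_le_sum fun r _ => h1 r).trans ?_
  rw [Finset.sum_boole]
  have h2 : (Finset.univ.filter fun r : BIdx D n k => ∀ i, trunc (r.1.1 i) (x i) = r.1.2 i).card ≤
      (Finset.univ : Finset {s : Fin D → Fin (n+1) // (∑ i, ((s i : Fin (n+1)) : ℕ)) + k = n}).card := by
    apply Finset.card_le_card_of_injOn (fun r => ⟨r.1.1, r.2.1⟩)
    · intro r _
      exact Finset.mem_coe.2 (Finset.mem_univ _)
    · intro r hr r' hr' hrr
      rw [Finset.coe_filter] at hr hr'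
      have e1 : r.1.1 = r'.1.1 := congrArg Subtype.val hrr
      apply Subtype.ext
      apply Prod.ext e1
      funext i
      rw [← hr.2 i, ← hr'.2 i, e1]
  unfold ms
  rw [Finset.card_univ] at h2
  exact_mod_cast h2

theorem kbar_lower_psi {D n : ℕ} (κ : Node n) (x : Fin D → Str n) :
    Integrable (fun a => psi a κ x ^ 2) (mu D n) ∧ ∫ a, psi a κ x ^ 2 ∂(mu D n) ≤ 1 / 3 := by
  have he : (fun a : Idx D n → ℝ => psi a κ x ^ 2) = fun a =>
      (Real.sqrt (ms D n κ.1.1))⁻¹ ^ 2 * ∑ r : BIdx D n κ.1.1, ∑ r' : BIdx D n κ.1.1,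
        (chiB r x * chiB r' x) * (a ⟨κ, r⟩ * a ⟨κ, r'⟩) := by
    funext a
    unfold psi
    rw [mul_pow]
    congr 1
    rw [sq, Finset.sum_mul_sum]
    apply Finset.sum_congr rfl
    intro r _
    apply Finset.sum_congr rfl
    intro r' _
    ring
  have hint : ∀ r r' : BIdx D n κ.1.1, Integrable (fun a : Idx D n → ℝ =>
      (chiB r x * chiB r' x) * (a ⟨κ, r⟩ * a ⟨κ, r'⟩)) (mu D n) := fun r r' =>
    (kbar_lower_E ⟨κ, r⟩ ⟨κ, r'⟩).1.const_mul _
  constructor
  · rw [he]
    exact (integrable_finsetSum _ fun r _ => integrable_finsetSum _ fun r' _ => hint r r').const_mul _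
  · rw [he, integral_const_mul, integral_finsetSum _ (fun r _ =>
      integrable_finsetSum _ fun r' _ => hint r r')]
    have h1 : ∀ r : BIdx D n κ.1.1, ∫ a, ∑ r' : BIdx D n κ.1.1,
        (chiB r x * chiB r' x) * (a ⟨κ, r⟩ * a ⟨κ, r'⟩) ∂(mu D n) = chiB r x ^ 2 * (1 / 3) := by
      intro r
      rw [integral_finsetSum _ (fun r' _ => hint r r'), Finset.sum_eq_single r]
      · rw [integral_const_mul, (kbar_lower_E ⟨κ, r⟩ ⟨κ, r⟩).2, if_pos rfl, sq]
      · intro r' _ hr'
        rw [integral_const_mul, (kbar_lower_E ⟨κ, r⟩ ⟨κ, r'⟩).2, if_neg, mul_zero]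
        intro h
        apply hr'
        have h3 := (Sigma.mk.inj_iff.1 h).2
        exact (eq_of_heq h3).symm
      · intro h
        exact absurd (Finset.mem_univ r) h
    simp only [h1]
    rw [← Finset.sum_mul]
    have h2 := kbar_lower_sum (k := κ.1.1) x
    rcases Nat.eq_zero_or_pos (ms D n κ.1.1) with h0 | h0
    · rw [h0]
      simp
    · have h3 : (0 : ℝ) < ms D n κ.1.1 := by exact_mod_cast h0
      rw [inv_pow, Real.sq_sqrt h3.le, ← mul_assoc]
      have h4 : (ms D n κ.1.1 : ℝ)⁻¹ * ∑ r : BIdx D n κ.1.1, chiB r x ^ 2 ≤ 1 := by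
        rw [inv_mul_le_iff₀ h3, mul_one]
        exact h2
      linarith

theorem kbar_lower (D n : ℕ) (κ : Node n) (x : Fin D → Str n) : 3/4 ≤ kbar D n κ x := by
  haveI := mu_prob D n
  obtain ⟨h1, h2⟩ := kbar_lower_psi κ x
  have hmeas : Measurable fun a : Idx D n → ℝ => psi a κ x := by
    unfold psi
    fun_prop
  have hint : Integrable (fun a : Idx D n → ℝ => (1 + psi a κ x ^ 2)⁻¹) (mu D n) := by
    refine Integrable.of_bound (C := 1) ?_ ?_
    · exact ((measurable_const.add (hmeas.pow_const 2)).inv).aestronglyMeasurable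
    · refine Filter.Eventually.of_forall fun a => ?_
      have h3 : 1 ≤ 1 + psi a κ x ^ 2 := by nlinarith [sq_nonneg (psi a κ x)]
      rw [Real.norm_of_nonneg (by positivity)]
      exact inv_le_one_of_one_le₀ h3
  have hlow : ∫ a, (15 / 16 - 9 / 16 * psi a κ x ^ 2) ∂(mu D n) ≤
      ∫ a, (1 + psi a κ x ^ 2)⁻¹ ∂(mu D n) := by
    apply integral_mono
    · exact (integrable_const _).sub (h1.const_mul _)
    · exact hint
    · intro a
      simp only
      have h3 : 0 < 1 + psi a κ x ^ 2 := by positivity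
      rw [← one_div, le_div_iff₀ h3]
      nlinarith [sq_nonneg (3 * psi a κ x ^ 2 - 1)]
  rw [integral_sub (integrable_const _) (h1.const_mul _), integral_const_mul] at hlow
  simp only [integral_const, probReal_univ, one_smul] at hlow
  unfold kbar
  linarith


end Sol_kbar_lower

alias kbar_lower := Sol_kbar_lower.kbar_lower

end BSheet
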