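import Pool.Agent.BSheet.Defs
import Pool.Agent.BSheet.L_gram_lower
import Pool.Agent.BSheet.L_kbar_lower
open MeasureTheory Real
open scoped ENNReal BigOperators

namespace BSheet
open ProbabilityTheory
namespace Sol_Bmat_lower





theorem Bmat_lower (D n : ℕ) (κ : Node n) (v : BIdx D n κ.1.1 → ℝ) :
    ((3/4) * (1/16)^D) * ∑ r, v r ^ 2 ≤ ∑ r, ∑ r', v r * Bmat D n κ r r' * v r' := by
  have key : ∑ r, ∑ r', v r * Bmat D n κ r r' * v r'
      = (4:ℝ)^(n - (κ.1.1 : ℕ)) * avg (fun x => kbar D n κ x * (∑ r, v r * chiB r x)^2) := by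
    unfold Bmat avg
    have h1 : ∀ x : Fin D → Str n, kbar D n κ x * (∑ r, v r * chiB r x)^2
        = ∑ r, ∑ r', v r * (kbar D n κ x * (chiB r x * chiB r' x)) * v r' := by
      intro x
      rw [sq, Finset.sum_mul_sum, Finset.mul_sum]
      refine Finset.sum_congr rfl fun r _ => ?_
      rw [Finset.mul_sum]
      refine Finset.sum_congr rfl fun r' _ => ?_
      ring
    simp_rw [h1]
    have h5 : ∑ x : Fin D → Str n, ∑ r, ∑ r', v r * (kbar D n κ x * (chiB r x * chiB r' x)) * v r'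
        = ∑ r, ∑ r', ∑ x : Fin D → Str n, v r * (kbar D n κ x * (chiB r x * chiB r' x)) * v r' := by
      rw [Finset.sum_comm]
      refine Finset.sum_congr rfl fun r _ => ?_
      rw [Finset.sum_comm]
    rw [h5, Finset.mul_sum, Finset.mul_sum]
    refine Finset.sum_congr rfl fun r _ => ?_
    rw [Finset.mul_sum, Finset.mul_sum]
    refine Finset.sum_congr rfl fun r' _ => ?_
    rw [Finset.mul_sum, Finset.mul_sum, Finset.mul_sum, Finset.mul_sum, Finset.mul_sum, Finset.sum_mul]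
    refine Finset.sum_congr rfl fun x _ => ?_
    ring
  rw [key]
  have h2 : avg (fun x => (3/4) * (∑ r, v r * chiB r x)^2)
      ≤ avg (fun x => kbar D n κ x * (∑ r, v r * chiB r x)^2) := by
    unfold avg
    refine mul_le_mul_of_nonneg_left (Finset.sum_le_sum fun x _ => ?_) (by positivity)
    exact mul_le_mul_of_nonneg_right (kbar_lower D n κ x) (sq_nonneg _)
  have h3 : avg (fun x => (3/4) * (∑ r, v r * chiB r x)^2)
      = (3/4) * avg (fun x => (∑ r, v r * chiB r x)^2) := by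
    unfold avg
    rw [← Finset.mul_sum]; ring
  have h4 := gram_lower (D := D) (n := n) (k := κ.1.1) v
  calc ((3/4) * (1/16)^D) * ∑ r, v r ^ 2 = (3/4) * ((1/16)^D * ∑ r, v r ^ 2) := by ring
    _ ≤ (3/4) * ((4:ℝ)^(n-(κ.1.1:ℕ)) * avg (fun x => (∑ r, v r * chiB r x)^2)) :=
        mul_le_mul_of_nonneg_left h4 (by norm_num)
    _ = (4:ℝ)^(n-(κ.1.1:ℕ)) * avg (fun x => (3/4) * (∑ r, v r * chiB r x)^2) := by
        rw [h3]; ring
    _ ≤ _ := mul_le_mul_of_nonneg_left h2 (by positivity)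


end Sol_Bmat_lower

alias Bmat_lower := Sol_Bmat_lower.Bmat_lower

end BSheet
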