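import Pool.Agent.BSheet.Defs
open MeasureTheory Real
open scoped ENNReal BigOperators

namespace BSheet
open ProbabilityTheory
namespace Sol_logdet



theorem logdet_h1 {ι : Type*} [Fintype ι] [DecidableEq ι] (A : Matrix ι ι ℝ) (hH : A.IsHermitian) :
    ∃ (l : ι → ℝ) (u : ι → ι → ℝ), (∀ i, ∑ j, u i j ^ 2 = 1) ∧
      (∀ i, ∑ r, ∑ s, u i r * A r s * u i s = l i) ∧
      (∀ v : ι → ℝ, ∑ i, (∑ j, v j * u i j) ^ 2 = ∑ j, v j ^ 2) ∧ A.det = ∏ i, l i := by
  have hnorm : ∀ i, ∑ j, (hH.eigenvectorBasis i) j ^ 2 = 1 := by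
    intro i
    have h1 := hH.eigenvectorBasis.orthonormal.1 i
    have h2 := EuclideanSpace.real_norm_sq_eq (hH.eigenvectorBasis i)
    rw [h1] at h2
    simpa using h2.symm
  refine ⟨hH.eigenvalues, fun i j => hH.eigenvectorBasis i j, hnorm, ?_, ?_, ?_⟩
  · intro i
    have h1 : ∀ r, ∑ s, A r s * (hH.eigenvectorBasis i) s = hH.eigenvalues i * (hH.eigenvectorBasis i) r := by
      intro r
      have h2 := congrFun (hH.mulVec_eigenvectorBasis i) r
      simpa [Matrix.mulVec, dotProduct] using h2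
    have h2 : ∀ r, ∑ s, (hH.eigenvectorBasis i) r * A r s * (hH.eigenvectorBasis i) s =
        hH.eigenvalues i * (hH.eigenvectorBasis i) r ^ 2 := by
      intro r
      simp only [mul_assoc]
      rw [← Finset.mul_sum, h1 r]
      ring
    simp only [h2]
    rw [← Finset.mul_sum, hnorm i, mul_one]
  · intro v
    have h1 := hH.eigenvectorBasis.sum_sq_norm_inner_right (WithLp.toLp 2 v)
    rw [EuclideanSpace.real_norm_sq_eq] at h1
    have h2 : ∑ i, (∑ j, v j * (hH.eigenvectorBasis i) j) ^ 2 =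
        ∑ i, ‖inner ℝ (hH.eigenvectorBasis i) (WithLp.toLp 2 v)‖ ^ 2 := by
      refine Finset.sum_congr rfl fun i _ => ?_
      rw [Real.norm_eq_abs, sq_abs]
      congr 1
    rw [h2, h1]
  · rw [hH.det_eq_prod_eigenvalues]
    simp

theorem logdet_h2 {ι : Type*} [Fintype ι] (M : Matrix ι ι ℝ) (u : ι → ι → ℝ)
    (hu : ∀ i, ∑ j, u i j ^ 2 = 1)
    (hP : ∀ v : ι → ℝ, ∑ i, (∑ j, v j * u i j) ^ 2 = ∑ j, v j ^ 2) :
    ∑ i, (∑ r, ∑ s, u i r * M r s * u i s) ^ 2 ≤ ∑ i, ∑ j, M i j ^ 2 := by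
  have h1 : ∀ i, (∑ r, ∑ s, u i r * M r s * u i s) ^ 2 ≤ ∑ r, (∑ s, M r s * u i s) ^ 2 := by
    intro i
    have h2 : ∑ r, ∑ s, u i r * M r s * u i s = ∑ r, u i r * (∑ s, M r s * u i s) := by
      refine Finset.sum_congr rfl fun r _ => ?_
      rw [Finset.mul_sum]
      refine Finset.sum_congr rfl fun s _ => ?_
      ring
    rw [h2]
    have h3 := Finset.sum_mul_sq_le_sq_mul_sq Finset.univ (u i) (fun r => ∑ s, M r s * u i s)
    rw [hu i, one_mul] at h3
    exact h3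
  calc ∑ i, (∑ r, ∑ s, u i r * M r s * u i s) ^ 2 ≤ ∑ i, ∑ r, (∑ s, M r s * u i s) ^ 2 :=
        Finset.sum_le_sum fun i _ => h1 i
    _ = ∑ r, ∑ i, (∑ s, M r s * u i s) ^ 2 := Finset.sum_comm
    _ = ∑ r, ∑ j, M r j ^ 2 := Finset.sum_congr rfl fun r _ => hP (fun s => M r s)

theorem logdet {ι : Type*} [Fintype ι] [DecidableEq ι] (A B : Matrix ι ι ℝ) (hA : A.IsSymm)
    (κ δ : ℝ) (hκ : 0 < κ) (hκ1 : κ ≤ 1) (hδ : 0 < δ) (hδ1 : δ ≤ 1)
    (hAl : ∀ v : ι → ℝ, δ * ∑ i, v i ^ 2 ≤ ∑ i, ∑ j, v i * A i j * v j)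
    (hBl : ∀ v : ι → ℝ, κ * ∑ i, v i ^ 2 ≤ ∑ i, ∑ j, v i * B i j * v j) :
    0 < A.det ∧ -(Fintype.card ι : ℝ) * Real.log (2/κ)
      - Real.log (1/δ) * (4/κ^2) * ∑ i, ∑ j, (A i j - B i j)^2 ≤ Real.log A.det := by
  
  have hH : A.IsHermitian := by
    rw [Matrix.IsHermitian, Matrix.conjTranspose_eq_transpose_of_trivial]
    exact hA
  obtain ⟨l, u, hu, hl, hP, hdet⟩ := logdet_h1 A hH
  have hM := logdet_h2 (A - B) u hu hP
  have hlδ : ∀ i, δ ≤ l i := by
    intro i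
    have h1 := hAl (u i)
    rw [hu i, hl i, mul_one] at h1
    exact h1
  have hl0 : ∀ i, 0 < l i := fun i => lt_of_lt_of_le hδ (hlδ i)
  have hM' : ∀ i, ∑ r, ∑ s, u i r * (A - B) r s * u i s = l i - ∑ r, ∑ s, u i r * B r s * u i s := by
    intro i
    rw [← hl i, ← Finset.sum_sub_distrib]
    refine Finset.sum_congr rfl fun r _ => ?_
    rw [← Finset.sum_sub_distrib]
    refine Finset.sum_congr rfl fun s _ => ?_
    rw [Matrix.sub_apply]
    ring
  have hlog2 : 0 ≤ Real.log (2 / κ) := by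
    apply Real.log_nonneg
    rw [le_div_iff₀ hκ]
    linarith
  have hlogδ : 0 ≤ Real.log (1 / δ) := by
    apply Real.log_nonneg
    rw [le_div_iff₀ hδ]
    linarith
  have hkey : ∀ i, -Real.log (2 / κ) - Real.log (1 / δ) * (4 / κ ^ 2) *
      (∑ r, ∑ s, u i r * (A - B) r s * u i s) ^ 2 ≤ Real.log (l i) := by
    intro i
    have hnn : 0 ≤ Real.log (1 / δ) * (4 / κ ^ 2) *
      (∑ r, ∑ s, u i r * (A - B) r s * u i s) ^ 2 := by positivity
    rcases le_or_gt (κ / 2) (l i) with h | h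
    · have h1 : Real.log (κ / 2) ≤ Real.log (l i) := Real.log_le_log (by positivity) h
      have h2 : Real.log (2 / κ) = - Real.log (κ / 2) := by
        rw [← Real.log_inv, inv_div]
      rw [h2]
      linarith
    · have h1 : Real.log δ ≤ Real.log (l i) := Real.log_le_log hδ (hlδ i)
      have h2 : Real.log (1 / δ) = - Real.log δ := by
        rw [← Real.log_inv, one_div]
      have h3 : 1 ≤ (4 / κ ^ 2) * (∑ r, ∑ s, u i r * (A - B) r s * u i s) ^ 2 := by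
        have h4 := hBl (u i)
        rw [hu i, mul_one] at h4
        rw [hM' i, div_mul_eq_mul_div, le_div_iff₀ (by positivity)]
        have h5 : κ / 2 ≤ (∑ r, ∑ s, u i r * B r s * u i s) - l i := by linarith
        nlinarith
      have h6 : Real.log (1 / δ) * 1 ≤ Real.log (1 / δ) *
          ((4 / κ ^ 2) * (∑ r, ∑ s, u i r * (A - B) r s * u i s) ^ 2) :=
        mul_le_mul_of_nonneg_left h3 hlogδ
      rw [← mul_assoc] at h6
      linarith
  refine ⟨by rw [hdet]; exact Finset.prod_pos fun i _ => hl0 i, ?_⟩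
  rw [hdet, Real.log_prod (fun i _ => (hl0 i).ne')]
  have h1 : ∑ i, (-Real.log (2 / κ) - Real.log (1 / δ) * (4 / κ ^ 2) *
      (∑ r, ∑ s, u i r * (A - B) r s * u i s) ^ 2) ≤ ∑ i, Real.log (l i) :=
    Finset.sum_le_sum fun i _ => hkey i
  rw [Finset.sum_sub_distrib, Finset.sum_const, ← Finset.mul_sum, Finset.card_univ,
    nsmul_eq_mul] at h1
  have h2 : Real.log (1 / δ) * (4 / κ ^ 2) * ∑ i, (∑ r, ∑ s, u i r * (A - B) r s * u i s) ^ 2 ≤
      Real.log (1 / δ) * (4 / κ ^ 2) * ∑ i, ∑ j, (A - B) i j ^ 2 :=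
    mul_le_mul_of_nonneg_left hM (by positivity)
  simp only [Matrix.sub_apply] at h1 h2
  linarith



end Sol_logdet

alias logdet := Sol_logdet.logdet

end BSheet
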