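import Pool.Agent.BSheet.Defs
import Pool.Agent.BSheet.L_Amat_lower
import Pool.Agent.BSheet.L_Bmat_lower
import Pool.Agent.BSheet.L_logdet
open MeasureTheory Real
open scoped ENNReal BigOperators

namespace BSheet
open ProbabilityTheory
namespace Sol_Amat_facts






theorem Amat_det_pos {D n : ℕ} (a : Idx D n → ℝ) (ha : ∀ i, |a i| ≤ 1) (κ : Node n) :
    0 < (Amat a κ).det := by
  have h1 : (0:ℝ) < (1/16)^D := by positivity
  have h2 : (0:ℝ) < (1/2)^n := by positivity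
  have h3 : (0:ℝ) < (1 + (ms D n κ.1.1 : ℝ))⁻¹ := by positivity
  have h1' : ((1:ℝ)/16)^D ≤ 1 := pow_le_one₀ (by norm_num) (by norm_num)
  have h2' : ((1:ℝ)/2)^n ≤ 1 := pow_le_one₀ (by norm_num) (by norm_num)
  have h3' : (1 + (ms D n κ.1.1 : ℝ))⁻¹ ≤ 1 := by
    apply inv_le_one_of_one_le₀
    have : (0:ℝ) ≤ (ms D n κ.1.1 : ℝ) := Nat.cast_nonneg _
    linarith
  have hpos : 0 < ((1/16)^D * (1/2)^n * (1 + (ms D n κ.1.1 : ℝ))⁻¹ : ℝ) := by positivity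
  have hle : ((1/16)^D * (1/2)^n * (1 + (ms D n κ.1.1 : ℝ))⁻¹ : ℝ) ≤ 1 := by
    have h4 : (((1:ℝ)/16)^D * (1/2)^n) ≤ 1 := mul_le_one₀ h1' h2.le h2'
    exact mul_le_one₀ h4 h3.le h3'
  refine (logdet (Amat a κ) (Amat a κ) ?_ _ _ hpos hle hpos hle (Amat_lower a ha κ)
    (Amat_lower a ha κ)).1
  ext r r'
  simp only [Matrix.transpose_apply, Amat]
  congr 2
  funext x
  ring


end Sol_Amat_facts

alias Amat_det_pos := Sol_Amat_facts.Amat_det_pos

end BSheet
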