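import Pool.Agent.BSheet.Defs
import Pool.Agent.BSheet.L_chi_bounds
import Pool.Agent.BSheet.L_oneD_key
open MeasureTheory Real
open scoped ENNReal BigOperators

namespace BSheet
open ProbabilityTheory
namespace Sol_Kset_compact





/-- one-dimensional pairing -/
noncomputable def KsetS {n : ℕ} (k : Fin (n+1)) (u : Str n) (k' : Fin (n+1)) (u' : Str n) : ℝ :=
  ∑ x : Str n, (if trunc k' x = u' then chi k' x else 0) * (if trunc k x = u then gd (x k) else 0)

theorem Kset_S_aux {n : ℕ} (k : Fin (n+1)) (u : Str n) (k' : Fin (n+1)) (u' : Str n)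
    (hu' : trunc k' u' = u') (hk : k' ≤ k) :
    KsetS k u k' u' =
      4^(n+1-(k':ℕ)) * ((if k' = k then (if trunc k u' = u then (1 : ℝ) else 0) else 0) / 4) := by
  have h1 := oneD_key k' u' hu'
    (fun j x => if j = k then (if trunc k x = u then (1:ℝ) else 0) else 0) (by
    intro j x
    by_cases hj : j = k
    · subst hj
      simp only [if_true, trunc_trunc]
    · simp only [if_neg hj])
  have h0 := oneD_key k' u' hu' (fun _ _ => (0:ℝ)) (fun _ _ => rfl)
  have e1 : ∀ x : Str n, ∏ j : Fin (n+1),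
      (1 + gd (x j) * (if j = k then (if trunc k x = u then (1:ℝ) else 0) else 0)) =
      1 + (if trunc k x = u then gd (x k) else 0) := by
    intro x
    rw [Finset.prod_eq_single k]
    · rw [if_pos rfl]
      split_ifs <;> simp
    · intro j _ hj
      rw [if_neg hj]
      simp
    · intro h
      exact absurd (Finset.mem_univ k) h
  have e2 : ∏ j : Fin (n+1), (if j < k' then
      (1 + gd (u' j) * (if j = k then (if trunc k u' = u then (1:ℝ) else 0) else 0)) else 1) = 1 := by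
    apply Finset.prod_eq_one
    intro j _
    by_cases hj : j < k'
    · rw [if_pos hj, if_neg (ne_of_lt (lt_of_lt_of_le hj hk))]
      simp
    · rw [if_neg hj]
  simp only [e1] at h1
  rw [e2] at h1
  simp only [mul_zero, add_zero, Finset.prod_const_one, ite_self, mul_one, zero_div] at h0
  simp only [mul_add, mul_one, Finset.sum_add_distrib] at h1
  unfold KsetS
  linarith

theorem Kset_S_ne {n : ℕ} (k : Fin (n+1)) (u : Str n) (k' : Fin (n+1)) (u' : Str n)
    (hu' : trunc k' u' = u') (h : KsetS k u k' u' ≠ 0) : k ≤ k' ∧ (k = k' → u = u') := by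
  constructor
  · by_contra hcon
    push Not at hcon
    apply h
    rw [Kset_S_aux k u k' u' hu' hcon.le, if_neg (ne_of_lt hcon)]
    simp
  · rintro rfl
    by_contra hcon
    apply h
    rw [Kset_S_aux k u k u' hu' le_rfl, if_pos rfl, if_neg]
    · simp
    · rw [hu']
      exact fun e => hcon e.symm

theorem Kset_S_self {n : ℕ} (k : Fin (n+1)) (u : Str n) (hu : trunc k u = u) :
    0 < KsetS k u k u := by
  rw [Kset_S_aux k u k u hu le_rfl, if_pos rfl, if_pos hu]
  positivity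

/-- test function -/
noncomputable def KsetG {D n : ℕ} (i : Idx D n) (x1 : Str n) (x : Fin D → Str n) : ℝ :=
  (if trunc i.1.1.1 x1 = i.1.1.2 then gd (x1 i.1.1.1) else 0) *
    ∏ l, (if trunc (i.2.1.1 l) (x l) = i.2.1.2 l then gd (x l (i.2.1.1 l)) else 0)

theorem Kset_gd_abs (a : Fin 4) : |gd a| = 1 := by
  unfold gd
  split_ifs <;> simp

theorem Kset_G_abs {D n : ℕ} (i : Idx D n) (x1 : Str n) (x : Fin D → Str n) :
    |KsetG i x1 x| ≤ 1 := by
  have h : ∀ (c : Prop) [Decidable c] (a : Fin 4), |if c then gd a else 0| ≤ 1 := by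
    intro c _ a
    split_ifs
    · rw [Kset_gd_abs]
    · simp
  unfold KsetG
  rw [abs_mul, Finset.abs_prod]
  refine mul_le_one₀ (h _ _) (Finset.prod_nonneg fun l _ => abs_nonneg _) ?_
  exact Finset.prod_le_one (fun l _ => abs_nonneg _) (fun l _ => h _ _)

/-- the pairing -/
noncomputable def KsetP {D n : ℕ} (i j : Idx D n) : ℝ :=
  KsetS i.1.1.1 i.1.1.2 j.1.1.1 j.1.1.2 *
    ∏ l, KsetS (i.2.1.1 l) (i.2.1.2 l) (j.2.1.1 l) (j.2.1.2 l)

theorem Kset_pair {D n : ℕ} (i j : Idx D n) :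
    ∑ x1, ∑ x, vec x1 x j * KsetG i x1 x = KsetP i j := by
  have h1 : ∀ (x1 : Str n) (x : Fin D → Str n), vec x1 x j * KsetG i x1 x =
      ((if trunc j.1.1.1 x1 = j.1.1.2 then chi j.1.1.1 x1 else 0) *
        (if trunc i.1.1.1 x1 = i.1.1.2 then gd (x1 i.1.1.1) else 0)) *
      ∏ l, ((if trunc (j.2.1.1 l) (x l) = j.2.1.2 l then chi (j.2.1.1 l) (x l) else 0) *
        (if trunc (i.2.1.1 l) (x l) = i.2.1.2 l then gd (x l (i.2.1.1 l)) else 0)) := by
    intro x1 x
    unfold vec KsetG chiB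
    rw [Finset.prod_mul_distrib]
    ring
  simp only [h1]
  unfold KsetP KsetS
  rw [Finset.prod_univ_sum, Fintype.piFinset_univ, Finset.sum_mul_sum]

theorem Kset_P_self {D n : ℕ} (i : Idx D n) : 0 < KsetP i i := by
  unfold KsetP
  refine mul_pos (Kset_S_self _ _ i.1.2) (Finset.prod_pos fun l _ => ?_)
  exact Kset_S_self _ _ (i.2.2.2 l)

theorem Kset_P_ne {D n : ℕ} (i j : Idx D n) (hij : j ≠ i) : KsetP i j = 0 := by
  by_contra h
  unfold KsetP at h
  apply hij
  have h1 := left_ne_zero_of_mul h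
  have h2 := right_ne_zero_of_mul h
  obtain ⟨κ, r⟩ := i
  obtain ⟨κ', r'⟩ := j
  obtain ⟨⟨k, u⟩, hk⟩ := κ
  obtain ⟨⟨k', u'⟩, hk'⟩ := κ'
  obtain ⟨⟨s, v⟩, hs, hv⟩ := r
  obtain ⟨⟨s', v'⟩, hs', hv'⟩ := r'
  dsimp only at *
  obtain ⟨h3, h4⟩ := Kset_S_ne _ _ _ _ hk' h1
  have h5 : ∀ l, s l ≤ s' l ∧ (s l = s' l → v l = v' l) := by
    intro l
    exact Kset_S_ne _ _ _ _ (hv' l) (Finset.prod_ne_zero_iff.mp h2 l (Finset.mem_univ l))
  have h6 : ∑ l, ((s l : Fin (n+1)) : ℕ) ≤ ∑ l, ((s' l : Fin (n+1)) : ℕ) :=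
    Finset.sum_le_sum fun l _ => Fin.le_def.mp (h5 l).1
  have h7 : (k : ℕ) ≤ (k' : ℕ) := Fin.le_def.mp h3
  have hs1 : (∑ l, ((s l : Fin (n+1)) : ℕ)) + (k : ℕ) = n := hs
  have hs2 : (∑ l, ((s' l : Fin (n+1)) : ℕ)) + (k' : ℕ) = n := hs'
  have h8 : k = k' := Fin.ext (by omega)
  have h9 : ∑ l, ((s l : Fin (n+1)) : ℕ) = ∑ l, ((s' l : Fin (n+1)) : ℕ) := by omega
  have h10 := (Finset.sum_eq_sum_iff_of_le (fun l _ => Fin.le_def.mp (h5 l).1)).mp h9
  have h11 : s = s' := by
    funext l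
    exact Fin.ext (h10 l (Finset.mem_univ l))
  subst h8
  subst h11
  have h12 : u = u' := h4 rfl
  subst h12
  have h13 : v = v' := by
    funext l
    exact (h5 l).2 rfl
  subst h13
  rfl

theorem Kset_bound {D n : ℕ} (a : Idx D n → ℝ) (ha : a ∈ Kset D n) (i : Idx D n) :
    |a i| ≤ (Fintype.card (Str n) * Fintype.card (Fin D → Str n) : ℝ) / KsetP i i := by
  have hP := Kset_P_self i
  have h1 : a i * KsetP i i =
      ∑ x1 : Str n, ∑ x : Fin D → Str n, (∑ j, a j * vec x1 x j) * KsetG i x1 x := by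
    have h2 : ∑ j, a j * KsetP i j = a i * KsetP i i := by
      apply Finset.sum_eq_single i
      · intro j _ hj
        rw [Kset_P_ne i j hj, mul_zero]
      · intro h
        exact absurd (Finset.mem_univ i) h
    rw [← h2]
    have h3 : ∀ j, a j * KsetP i j =
        ∑ x1 : Str n, ∑ x : Fin D → Str n, a j * vec x1 x j * KsetG i x1 x := by
      intro j
      rw [← Kset_pair, Finset.mul_sum]
      refine Finset.sum_congr rfl fun x1 _ => ?_
      rw [Finset.mul_sum]
      refine Finset.sum_congr rfl fun x _ => ?_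
      ring
    simp only [h3]
    rw [Finset.sum_comm]
    refine Finset.sum_congr rfl fun x1 _ => ?_
    rw [Finset.sum_comm]
    refine Finset.sum_congr rfl fun x _ => ?_
    rw [Finset.sum_mul]
  rw [le_div_iff₀ hP]
  have h4 : |a i| * KsetP i i = |a i * KsetP i i| := by
    rw [abs_mul, abs_of_pos hP]
  rw [h4, h1]
  have h5 : ∀ (x1 : Str n) (x : Fin D → Str n),
      |(∑ j, a j * vec x1 x j) * KsetG i x1 x| ≤ 1 := by
    intro x1 x
    rw [abs_mul]
    exact mul_le_one₀ (ha x1 x) (abs_nonneg _) (Kset_G_abs i x1 x)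
  calc |∑ x1 : Str n, ∑ x : Fin D → Str n, (∑ j, a j * vec x1 x j) * KsetG i x1 x|
      ≤ ∑ x1 : Str n, |∑ x : Fin D → Str n, (∑ j, a j * vec x1 x j) * KsetG i x1 x| :=
        Finset.abs_sum_le_sum_abs _ _
    _ ≤ ∑ x1 : Str n, ∑ x : Fin D → Str n, |(∑ j, a j * vec x1 x j) * KsetG i x1 x| :=
        Finset.sum_le_sum fun x1 _ => Finset.abs_sum_le_sum_abs _ _
    _ ≤ ∑ x1 : Str n, ∑ x : Fin D → Str n, (1 : ℝ) :=
        Finset.sum_le_sum fun x1 _ => Finset.sum_le_sum fun x _ => h5 x1 x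
    _ = _ := by
        rw [Finset.sum_const, Finset.sum_const, Finset.card_univ, Finset.card_univ]
        simp only [nsmul_eq_mul, mul_one]

theorem Kset_compact (D n : ℕ) : IsCompact (Kset D n) := by
  have hcl : IsClosed (Kset D n) := by
    have e : Kset D n = ⋂ x1 : Str n, ⋂ x : Fin D → Str n,
        {a : Idx D n → ℝ | |∑ i, a i * vec x1 x i| ≤ 1} := by
      ext a
      simp only [Kset, Set.mem_iInter]
      rfl
    rw [e]
    refine isClosed_iInter fun x1 => isClosed_iInter fun x => ?_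
    refine isClosed_le ?_ continuous_const
    fun_prop
  refine IsCompact.of_isClosed_subset (isCompact_univ_pi (fun i : Idx D n =>
    (isCompact_Icc (a := -((Fintype.card (Str n) * Fintype.card (Fin D → Str n) : ℝ) / KsetP i i))
      (b := (Fintype.card (Str n) * Fintype.card (Fin D → Str n) : ℝ) / KsetP i i)))) hcl ?_
  intro a ha i _
  exact abs_le.mp (Kset_bound a ha i)


end Sol_Kset_compact

alias Kset_compact := Sol_Kset_compact.Kset_compact

end BSheet
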