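import Pool.Agent.BSheet.Defs
open MeasureTheory Real
open scoped ENNReal BigOperators

namespace BSheet
open ProbabilityTheory
namespace Sol_bm1



theorem bm1 (A B : Set ℝ) (hA : IsCompact A) (hB : IsCompact B) (hA' : A.Nonempty) (hB' : B.Nonempty) :
    volume A + volume B ≤ volume {z : ℝ | ∃ a ∈ A, ∃ b ∈ B, z = a + b} := by
  obtain ⟨a1, ha1, ha1'⟩ := hA.exists_isGreatest hA'
  obtain ⟨b0, hb0, hb0'⟩ := hB.exists_isLeast hB'
  set S : Set ℝ := (fun z => z + (-b0)) ⁻¹' A with hS
  set T : Set ℝ := (fun z => z + (-a1)) ⁻¹' B with hT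
  have hSv : volume S = volume A := measure_preimage_add_right volume (-b0) A
  have hTv : volume T = volume B := measure_preimage_add_right volume (-a1) B
  have hTm : MeasurableSet T := hB.measurableSet.preimage (by fun_prop)
  have hint : volume (S ∩ T) = 0 := by
    apply measure_mono_null (t := {a1 + b0}) _ (by simp)
    rintro z ⟨h1, h2⟩
    have h3 : z + (-b0) ≤ a1 := ha1' h1
    have h4 : b0 ≤ z + (-a1) := hb0' h2
    simp only [Set.mem_singleton_iff]
    linarith
  have h := measure_union_add_inter S hTm (μ := volume)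
  rw [hint, add_zero, hSv, hTv] at h
  rw [← h]
  apply measure_mono
  rintro z (h1 | h1)
  · exact ⟨z + (-b0), h1, b0, hb0, by ring⟩
  · exact ⟨a1, ha1, z + (-a1), h1, by ring⟩


end Sol_bm1

alias bm1 := Sol_bm1.bm1

end BSheet
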