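import Pool.Agent.BSheet.Defs
import Pool.Agent.BSheet.L_bm1
open MeasureTheory Real
open scoped ENNReal BigOperators

namespace BSheet
open ProbabilityTheory
namespace Sol_pl1




theorem h170_lev (A B C : Set ℝ) (hA : MeasurableSet A) (hB : MeasurableSet B)
    (hA' : A.Nonempty) (hB' : B.Nonempty) (H : ∀ x ∈ A, ∀ y ∈ B, (x + y) / 2 ∈ C) :
    volume A + volume B ≤ 2 * volume C := by
  obtain ⟨a0, ha0⟩ := hA'
  obtain ⟨b0, hb0⟩ := hB'
  have key : ∀ K : Set ℝ, (K ⊆ A ∧ IsCompact K) → ∀ L : Set ℝ, (L ⊆ B ∧ IsCompact L) →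
      volume K + volume L ≤ 2 * volume C := by
    rintro K ⟨hKA, hK⟩ L ⟨hLB, hL⟩
    have h1 := bm1 (insert a0 K) (insert b0 L) (hK.insert a0) (hL.insert b0) ⟨a0, Set.mem_insert _ _⟩ ⟨b0, Set.mem_insert _ _⟩
    have h2 : {z : ℝ | ∃ a ∈ insert a0 K, ∃ b ∈ insert b0 L, z = a + b} ⊆ ((fun z => (1/2:ℝ) * z) ⁻¹' C) := by
      rintro z ⟨a, ha, b, hb, rfl⟩
      have haA : a ∈ A := by
        rcases ha with rfl | ha
        · exact ha0
        · exact hKA ha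
      have hbB : b ∈ B := by
        rcases hb with rfl | hb
        · exact hb0
        · exact hLB hb
      have := H a haA b hbB
      rw [Set.mem_preimage]
      have e : (1/2:ℝ) * (a + b) = (a + b) / 2 := by ring
      rw [e]; exact this
    have h3 : volume ((fun z => (1/2:ℝ) * z) ⁻¹' C) = 2 * volume C := by
      rw [Real.volume_preimage_mul_left (by norm_num)]
      norm_num
    calc volume K + volume L ≤ volume (insert a0 K) + volume (insert b0 L) :=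
          add_le_add (measure_mono (Set.subset_insert _ _)) (measure_mono (Set.subset_insert _ _))
      _ ≤ _ := h1
      _ ≤ _ := measure_mono h2
      _ = _ := h3
  rw [hA.measure_eq_iSup_isCompact, hB.measure_eq_iSup_isCompact]
  have e1 : ∀ S : Set ℝ, (⨆ (K : Set ℝ) (_ : K ⊆ S) (_ : IsCompact K), volume K) =
      ⨆ K : {K : Set ℝ // K ⊆ S ∧ IsCompact K}, volume K.1 := by
    intro S
    rw [iSup_subtype]
    refine iSup_congr fun K => ?_
    rw [iSup_and]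
  rw [e1 A, e1 B]
  haveI : Nonempty {K : Set ℝ // K ⊆ A ∧ IsCompact K} := ⟨⟨∅, Set.empty_subset _, isCompact_empty⟩⟩
  haveI : Nonempty {K : Set ℝ // K ⊆ B ∧ IsCompact K} := ⟨⟨∅, Set.empty_subset _, isCompact_empty⟩⟩
  exact ENNReal.iSup_add_iSup_le fun K L => key K.1 K.2 L.1 L.2

theorem h170_layer (f : ℝ → ℝ≥0∞) (hf : Measurable f) (hf1 : ∀ x, f x ≤ 1) :
    ∫⁻ x, f x = ∫⁻ t in Set.Ioi (0:ℝ), volume {x | t < (f x).toReal} := by
  have h := lintegral_eq_lintegral_meas_lt (volume : Measure ℝ) (f := fun x => (f x).toReal)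
    (Filter.Eventually.of_forall fun x => ENNReal.toReal_nonneg) hf.ennreal_toReal.aemeasurable
  rw [← h]
  refine lintegral_congr fun x => ?_
  rw [ENNReal.ofReal_toReal (ne_top_of_le_ne_top ENNReal.one_ne_top (hf1 x))]

theorem h170_norm (f g h : ℝ → ℝ≥0∞) (hf : Measurable f) (hg : Measurable g) (hh : Measurable h)
    (hf1 : ∀ x, f x ≤ 1) (hg1 : ∀ x, g x ≤ 1) (hh1 : ∀ x, h x ≤ 1)
    (hfs : ∀ t : ℝ, t < 1 → ∃ x, t < (f x).toReal) (hgs : ∀ t : ℝ, t < 1 → ∃ x, t < (g x).toReal)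
    (H : ∀ x y, f x * g y ≤ h ((x+y)/2)^2) :
    (∫⁻ x, f x) + (∫⁻ x, g x) ≤ 2 * ∫⁻ x, h x := by
  rw [h170_layer f hf hf1, h170_layer g hg hg1, h170_layer h hh hh1]
  have hanti : ∀ u : ℝ → ℝ≥0∞, Antitone (fun t : ℝ => volume {x | t < (u x).toReal}) := by
    intro u s t hst
    exact measure_mono fun x hx => lt_of_le_of_lt hst hx
  rw [← lintegral_add_left (hanti f).measurable, ← lintegral_const_mul _ (hanti h).measurable]
  refine setLIntegral_mono' measurableSet_Ioi fun t ht => ?_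
  have ht0 : 0 < t := ht
  rcases lt_or_ge t 1 with ht1 | ht1
  · refine h170_lev _ _ _ (measurableSet_lt measurable_const hf.ennreal_toReal)
      (measurableSet_lt measurable_const hg.ennreal_toReal) (hfs t ht1) (hgs t ht1) ?_
    intro x hx y hy
    simp only [Set.mem_setOf_eq] at hx hy ⊢
    have h1 := H x y
    have hne : h ((x+y)/2) ≠ ∞ := ne_top_of_le_ne_top ENNReal.one_ne_top (hh1 _)
    have h2 : (f x).toReal * (g y).toReal ≤ (h ((x+y)/2)).toReal ^ 2 := by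
      rw [← ENNReal.toReal_mul, ← ENNReal.toReal_pow]
      exact ENNReal.toReal_mono (ENNReal.pow_ne_top hne) h1
    by_contra hcon
    push Not at hcon
    have h3 : t * t < (f x).toReal * (g y).toReal := mul_lt_mul'' hx hy ht0.le ht0.le
    have h4 : (h ((x+y)/2)).toReal ^ 2 ≤ t ^ 2 := pow_le_pow_left₀ ENNReal.toReal_nonneg hcon 2
    nlinarith
  · have e0 : ∀ u : ℝ → ℝ≥0∞, (∀ x, u x ≤ 1) → {x | t < (u x).toReal} = ∅ := by
      intro u hu
      ext x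
      simp only [Set.mem_setOf_eq, Set.mem_empty_iff_false, iff_false, not_lt]
      have : (u x).toReal ≤ 1 := by
        have := ENNReal.toReal_mono ENNReal.one_ne_top (hu x)
        simpa using this
      linarith
    rw [e0 f hf1, e0 g hg1]
    simp

theorem h170_amgm (a b c : ℝ≥0∞) (h : a + b ≤ 2 * c) : a * b ≤ c ^ 2 := by
  rcases eq_or_ne c ∞ with rfl | hc
  · rw [ENNReal.top_pow (by norm_num)]; exact le_top
  · have h2c : 2 * c ≠ ∞ := ENNReal.mul_ne_top (by norm_num) hc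
    have hab : a + b ≠ ∞ := ne_top_of_le_ne_top h2c h
    have ha : a ≠ ∞ := fun e => hab (by rw [e]; simp)
    have hb : b ≠ ∞ := fun e => hab (by rw [e]; simp)
    lift a to NNReal using ha
    lift b to NNReal using hb
    lift c to NNReal using hc
    have h' : (a:ℝ) + b ≤ 2 * c := by exact_mod_cast h
    have hgoal : (a:ℝ) * b ≤ (c:ℝ)^2 := by
      nlinarith [sq_nonneg ((a:ℝ) - b), a.2, b.2, c.2, mul_self_nonneg ((a:ℝ)+b), NNReal.coe_nonneg a, NNReal.coe_nonneg b, NNReal.coe_nonneg c]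
    exact_mod_cast hgoal

theorem h170_bdd (f g h : ℝ → ℝ≥0∞) (hf : Measurable f) (hg : Measurable g) (hh : Measurable h)
    (Mf Mg : ℝ≥0∞) (hMf : Mf ≠ ∞) (hMg : Mg ≠ ∞) (hfM : ∀ x, f x ≤ Mf) (hgM : ∀ x, g x ≤ Mg)
    (H : ∀ x y, f x * g y ≤ h ((x+y)/2)^2) : (∫⁻ x, f x) * (∫⁻ x, g x) ≤ (∫⁻ x, h x)^2 := by
  obtain ⟨F, hF⟩ : ∃ F, F = ⨆ x, f x := ⟨_, rfl⟩
  obtain ⟨G, hG⟩ : ∃ G, G = ⨆ x, g x := ⟨_, rfl⟩
  have hFt : F ≠ ∞ := ne_top_of_le_ne_top hMf (by rw [hF]; exact iSup_le hfM)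
  have hGt : G ≠ ∞ := ne_top_of_le_ne_top hMg (by rw [hG]; exact iSup_le hgM)
  have hfF : ∀ x, f x ≤ F := fun x => by rw [hF]; exact le_iSup f x
  have hgG : ∀ x, g x ≤ G := fun x => by rw [hG]; exact le_iSup g x
  rcases eq_or_ne F 0 with hF0 | hF0
  · have : ∫⁻ x, f x = 0 := by
      have : f = fun _ => 0 := by funext x; exact le_antisymm (by rw [← hF0]; exact hfF x) bot_le
      rw [this]; simp
    rw [this, zero_mul]; exact bot_le
  rcases eq_or_ne G 0 with hG0 | hG0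
  · have : ∫⁻ x, g x = 0 := by
      have : g = fun _ => 0 := by funext x; exact le_antisymm (by rw [← hG0]; exact hgG x) bot_le
      rw [this]; simp
    rw [this, mul_zero]; exact bot_le
  obtain ⟨c, hc⟩ : ∃ c : ℝ≥0∞, c = (F * G) ^ (1/2:ℝ) := ⟨_, rfl⟩
  have hc2 : c ^ 2 = F * G := by
    rw [hc, ← ENNReal.rpow_natCast, ← ENNReal.rpow_mul]
    norm_num
  have hFG0 : F * G ≠ 0 := mul_ne_zero hF0 hG0
  have hFGt : F * G ≠ ∞ := ENNReal.mul_ne_top hFt hGt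
  have hc0 : c ≠ 0 := by rintro rfl; exact hFG0 (by rw [← hc2]; simp)
  have hct : c ≠ ∞ := by rintro rfl; exact hFGt (by rw [← hc2]; simp)
  -- normalised functions
  have hsup : ∀ (u : ℝ → ℝ≥0∞) (U : ℝ≥0∞), U = (⨆ x, u x) → U ≠ 0 → U ≠ ∞ → ∀ t : ℝ, t < 1 → ∃ x, t < (U⁻¹ * u x).toReal := by
    intro u U hU hU0 hUt t ht
    by_contra hcon
    push Not at hcon
    have huU : ∀ x, u x ≤ U := fun x => by rw [hU]; exact le_iSup u x
    have ht0 : 0 ≤ t := le_trans ENNReal.toReal_nonneg (hcon 0)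
    have h1 : ∀ x, u x ≤ U * ENNReal.ofReal t := by
      intro x
      have hne : U⁻¹ * u x ≠ ∞ := ENNReal.mul_ne_top (ENNReal.inv_ne_top.2 hU0) (ne_top_of_le_ne_top hUt (huU x))
      have h2 : U⁻¹ * u x ≤ ENNReal.ofReal t := by
        rw [← ENNReal.ofReal_toReal hne]; exact ENNReal.ofReal_le_ofReal (hcon x)
      calc u x = U * (U⁻¹ * u x) := by rw [← mul_assoc, ENNReal.mul_inv_cancel hU0 hUt, one_mul]
        _ ≤ _ := mul_le_mul_right h2 U
    have h3 : U ≤ U * ENNReal.ofReal t := by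
      conv_lhs => rw [hU]
      exact iSup_le h1
    have h4 : U * ENNReal.ofReal t < U * 1 := by
      refine (ENNReal.mul_lt_mul_iff_right hU0 hUt).2 ?_
      rw [← ENNReal.ofReal_one]
      exact (ENNReal.ofReal_lt_ofReal_iff one_pos).2 ht
    rw [mul_one] at h4
    exact absurd h3 (not_le.2 h4)
  have hle1 : ∀ (u : ℝ → ℝ≥0∞) (U : ℝ≥0∞), U ≠ 0 → U ≠ ∞ → (∀ x, u x ≤ U) → ∀ x, U⁻¹ * u x ≤ 1 := by
    intro u U hU0 hUt hu x
    calc U⁻¹ * u x ≤ U⁻¹ * U := mul_le_mul_right (hu x) _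
      _ = 1 := ENNReal.inv_mul_cancel hU0 hUt
  have hmain := h170_norm (fun x => F⁻¹ * f x) (fun x => G⁻¹ * g x) (fun x => min (c⁻¹ * h x) 1)
    (hf.const_mul _) (hg.const_mul _) ((hh.const_mul _).min measurable_const)
    (hle1 f F hF0 hFt hfF) (hle1 g G hG0 hGt hgG) (fun x => min_le_right _ _)
    (hsup f F hF hF0 hFt) (hsup g G hG hG0 hGt) (by
      intro x y
      have ha := hle1 f F hF0 hFt hfF x
      have hb := hle1 g G hG0 hGt hgG y
      rcases le_total (c⁻¹ * h ((x+y)/2)) 1 with hc1 | hc1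
      · simp only [min_eq_left hc1]
        calc F⁻¹ * f x * (G⁻¹ * g y) = (F⁻¹ * G⁻¹) * (f x * g y) := by ring
          _ ≤ (F⁻¹ * G⁻¹) * (h ((x+y)/2))^2 := mul_le_mul_right (H x y) _
          _ = (c⁻¹)^2 * (h ((x+y)/2))^2 := by
            rw [← ENNReal.inv_pow, hc2, ENNReal.mul_inv (Or.inl hF0) (Or.inl hFt)]
          _ = _ := by ring
      · simp only [min_eq_right hc1]
        calc F⁻¹ * f x * (G⁻¹ * g y) ≤ 1 * 1 := mul_le_mul' ha hb
          _ = 1 ^ 2 := by norm_num)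
  have h5 : (∫⁻ x, F⁻¹ * f x) + (∫⁻ x, G⁻¹ * g x) ≤ 2 * ∫⁻ x, c⁻¹ * h x := by
    refine hmain.trans (mul_le_mul_right (lintegral_mono fun x => min_le_left _ _) _)
  have h6 := h170_amgm _ _ _ h5
  rw [lintegral_const_mul _ hf, lintegral_const_mul _ hg, lintegral_const_mul _ hh] at h6
  have h7 : c ^ 2 * ((F⁻¹ * ∫⁻ x, f x) * (G⁻¹ * ∫⁻ x, g x)) ≤ c ^ 2 * (c⁻¹ * ∫⁻ x, h x) ^ 2 := mul_le_mul_right h6 _
  have e1 : c ^ 2 * ((F⁻¹ * ∫⁻ x, f x) * (G⁻¹ * ∫⁻ x, g x)) = (∫⁻ x, f x) * (∫⁻ x, g x) := by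
    rw [hc2]
    calc F * G * ((F⁻¹ * ∫⁻ x, f x) * (G⁻¹ * ∫⁻ x, g x)) = (F * F⁻¹) * (G * G⁻¹) * ((∫⁻ x, f x) * (∫⁻ x, g x)) := by ring
      _ = _ := by rw [ENNReal.mul_inv_cancel hF0 hFt, ENNReal.mul_inv_cancel hG0 hGt]; simp
  have e2 : c ^ 2 * (c⁻¹ * ∫⁻ x, h x) ^ 2 = (∫⁻ x, h x) ^ 2 := by
    calc c ^ 2 * (c⁻¹ * ∫⁻ x, h x) ^ 2 = (c * c⁻¹) ^ 2 * (∫⁻ x, h x) ^ 2 := by ring
      _ = _ := by rw [ENNReal.mul_inv_cancel hc0 hct]; simp
  rw [e1, e2] at h7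
  exact h7

theorem h170_trunc (f : ℝ → ℝ≥0∞) (hf : Measurable f) : ∫⁻ x, f x = ⨆ n : ℕ, ∫⁻ x, min (f x) (n : ℝ≥0∞) := by
  rw [← lintegral_iSup (fun n => hf.min measurable_const)]
  · refine lintegral_congr fun x => ?_
    refine le_antisymm ?_ (iSup_le fun n => min_le_left _ _)
    rcases eq_or_ne (f x) ∞ with h | h
    · rw [h]
      have : (⨆ n : ℕ, min (∞ : ℝ≥0∞) (n : ℝ≥0∞)) = ⨆ n : ℕ, (n : ℝ≥0∞) := by
        refine iSup_congr fun n => ?_
        exact min_eq_right le_top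
      rw [this, ENNReal.iSup_natCast]
    · obtain ⟨n, hn⟩ := ENNReal.exists_nat_gt h
      refine le_iSup_of_le n ?_
      rw [min_eq_left hn.le]
  · intro m n hmn x
    exact min_le_min_left _ (by exact_mod_cast hmn)

theorem pl1 (f g h : ℝ → ℝ≥0∞) (hf : Measurable f) (hg : Measurable g) (hh : Measurable h)
    (H : ∀ x y, f x * g y ≤ h ((x+y)/2)^2) : (∫⁻ x, f x) * (∫⁻ x, g x) ≤ (∫⁻ x, h x)^2 := by
  rw [h170_trunc f hf, h170_trunc g hg]
  rw [ENNReal.iSup_mul]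
  refine iSup_le fun m => ?_
  rw [ENNReal.mul_iSup]
  refine iSup_le fun n => ?_
  refine h170_bdd _ _ h (hf.min measurable_const) (hg.min measurable_const) hh (m : ℝ≥0∞) (n : ℝ≥0∞)
    (ENNReal.natCast_ne_top m) (ENNReal.natCast_ne_top n) (fun x => min_le_right _ _) (fun x => min_le_right _ _) ?_
  intro x y
  exact (mul_le_mul' (min_le_left _ _) (min_le_left _ _)).trans (H x y)


end Sol_pl1

alias pl1 := Sol_pl1.pl1

end BSheet
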