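import Pool.Agent.BSheet.Defs
import Pool.Agent.BSheet.L_pl1
open MeasureTheory Real
open scoped ENNReal BigOperators

namespace BSheet
open ProbabilityTheory
namespace Sol_pln




theorem pln_ins833 {n : ℕ} (t : ℝ) (x : Fin n → ℝ) :
    (MeasurableEquiv.piFinSuccAbove (fun _ : Fin (n + 1) => ℝ) 0).symm (t, x)
      = (Fin.cons t x : Fin (n + 1) → ℝ) := by
  show (Fin.insertNth (α := fun _ : Fin (n + 1) => ℝ) 0 t x : Fin (n + 1) → ℝ) = _
  exact Fin.insertNth_zero' t x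

theorem pln_int833 {n : ℕ} (f : (Fin (n + 1) → ℝ) → ℝ≥0∞) (hf : Measurable f) :
    ∫⁻ x, f x = ∫⁻ t : ℝ, ∫⁻ x : Fin n → ℝ, f (Fin.cons t x) := by
  have h1 := (volume_preserving_piFinSuccAbove (fun _ : Fin (n + 1) => ℝ) 0).symm
  have h2 := h1.lintegral_comp hf
  rw [← h2]
  have h3 : Measurable (fun p : ℝ × (Fin n → ℝ) =>
      f ((MeasurableEquiv.piFinSuccAbove (fun _ : Fin (n + 1) => ℝ) 0).symm p)) :=
    hf.comp (MeasurableEquiv.measurable _)
  have h4 := lintegral_prod (μ := (volume : Measure ℝ)) (ν := (volume : Measure (Fin n → ℝ)))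
    (fun p : ℝ × (Fin n → ℝ) =>
      f ((MeasurableEquiv.piFinSuccAbove (fun _ : Fin (n + 1) => ℝ) 0).symm p)) h3.aemeasurable
  refine Eq.trans ?_ (h4.trans ?_)
  · rfl
  · apply lintegral_congr
    intro t
    apply lintegral_congr
    intro x
    rw [pln_ins833]

theorem pln_cons833 {n : ℕ} : Measurable (fun p : ℝ × (Fin n → ℝ) =>
    (Fin.cons p.1 p.2 : Fin (n + 1) → ℝ)) := by
  have h := MeasurableEquiv.measurable
    (MeasurableEquiv.piFinSuccAbove (fun _ : Fin (n + 1) => ℝ) 0).symm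
  have h2 : (fun p : ℝ × (Fin n → ℝ) => (Fin.cons p.1 p.2 : Fin (n + 1) → ℝ))
      = fun p => (MeasurableEquiv.piFinSuccAbove (fun _ : Fin (n + 1) => ℝ) 0).symm p := by
    funext p
    exact (pln_ins833 p.1 p.2).symm
  rw [h2]
  exact h

theorem pln_fin833 (n : ℕ) : ∀ (f g h : (Fin n → ℝ) → ℝ≥0∞), Measurable f → Measurable g →
    Measurable h → (∀ x y : Fin n → ℝ, f x * g y ≤ h (fun i => (x i + y i) / 2) ^ 2) →
    (∫⁻ x, f x) * (∫⁻ x, g x) ≤ (∫⁻ x, h x) ^ 2 := by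
  induction n with
  | zero =>
    intro f g h hf hg hh H
    obtain ⟨x0, hx0⟩ : ∃ x0 : Fin 0 → ℝ, (volume : Measure (Fin 0 → ℝ)) = Measure.dirac x0 :=
      ⟨fun i => i.elim0, Measure.pi_of_empty _ _⟩
    rw [hx0, lintegral_dirac' _ hf, lintegral_dirac' _ hg, lintegral_dirac' _ hh]
    have h1 := H x0 x0
    have h2 : (fun i => (x0 i + x0 i) / 2) = x0 := Subsingleton.elim _ _
    rwa [h2] at h1
  | succ n ih =>
    intro f g h hf hg hh H
    have hmeas : ∀ k : (Fin (n + 1) → ℝ) → ℝ≥0∞, Measurable k →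
        Measurable (fun t : ℝ => ∫⁻ x : Fin n → ℝ, k (Fin.cons t x)) := by
      intro k hk
      exact Measurable.lintegral_prod_right' (f := fun p : ℝ × (Fin n → ℝ) => k (Fin.cons p.1 p.2))
        (hk.comp pln_cons833)
    have hsl : ∀ k : (Fin (n + 1) → ℝ) → ℝ≥0∞, Measurable k → ∀ t : ℝ,
        Measurable (fun x : Fin n → ℝ => k (Fin.cons t x)) := by
      intro k hk t
      exact (hk.comp pln_cons833).comp (measurable_const.prodMk measurable_id)
    rw [pln_int833 f hf, pln_int833 g hg, pln_int833 h hh]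
    apply pl1 _ _ _ (hmeas f hf) (hmeas g hg) (hmeas h hh)
    intro t s
    apply ih _ _ _ (hsl f hf t) (hsl g hg s) (hsl h hh ((t + s) / 2))
    intro x y
    refine (H (Fin.cons t x) (Fin.cons s y)).trans (le_of_eq ?_)
    congr 2
    funext i
    refine Fin.cases ?_ (fun j => ?_) i
    · rfl
    · rfl

theorem pln {ι : Type} [Fintype ι] (f g h : (ι → ℝ) → ℝ≥0∞) (hf : Measurable f) (hg : Measurable g)
    (hh : Measurable h) (H : ∀ x y : ι → ℝ, f x * g y ≤ h (fun i => (x i + y i)/2)^2) :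
    (∫⁻ x, f x) * (∫⁻ x, g x) ≤ (∫⁻ x, h x)^2 := by
  obtain ⟨e⟩ : Nonempty (Fin (Fintype.card ι) ≃ ι) := ⟨(Fintype.equivFin ι).symm⟩
  have hE := volume_measurePreserving_piCongrLeft (fun _ : ι => ℝ) e
  rw [← hE.lintegral_comp hf, ← hE.lintegral_comp hg, ← hE.lintegral_comp hh]
  have hm : Measurable (MeasurableEquiv.piCongrLeft (fun _ : ι => ℝ) e) :=
    MeasurableEquiv.measurable _
  apply pln_fin833 _ _ _ _ (hf.comp hm) (hg.comp hm) (hh.comp hm)
  intro x y
  refine (H _ _).trans (le_of_eq ?_)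
  have key : ∀ z : Fin (Fintype.card ι) → ℝ, ∀ j,
      (MeasurableEquiv.piCongrLeft (fun _ : ι => ℝ) e) z (e j) = z j := by
    intro z j
    exact Equiv.piCongrLeft_apply_apply (fun _ : ι => ℝ) e z j
  show h _ ^ 2 = h _ ^ 2
  congr 2
  funext i
  obtain ⟨j, rfl⟩ := e.surjective i
  rw [key, key, key]


end Sol_pln

alias pln := Sol_pln.pln

end BSheet
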