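import Pool.Agent.BSheet.Defs
import Pool.Agent.BSheet.L_pln
open MeasureTheory Real
open scoped ENNReal BigOperators

namespace BSheet
open ProbabilityTheory
namespace Sol_bm_sym




theorem bm_sym {ι : Type} [Fintype ι] (A : Set (ι → ℝ)) (hA : IsCompact A) :
    volume A ≤ volume {z : ι → ℝ | ∃ a ∈ A, ∃ b ∈ A, z = (1/2 : ℝ) • (a - b)} := by
  obtain ⟨Z, hZ⟩ : ∃ Z : Set (ι → ℝ), Z = {z : ι → ℝ | ∃ a ∈ A, ∃ b ∈ A,
      z = (1/2 : ℝ) • (a - b)} := ⟨_, rfl⟩
  rw [← hZ]
  have hZ2 : Z = (fun p : (ι → ℝ) × (ι → ℝ) => (1/2 : ℝ) • (p.1 - p.2)) '' (A ×ˢ A) := by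
    rw [hZ]
    ext z
    constructor
    · rintro ⟨a, ha, b, hb, rfl⟩
      exact ⟨(a, b), ⟨ha, hb⟩, rfl⟩
    · rintro ⟨⟨a, b⟩, ⟨ha, hb⟩, rfl⟩
      exact ⟨a, ha, b, hb, rfl⟩
  have hZc : IsCompact Z := by
    rw [hZ2]
    exact (hA.prod hA).image (by fun_prop)
  have hAm : MeasurableSet A := hA.measurableSet
  have hNm : MeasurableSet (-A) := hA.neg.measurableSet
  have hZm : MeasurableSet Z := hZc.measurableSet
  have h := pln (A.indicator (1 : (ι → ℝ) → ℝ≥0∞)) ((-A).indicator (1 : (ι → ℝ) → ℝ≥0∞))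
    (Z.indicator (1 : (ι → ℝ) → ℝ≥0∞)) (measurable_one.indicator hAm)
    (measurable_one.indicator hNm) (measurable_one.indicator hZm) (by
      intro x y
      by_cases hx : x ∈ A
      · by_cases hy : y ∈ -A
        · have hz : (fun i => (x i + y i) / 2) ∈ Z := by
            rw [hZ]
            refine ⟨x, hx, -y, hy, ?_⟩
            funext i
            show (x i + y i) / 2 = 1 / 2 * (x i - -(y i))
            ring
          rw [Set.indicator_of_mem hx, Set.indicator_of_mem hy, Set.indicator_of_mem hz]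
          simp
        · rw [Set.indicator_of_notMem hy, mul_zero]
          exact bot_le
      · rw [Set.indicator_of_notMem hx, zero_mul]
        exact bot_le)
  rw [lintegral_indicator_one hAm, lintegral_indicator_one hNm, lintegral_indicator_one hZm,
    Measure.measure_neg] at h
  by_contra hcon
  push Not at hcon
  have h2 := ENNReal.mul_lt_mul hcon hcon
  rw [sq] at h
  exact absurd h (not_le.2 h2)


end Sol_bm_sym

alias bm_sym := Sol_bm_sym.bm_sym

end BSheet
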