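import Pool.Agent.BSheet.Defs
open MeasureTheory Real
open scoped ENNReal BigOperators

namespace BSheet
open ProbabilityTheory
namespace Sol_card_BIdx




theorem card_trunc_h925 (n : ℕ) (s : Fin (n+1)) :
    Fintype.card {x : Str n // trunc (s : ℕ) x = x} = 4 ^ (s : ℕ) := by
  classical
  have e : {x : Str n // trunc (s : ℕ) x = x} ≃
      ((j : Fin (n+1)) → {a : Fin 4 // ¬ (j : ℕ) < (s : ℕ) → a = 0}) :=
    { toFun := fun x j => ⟨x.1 j, fun hj => by
        have := congrFun x.2 j
        simp only [trunc, if_neg hj] at this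
        exact this.symm⟩
      invFun := fun y => ⟨fun j => (y j).1, by
        funext j
        by_cases hj : (j : ℕ) < (s : ℕ)
        · simp only [trunc, if_pos hj]
        · simp only [trunc, if_neg hj]
          exact ((y j).2 hj).symm⟩
      left_inv := fun x => rfl
      right_inv := fun y => rfl }
  rw [Fintype.card_congr e, Fintype.card_pi]
  have h1 : ∀ j : Fin (n+1), Fintype.card {a : Fin 4 // ¬ (j : ℕ) < (s : ℕ) → a = 0}
      = if (j : ℕ) < (s : ℕ) then 4 else 1 := by
    intro j
    by_cases hj : (j : ℕ) < (s : ℕ)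
    · rw [if_pos hj, Fintype.card_subtype]
      simp [hj]
    · rw [if_neg hj, Fintype.card_subtype]
      have h3 : (Finset.univ.filter (fun a : Fin 4 => ¬ (j : ℕ) < (s : ℕ) → a = 0)) = {0} := by
        ext a
        simp [hj]
      rw [h3, Finset.card_singleton]
  rw [Finset.prod_congr rfl (fun j _ => h1 j), Finset.prod_ite]
  simp only [Finset.prod_const, one_pow, mul_one]
  congr 1
  have h2 : (Finset.univ.filter (fun x : Fin (n+1) => (x : ℕ) < (s : ℕ))) = Finset.Iio s := by
    ext x
    simp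
  rw [h2, Fin.card_Iio]

theorem card_BIdx (D n k : ℕ) (hk : k ≤ n) : Fintype.card (BIdx D n k) = ms D n k * 4^(n-k) := by
  classical
  have e : BIdx D n k ≃ ((s : {s : Fin D → Fin (n+1) // (∑ i, ((s i : Fin (n+1)) : ℕ)) + k = n}) ×
      ((i : Fin D) → {x : Str n // trunc ((s.1 i : Fin (n+1)) : ℕ) x = x})) :=
    { toFun := fun r => ⟨⟨r.1.1, r.2.1⟩, fun i => ⟨r.1.2 i, r.2.2 i⟩⟩
      invFun := fun y => ⟨(y.1.1, fun i => (y.2 i).1), y.1.2, fun i => (y.2 i).2⟩
      left_inv := fun r => rfl
      right_inv := fun y => rfl }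
  rw [Fintype.card_congr e, Fintype.card_sigma]
  have h1 : ∀ s : {s : Fin D → Fin (n+1) // (∑ i, ((s i : Fin (n+1)) : ℕ)) + k = n},
      Fintype.card ((i : Fin D) → {x : Str n // trunc ((s.1 i : Fin (n+1)) : ℕ) x = x}) = 4 ^ (n - k) := by
    intro s
    rw [Fintype.card_pi]
    rw [Finset.prod_congr rfl (fun i _ => card_trunc_h925 n (s.1 i)), Finset.prod_pow_eq_pow_sum]
    congr 1
    have := s.2
    omega
  rw [Finset.sum_congr rfl (fun s _ => h1 s), Finset.sum_const, Finset.card_univ, smul_eq_mul]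
  rfl


end Sol_card_BIdx

alias card_BIdx := Sol_card_BIdx.card_BIdx

end BSheet
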