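import Pool.Agent.BSheet.Defs
open MeasureTheory Real
open scoped ENNReal BigOperators

namespace BSheet
open ProbabilityTheory
namespace Sol_card_level



theorem card_level (n : ℕ) (k : Fin (n+1)) :
    (Finset.univ.filter (fun κ : Node n => κ.1.1 = k)).card = 4^(k:ℕ) := by
  have hk := k.2
  have h1 : (Finset.univ.filter (fun κ : Node n => κ.1.1 = k)).card =
      (Finset.univ : Finset (Fin (k:ℕ) → Fin 4)).card := by
    refine Finset.card_bij (fun κ _ => fun j : Fin (k:ℕ) => κ.1.2 ⟨(j:ℕ), by have := j.2; omega⟩)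
      (fun _ _ => Finset.mem_univ _) ?_ ?_
    · rintro ⟨⟨a, x⟩, hx⟩ h1 ⟨⟨a', x'⟩, hx'⟩ h2 h
      have ha : a = k := (Finset.mem_filter.1 h1).2
      have ha' : a' = k := (Finset.mem_filter.1 h2).2
      subst ha
      subst ha'
      have hxx : x = x' := by
        have e1 : trunc (a':ℕ) x = x := hx
        have e2 : trunc (a':ℕ) x' = x' := hx'
        funext j
        rw [← e1, ← e2]
        show (if (j:ℕ) < (a':ℕ) then x j else 0) = (if (j:ℕ) < (a':ℕ) then x' j else 0)
        by_cases h4 : (j:ℕ) < (a':ℕ)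
        · rw [if_pos h4, if_pos h4]
          exact congrFun h ⟨(j:ℕ), h4⟩
        · rw [if_neg h4, if_neg h4]
      subst hxx
      rfl
    · intro f _
      refine ⟨⟨(k, fun j => if h : (j:ℕ) < (k:ℕ) then f ⟨(j:ℕ), h⟩ else 0), ?_⟩, ?_, ?_⟩
      · funext j
        show (if (j:ℕ) < (k:ℕ) then (if h : (j:ℕ) < (k:ℕ) then f ⟨(j:ℕ), h⟩ else 0) else 0) =
          if h : (j:ℕ) < (k:ℕ) then f ⟨(j:ℕ), h⟩ else 0
        by_cases h4 : (j:ℕ) < (k:ℕ)
        · rw [if_pos h4]
        · rw [if_neg h4, dif_neg h4]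
      · exact Finset.mem_filter.2 ⟨Finset.mem_univ _, rfl⟩
      · funext j
        show (if h : (j:ℕ) < (k:ℕ) then f ⟨(j:ℕ), h⟩ else 0) = f j
        rw [dif_pos j.2]
  rw [h1, Finset.card_univ, Fintype.card_fun, Fintype.card_fin, Fintype.card_fin]



end Sol_card_level

alias card_level := Sol_card_level.card_level

end BSheet
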