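import Pool.Agent.BSheet.Defs
open MeasureTheory Real
open scoped ENNReal BigOperators

namespace BSheet
open ProbabilityTheory
namespace Sol_counting



/-! ### helper lemmas for `counting` -/

/-- agreement of the first `r` digits -/
def Agr28039 {n : ℕ} (a b : Str n) (r : ℕ) : Prop := ∀ j : Fin (n+1), (j:ℕ) < r → a j = b j

instance instDecAgr28039 {n : ℕ} (a b : Str n) : DecidablePred (Agr28039 a b) := fun r => by
  unfold Agr28039; infer_instance

theorem trunc_iff28039 {n : ℕ} (r : ℕ) (a b : Str n) :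
    trunc r a = trunc r b ↔ Agr28039 a b r := by
  constructor
  · intro h j hj
    have h2 := congrFun h j
    simp only [trunc, if_pos hj] at h2
    exact h2
  · intro h
    funext j
    simp only [trunc]
    split_ifs with hj
    · exact h j hj
    · rfl

/-- length of the longest common beginning -/
def TT28039 {n : ℕ} (a b : Str n) : ℕ := Nat.findGreatest (Agr28039 a b) (n+1)

theorem agr_TT28039 {n : ℕ} (a b : Str n) : Agr28039 a b (TT28039 a b) :=
  Nat.findGreatest_spec (P := Agr28039 a b) (m := 0) (Nat.zero_le _) (fun j hj => by omega)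

theorem le_TT28039 {n : ℕ} {a b : Str n} {r : ℕ} (hr : r ≤ n + 1) (h : Agr28039 a b r) :
    r ≤ TT28039 a b := Nat.le_findGreatest hr h

theorem TT_le28039 {n : ℕ} (a b : Str n) : TT28039 a b ≤ n + 1 := Nat.findGreatest_le _

theorem card_agr28039 {n : ℕ} (a : Str n) (r : ℕ) (hr : r ≤ n + 1) :
    ∑ b : Str n, (if Agr28039 a b r then (1:ℝ) else 0) = 4 ^ (n + 1 - r) := by
  rw [← Finset.sum_filter, Finset.sum_const, nsmul_eq_mul, mul_one]
  have h1 : Finset.univ.filter (fun b : Str n => Agr28039 a b r) =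
      Fintype.piFinset (fun j : Fin (n+1) => if (j:ℕ) < r then {a j} else Finset.univ) := by
    ext b
    rw [Finset.mem_filter, Fintype.mem_piFinset]
    constructor
    · rintro ⟨_, h⟩ j
      split_ifs with hj
      · exact Finset.mem_singleton.mpr (h j hj).symm
      · exact Finset.mem_univ _
    · intro h
      refine ⟨Finset.mem_univ _, fun j hj => ?_⟩
      have h2 := h j
      rw [if_pos hj] at h2
      exact (Finset.mem_singleton.mp h2).symm
  rw [h1, Fintype.card_piFinset]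
  have h2 : ∀ j : Fin (n+1), (if (j:ℕ) < r then ({a j} : Finset (Fin 4)) else Finset.univ).card =
      if (j:ℕ) < r then 1 else 4 := by
    intro j
    split_ifs
    · rfl
    · rfl
  rw [Finset.prod_congr rfl (fun j _ => h2 j),
    Fin.prod_univ_eq_prod_range (fun j => if j < r then 1 else 4) (n+1), Finset.prod_ite,
    Finset.prod_const_one, one_mul, Finset.prod_const]
  have h3 : (Finset.range (n+1)).filter (fun x => ¬ x < r) = Finset.Ico r (n+1) := by
    ext x
    rw [Finset.mem_filter, Finset.mem_range, Finset.mem_Ico]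
    omega
  rw [h3, Nat.card_Ico]
  push_cast
  rfl

theorem one_coord28039 (n s : ℕ) (hs : s ≤ n + 1) :
    ∑ a : Str n, ∑ b : Str n, (if Agr28039 a b s then (2:ℝ) ^ (TT28039 a b - s) else 0) ≤
      2 * ((4:ℝ) ^ (n+1) * (4:ℝ) ^ (n+1)) / 4 ^ s := by
  have h1 : ∀ a b : Str n, (if Agr28039 a b s then (2:ℝ) ^ (TT28039 a b - s) else 0) ≤
      ∑ u ∈ Finset.range (n + 2 - s), (2:ℝ) ^ u * (if Agr28039 a b (s + u) then (1:ℝ) else 0) := by
    intro a b
    split_ifs with h
    · have h2 := le_TT28039 hs h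
      have h3 := TT_le28039 a b
      have hmem : TT28039 a b - s ∈ Finset.range (n + 2 - s) := by
        rw [Finset.mem_range]
        omega
      have h4 : (2:ℝ) ^ (TT28039 a b - s) *
          (if Agr28039 a b (s + (TT28039 a b - s)) then (1:ℝ) else 0) =
          (2:ℝ) ^ (TT28039 a b - s) := by
        rw [Nat.add_sub_cancel' h2, if_pos (agr_TT28039 a b), mul_one]
      rw [← h4]
      apply Finset.single_le_sum (f := fun u => (2:ℝ) ^ u *
        (if Agr28039 a b (s + u) then (1:ℝ) else 0)) _ hmem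
      intro u _
      positivity
    · apply Finset.sum_nonneg
      intro u _
      positivity
  have h2 : ∀ a : Str n, ∑ b : Str n, (if Agr28039 a b s then (2:ℝ) ^ (TT28039 a b - s) else 0) ≤
      2 * (4:ℝ) ^ (n+1) / 4 ^ s := by
    intro a
    calc ∑ b : Str n, (if Agr28039 a b s then (2:ℝ) ^ (TT28039 a b - s) else 0)
        ≤ ∑ b : Str n, ∑ u ∈ Finset.range (n + 2 - s),
            (2:ℝ) ^ u * (if Agr28039 a b (s + u) then (1:ℝ) else 0) :=
          Finset.sum_le_sum (fun b _ => h1 a b)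
      _ = ∑ u ∈ Finset.range (n + 2 - s), (2:ℝ) ^ u * 4 ^ (n + 1 - (s + u)) := by
          rw [Finset.sum_comm]
          refine Finset.sum_congr rfl (fun u hu => ?_)
          rw [← Finset.mul_sum, card_agr28039 a (s + u) (by rw [Finset.mem_range] at hu; omega)]
      _ = ∑ u ∈ Finset.range (n + 2 - s), ((4:ℝ) ^ (n+1) / 4 ^ s) * (1/2) ^ u := by
          refine Finset.sum_congr rfl (fun u hu => ?_)
          have hu' : s + u ≤ n + 1 := by rw [Finset.mem_range] at hu; omega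
          have h4 : (4:ℝ) ^ (n + 1 - (s + u)) * (4 ^ s * (2 ^ u * 2 ^ u)) = 4 ^ (n + 1) := by
            rw [← mul_pow, show ((2:ℝ) * 2) = 4 by norm_num, ← pow_add, ← pow_add,
              Nat.sub_add_cancel hu']
          have h5 : (0:ℝ) < 4 ^ s := by positivity
          have h6 : (0:ℝ) < 2 ^ u := by positivity
          rw [← h4, one_div, inv_pow]
          field_simp
      _ = ((4:ℝ) ^ (n+1) / 4 ^ s) * ∑ u ∈ Finset.range (n + 2 - s), (1/2 : ℝ) ^ u := by
          rw [Finset.mul_sum]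
      _ ≤ ((4:ℝ) ^ (n+1) / 4 ^ s) * 2 := by
          apply mul_le_mul_of_nonneg_left _ (by positivity)
          have h7 := geom_sum_eq (show (1/2 : ℝ) ≠ 1 by norm_num) (n + 2 - s)
          rw [h7]
          have h8 : (0:ℝ) ≤ (1/2) ^ (n + 2 - s) := by positivity
          have h9 : ((1/2 : ℝ) ^ (n + 2 - s) - 1) / (1/2 - 1) = 2 - 2 * (1/2) ^ (n + 2 - s) := by
            ring
          rw [h9]
          linarith
      _ = 2 * (4:ℝ) ^ (n+1) / 4 ^ s := by ring
  calc ∑ a : Str n, ∑ b : Str n, (if Agr28039 a b s then (2:ℝ) ^ (TT28039 a b - s) else 0)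
      ≤ ∑ a : Str n, 2 * (4:ℝ) ^ (n+1) / 4 ^ s := Finset.sum_le_sum (fun a _ => h2 a)
    _ = (4:ℝ) ^ (n+1) * (2 * (4:ℝ) ^ (n+1) / 4 ^ s) := by
        rw [Finset.sum_const, nsmul_eq_mul, Finset.card_univ, Fintype.card_fun,
          Fintype.card_fin, Fintype.card_fin]
        push_cast
        rfl
    _ = 2 * ((4:ℝ) ^ (n+1) * (4:ℝ) ^ (n+1)) / 4 ^ s := by ring

theorem prod_sum28039 {n D : ℕ} (g : Fin D → Str n → Str n → ℝ) :
    ∑ x : Fin D → Str n, ∑ y : Fin D → Str n, ∏ i, g i (x i) (y i) =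
      ∏ i, ∑ a : Str n, ∑ b : Str n, g i a b := by
  have h1 : ∀ x : Fin D → Str n, ∑ y : Fin D → Str n, ∏ i, g i (x i) (y i) =
      ∏ i, ∑ b : Str n, g i (x i) b := by
    intro x
    rw [Finset.prod_univ_sum, Fintype.piFinset_univ]
  rw [Finset.sum_congr rfl (fun x _ => h1 x), Finset.prod_univ_sum, Fintype.piFinset_univ]

theorem all_coord28039 {n D : ℕ} (s : Fin D → Fin (n+1)) :
    ∑ x : Fin D → Str n, ∑ y : Fin D → Str n,
      ∏ i, (if Agr28039 (x i) (y i) (s i) then (2:ℝ) ^ (TT28039 (x i) (y i) - s i) else 0) ≤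
      2 ^ D * ((4:ℝ) ^ ((n+1) * D) * (4:ℝ) ^ ((n+1) * D)) / 4 ^ (∑ i, ((s i : Fin (n+1)) : ℕ)) := by
  rw [prod_sum28039 (fun i a b => if Agr28039 a b (s i) then (2:ℝ) ^ (TT28039 a b - s i) else 0)]
  calc ∏ i, ∑ a : Str n, ∑ b : Str n,
        (if Agr28039 a b (s i) then (2:ℝ) ^ (TT28039 a b - s i) else 0)
      ≤ ∏ i : Fin D, 2 * ((4:ℝ) ^ (n+1) * (4:ℝ) ^ (n+1)) / 4 ^ ((s i : Fin (n+1)) : ℕ) := by
        apply Finset.prod_le_prod
        · intro i _
          apply Finset.sum_nonneg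
          intro a _
          apply Finset.sum_nonneg
          intro b _
          split_ifs <;> positivity
        · intro i _
          exact one_coord28039 n (s i) (by have := (s i).2; omega)
    _ = 2 ^ D * ((4:ℝ) ^ ((n+1) * D) * (4:ℝ) ^ ((n+1) * D)) /
          4 ^ (∑ i, ((s i : Fin (n+1)) : ℕ)) := by
        rw [Finset.prod_div_distrib, Finset.prod_const, Finset.card_univ, Fintype.card_fin,
          Finset.prod_pow_eq_pow_sum, mul_pow, mul_pow, ← pow_mul]

theorem cnt_eq28039 {n D : ℕ} (k : ℕ) (x y : Fin D → Str n) :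
    (cnt D k x y : ℝ) = ∑ s : Fin D → Fin (n+1),
      (if ((∑ i, ((s i : Fin (n+1)) : ℕ)) + k = n ∧ ∀ i, Agr28039 (x i) (y i) (s i))
        then (1:ℝ) else 0) := by
  unfold cnt
  rw [Fintype.card_subtype, Finset.card_filter]
  push_cast
  refine Finset.sum_congr rfl (fun s _ => ?_)
  exact if_congr (and_congr Iff.rfl (forall_congr' fun i => trunc_iff28039 _ _ _)) rfl rfl

theorem ms_eq28039 (D n k : ℕ) :
    (ms D n k : ℝ) = ∑ s : Fin D → Fin (n+1),
      (if (∑ i, ((s i : Fin (n+1)) : ℕ)) + k = n then (1:ℝ) else 0) := by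
  unfold ms
  rw [Fintype.card_subtype, Finset.card_filter]
  push_cast
  rfl

theorem sum_TT28039 {n D : ℕ} (x y : Fin D → Str n) (s : Fin D → Fin (n+1))
    (hA : ∀ i, Agr28039 (x i) (y i) (s i)) :
    (∑ i, (TT28039 (x i) (y i) - s i)) + ∑ i, ((s i : Fin (n+1)) : ℕ) =
      ∑ i, TT28039 (x i) (y i) := by
  rw [← Finset.sum_add_distrib]
  refine Finset.sum_congr rfl (fun i _ => ?_)
  have h1 : ((s i : Fin (n+1)) : ℕ) ≤ TT28039 (x i) (y i) :=
    le_TT28039 (by have := (s i).2; omega) (hA i)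
  omega

theorem cnt_le28039 {n D : ℕ} (k j : ℕ) (hjk : j ≤ k) (x y : Fin D → Str n)
    (s0 : Fin D → Fin (n+1)) (h0 : (∑ i, ((s0 i : Fin (n+1)) : ℕ)) + k = n)
    (hA : ∀ i, Agr28039 (x i) (y i) (s0 i)) :
    cnt D j x y ≤ ((∑ i, (TT28039 (x i) (y i) - s0 i)) + 1) ^ D ∧
      (cnt D j x y ≠ 0 → k ≤ j + ∑ i, (TT28039 (x i) (y i) - s0 i)) := by
  have h1 := sum_TT28039 x y s0 hA
  have key : ∀ s : Fin D → Fin (n+1), (∑ i, ((s i : Fin (n+1)) : ℕ)) + j = n →
      (∀ i, trunc (s i) (x i) = trunc (s i) (y i)) →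
      (∑ i, (TT28039 (x i) (y i) - s i)) + k = j + ∑ i, (TT28039 (x i) (y i) - s0 i) := by
    intro s hs hs2
    have h2 := sum_TT28039 x y s (fun i => (trunc_iff28039 _ _ _).mp (hs2 i))
    omega
  constructor
  · have h3 : Fintype.card (Fin D → Fin ((∑ i, (TT28039 (x i) (y i) - s0 i)) + 1)) =
        ((∑ i, (TT28039 (x i) (y i) - s0 i)) + 1) ^ D := by
      rw [Fintype.card_fun, Fintype.card_fin, Fintype.card_fin]
    rw [← h3]
    unfold cnt
    have hle : ∀ (s : {s : Fin D → Fin (n+1) // (∑ i, ((s i : Fin (n+1)) : ℕ)) + j = n ∧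
        ∀ i, trunc (s i) (x i) = trunc (s i) (y i)}) (i : Fin D),
        TT28039 (x i) (y i) - s.1 i < (∑ i, (TT28039 (x i) (y i) - s0 i)) + 1 := by
      intro s i
      have h4 := key s.1 s.2.1 s.2.2
      have h5 : TT28039 (x i) (y i) - s.1 i ≤ ∑ i, (TT28039 (x i) (y i) - s.1 i) :=
        Finset.single_le_sum (f := fun i => TT28039 (x i) (y i) - ((s.1 i : Fin (n+1)) : ℕ))
          (fun _ _ => Nat.zero_le _) (Finset.mem_univ i)
      omega
    apply Fintype.card_le_of_injective (fun s i => ⟨TT28039 (x i) (y i) - s.1 i, hle s i⟩)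
    intro s s' hss
    apply Subtype.ext
    funext i
    apply Fin.ext
    have h6 := congrArg Fin.val (congrFun hss i)
    simp only at h6
    have h7 : ((s.1 i : Fin (n+1)) : ℕ) ≤ TT28039 (x i) (y i) :=
      le_TT28039 (by have := (s.1 i).2; omega) ((trunc_iff28039 _ _ _).mp (s.2.2 i))
    have h8 : ((s'.1 i : Fin (n+1)) : ℕ) ≤ TT28039 (x i) (y i) :=
      le_TT28039 (by have := (s'.1 i).2; omega) ((trunc_iff28039 _ _ _).mp (s'.2.2 i))
    omega
  · intro hne
    have h9 : 0 < cnt D j x y := Nat.pos_of_ne_zero hne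
    unfold cnt at h9
    obtain ⟨s, hs, hs2⟩ := Fintype.card_pos_iff.mp h9
    have := key s hs hs2
    omega

theorem cnt_le_ms28039 {n D : ℕ} (j : ℕ) (x y : Fin D → Str n) : cnt D j x y ≤ ms D n j := by
  unfold cnt ms
  apply Fintype.card_le_of_injective (fun s => ⟨s.1, s.2.1⟩)
  intro s s' h
  simp only [Subtype.mk.injEq] at h
  exact Subtype.ext h

theorem ms_mono28039 {D n j k : ℕ} (hD : 1 ≤ D) (hjk : j ≤ k) (hk : k ≤ n) :
    ms D n k ≤ ms D n j := by
  unfold ms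
  let i0 : Fin D := ⟨0, hD⟩
  have hb : ∀ (s : {s : Fin D → Fin (n+1) // (∑ i, ((s i : Fin (n+1)) : ℕ)) + k = n}) (i : Fin D),
      ((s.1 i : Fin (n+1)) : ℕ) + (if i = i0 then (k - j) else 0) < n + 1 := by
    intro s i
    have h5 : ((s.1 i : Fin (n+1)) : ℕ) ≤ ∑ i, ((s.1 i : Fin (n+1)) : ℕ) :=
      Finset.single_le_sum (f := fun i => ((s.1 i : Fin (n+1)) : ℕ))
        (fun _ _ => Nat.zero_le _) (Finset.mem_univ i)
    have h6 := s.2
    split_ifs <;> omega
  apply Fintype.card_le_of_injective (fun s => ⟨fun i => ⟨_, hb s i⟩, by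
    have h6 := s.2
    simp only [Finset.sum_add_distrib, Finset.sum_ite_eq', Finset.mem_univ, if_true]
    omega⟩)
  intro s s' h
  apply Subtype.ext
  funext i
  apply Fin.ext
  have h2 := congrArg Fin.val (congrFun (congrArg Subtype.val h) i)
  simp only at h2
  omega

theorem exp_sub28039 (z : ℝ) : Real.exp z - 1 ≤ z * Real.exp z := by
  have h1 := Real.add_one_le_exp (-z)
  have h2 : Real.exp (-z) * Real.exp z = 1 := by
    rw [← Real.exp_add, neg_add_cancel, Real.exp_zero]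
  have h3 := mul_le_mul_of_nonneg_right h1 (Real.exp_pos z).le
  rw [h2] at h3
  linarith

theorem card_win28039 {n : ℕ} (k : Fin (n+1)) (t : ℕ) :
    (Finset.univ.filter (fun j : Fin (n+1) => j < k ∧ (k:ℕ) ≤ j + t)).card ≤ t := by
  have h1 : (Finset.univ.filter (fun j : Fin (n+1) => j < k ∧ (k:ℕ) ≤ j + t)).card ≤
      (Finset.Ico ((k:ℕ) - t) k).card := by
    apply Finset.card_le_card_of_injOn (fun j : Fin (n+1) => (j:ℕ))
    · intro j hj
      rw [Finset.mem_coe, Finset.mem_filter] at hj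
      rw [Finset.mem_coe, Finset.mem_Ico]
      show (k:ℕ) - t ≤ (j:ℕ) ∧ (j:ℕ) < (k:ℕ)
      have h3 := hj.2.1
      have h4 := hj.2.2
      rw [Fin.lt_def] at h3
      constructor
      · omega
      · exact h3
    · intro j _ j' _ h
      exact Fin.ext h
  rw [Nat.card_Ico] at h1
  omega

theorem Z_le28039 {n : ℕ} (k : Fin (n+1)) (t : ℕ) (b : ℝ) (hb : 0 ≤ b) (r : Fin (n+1) → ℝ)
    (h1 : ∀ j, j < k → r j ≤ b) (h2 : ∀ j, j < k → ¬ ((k:ℕ) ≤ j + t) → r j = 0) :
    ∑ j : Fin (n+1), (if j < k then r j else 0) ≤ t * b := by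
  calc ∑ j : Fin (n+1), (if j < k then r j else 0)
      ≤ ∑ j : Fin (n+1), (if j < k ∧ (k:ℕ) ≤ j + t then b else 0) := by
        apply Finset.sum_le_sum
        intro j _
        by_cases hj : j < k
        · rw [if_pos hj]
          by_cases hj2 : (k:ℕ) ≤ j + t
          · rw [if_pos ⟨hj, hj2⟩]
            exact h1 j hj
          · rw [if_neg (fun h => hj2 h.2), h2 j hj hj2]
        · rw [if_neg hj, if_neg (fun h => hj h.1)]
    _ = ((Finset.univ.filter (fun j : Fin (n+1) => j < k ∧ (k:ℕ) ≤ j + t)).card : ℝ) * b := by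
        rw [← Finset.sum_filter, Finset.sum_const, nsmul_eq_mul]
    _ ≤ t * b := by
        apply mul_le_mul_of_nonneg_right _ hb
        exact_mod_cast card_win28039 k t

theorem maj_le28039 {n D : ℕ} (hD : 1 ≤ D) (k : Fin (n+1)) (x y : Fin D → Str n)
    (s0 : Fin D → Fin (n+1)) (h0 : (∑ i, ((s0 i : Fin (n+1)) : ℕ)) + k = n)
    (hA : ∀ i, Agr28039 (x i) (y i) (s0 i)) (t : ℕ)
    (ht : t = ∑ i, (TT28039 (x i) (y i) - s0 i)) :
    maj D k x y ≤ 2 * ((t:ℝ) + 1) ^ (D + 1) * Real.exp ((t:ℝ) / 16) / (ms D n k : ℝ) ∧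
      0 ≤ maj D k x y := by
  have hmsk : 0 < ms D n k := by
    unfold ms
    exact Fintype.card_pos_iff.mpr ⟨⟨s0, h0⟩⟩
  have hmskr : (0:ℝ) < ms D n k := by exact_mod_cast hmsk
  have hk : (k:ℕ) ≤ n := by have := k.2; omega
  have hrho0 : ∀ j : ℕ, 0 ≤ rho D j x y := by
    intro j
    unfold rho
    positivity
  have hrho1 : ∀ j : Fin (n+1), j < k → rho D j x y ≤ 1 := by
    intro j _
    unfold rho
    apply div_le_one_of_le₀ _ (by positivity)
    exact_mod_cast cnt_le_ms28039 (j:ℕ) x y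
  have hcnt : ∀ j : Fin (n+1), j ≤ k → (cnt D j x y : ℝ) ≤ ((t:ℝ) + 1) ^ D := by
    intro j hj
    have h1 := (cnt_le28039 (k:ℕ) (j:ℕ) hj x y s0 h0 hA).1
    rw [← ht] at h1
    exact_mod_cast h1
  have hrho2 : ∀ j : Fin (n+1), j ≤ k → rho D j x y ≤ ((t:ℝ) + 1) ^ D / (ms D n k : ℝ) := by
    intro j hj
    unfold rho
    have h2 : (ms D n k : ℝ) ≤ ms D n j := by
      exact_mod_cast ms_mono28039 hD hj hk
    exact div_le_div₀ (by positivity) (hcnt j hj) hmskr h2
  have hrho3 : ∀ j : Fin (n+1), j < k → ¬ ((k:ℕ) ≤ j + t) → rho D j x y = 0 := by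
    intro j hj hj2
    have h1 := (cnt_le28039 (k:ℕ) (j:ℕ) (le_of_lt hj) x y s0 h0 hA).2
    rw [← ht] at h1
    have h3 : cnt D j x y = 0 := by
      by_contra h4
      exact hj2 (h1 h4)
    unfold rho
    rw [h3]
    simp
  set Z : ℝ := ∑ j : Fin (n+1), (if j < k then rho D j x y else 0) with hZ
  have hZ0 : 0 ≤ Z := by
    apply Finset.sum_nonneg
    intro j _
    split_ifs
    · exact hrho0 j
    · exact le_refl _
  have hZ1 : Z ≤ t * 1 := Z_le28039 k t 1 zero_le_one (fun j => rho D j x y) hrho1 hrho3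
  have hZ2 : Z ≤ t * (((t:ℝ) + 1) ^ D / (ms D n k : ℝ)) :=
    Z_le28039 k t _ (by positivity) (fun j => rho D j x y) (fun j hj => hrho2 j hj.le) hrho3
  have hmaj : maj D k x y = Real.exp ((1/16) * Z) - 1 + rho D k x y := rfl
  have ht0 : (0:ℝ) ≤ t := by positivity
  constructor
  · rw [hmaj]
    have h5 := exp_sub28039 ((1/16) * Z)
    have h6 : Real.exp ((1/16) * Z) ≤ Real.exp ((t:ℝ) / 16) := by
      apply Real.exp_le_exp.mpr
      linarith
    have h7 : (1/16) * Z * Real.exp ((1/16) * Z) ≤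
        ((1/16) * (t * (((t:ℝ) + 1) ^ D / (ms D n k : ℝ)))) * Real.exp ((t:ℝ) / 16) := by
      apply mul_le_mul _ h6 (Real.exp_pos _).le (by positivity)
      linarith
    have h8 := hrho2 k le_rfl
    have h9 : (1:ℝ) ≤ Real.exp ((t:ℝ) / 16) := Real.one_le_exp (by positivity)
    have h10 : 0 ≤ ((t:ℝ) + 1) ^ D / (ms D n k : ℝ) := by positivity
    have h11 : 2 * ((t:ℝ) + 1) ^ (D + 1) * Real.exp ((t:ℝ) / 16) / (ms D n k : ℝ) =
        2 * (t + 1) * (((t:ℝ) + 1) ^ D / (ms D n k : ℝ)) * Real.exp ((t:ℝ) / 16) := by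
      rw [pow_succ]
      ring
    rw [h11]
    set Q : ℝ := ((t:ℝ) + 1) ^ D / (ms D n k : ℝ) with hQ
    set e : ℝ := Real.exp ((t:ℝ) / 16) with he
    have h12 : Q ≤ Q * e := le_mul_of_one_le_right h10 h9
    have h13 : 0 ≤ Q * e := by positivity
    nlinarith
  · rw [hmaj]
    have h5 : 1 ≤ Real.exp ((1/16) * Z) := Real.one_le_exp (by positivity)
    have h6 := hrho0 k
    linarith

theorem const28039 (m : ℕ) : ∃ C : ℝ, 0 < C ∧ ∀ t : ℕ,
    ((t:ℝ) + 1) ^ m * Real.exp ((t:ℝ) / 16) ≤ C * 2 ^ t := by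
  have he : Real.exp (1/16) < 2 := by
    rw [← Real.lt_log_iff_exp_lt (by norm_num)]
    have := Real.log_two_gt_d9
    linarith
  set r : ℝ := Real.exp (1/16) / 2 with hr
  have hr0 : 0 < r := by positivity
  have hr1 : |r| < 1 := by
    rw [abs_of_pos hr0]
    linarith
  have h1 := tendsto_pow_const_mul_const_pow_of_abs_lt_one m hr1
  obtain ⟨B, hB⟩ := h1.bddAbove_range
  have hB' : ∀ n : ℕ, (n:ℝ) ^ m * r ^ n ≤ B := fun n => hB ⟨n, rfl⟩
  refine ⟨max B 1 / r, by positivity, ?_⟩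
  intro t
  have h2 := hB' (t + 1)
  have h3 : Real.exp ((t:ℝ) / 16) = r ^ t * 2 ^ t := by
    rw [← mul_pow, hr, div_mul_cancel₀ _ (by norm_num : (2:ℝ) ≠ 0), ← Real.exp_nat_mul]
    congr 1
    ring
  rw [h3]
  have h4 : ((t:ℝ) + 1) ^ m * r ^ t ≤ max B 1 / r := by
    rw [le_div_iff₀ hr0]
    refine le_trans ?_ (le_max_left B 1)
    refine le_trans (le_of_eq ?_) h2
    push_cast
    ring
  calc ((t:ℝ) + 1) ^ m * (r ^ t * 2 ^ t) = (((t:ℝ) + 1) ^ m * r ^ t) * 2 ^ t := by ring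
    _ ≤ max B 1 / r * 2 ^ t := mul_le_mul_of_nonneg_right h4 (by positivity)

theorem counting (D : ℕ) (hD : 1 ≤ D) : ∃ C : ℝ, 0 < C ∧ ∀ (n : ℕ) (k : Fin (n+1)),
    (4:ℝ)^(n-(k:ℕ)) * avg (fun x : Fin D → Str n => avg (fun y =>
        (cnt D k x y : ℝ)^2 * maj D k x y)) ≤ C := by
  obtain ⟨C0, hC0, hC⟩ := const28039 (D + (D + 1))
  refine ⟨2 * C0 * 2 ^ D, by positivity, ?_⟩
  intro n k
  -- pointwise bound
  have hpt : ∀ x y : Fin D → Str n, (cnt D k x y : ℝ)^2 * maj D k x y ≤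
      ∑ s : Fin D → Fin (n+1), (if (∑ i, ((s i : Fin (n+1)) : ℕ)) + k = n then
        (2 * C0 / (ms D n k : ℝ)) *
          ∏ i, (if Agr28039 (x i) (y i) (s i) then (2:ℝ) ^ (TT28039 (x i) (y i) - s i) else 0)
        else 0) := by
    intro x y
    have h1 : (cnt D k x y : ℝ)^2 * maj D k x y =
        (cnt D k x y : ℝ) * ((cnt D k x y : ℝ) * maj D k x y) := by ring
    rw [h1]
    conv_lhs => rw [cnt_eq28039, Finset.sum_mul]
    rw [← cnt_eq28039]
    apply Finset.sum_le_sum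
    intro s _
    by_cases hs : (∑ i, ((s i : Fin (n+1)) : ℕ)) + k = n
    · rw [if_pos hs]
      by_cases hA : ∀ i, Agr28039 (x i) (y i) (s i)
      · rw [if_pos ⟨hs, hA⟩, one_mul]
        obtain ⟨hm1, hm2⟩ := maj_le28039 hD k x y s hs hA _ rfl
        have hc := (cnt_le28039 (k:ℕ) (k:ℕ) le_rfl x y s hs hA).1
        set t : ℕ := ∑ i, (TT28039 (x i) (y i) - s i) with ht
        have hc' : (cnt D k x y : ℝ) ≤ ((t:ℝ) + 1) ^ D := by exact_mod_cast hc
        have hprod : ∏ i, (if Agr28039 (x i) (y i) (s i) then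
            (2:ℝ) ^ (TT28039 (x i) (y i) - s i) else 0) = 2 ^ t := by
          rw [ht, ← Finset.prod_pow_eq_pow_sum]
          refine Finset.prod_congr rfl (fun i _ => ?_)
          rw [if_pos (hA i)]
        rw [hprod]
        calc (cnt D k x y : ℝ) * maj D k x y ≤ ((t:ℝ) + 1) ^ D *
              (2 * ((t:ℝ) + 1) ^ (D + 1) * Real.exp ((t:ℝ) / 16) / (ms D n k : ℝ)) :=
              mul_le_mul hc' hm1 hm2 (by positivity)
          _ = 2 * (((t:ℝ) + 1) ^ (D + (D + 1)) * Real.exp ((t:ℝ) / 16)) / (ms D n k : ℝ) := by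
              rw [pow_add ((t:ℝ) + 1) D (D + 1)]
              ring
          _ ≤ 2 * (C0 * 2 ^ t) / (ms D n k : ℝ) := by
              have := hC t
              gcongr
          _ = (2 * C0 / (ms D n k : ℝ)) * 2 ^ t := by ring
      · rw [if_neg (fun h => hA h.2), zero_mul]
        have : 0 ≤ ∏ i, (if Agr28039 (x i) (y i) (s i) then
            (2:ℝ) ^ (TT28039 (x i) (y i) - s i) else 0) := by
          apply Finset.prod_nonneg
          intro i _
          split_ifs <;> positivity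
        positivity
    · rw [if_neg (fun h => hs h.1), if_neg hs, zero_mul]
  have hsum : ∑ x : Fin D → Str n, ∑ y : Fin D → Str n,
      (cnt D k x y : ℝ)^2 * maj D k x y ≤
      2 * C0 * (2 ^ D * ((4:ℝ) ^ ((n+1) * D) * (4:ℝ) ^ ((n+1) * D)) / 4 ^ (n - (k:ℕ))) := by
    calc ∑ x : Fin D → Str n, ∑ y : Fin D → Str n, (cnt D k x y : ℝ)^2 * maj D k x y
        ≤ ∑ x : Fin D → Str n, ∑ y : Fin D → Str n, ∑ s : Fin D → Fin (n+1),
          (if (∑ i, ((s i : Fin (n+1)) : ℕ)) + k = n then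
          (2 * C0 / (ms D n k : ℝ)) *
            ∏ i, (if Agr28039 (x i) (y i) (s i) then (2:ℝ) ^ (TT28039 (x i) (y i) - s i) else 0)
          else 0) :=
          Finset.sum_le_sum (fun x _ => Finset.sum_le_sum (fun y _ => hpt x y))
      _ = ∑ s : Fin D → Fin (n+1), (if (∑ i, ((s i : Fin (n+1)) : ℕ)) + k = n then
          (2 * C0 / (ms D n k : ℝ)) * ∑ x : Fin D → Str n, ∑ y : Fin D → Str n,
            ∏ i, (if Agr28039 (x i) (y i) (s i) then (2:ℝ) ^ (TT28039 (x i) (y i) - s i) else 0)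
          else 0) := by
          rw [Finset.sum_congr rfl (fun x _ => Finset.sum_comm), Finset.sum_comm]
          refine Finset.sum_congr rfl (fun s _ => ?_)
          by_cases hs : (∑ i, ((s i : Fin (n+1)) : ℕ)) + k = n
          · simp only [if_pos hs, Finset.mul_sum]
          · simp only [if_neg hs, Finset.sum_const_zero]
      _ ≤ ∑ s : Fin D → Fin (n+1), (if (∑ i, ((s i : Fin (n+1)) : ℕ)) + k = n then (1:ℝ) else 0) *
          ((2 * C0 / (ms D n k : ℝ)) *
            (2 ^ D * ((4:ℝ) ^ ((n+1) * D) * (4:ℝ) ^ ((n+1) * D)) / 4 ^ (n - (k:ℕ)))) := by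
          apply Finset.sum_le_sum
          intro s _
          by_cases hs : (∑ i, ((s i : Fin (n+1)) : ℕ)) + k = n
          · rw [if_pos hs, if_pos hs, one_mul]
            apply mul_le_mul_of_nonneg_left _ (by positivity)
            have h2 := all_coord28039 (n := n) (D := D) s
            have h3 : (∑ i, ((s i : Fin (n+1)) : ℕ)) = n - (k:ℕ) := by omega
            rw [h3] at h2
            exact h2
          · rw [if_neg hs, if_neg hs, zero_mul]
      _ = (ms D n k : ℝ) * ((2 * C0 / (ms D n k : ℝ)) *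
            (2 ^ D * ((4:ℝ) ^ ((n+1) * D) * (4:ℝ) ^ ((n+1) * D)) / 4 ^ (n - (k:ℕ)))) := by
          rw [← Finset.sum_mul, ← ms_eq28039]
      _ ≤ 2 * C0 * (2 ^ D * ((4:ℝ) ^ ((n+1) * D) * (4:ℝ) ^ ((n+1) * D)) / 4 ^ (n - (k:ℕ))) := by
          rw [← mul_assoc]
          apply mul_le_mul_of_nonneg_right _ (by positivity)
          by_cases h0 : (ms D n k : ℝ) = 0
          · rw [h0]
            simp only [zero_mul]
            positivity
          · rw [mul_div_cancel₀ _ h0]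
  have havg : avg (fun x : Fin D → Str n => avg (fun y =>
        (cnt D k x y : ℝ)^2 * maj D k x y)) =
      ((4:ℝ)^((n+1)*D))⁻¹ * ((4:ℝ)^((n+1)*D))⁻¹ * ∑ x : Fin D → Str n, ∑ y : Fin D → Str n,
        (cnt D k x y : ℝ)^2 * maj D k x y := by
    unfold avg
    rw [← Finset.mul_sum, ← mul_assoc]
  rw [havg]
  have hA : (0:ℝ) < (4:ℝ)^((n+1)*D) := by positivity
  have h4 : (0:ℝ) < (4:ℝ)^(n-(k:ℕ)) := by positivity
  calc (4:ℝ)^(n-(k:ℕ)) * (((4:ℝ)^((n+1)*D))⁻¹ * ((4:ℝ)^((n+1)*D))⁻¹ *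
        ∑ x : Fin D → Str n, ∑ y : Fin D → Str n, (cnt D k x y : ℝ)^2 * maj D k x y)
      ≤ (4:ℝ)^(n-(k:ℕ)) * (((4:ℝ)^((n+1)*D))⁻¹ * ((4:ℝ)^((n+1)*D))⁻¹ *
        (2 * C0 * (2 ^ D * ((4:ℝ) ^ ((n+1) * D) * (4:ℝ) ^ ((n+1) * D)) / 4 ^ (n - (k:ℕ))))) := by
        apply mul_le_mul_of_nonneg_left _ h4.le
        apply mul_le_mul_of_nonneg_left hsum (by positivity)
    _ = 2 * C0 * 2 ^ D := by
        field_simp


end Sol_counting

alias counting := Sol_counting.counting

end BSheet
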