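import Pool.Agent.BSheet.Defs
open MeasureTheory Real
open scoped ENNReal BigOperators

namespace BSheet
open ProbabilityTheory
namespace Sol_cov1



theorem cov1_lft {n : ℕ} (u : Str n) :
    lft u = ((∑ j : Fin (n+1), (u j : ℕ) * 4^(n - (j:ℕ)) : ℕ) : ℝ) * (1/4)^(n+1) := by
  rw [lft, Nat.cast_sum, Finset.sum_mul]
  refine Finset.sum_congr rfl fun j _ => ?_
  have hj : (j:ℕ) ≤ n := Nat.lt_succ_iff.1 j.2
  have h1 : (1/4:ℝ)^(n+1) = (1/4)^(n - (j:ℕ)) * (1/4)^((j:ℕ)+1) := by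
    rw [← pow_add]; congr 1; omega
  have h2 : (4:ℝ)^(n - (j:ℕ)) * (1/4:ℝ)^(n - (j:ℕ)) = 1 := by
    rw [← mul_pow]; norm_num
  rw [Nat.cast_mul, Nat.cast_pow, h1]
  push_cast
  linear_combination (-((u j : ℕ) : ℝ) * (1/4)^((j:ℕ)+1)) * h2

theorem cov1_inj {n : ℕ} (u v : Str n)
    (h : ∑ j : Fin (n+1), (u j : ℕ) * 4^(n - (j:ℕ)) = ∑ j : Fin (n+1), (v j : ℕ) * 4^(n - (j:ℕ))) :
    u = v := by
  have hr : ∀ w : Str n, ∑ j : Fin (n+1), (w j : ℕ) * 4^(n - (j:ℕ)) =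
      ((finFunctionFinEquiv (fun i => w (Fin.rev i)) : Fin (4^(n+1))) : ℕ) := by
    intro w
    rw [finFunctionFinEquiv_apply]
    refine Fintype.sum_equiv Fin.revPerm _ _ fun j => ?_
    simp only [Fin.revPerm_apply, Fin.rev_rev, Fin.val_rev]
    congr 2
    omega
  rw [hr u, hr v] at h
  have h1 := finFunctionFinEquiv.injective (Fin.ext h)
  funext j
  have h2 := congrFun h1 (Fin.rev j)
  simpa using h2

theorem cov1_dvd {n : ℕ} (k : Fin (n+1)) (u : Str n) (hu : trunc k u = u) :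
    4^(n + 1 - (k:ℕ)) ∣ ∑ j : Fin (n+1), (u j : ℕ) * 4^(n - (j:ℕ)) := by
  refine Finset.dvd_sum fun j _ => ?_
  by_cases hj : (j:ℕ) < k
  · exact Dvd.dvd.mul_left (pow_dvd_pow 4 (by omega)) _
  · have : u j = 0 := by
      have := congrFun hu j
      simp only [trunc, if_neg hj] at this
      exact this.symm
    rw [this]
    simp

theorem cov1_sep {n : ℕ} (k : Fin (n+1)) (u v : Str n) (hu : trunc k u = u) (hv : trunc k v = v)
    (hne : u ≠ v) : lft u + (1/4)^(k:ℕ) ≤ lft v ∨ lft v + (1/4)^(k:ℕ) ≤ lft u := by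
  obtain ⟨p, hp⟩ := cov1_dvd k u hu
  obtain ⟨q, hq⟩ := cov1_dvd k v hv
  have hpq : p ≠ q := by
    rintro rfl
    exact hne (cov1_inj u v (hp.trans hq.symm))
  have hM : ((4:ℕ):ℝ)^(n + 1 - (k:ℕ)) * (1/4:ℝ)^(n+1) = (1/4)^(k:ℕ) := by
    have h1 : n + 1 = (n + 1 - (k:ℕ)) + (k:ℕ) := by omega
    have h2 : (1/4:ℝ)^(n+1) = (1/4:ℝ)^(n + 1 - (k:ℕ)) * (1/4)^(k:ℕ) := by
      rw [← pow_add]; congr 1
    rw [h2, ← mul_assoc, ← mul_pow]
    norm_num
  have e1 : lft u = (p:ℝ) * (1/4)^(k:ℕ) := by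
    rw [cov1_lft, hp, Nat.cast_mul, Nat.cast_pow, ← hM]; ring
  have e2 : lft v = (q:ℝ) * (1/4)^(k:ℕ) := by
    rw [cov1_lft, hq, Nat.cast_mul, Nat.cast_pow, ← hM]; ring
  have hpos : (0:ℝ) < (1/4)^(k:ℕ) := by positivity
  rcases lt_or_gt_of_ne hpq with h | h
  · left
    have : (p:ℝ) + 1 ≤ q := by exact_mod_cast h
    rw [e1, e2]
    nlinarith
  · right
    have : (q:ℝ) + 1 ≤ p := by exact_mod_cast h
    rw [e1, e2]
    nlinarith

theorem cov1_ctr {n : ℕ} (k : ℕ) (x : Str n) :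
    ctr x = lft (trunc k x) + rel k x * (1/4)^k := by
  have h1 : (4:ℝ)^k * (1/4)^k = 1 := by rw [← mul_pow]; norm_num
  have h2 : rel k x * (1/4)^k = (∑ j : Fin (n+1), if k ≤ (j:ℕ) then ((x j : ℕ) : ℝ) * (1/4)^((j:ℕ)+1)
      else 0) + (1/2) * (1/4)^(n+1) := by
    rw [rel]
    linear_combination ((∑ j : Fin (n+1), if k ≤ (j:ℕ) then ((x j : ℕ) : ℝ) * (1/4)^((j:ℕ)+1)
      else 0) + (1/2) * (1/4)^(n+1)) * h1
  rw [h2, ctr, lft, ← add_assoc, ← Finset.sum_add_distrib]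
  congr 1
  refine Finset.sum_congr rfl fun j _ => ?_
  by_cases hj : (j:ℕ) < k
  · have hk : ¬ k ≤ (j:ℕ) := by omega
    simp only [trunc, if_pos hj, if_neg hk, add_zero]
  · have hk : k ≤ (j:ℕ) := by omega
    simp only [trunc, if_neg hj, if_pos hk]
    simp

theorem cov1_geo (k m : ℕ) (hkm : k ≤ m) :
    ∑ j ∈ Finset.range m, (if k ≤ j then (3:ℝ) * (1/4)^(j+1) else 0) = (1/4)^k - (1/4)^m := by
  induction m, hkm using Nat.le_induction with
  | base =>
    rw [sub_self]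
    refine Finset.sum_eq_zero fun j hj => ?_
    rw [if_neg]
    have := Finset.mem_range.1 hj
    omega
  | succ m hm ih =>
    rw [Finset.sum_range_succ, ih, if_pos hm]
    ring

theorem cov1_rel {n : ℕ} (k : Fin (n+1)) (x : Str n) : 0 < rel k x ∧ rel k x < 1 := by
  have h1 : (4:ℝ)^(k:ℕ) * (1/4)^(k:ℕ) = 1 := by rw [← mul_pow]; norm_num
  have h4 : (0:ℝ) < 4^(k:ℕ) := by positivity
  have hn : (0:ℝ) < (1/4)^(n+1) := by positivity
  constructor
  · rw [rel]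
    refine mul_pos h4 ?_
    have : 0 ≤ ∑ j : Fin (n+1), if (k:ℕ) ≤ (j:ℕ) then ((x j : ℕ) : ℝ) * (1/4)^((j:ℕ)+1) else 0 := by
      refine Finset.sum_nonneg fun j _ => ?_
      split_ifs
      · positivity
      · exact le_rfl
    linarith
  · have h2 : ∑ j : Fin (n+1), (if (k:ℕ) ≤ (j:ℕ) then ((x j : ℕ) : ℝ) * (1/4)^((j:ℕ)+1) else 0)
        ≤ (1/4)^(k:ℕ) - (1/4)^(n+1) := by
      rw [← cov1_geo (k:ℕ) (n+1) (le_of_lt k.2), ← Fin.sum_univ_eq_sum_range
        (fun j => if (k:ℕ) ≤ j then (3:ℝ) * (1/4)^(j+1) else 0) (n+1)]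
      refine Finset.sum_le_sum fun j _ => ?_
      split_ifs
      · refine mul_le_mul_of_nonneg_right ?_ (by positivity)
        have : (x j : ℕ) ≤ 3 := by have := (x j).2; omega
        exact_mod_cast this
      · exact le_rfl
    have h3 : rel k x ≤ (4:ℝ)^(k:ℕ) * ((1/4)^(k:ℕ) - (1/4)^(n+1) + (1/2) * (1/4)^(n+1)) := by
      rw [rel]
      exact mul_le_mul_of_nonneg_left (by linarith) h4.le
    have h5 : (4:ℝ)^(k:ℕ) * ((1/4)^(k:ℕ) - (1/4)^(n+1) + (1/2) * (1/4)^(n+1)) =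
      1 - (4:ℝ)^(k:ℕ) * (1/4)^(n+1) / 2 := by
      linear_combination h1
    have h6 := mul_pos h4 hn
    linarith

theorem cov1 {n : ℕ} (k : Fin (n+1)) (u x : Str n) (hu : trunc k u = u) :
    ∑ e : Fin 3, wgt e * min (pt k u e) (ctr x)
      = (1/4)^(k:ℕ) / 4 * (if trunc k x = u then chi k x else 0) := by
  have hδ : (0:ℝ) < (1/4)^(k:ℕ) := by positivity
  obtain ⟨t0, t1⟩ := cov1_rel k x
  have hc := cov1_ctr (k:ℕ) x
  set δ : ℝ := (1/4)^(k:ℕ) with hδd
  set t : ℝ := rel k x with ht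
  have e0 : pt k u 0 = lft u + (1/2) * δ := by simp [pt, hδd]
  have e1 : pt k u 1 = lft u := by simp [pt]
  have e2 : pt k u 2 = lft u + δ := by simp [pt, hδd]
  have w0 : wgt 0 = 1 := by simp [wgt]
  have w1 : wgt 1 = -1/2 := by simp [wgt]
  have w2 : wgt 2 = -1/2 := by simp [wgt]
  rw [Fin.sum_univ_three, e0, e1, e2, w0, w1, w2]
  by_cases hx : trunc k x = u
  · rw [if_pos hx]
    rw [hx] at hc
    have htd : 0 < t * δ := mul_pos t0 hδ
    have htd1 : t * δ < δ := by nlinarith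
    have m1 : min (lft u) (ctr x) = lft u := min_eq_left (by linarith)
    have m2 : min (lft u + δ) (ctr x) = ctr x := min_eq_right (by linarith)
    rw [m1, m2, chi, ← ht]
    rcases le_total t (1/2) with h | h
    · have m0 : min (lft u + 1/2 * δ) (ctr x) = ctr x := min_eq_right (by nlinarith)
      rw [m0, abs_of_nonpos (by linarith), hc]
      ring
    · have m0 : min (lft u + 1/2 * δ) (ctr x) = lft u + 1/2 * δ := min_eq_left (by nlinarith)
      rw [m0, abs_of_nonneg (by linarith), hc]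
      ring
  · rw [if_neg hx, mul_zero]
    have htd : 0 < t * δ := mul_pos t0 hδ
    have htd1 : t * δ < δ := by nlinarith
    rcases cov1_sep k (trunc k x) u (trunc_trunc _ _) hu hx with h | h
    · have hy : ctr x ≤ lft u := by linarith
      rw [min_eq_right (by linarith), min_eq_right hy, min_eq_right (by linarith)]
      ring
    · have hy : lft u + δ ≤ ctr x := by linarith
      rw [min_eq_left (by linarith), min_eq_left (by linarith), min_eq_left hy]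
      ring


end Sol_cov1

alias cov1 := Sol_cov1.cov1

end BSheet
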