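import Pool.Agent.BSheet.Defs
open MeasureTheory Real
open scoped ENNReal BigOperators

namespace BSheet
open ProbabilityTheory
namespace Sol_cov2



/-- the tent -/
noncomputable def tS_28232 (l h y : ℝ) : ℝ :=
  min (l + (1/2) * h) y - min l y / 2 - min (l + h) y / 2

theorem tS_out_28232 (l h y : ℝ) (hh : 0 ≤ h) (hy : y ≤ l ∨ l + h ≤ y) :
    tS_28232 l h y = 0 := by
  unfold tS_28232
  rcases hy with hy | hy
  · rw [min_eq_right (by linarith), min_eq_right hy, min_eq_right (by linarith)]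
    ring
  · rw [min_eq_left (by linarith), min_eq_left (by linarith), min_eq_left hy]
    ring

theorem tS_left_28232 (l h y : ℝ) (h1 : l ≤ y) (h2 : y ≤ l + (1/2) * h) :
    tS_28232 l h y = (y - l) / 2 := by
  unfold tS_28232
  rw [min_eq_right h2, min_eq_left h1, min_eq_right (by linarith)]
  ring

theorem tS_right_28232 (l h y : ℝ) (h1 : l + (1/2) * h ≤ y) (h2 : y ≤ l + h) :
    tS_28232 l h y = (l + h - y) / 2 := by
  unfold tS_28232
  rw [min_eq_left h1, min_eq_left (by linarith), min_eq_right h2]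
  ring

/-- the second difference -/
noncomputable def tT_28232 (l h l' h' : ℝ) : ℝ :=
  tS_28232 l h (l' + (1/2) * h') - tS_28232 l h l' / 2 - tS_28232 l h (l' + h') / 2

theorem tT_zero_28232 (l h l' h' : ℝ) (hh : 0 ≤ h) (hh' : 0 ≤ h')
    (hc : l' + h' ≤ l ∨ (l ≤ l' ∧ l' + h' ≤ l + (1/2) * h) ∨
      (l + (1/2) * h ≤ l' ∧ l' + h' ≤ l + h) ∨ l + h ≤ l') : tT_28232 l h l' h' = 0 := by
  unfold tT_28232
  rcases hc with hc | ⟨hc, hc'⟩ | ⟨hc, hc'⟩ | hc
  · rw [tS_out_28232 _ _ _ hh (Or.inl (by linarith)), tS_out_28232 _ _ _ hh (Or.inl (by linarith)),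
      tS_out_28232 _ _ _ hh (Or.inl (by linarith))]
    ring
  · rw [tS_left_28232 _ _ _ (by linarith) (by linarith), tS_left_28232 _ _ _ hc (by linarith),
      tS_left_28232 _ _ _ (by linarith) hc']
    ring
  · rw [tS_right_28232 _ _ _ (by linarith) (by linarith), tS_right_28232 _ _ _ hc (by linarith),
      tS_right_28232 _ _ _ (by linarith) hc']
    ring
  · rw [tS_out_28232 _ _ _ hh (Or.inr (by linarith)), tS_out_28232 _ _ _ hh (Or.inr hc),
      tS_out_28232 _ _ _ hh (Or.inr (by linarith))]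
    ring

theorem tT_diag_28232 (l h : ℝ) (hh : 0 ≤ h) : tT_28232 l h l h = h / 4 := by
  unfold tT_28232
  rw [tS_left_28232 _ _ _ (by linarith) le_rfl, tS_out_28232 _ _ _ hh (Or.inl le_rfl),
    tS_out_28232 _ _ _ hh (Or.inr le_rfl)]
  ring

theorem sum_eq_28232 {n : ℕ} (k k' : ℕ) (u u' : Str n) :
    ∑ e : Fin 3, ∑ e' : Fin 3, wgt e * wgt e' * min (pt k u e) (pt k' u' e') =
      tT_28232 (lft u) ((1/4)^k) (lft u') ((1/4)^k') := by
  have w0 : wgt 0 = 1 := if_pos rfl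
  have w1 : wgt 1 = -1/2 := if_neg (by decide)
  have w2 : wgt 2 = -1/2 := if_neg (by decide)
  have p0 : ∀ (k : ℕ) (u : Str n), pt k u 0 = lft u + (1/2) * (1/4)^k := fun _ _ => if_pos rfl
  have p1 : ∀ (k : ℕ) (u : Str n), pt k u 1 = lft u := fun _ _ => by
    unfold pt
    rw [if_neg (by decide), if_pos rfl]
  have p2 : ∀ (k : ℕ) (u : Str n), pt k u 2 = lft u + (1/4)^k := fun _ _ => by
    unfold pt
    rw [if_neg (by decide), if_neg (by decide)]
  unfold tT_28232 tS_28232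
  simp only [Fin.sum_univ_three, w0, w1, w2, p0, p1, p2]
  ring

/-- the left end point is a multiple of the length -/
theorem lft_mul_28232 {n : ℕ} (k : ℕ) (u : Str n) (hu : trunc k u = u) :
    ∃ a : ℕ, lft u = (a : ℝ) * (1/4)^k := by
  refine ⟨∑ j : Fin (n+1), (u j : ℕ) * 4 ^ (k - ((j:ℕ) + 1)), ?_⟩
  unfold lft
  push_cast
  rw [Finset.sum_mul]
  apply Finset.sum_congr rfl
  intro j _
  by_cases hj : (j : ℕ) < k
  · obtain ⟨m, hm⟩ : ∃ m, k = m + ((j : ℕ) + 1) := ⟨k - ((j:ℕ) + 1), by omega⟩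
    have h1 : k - ((j : ℕ) + 1) = m := by omega
    rw [h1]
    conv_rhs => rw [hm, pow_add]
    have h2 : (4 : ℝ) ^ m * (1/4) ^ m = 1 := by
      rw [← mul_pow]
      norm_num
    calc ((u j : ℕ) : ℝ) * (1/4)^((j:ℕ) + 1)
        = ((u j : ℕ) : ℝ) * ((4 : ℝ) ^ m * (1/4) ^ m) * (1/4)^((j:ℕ) + 1) := by rw [h2, mul_one]
      _ = ((u j : ℕ) : ℝ) * (4 : ℝ) ^ m * ((1/4) ^ m * (1/4)^((j:ℕ) + 1)) := by ring
  · have h3 : u j = 0 := by
      rw [← hu]
      unfold trunc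
      rw [if_neg hj]
    rw [h3]
    simp

theorem lft_inj_28232 {n : ℕ} (u u' : Str n) (h : lft u = lft u') : u = u' := by
  have key : ∀ v : Str n, lft v * 4 ^ (n + 1) =
      ((finFunctionFinEquiv (fun i => v (Fin.rev i)) : Fin (4 ^ (n + 1))) : ℕ) := by
    intro v
    rw [finFunctionFinEquiv_apply]
    unfold lft
    push_cast
    rw [Finset.sum_mul, ← Equiv.sum_comp Fin.revPerm]
    apply Finset.sum_congr rfl
    intro j _
    have h1 : ((Fin.revPerm j : Fin (n + 1)) : ℕ) + 1 = n + 1 - (j : ℕ) := by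
      rw [Fin.revPerm_apply, Fin.val_rev]
      have := j.2
      omega
    rw [h1, Fin.revPerm_apply]
    obtain ⟨m, hm⟩ : ∃ m, n + 1 = m + (j : ℕ) := ⟨n + 1 - (j : ℕ), by have := j.2; omega⟩
    have h2 : n + 1 - (j : ℕ) = m := by omega
    have h4p : (4 : ℝ) ^ (n + 1) = 4 ^ m * 4 ^ (j : ℕ) := by
      rw [← pow_add, ← hm]
    rw [h2, h4p]
    have h3 : (1/4 : ℝ) ^ m * 4 ^ m = 1 := by
      rw [← mul_pow]
      norm_num
    calc ((v (Fin.rev j) : ℕ) : ℝ) * (1/4)^m * (4 ^ m * 4 ^ (j : ℕ))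
        = ((v (Fin.rev j) : ℕ) : ℝ) * ((1/4)^m * 4 ^ m) * 4 ^ (j : ℕ) := by ring
      _ = ((v (Fin.rev j) : ℕ) : ℝ) * 4 ^ (j : ℕ) := by rw [h3, mul_one]
  have h4 := key u
  rw [h, key u'] at h4
  have h5 : finFunctionFinEquiv (fun i => u' (Fin.rev i)) =
      finFunctionFinEquiv (fun i => u (Fin.rev i)) := Fin.ext (by exact_mod_cast h4)
  have h6 := finFunctionFinEquiv.injective h5
  funext i
  have h7 := congrFun h6 (Fin.rev i)
  simp only [Fin.rev_rev] at h7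
  exact h7.symm

theorem cov_lt_28232 {n : ℕ} (k k' : ℕ) (u u' : Str n) (hu : trunc k u = u)
    (hu' : trunc k' u' = u') (hk : k < k') :
    tT_28232 (lft u) ((1/4)^k) (lft u') ((1/4)^k') = 0 := by
  obtain ⟨a, ha⟩ := lft_mul_28232 k u hu
  obtain ⟨a', ha'⟩ := lft_mul_28232 k' u' hu'
  obtain ⟨m, hm⟩ : ∃ m, k' = k + (m + 1) := ⟨k' - k - 1, by omega⟩
  have hh : (1/4 : ℝ) ^ k = (4 * 4 ^ m) * (1/4) ^ k' := by
    rw [hm, pow_add, pow_succ]
    have h2 : (4 : ℝ) ^ m * (1/4) ^ m = 1 := by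
      rw [← mul_pow]
      norm_num
    calc (1/4 : ℝ) ^ k = (1/4 : ℝ) ^ k * ((4 : ℝ) ^ m * (1/4) ^ m) := by rw [h2, mul_one]
      _ = 4 * 4 ^ m * ((1 / 4) ^ k * ((1 / 4) ^ m * (1 / 4))) := by ring
  set w : ℝ := (1/4 : ℝ) ^ k' with hw
  have hw0 : 0 < w := by positivity
  set Q : ℕ := 2 * 4 ^ m with hQ
  have hQ' : ((Q : ℕ) : ℝ) = 2 * 4 ^ m := by rw [hQ]; push_cast; ring
  have hl : lft u = ((a * (2 * Q) : ℕ) : ℝ) * w := by
    rw [ha, hh]
    push_cast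
    rw [hQ']
    ring
  have hc : lft u + (1/2) * (1/4)^k = ((a * (2 * Q) + Q : ℕ) : ℝ) * w := by
    rw [hl, hh]
    push_cast
    rw [hQ']
    ring
  have hr : lft u + (1/4)^k = ((a * (2 * Q) + 2 * Q : ℕ) : ℝ) * w := by
    rw [hl, hh]
    push_cast
    rw [hQ']
    ring
  have hr' : lft u' + w = ((a' + 1 : ℕ) : ℝ) * w := by
    rw [ha']
    push_cast
    ring
  have hmul : ∀ x y : ℕ, x ≤ y → ((x : ℕ) : ℝ) * w ≤ ((y : ℕ) : ℝ) * w := by
    intro x y hxy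
    have : (x : ℝ) ≤ (y : ℝ) := by exact_mod_cast hxy
    exact mul_le_mul_of_nonneg_right this hw0.le
  apply tT_zero_28232 _ _ _ _ (by positivity) hw0.le
  rw [hr', hc, hr, hl, ha']
  have hcases : a' + 1 ≤ a * (2 * Q) ∨ (a * (2 * Q) ≤ a' ∧ a' + 1 ≤ a * (2 * Q) + Q) ∨
      (a * (2 * Q) + Q ≤ a' ∧ a' + 1 ≤ a * (2 * Q) + 2 * Q) ∨ a * (2 * Q) + 2 * Q ≤ a' := by
    omega
  rcases hcases with h1 | ⟨h1, h2⟩ | ⟨h1, h2⟩ | h1
  · exact Or.inl (hmul _ _ h1)
  · exact Or.inr (Or.inl ⟨hmul _ _ h1, hmul _ _ h2⟩)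
  · exact Or.inr (Or.inr (Or.inl ⟨hmul _ _ h1, hmul _ _ h2⟩))
  · exact Or.inr (Or.inr (Or.inr (hmul _ _ h1)))

theorem cov2 {n : ℕ} (k k' : Fin (n+1)) (u u' : Str n) (hu : trunc k u = u) (hu' : trunc k' u' = u') :
    ∑ e : Fin 3, ∑ e' : Fin 3, wgt e * wgt e' * min (pt k u e) (pt k' u' e')
      = if k = k' ∧ u = u' then (1/4)^(k:ℕ) / 4 else 0 := by
  rcases lt_trichotomy k k' with hk | hk | hk
  · rw [if_neg (fun h => absurd h.1 hk.ne), sum_eq_28232]
    exact cov_lt_28232 k k' u u' hu hu' hk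
  · subst hk
    by_cases huu : u = u'
    · subst huu
      rw [if_pos ⟨rfl, rfl⟩, sum_eq_28232, tT_diag_28232 _ _ (by positivity)]
    · rw [if_neg (fun h => huu h.2), sum_eq_28232]
      obtain ⟨a, ha⟩ := lft_mul_28232 k u hu
      obtain ⟨a', ha'⟩ := lft_mul_28232 k u' hu'
      have hw0 : (0 : ℝ) < (1/4) ^ (k : ℕ) := by positivity
      have hne : a ≠ a' := by
        rintro rfl
        exact huu (lft_inj_28232 u u' (by rw [ha, ha']))
      apply tT_zero_28232 _ _ _ _ hw0.le hw0.le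
      rcases lt_or_gt_of_ne hne with h1 | h1
      · right; right; right
        rw [ha, ha']
        have h2 : (a : ℝ) + 1 ≤ (a' : ℝ) := by exact_mod_cast h1
        nlinarith
      · left
        rw [ha, ha']
        have h2 : (a' : ℝ) + 1 ≤ (a : ℝ) := by exact_mod_cast h1
        nlinarith
  · rw [if_neg (fun h => absurd h.1 hk.ne')]
    have h1 : ∑ e : Fin 3, ∑ e' : Fin 3, wgt e * wgt e' * min (pt k u e) (pt k' u' e') =
        ∑ e : Fin 3, ∑ e' : Fin 3, wgt e * wgt e' * min (pt k' u' e) (pt k u e') := by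
      rw [Finset.sum_comm]
      apply Finset.sum_congr rfl
      intro e _
      apply Finset.sum_congr rfl
      intro e' _
      rw [min_comm, mul_comm (wgt e')]
    rw [h1, sum_eq_28232]
    exact cov_lt_28232 k' k u' u hu' hu hk


end Sol_cov2

alias cov2 := Sol_cov2.cov2

end BSheet
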