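import Pool.Agent.BSheet.Defs
import Pool.Agent.BSheet.L_chi_bounds
import Pool.Agent.BSheet.L_mu_prob
open MeasureTheory Real
open scoped ENNReal BigOperators

namespace BSheet
open ProbabilityTheory
namespace Sol_cov_arctan





theorem cov_U1_prob : IsProbabilityMeasure U1 := by
  constructor
  have : (2⁻¹ : ℝ≥0∞) * ENNReal.ofReal 2 = 1 := by
    rw [show ENNReal.ofReal 2 = 2 by norm_num]
    exact ENNReal.inv_mul_cancel (by norm_num) (by norm_num)
  have h2 : (1:ℝ) - (-1) = 2 := by norm_num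
  rw [U1, Measure.smul_apply, Measure.restrict_apply MeasurableSet.univ, Set.univ_inter,
    Real.volume_Icc, smul_eq_mul, h2, this]

theorem cov_U1_neg : MeasurePreserving (fun t : ℝ => -t) U1 U1 := by
  have h1 : MeasurePreserving (fun t : ℝ => -t) volume volume :=
    Measure.measurePreserving_neg volume
  have h2 := h1.restrict_preimage (s := Set.Icc (-1:ℝ) 1) measurableSet_Icc
  have h3 : (fun t : ℝ => -t) ⁻¹' (Set.Icc (-1:ℝ) 1) = Set.Icc (-1:ℝ) 1 := by
    ext t
    simp only [Set.mem_preimage, Set.mem_Icc]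
    constructor <;> rintro ⟨h, h'⟩ <;> constructor <;> linarith
  rw [h3] at h2
  exact h2.smul_measure (2⁻¹ : ℝ≥0∞)

theorem cov_U1_ae : ∀ᵐ t ∂U1, |t| ≤ 1 := by
  have : ∀ᵐ t ∂(volume.restrict (Set.Icc (-1:ℝ) 1)), |t| ≤ 1 := by
    filter_upwards [ae_restrict_mem measurableSet_Icc] with t ht
    exact abs_le.2 ht
  unfold U1
  exact Measure.ae_smul_measure this _

def covFlip {ι : Type*} (P : ι → Prop) [DecidablePred P] (a : ι → ℝ) : ι → ℝ :=
  fun i => if P i then - a i else a i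

theorem covFlip_mp {ι : Type*} [Fintype ι] (P : ι → Prop) [DecidablePred P] :
    MeasurePreserving (covFlip P) (Measure.pi (fun _ : ι => U1)) (Measure.pi (fun _ : ι => U1)) := by
  haveI := cov_U1_prob
  have := measurePreserving_pi (fun _ : ι => U1) (fun _ : ι => U1)
    (f := fun i t => if P i then -t else t) (fun i => by
    by_cases h : P i
    · simpa [h] using cov_U1_neg
    · simp only [if_neg h]; exact MeasurePreserving.id U1)
  exact this

theorem covFlip_int {ι : Type*} [Fintype ι] (P : ι → Prop) [DecidablePred P] (f : (ι → ℝ) → ℝ)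
    (hf : Measurable f) :
    ∫ a, f (covFlip P a) ∂(Measure.pi (fun _ : ι => U1)) = ∫ a, f a ∂(Measure.pi (fun _ : ι => U1)) := by
  have h := covFlip_mp (ι := ι) P
  have h2 := integral_map (μ := Measure.pi (fun _ : ι => U1)) (φ := covFlip P) h.measurable.aemeasurable
    (f := f) hf.aestronglyMeasurable
  rw [h.map_eq] at h2
  exact h2.symm

theorem cov_pi_ae {ι : Type*} [Fintype ι] :
    ∀ᵐ a ∂(Measure.pi (fun _ : ι => U1)), ∀ i, |a i| ≤ 1 := by
  haveI := cov_U1_prob
  rw [ae_all_iff]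
  intro i
  exact (Measure.tendsto_eval_ae_ae (μ := fun _ : ι => U1) (i := i)).eventually cov_U1_ae

theorem cov_int_mul {ι : Type*} [Fintype ι] (i j : ι) :
    Integrable (fun a : ι → ℝ => a i * a j) (Measure.pi (fun _ : ι => U1)) := by
  haveI := cov_U1_prob
  refine Integrable.of_bound (by fun_prop) 1 ?_
  filter_upwards [cov_pi_ae (ι := ι)] with a ha
  rw [Real.norm_eq_abs, abs_mul]
  have h1 := ha i
  have h2 := ha j
  have := abs_nonneg (a i)
  have := abs_nonneg (a j)
  nlinarith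

theorem cov_int_offdiag {ι : Type*} [Fintype ι] [DecidableEq ι] (i j : ι) (hij : i ≠ j) :
    ∫ a, a i * a j ∂(Measure.pi (fun _ : ι => U1)) = 0 := by
  have h := covFlip_int (ι := ι) (fun k => k = i) (fun a => a i * a j) (by fun_prop)
  have h2 : (fun a : ι → ℝ => covFlip (fun k => k = i) a i * covFlip (fun k => k = i) a j)
      = fun a => -(a i * a j) := by
    funext a
    simp [covFlip, hij.symm]
  rw [h2, integral_neg] at h
  linarith

theorem cov_int_diag {ι : Type*} [Fintype ι] [DecidableEq ι] (i : ι) :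
    ∫ a, a i * a i ∂(Measure.pi (fun _ : ι => U1)) ≤ 1 := by
  haveI := cov_U1_prob
  have h : ∫ a, a i * a i ∂(Measure.pi (fun _ : ι => U1)) ≤ ∫ _a, (1:ℝ) ∂(Measure.pi (fun _ : ι => U1)) := by
    refine integral_mono_ae (cov_int_mul i i) (integrable_const _) ?_
    filter_upwards [cov_pi_ae (ι := ι)] with a ha
    have h1 := ha i
    have := abs_nonneg (a i)
    rw [← abs_mul_abs_self]
    nlinarith
  simpa using h

theorem cov_sq_expand {ι : Type*} [Fintype ι] (c a : ι → ℝ) :
    (∑ i, a i * c i)^2 = ∑ i, ∑ j, (c i * c j) * (a i * a j) := by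
  rw [sq, Finset.sum_mul_sum]
  refine Finset.sum_congr rfl fun i _ => Finset.sum_congr rfl fun j _ => ?_
  ring

theorem cov_sq_integrable {ι : Type*} [Fintype ι] (c : ι → ℝ) :
    Integrable (fun a : ι → ℝ => (∑ i, a i * c i)^2) (Measure.pi (fun _ : ι => U1)) := by
  simp_rw [cov_sq_expand]
  refine integrable_finset_sum _ fun i _ => integrable_finset_sum _ fun j _ => ?_
  exact (cov_int_mul i j).const_mul _

theorem cov_sq_le {ι : Type*} [Fintype ι] [DecidableEq ι] (c : ι → ℝ) :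
    ∫ a, (∑ i, a i * c i)^2 ∂(Measure.pi (fun _ : ι => U1)) ≤ ∑ i, c i ^ 2 := by
  simp_rw [cov_sq_expand]
  rw [integral_finset_sum _ fun i _ => integrable_finset_sum _ fun j _ =>
    (cov_int_mul i j).const_mul _]
  refine Finset.sum_le_sum fun i _ => ?_
  rw [integral_finset_sum _ fun j _ => (cov_int_mul i j).const_mul _]
  rw [Finset.sum_eq_single i]
  · rw [integral_const_mul]
    have := cov_int_diag (ι := ι) i
    nlinarith [sq_nonneg (c i)]
  · intro j _ hj
    rw [integral_const_mul, cov_int_offdiag i j hj.symm, mul_zero]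
  · simp

theorem cov_arctan_lip (u v : ℝ) : |Real.arctan u - Real.arctan v| ≤ |u - v| := by
  have h := Convex.norm_image_sub_le_of_norm_deriv_le (f := Real.arctan) (C := 1) (s := Set.univ)
    (x := v) (y := u)
    (fun x _ => Real.differentiable_arctan x) (fun x _ => by
      rw [Real.deriv_arctan, Real.norm_eq_abs, abs_of_pos (by positivity)]
      rw [div_le_one (by positivity)]
      nlinarith [sq_nonneg x]) convex_univ (Set.mem_univ _) (Set.mem_univ _)
  simpa [Real.norm_eq_abs] using h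

theorem cov_arctan_two (s t : ℝ) : |Real.arctan (s + t) + Real.arctan (s - t)| ≤ 2 * |s| := by
  have h := cov_arctan_lip (s + t) (-(s - t))
  rw [Real.arctan_neg, sub_neg_eq_add] at h
  have h2 : s + t - -(s - t) = 2 * s := by ring
  rw [h2, abs_mul] at h
  simpa using h

theorem cov_gen {ι : Type*} [Fintype ι] [DecidableEq ι] (c d : ι → ℝ) :
    |∫ a, Real.arctan (∑ i, a i * c i) * Real.arctan (∑ i, a i * d i)
        ∂(Measure.pi (fun _ : ι => U1))| ≤
      ∑ i, if c i ≠ 0 ∧ d i ≠ 0 then (c i ^ 2 + d i ^ 2)/2 else 0 := by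
  classical
  haveI := cov_U1_prob
  set μ : Measure (ι → ℝ) := Measure.pi (fun _ : ι => U1) with hμ
  set cs : ι → ℝ := fun i => if c i ≠ 0 ∧ d i ≠ 0 then c i else 0 with hcs
  set ds : ι → ℝ := fun i => if c i ≠ 0 ∧ d i ≠ 0 then d i else 0 with hds
  set ct : ι → ℝ := fun i => if c i ≠ 0 ∧ d i = 0 then c i else 0 with hct
  set dt : ι → ℝ := fun i => if d i ≠ 0 ∧ c i = 0 then d i else 0 with hdt
  have hc : ∀ a : ι → ℝ, ∑ i, a i * c i = ∑ i, a i * cs i + ∑ i, a i * ct i := by
    intro a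
    rw [← Finset.sum_add_distrib]
    refine Finset.sum_congr rfl fun i _ => ?_
    simp only [hcs, hct]
    by_cases h1 : c i = 0 <;> by_cases h2 : d i = 0 <;> simp [h1, h2]
  have hd : ∀ a : ι → ℝ, ∑ i, a i * d i = ∑ i, a i * ds i + ∑ i, a i * dt i := by
    intro a
    rw [← Finset.sum_add_distrib]
    refine Finset.sum_congr rfl fun i _ => ?_
    simp only [hds, hdt]
    by_cases h1 : c i = 0 <;> by_cases h2 : d i = 0 <;> simp [h1, h2]
  have hPs : ∀ a : ι → ℝ, ∑ i, covFlip (fun i => c i ≠ 0 ∧ d i = 0) a i * cs i = ∑ i, a i * cs i := by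
    intro a
    refine Finset.sum_congr rfl fun i _ => ?_
    simp only [hcs, covFlip]
    by_cases h1 : c i = 0 <;> by_cases h2 : d i = 0 <;> simp [h1, h2]
  have hPs' : ∀ a : ι → ℝ, ∑ i, covFlip (fun i => c i ≠ 0 ∧ d i = 0) a i * ds i = ∑ i, a i * ds i := by
    intro a
    refine Finset.sum_congr rfl fun i _ => ?_
    simp only [hds, covFlip]
    by_cases h1 : c i = 0 <;> by_cases h2 : d i = 0 <;> simp [h1, h2]
  have hPt : ∀ a : ι → ℝ, ∑ i, covFlip (fun i => c i ≠ 0 ∧ d i = 0) a i * ct i = - ∑ i, a i * ct i := by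
    intro a
    rw [← Finset.sum_neg_distrib]
    refine Finset.sum_congr rfl fun i _ => ?_
    simp only [hct, covFlip]
    by_cases h1 : c i = 0 <;> by_cases h2 : d i = 0 <;> simp [h1, h2]
  have hPt' : ∀ a : ι → ℝ, ∑ i, covFlip (fun i => c i ≠ 0 ∧ d i = 0) a i * dt i = ∑ i, a i * dt i := by
    intro a
    refine Finset.sum_congr rfl fun i _ => ?_
    simp only [hdt, covFlip]
    by_cases h1 : c i = 0 <;> by_cases h2 : d i = 0 <;> simp [h1, h2]
  have hQs : ∀ a : ι → ℝ, ∑ i, covFlip (fun i => d i ≠ 0 ∧ c i = 0) a i * cs i = ∑ i, a i * cs i := by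
    intro a
    refine Finset.sum_congr rfl fun i _ => ?_
    simp only [hcs, covFlip]
    by_cases h1 : c i = 0 <;> by_cases h2 : d i = 0 <;> simp [h1, h2]
  have hQs' : ∀ a : ι → ℝ, ∑ i, covFlip (fun i => d i ≠ 0 ∧ c i = 0) a i * ds i = ∑ i, a i * ds i := by
    intro a
    refine Finset.sum_congr rfl fun i _ => ?_
    simp only [hds, covFlip]
    by_cases h1 : c i = 0 <;> by_cases h2 : d i = 0 <;> simp [h1, h2]
  have hQt : ∀ a : ι → ℝ, ∑ i, covFlip (fun i => d i ≠ 0 ∧ c i = 0) a i * ct i = ∑ i, a i * ct i := by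
    intro a
    refine Finset.sum_congr rfl fun i _ => ?_
    simp only [hct, covFlip]
    by_cases h1 : c i = 0 <;> by_cases h2 : d i = 0 <;> simp [h1, h2]
  have hQt' : ∀ a : ι → ℝ, ∑ i, covFlip (fun i => d i ≠ 0 ∧ c i = 0) a i * dt i = - ∑ i, a i * dt i := by
    intro a
    rw [← Finset.sum_neg_distrib]
    refine Finset.sum_congr rfl fun i _ => ?_
    simp only [hdt, covFlip]
    by_cases h1 : c i = 0 <;> by_cases h2 : d i = 0 <;> simp [h1, h2]
  simp_rw [hc, hd]
  have hmeas : ∀ e : ι → ℝ, Measurable (fun a : ι → ℝ => ∑ i, a i * e i) := by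
    intro e; fun_prop
  -- the four integrals
  have hF : ∀ s t : ℝ, Measurable (fun a : ι → ℝ =>
      Real.arctan (∑ i, a i * cs i + s * ∑ i, a i * ct i) *
      Real.arctan (∑ i, a i * ds i + t * ∑ i, a i * dt i)) := by
    intro s t
    exact (Real.measurable_arctan.comp ((hmeas cs).add ((hmeas ct).const_mul s))).mul
      (Real.measurable_arctan.comp ((hmeas ds).add ((hmeas dt).const_mul t)))
  have hFi : ∀ s t : ℝ, Integrable (fun a : ι → ℝ =>
      Real.arctan (∑ i, a i * cs i + s * ∑ i, a i * ct i) *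
      Real.arctan (∑ i, a i * ds i + t * ∑ i, a i * dt i)) μ := by
    intro s t
    refine Integrable.of_bound (hF s t).aestronglyMeasurable ((π/2) * (π/2)) ?_
    refine Filter.Eventually.of_forall fun a => ?_
    rw [Real.norm_eq_abs, abs_mul]
    have hb : ∀ u : ℝ, |Real.arctan u| ≤ π/2 := fun u =>
      abs_le.2 ⟨(Real.neg_pi_div_two_lt_arctan u).le, (Real.arctan_lt_pi_div_two u).le⟩
    exact mul_le_mul (hb _) (hb _) (abs_nonneg _) (by positivity)
  set I : ℝ → ℝ → ℝ := fun s t => ∫ a, Real.arctan (∑ i, a i * cs i + s * ∑ i, a i * ct i) *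
      Real.arctan (∑ i, a i * ds i + t * ∑ i, a i * dt i) ∂μ with hI
  have hI1 : ∀ s t, I (-s) t = I s t := by
    intro s t
    have h := covFlip_int (ι := ι) (fun i => c i ≠ 0 ∧ d i = 0) _ (hF s t)
    simp only [hPs, hPs', hPt, hPt'] at h
    simp only [hI]
    rw [← h]
    refine integral_congr_ae (Filter.Eventually.of_forall fun a => ?_)
    simp only [mul_neg, neg_mul]
  have hI2 : ∀ s t, I s (-t) = I s t := by
    intro s t
    have h := covFlip_int (ι := ι) (fun i => d i ≠ 0 ∧ c i = 0) _ (hF s t)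
    simp only [hQs, hQs', hQt, hQt'] at h
    simp only [hI]
    rw [← h]
    refine integral_congr_ae (Filter.Eventually.of_forall fun a => ?_)
    simp only [mul_neg, neg_mul]
  have e1 : I (-1) 1 = I 1 1 := hI1 1 1
  have e2 : I 1 (-1) = I 1 1 := hI2 1 1
  have e3 : I (-1) (-1) = I 1 1 := by rw [hI1, hI2]
  have hgoal : (∫ a, Real.arctan (∑ i, a i * cs i + ∑ i, a i * ct i) *
      Real.arctan (∑ i, a i * ds i + ∑ i, a i * dt i) ∂μ) = I 1 1 := by
    simp only [hI, one_mul]
  rw [hgoal]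
  have hsum : 4 * I 1 1 = ∫ a,
      (Real.arctan (∑ i, a i * cs i + ∑ i, a i * ct i) + Real.arctan (∑ i, a i * cs i - ∑ i, a i * ct i)) *
      (Real.arctan (∑ i, a i * ds i + ∑ i, a i * dt i) + Real.arctan (∑ i, a i * ds i - ∑ i, a i * dt i)) ∂μ := by
    have : 4 * I 1 1 = ((I 1 1 + I 1 (-1)) + (I (-1) 1 + I (-1) (-1))) := by
      rw [e1, e2, e3]; ring
    rw [this]
    simp only [hI]
    rw [← integral_add (hFi 1 1) (hFi 1 (-1)), ← integral_add (hFi (-1) 1) (hFi (-1) (-1))]
    refine (integral_add ((hFi 1 1).add (hFi 1 (-1))) ((hFi (-1) 1).add (hFi (-1) (-1)))).symm.trans ?_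
    refine integral_congr_ae (Filter.Eventually.of_forall fun a => ?_)
    simp only [Pi.add_apply, one_mul, neg_mul, ← sub_eq_add_neg]
    ring
  have hbound : |4 * I 1 1| ≤ ∫ a, (2 * (∑ i, a i * cs i)^2 + 2 * (∑ i, a i * ds i)^2) ∂μ := by
    rw [hsum]
    have hint := ((cov_sq_integrable cs).const_mul 2).add ((cov_sq_integrable ds).const_mul 2)
    have := norm_integral_le_of_norm_le (μ := μ) hint (Filter.Eventually.of_forall fun a => (?_ :
      ‖(Real.arctan (∑ i, a i * cs i + ∑ i, a i * ct i) + Real.arctan (∑ i, a i * cs i - ∑ i, a i * ct i)) *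
      (Real.arctan (∑ i, a i * ds i + ∑ i, a i * dt i) + Real.arctan (∑ i, a i * ds i - ∑ i, a i * dt i))‖ ≤ _))
    · rw [Real.norm_eq_abs] at this
      exact this
    · rw [Real.norm_eq_abs, abs_mul]
      have h1 := cov_arctan_two (∑ i, a i * cs i) (∑ i, a i * ct i)
      have h2 := cov_arctan_two (∑ i, a i * ds i) (∑ i, a i * dt i)
      have h3 := mul_le_mul h1 h2 (abs_nonneg _) (by positivity)
      refine h3.trans ?_
      simp only [Pi.add_apply]
      have h4 := sq_abs (∑ i, a i * cs i)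
      have h5 := sq_abs (∑ i, a i * ds i)
      nlinarith [sq_nonneg (|∑ i, a i * cs i| - |∑ i, a i * ds i|)]
  rw [integral_add ((cov_sq_integrable cs).const_mul 2) ((cov_sq_integrable ds).const_mul 2),
    integral_const_mul, integral_const_mul] at hbound
  have h1 := cov_sq_le cs
  have h2 := cov_sq_le ds
  rw [abs_mul] at hbound
  have h4 : |(4:ℝ)| = 4 := by norm_num
  rw [h4] at hbound
  have hfin : ∑ i, (if c i ≠ 0 ∧ d i ≠ 0 then (c i ^ 2 + d i ^ 2)/2 else 0)
      = (∑ i, cs i ^ 2 + ∑ i, ds i ^ 2)/2 := by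
    rw [← Finset.sum_add_distrib, Finset.sum_div]
    refine Finset.sum_congr rfl fun i _ => ?_
    simp only [hcs, hds]
    by_cases h : c i ≠ 0 ∧ d i ≠ 0
    · simp only [if_pos h]
    · simp only [if_neg h]; norm_num
  rw [hfin]
  linarith

theorem cov_chiB_abs {D n k : ℕ} (r : BIdx D n k) (x : Fin D → Str n) : |chiB r x| ≤ 1 := by
  unfold chiB
  rw [Finset.abs_prod]
  refine Finset.prod_le_one (fun i _ => abs_nonneg _) fun i _ => ?_
  split_ifs
  · have := chi_bounds (k := (r.1.1 i : ℕ)) (Nat.lt_succ_iff.1 (r.1.1 i).2) (x i)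
    rw [abs_of_nonneg this.1]; exact this.2
  · simp

theorem cov_chiB_ne {D n k : ℕ} (r : BIdx D n k) (x : Fin D → Str n) (h : chiB r x ≠ 0) (i : Fin D) :
    trunc (r.1.1 i) (x i) = r.1.2 i := by
  unfold chiB at h
  rw [Finset.prod_ne_zero_iff] at h
  have := h i (Finset.mem_univ _)
  by_contra hh
  rw [if_neg hh] at this
  exact this rfl

theorem cov_card_le {D n k : ℕ} (x y : Fin D → Str n) :
    (Finset.univ.filter (fun r : BIdx D n k => chiB r x ≠ 0 ∧ chiB r y ≠ 0)).card ≤ cnt D k x y := by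
  unfold cnt
  rw [← Finset.card_univ (α := {s : Fin D → Fin (n+1) // (∑ i, ((s i : Fin (n+1)) : ℕ)) + k = n ∧
    ∀ i, trunc (s i) (x i) = trunc (s i) (y i)})]
  refine Finset.card_le_card_of_surjOn (fun s => 
    (⟨(s.1, fun i => trunc (s.1 i) (x i)), s.2.1, fun i => trunc_trunc _ _⟩ : BIdx D n k)) ?_
  intro r hr
  rw [Finset.mem_coe, Finset.mem_filter] at hr
  refine ⟨⟨r.1.1, r.2.1, fun i => ?_⟩, Finset.mem_coe.2 (Finset.mem_univ _), ?_⟩
  · rw [cov_chiB_ne r x hr.2.1 i, cov_chiB_ne r y hr.2.2 i]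
  · apply Subtype.ext
    apply Prod.ext
    · rfl
    · funext i
      exact cov_chiB_ne r x hr.2.1 i

theorem cov_arctan {D n : ℕ} (κ : Node n) (x y : Fin D → Str n) :
    |∫ a, Real.arctan (psi a κ x) * Real.arctan (psi a κ y) ∂(mu D n)| ≤ rho D κ.1.1 x y := by
  classical
  have hpsi : ∀ (a : Idx D n → ℝ) (z : Fin D → Str n), psi a κ z =
      ∑ i : Idx D n, a i * (if i.1 = κ then (Real.sqrt (ms D n i.1.1.1))⁻¹ * chiB i.2 z else 0) := by
    intro a z
    rw [Fintype.sum_sigma, Finset.sum_eq_single κ]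
    · unfold psi
      rw [Finset.mul_sum]
      refine Finset.sum_congr rfl fun r _ => ?_
      simp only [if_true]
      ring
    · intro κ' _ hκ'
      refine Finset.sum_eq_zero fun r _ => ?_
      simp only [if_neg hκ', mul_zero]
    · simp
  simp_rw [hpsi]
  unfold mu
  refine (cov_gen (ι := Idx D n) _ _).trans ?_
  rw [Fintype.sum_sigma, Finset.sum_eq_single κ]
  · simp only [if_true]
    unfold rho
    have hle : ∀ r : BIdx D n κ.1.1,
        (if (Real.sqrt (ms D n κ.1.1))⁻¹ * chiB r x ≠ 0 ∧ (Real.sqrt (ms D n κ.1.1))⁻¹ * chiB r y ≠ 0 then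
          (((Real.sqrt (ms D n κ.1.1))⁻¹ * chiB r x)^2 + ((Real.sqrt (ms D n κ.1.1))⁻¹ * chiB r y)^2)/2 else 0)
        ≤ if chiB r x ≠ 0 ∧ chiB r y ≠ 0 then ((ms D n κ.1.1 : ℝ))⁻¹ else 0 := by
      intro r
      have hms : (0:ℝ) ≤ (ms D n κ.1.1 : ℝ) := Nat.cast_nonneg _
      have hi : (0:ℝ) ≤ ((ms D n κ.1.1 : ℝ))⁻¹ := inv_nonneg.2 hms
      have hsq : ((Real.sqrt (ms D n κ.1.1))⁻¹)^2 = ((ms D n κ.1.1 : ℝ))⁻¹ := by
        rw [inv_pow, Real.sq_sqrt hms]
      split_ifs with h1 h2 h2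
      · rw [mul_pow, mul_pow, hsq]
        have hx : chiB r x ^2 ≤ 1 := (sq_le_one_iff_abs_le_one _).2 (cov_chiB_abs r x)
        have hy : chiB r y ^2 ≤ 1 := (sq_le_one_iff_abs_le_one _).2 (cov_chiB_abs r y)
        nlinarith
      · exfalso
        apply h2
        exact ⟨fun h => h1.1 (by rw [h, mul_zero]), fun h => h1.2 (by rw [h, mul_zero])⟩
      · exact hi
      · exact le_refl _
    refine (Finset.sum_le_sum fun r _ => hle r).trans ?_
    rw [← Finset.sum_filter, Finset.sum_const, nsmul_eq_mul, div_eq_mul_inv]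
    refine mul_le_mul_of_nonneg_right ?_ (inv_nonneg.2 (Nat.cast_nonneg _))
    exact_mod_cast cov_card_le x y
  · intro κ' _ hκ'
    refine Finset.sum_eq_zero fun r _ => ?_
    simp only [if_neg hκ']
    simp
  · simp


end Sol_cov_arctan

alias cov_arctan := Sol_cov_arctan.cov_arctan

end BSheet
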