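import Pool.Agent.BSheet.Defs
import Pool.Agent.BSheet.L_chi_bounds
import Pool.Agent.BSheet.L_mu_prob
open MeasureTheory Real
open scoped ENNReal BigOperators

namespace BSheet
open ProbabilityTheory
namespace Sol_cov_theta





section CovAux

variable {ι β : Type} [Fintype ι] [Fintype β]

open Classical in
/-- swap the coordinates in `E` -/
noncomputable def swp (E : Set ι) (p : (ι → ℝ) × (ι → ℝ)) : (ι → ℝ) × (ι → ℝ) :=
  (fun i => if i ∈ E then p.2 i else p.1 i, fun i => if i ∈ E then p.1 i else p.2 i)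

theorem swp_swp (E : Set ι) (p : (ι → ℝ) × (ι → ℝ)) : swp E (swp E p) = p := by
  unfold swp
  apply Prod.ext
  · funext i
    by_cases h : i ∈ E <;> simp [h]
  · funext i
    by_cases h : i ∈ E <;> simp [h]

open Classical in
theorem swp_mp (E : Set ι) (ν : Measure ℝ) [IsProbabilityMeasure ν] :
    MeasurePreserving (swp E) ((Measure.pi fun _ : ι => ν).prod (Measure.pi fun _ : ι => ν))
      ((Measure.pi fun _ : ι => ν).prod (Measure.pi fun _ : ι => ν)) := by
  have h1 := measurePreserving_arrowProdEquivProdArrow ℝ ℝ ι (fun _ => ν) (fun _ => ν)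
  have h2 : MeasurePreserving
      (fun (a : ι → ℝ × ℝ) (i : ι) => (if i ∈ E then Prod.swap else id : ℝ × ℝ → ℝ × ℝ) (a i))
      (Measure.pi fun _ : ι => ν.prod ν) (Measure.pi fun _ : ι => ν.prod ν) := by
    apply measurePreserving_pi
    intro i
    by_cases h : i ∈ E
    · simp only [h, if_true]
      exact Measure.measurePreserving_swap
    · simp only [h, if_false]
      exact MeasurePreserving.id _
  have h3 := h1.comp (h2.comp h1.symm)
  convert h3 using 1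
  funext p
  apply Prod.ext
  · funext i
    by_cases h : i ∈ E
    · simp [swp, h, MeasurableEquiv.arrowProdEquivProdArrow, Equiv.arrowProdEquivProdArrow]
    · simp [swp, h, MeasurableEquiv.arrowProdEquivProdArrow, Equiv.arrowProdEquivProdArrow]
  · funext i
    by_cases h : i ∈ E
    · simp [swp, h, MeasurableEquiv.arrowProdEquivProdArrow, Equiv.arrowProdEquivProdArrow]
    · simp [swp, h, MeasurableEquiv.arrowProdEquivProdArrow, Equiv.arrowProdEquivProdArrow]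

/-- Lipschitz estimate -/
theorem th_lip (u v : ℝ) : ((1 + u ^ 2)⁻¹ - (1 + v ^ 2)⁻¹) ^ 2 ≤ (1 / 2) * (u - v) ^ 2 := by
  have hu : 0 < 1 + u ^ 2 := by positivity
  have hv : 0 < 1 + v ^ 2 := by positivity
  have e : (1 + u ^ 2)⁻¹ - (1 + v ^ 2)⁻¹ = (v - u) * (u + v) / ((1 + u ^ 2) * (1 + v ^ 2)) := by
    field_simp
    ring
  rw [e, div_pow, div_le_iff₀ (by positivity)]
  have h1 : 2 * (u + v) ^ 2 ≤ ((1 + u ^ 2) * (1 + v ^ 2)) ^ 2 := by
    have h2 : 1 + (u ^ 2 + v ^ 2) ≤ (1 + u ^ 2) * (1 + v ^ 2) := by nlinarith [mul_nonneg (sq_nonneg u) (sq_nonneg v)]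
    have h3 : (1 + (u ^ 2 + v ^ 2)) ^ 2 ≤ ((1 + u ^ 2) * (1 + v ^ 2)) ^ 2 :=
      pow_le_pow_left₀ (by positivity) h2 2
    nlinarith [sq_nonneg (u - v), sq_nonneg (1 - (u ^ 2 + v ^ 2))]
  nlinarith [mul_le_mul_of_nonneg_left h1 (sq_nonneg (u - v))]

open Classical in
theorem cov_abs (ν : Measure ℝ) [IsProbabilityMeasure ν] (hν : ∀ᵐ t ∂ν, |t| ≤ 1)
    (e : β → ι) (he : Function.Injective e) (c d : β → ℝ) :
    |∫ a, (1 + (∑ r, c r * a (e r)) ^ 2)⁻¹ * (1 + (∑ r, d r * a (e r)) ^ 2)⁻¹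
        ∂(Measure.pi fun _ : ι => ν) -
      (∫ a, (1 + (∑ r, c r * a (e r)) ^ 2)⁻¹ ∂(Measure.pi fun _ : ι => ν)) *
      (∫ a, (1 + (∑ r, d r * a (e r)) ^ 2)⁻¹ ∂(Measure.pi fun _ : ι => ν))| ≤
    (1 / 2) * (∑ r ∈ Finset.univ.filter (fun r => c r ≠ 0 ∧ d r ≠ 0), c r ^ 2 +
      ∑ r ∈ Finset.univ.filter (fun r => c r ≠ 0 ∧ d r ≠ 0), d r ^ 2) := by
  set μ : Measure (ι → ℝ) := Measure.pi fun _ : ι => ν with hμ
  set T : Finset β := Finset.univ.filter (fun r => c r ≠ 0 ∧ d r ≠ 0) with hT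
  let F : (ι → ℝ) → ℝ := fun a => (1 + (∑ r, c r * a (e r)) ^ 2)⁻¹
  let G : (ι → ℝ) → ℝ := fun a => (1 + (∑ r, d r * a (e r)) ^ 2)⁻¹
  have hFm : Measurable F := by fun_prop
  have hGm : Measurable G := by fun_prop
  have hF0 : ∀ a, |F a| ≤ 1 := by
    intro a
    have h1 : 0 ≤ (∑ r, c r * a (e r)) ^ 2 := sq_nonneg _
    have h2 : 0 < 1 + (∑ r, c r * a (e r)) ^ 2 := by linarith
    rw [abs_of_pos (inv_pos.mpr h2)]
    exact inv_le_one_of_one_le₀ (by linarith)
  have hG0 : ∀ a, |G a| ≤ 1 := by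
    intro a
    have h1 : 0 ≤ (∑ r, d r * a (e r)) ^ 2 := sq_nonneg _
    have h2 : 0 < 1 + (∑ r, d r * a (e r)) ^ 2 := by linarith
    rw [abs_of_pos (inv_pos.mpr h2)]
    exact inv_le_one_of_one_le₀ (by linarith)
  let S : Set ι := {i | ∃ r ∈ T, e r = i}
  let E : Set ι := {i | ¬ ∃ r, c r ≠ 0 ∧ e r = i}
  have hSmem : ∀ r, e r ∈ S ↔ r ∈ T := by
    intro r
    constructor
    · rintro ⟨r', hr', h⟩
      rwa [← he h]
    · intro h; exact ⟨r, h, rfl⟩
  have hEmem : ∀ r, e r ∈ E ↔ c r = 0 := by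
    intro r
    constructor
    · intro h
      by_contra h0
      exact h ⟨r, h0, rfl⟩
    · rintro h ⟨r', hr', h2⟩
      rw [he h2] at hr'
      exact hr' h
  have mpS := swp_mp S ν
  have mpE := swp_mp E ν
  rw [← hμ] at mpS mpE
  have bdd : ∀ f : (ι → ℝ) × (ι → ℝ) → ℝ, Measurable f → (∀ p, |f p| ≤ 1) →
      Integrable f (μ.prod μ) := fun f hf hb =>
    Integrable.of_bound hf.aestronglyMeasurable 1
      (Filter.Eventually.of_forall fun p => by rw [Real.norm_eq_abs]; exact hb p)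
  have mS : Measurable (swp S) := mpS.measurable
  -- the four functions
  let f1 : (ι → ℝ) × (ι → ℝ) → ℝ := fun p => F p.1
  let g1 : (ι → ℝ) × (ι → ℝ) → ℝ := fun p => G p.1
  let f2 : (ι → ℝ) × (ι → ℝ) → ℝ := fun p => F (swp S p).1
  let g2 : (ι → ℝ) × (ι → ℝ) → ℝ := fun p => G (swp S p).1
  have mf1 : Measurable f1 := hFm.comp measurable_fst
  have mg1 : Measurable g1 := hGm.comp measurable_fst
  have mf2 : Measurable f2 := hFm.comp (measurable_fst.comp mS)
  have mg2 : Measurable g2 := hGm.comp (measurable_fst.comp mS)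
  have mul1 : ∀ x y : ℝ, |x| ≤ 1 → |y| ≤ 1 → |x * y| ≤ 1 := by
    intro x y hx hy
    rw [abs_mul]
    exact mul_le_one₀ hx (abs_nonneg _) hy
  have i11 : Integrable (fun p => f1 p * g1 p) (μ.prod μ) :=
    bdd _ (mf1.mul mg1) fun p => mul1 _ _ (hF0 _) (hG0 _)
  have i12 : Integrable (fun p => f1 p * g2 p) (μ.prod μ) :=
    bdd _ (mf1.mul mg2) fun p => mul1 _ _ (hF0 _) (hG0 _)
  have i21 : Integrable (fun p => f2 p * g1 p) (μ.prod μ) :=
    bdd _ (mf2.mul mg1) fun p => mul1 _ _ (hF0 _) (hG0 _)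
  have i22 : Integrable (fun p => f2 p * g2 p) (μ.prod μ) :=
    bdd _ (mf2.mul mg2) fun p => mul1 _ _ (hF0 _) (hG0 _)
  -- change of variables
  have cv : ∀ (D : Set ι) (f : (ι → ℝ) × (ι → ℝ) → ℝ), Measurable f →
      ∫ p, f (swp D p) ∂(μ.prod μ) = ∫ p, f p ∂(μ.prod μ) := by
    intro D f hf
    have h1 := swp_mp D ν
    rw [← hμ] at h1
    have h2 := integral_map (μ := μ.prod μ) h1.measurable.aemeasurable
      (f := f) hf.aestronglyMeasurable
    rw [h1.map_eq] at h2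
    exact h2.symm
  have e22 : ∫ p, f2 p * g2 p ∂(μ.prod μ) = ∫ p, f1 p * g1 p ∂(μ.prod μ) :=
    cv S (fun p => f1 p * g1 p) (mf1.mul mg1)
  have e21 : ∫ p, f2 p * g1 p ∂(μ.prod μ) = ∫ p, f1 p * g2 p ∂(μ.prod μ) := by
    rw [← cv S (fun p => f1 p * g2 p) (mf1.mul mg2)]
    congr 1
    funext p
    show F (swp S p).1 * G p.1 = F (swp S p).1 * G (swp S (swp S p)).1
    rw [swp_swp]
  have e11 : ∫ p, f1 p * g1 p ∂(μ.prod μ) = ∫ a, F a * G a ∂μ := by
    have h1 := integral_prod_mul (μ := μ) (ν := μ) (fun a => F a * G a) (fun _ => (1 : ℝ))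
    simp only [mul_one, integral_const, smul_eq_mul] at h1
    rw [probReal_univ, mul_one] at h1
    exact h1
  have e12 : ∫ p, f1 p * g2 p ∂(μ.prod μ) = (∫ a, F a ∂μ) * ∫ a, G a ∂μ := by
    rw [← integral_prod_mul (μ := μ) (ν := μ) F G]
    rw [← cv E (fun p => F p.1 * G p.2) ((hFm.comp measurable_fst).mul (hGm.comp measurable_snd))]
    congr 1
    funext p
    show F p.1 * G (swp S p).1 = F (swp E p).1 * G (swp E p).2
    congr 1
    · show (1 + (∑ r, c r * p.1 (e r)) ^ 2)⁻¹ = (1 + (∑ r, c r * (swp E p).1 (e r)) ^ 2)⁻¹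
      congr 3
      apply Finset.sum_congr rfl
      intro r _
      by_cases hr : c r = 0
      · rw [hr]; ring
      · have : e r ∉ E := fun h => hr ((hEmem r).1 h)
        simp only [swp, this, if_false]
    · show (1 + (∑ r, d r * (swp S p).1 (e r)) ^ 2)⁻¹ = (1 + (∑ r, d r * (swp E p).2 (e r)) ^ 2)⁻¹
      congr 3
      apply Finset.sum_congr rfl
      intro r _
      by_cases hr : d r = 0
      · rw [hr]; ring
      · by_cases hc : c r = 0
        · have h1 : e r ∈ E := (hEmem r).2 hc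
          have h2 : e r ∉ S := by
            rw [hSmem, hT, Finset.mem_filter]
            rintro ⟨-, h, -⟩
            exact h hc
          simp only [swp, h1, h2, if_false, if_true]
        · have h1 : e r ∉ E := fun h => hc ((hEmem r).1 h)
          have h2 : e r ∈ S := by
            rw [hSmem, hT, Finset.mem_filter]
            exact ⟨Finset.mem_univ _, hc, hr⟩
          simp only [swp, h1, h2, if_false, if_true]
  have key : ∫ p, (f1 p - f2 p) * (g1 p - g2 p) ∂(μ.prod μ) =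
      2 * (∫ a, F a * G a ∂μ - (∫ a, F a ∂μ) * ∫ a, G a ∂μ) := by
    have h1 : ∀ p, (f1 p - f2 p) * (g1 p - g2 p) =
        (f1 p * g1 p - f1 p * g2 p) - (f2 p * g1 p - f2 p * g2 p) := fun p => by ring
    have j1 : Integrable (fun p => f1 p * g1 p - f1 p * g2 p) (μ.prod μ) := i11.sub i12
    have j2 : Integrable (fun p => f2 p * g1 p - f2 p * g2 p) (μ.prod μ) := i21.sub i22
    rw [integral_congr_ae (Filter.Eventually.of_forall h1), integral_sub j1 j2,
      integral_sub i11 i12, integral_sub i21 i22, e22, e21, e11, e12]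
    ring
  -- almost sure bounds
  have aeb : ∀ i : ι, ∀ᵐ a ∂μ, |a i| ≤ 1 := by
    intro i
    have h1 := (measurePreserving_eval (fun _ : ι => ν) i).quasiMeasurePreserving.ae hν
    exact h1
  let δ : β → (ι → ℝ) × (ι → ℝ) → ℝ := fun r p => p.1 (e r) - p.2 (e r)
  have mδ : ∀ r, Measurable (δ r) := fun r => by fun_prop
  have bδ : ∀ r, ∀ᵐ p ∂(μ.prod μ), |δ r p| ≤ 2 := by
    intro r
    have h1 : ∀ᵐ p ∂(μ.prod μ), |p.1 (e r)| ≤ 1 :=
      Measure.quasiMeasurePreserving_fst.ae (aeb (e r))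
    have h2 : ∀ᵐ p ∂(μ.prod μ), |p.2 (e r)| ≤ 1 :=
      Measure.quasiMeasurePreserving_snd.ae (aeb (e r))
    filter_upwards [h1, h2] with p h3 h4
    calc |p.1 (e r) - p.2 (e r)| ≤ |p.1 (e r)| + |p.2 (e r)| := abs_sub _ _
      _ ≤ 2 := by linarith
  have iδ : ∀ r s, Integrable (fun p => δ r p * δ s p) (μ.prod μ) := by
    intro r s
    refine Integrable.of_bound ((mδ r).mul (mδ s)).aestronglyMeasurable 4 ?_
    filter_upwards [bδ r, bδ s] with p h3 h4
    rw [Real.norm_eq_abs, abs_mul]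
    calc |δ r p| * |δ s p| ≤ 2 * 2 := mul_le_mul h3 h4 (abs_nonneg _) (by norm_num)
      _ = 4 := by norm_num
  have oδ : ∀ r s, r ≠ s → ∫ p, δ r p * δ s p ∂(μ.prod μ) = 0 := by
    intro r s hrs
    have h1 := cv {e r} (fun p => δ r p * δ s p) ((mδ r).mul (mδ s))
    have h2 : ∀ p, δ r (swp {e r} p) * δ s (swp {e r} p) = -(δ r p * δ s p) := by
      intro p
      have h3 : e s ∉ ({e r} : Set ι) := by
        intro h
        exact hrs (he (Set.mem_singleton_iff.1 h).symm)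
      have h4 : e r ∈ ({e r} : Set ι) := rfl
      simp only [δ, swp, h3, h4, if_true, if_false]
      ring
    rw [integral_congr_ae (Filter.Eventually.of_forall h2), integral_neg] at h1
    linarith
  have sδ : ∀ r, ∫ p, δ r p * δ r p ∂(μ.prod μ) ≤ 4 := by
    intro r
    have h1 : ∫ p, δ r p * δ r p ∂(μ.prod μ) ≤ ∫ _p : (ι → ℝ) × (ι → ℝ), (4 : ℝ) ∂(μ.prod μ) := by
      apply integral_mono_ae (iδ r r) (integrable_const _)
      filter_upwards [bδ r] with p h3
      show δ r p * δ r p ≤ 4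
      have := abs_le.1 h3
      nlinarith
    simpa using h1
  have quad : ∀ w : β → ℝ, Integrable (fun p => (∑ r ∈ T, w r * δ r p) ^ 2) (μ.prod μ) ∧
      ∫ p, (∑ r ∈ T, w r * δ r p) ^ 2 ∂(μ.prod μ) ≤ 4 * ∑ r ∈ T, w r ^ 2 := by
    intro w
    have h1 : ∀ p, (∑ r ∈ T, w r * δ r p) ^ 2 =
        ∑ r ∈ T, ∑ s ∈ T, (w r * w s) * (δ r p * δ s p) := by
      intro p
      rw [sq, Finset.sum_mul_sum]
      apply Finset.sum_congr rfl
      intro r _
      apply Finset.sum_congr rfl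
      intro s _
      ring
    have h2 : ∀ r s, Integrable (fun p => (w r * w s) * (δ r p * δ s p)) (μ.prod μ) :=
      fun r s => (iδ r s).const_mul _
    have h3 : ∀ r, Integrable (fun p => ∑ s ∈ T, (w r * w s) * (δ r p * δ s p)) (μ.prod μ) :=
      fun r => integrable_finsetSum _ fun s _ => h2 r s
    constructor
    · rw [show (fun p => (∑ r ∈ T, w r * δ r p) ^ 2) =
        fun p => ∑ r ∈ T, ∑ s ∈ T, (w r * w s) * (δ r p * δ s p) from funext h1]
      exact integrable_finsetSum _ fun r _ => h3 r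
    · rw [integral_congr_ae (Filter.Eventually.of_forall h1), integral_finsetSum _ fun r _ => h3 r,
        Finset.mul_sum]
      apply Finset.sum_le_sum
      intro r hr
      rw [integral_finsetSum _ fun s _ => h2 r s, Finset.sum_eq_single r]
      · rw [integral_const_mul]
        have := sδ r
        nlinarith [sq_nonneg (w r)]
      · intro s _ hsr
        rw [integral_const_mul, oδ r s (Ne.symm hsr), mul_zero]
      · intro h; exact absurd hr h
  have dif : ∀ (w : β → ℝ) (hw : ∀ r, r ∈ S.preimage e → True) (p : (ι → ℝ) × (ι → ℝ)),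
      ∑ r, w r * p.1 (e r) - ∑ r, w r * (swp S p).1 (e r) = ∑ r ∈ T, w r * δ r p := by
    intro w _ p
    rw [← Finset.sum_sub_distrib, ← Finset.sum_subset (Finset.subset_univ T)]
    · apply Finset.sum_congr rfl
      intro r hr
      have h1 : e r ∈ S := (hSmem r).2 hr
      simp only [swp, h1, if_true, δ]
      ring
    · intro r _ hr
      have h1 : e r ∉ S := fun h => hr ((hSmem r).1 h)
      simp only [swp, h1, if_false]
      ring
  have pt : ∀ p, |(f1 p - f2 p) * (g1 p - g2 p)| ≤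
      (1 / 4) * (∑ r ∈ T, c r * δ r p) ^ 2 + (1 / 4) * (∑ r ∈ T, d r * δ r p) ^ 2 := by
    intro p
    have h1 := th_lip (∑ r, c r * p.1 (e r)) (∑ r, c r * (swp S p).1 (e r))
    have h2 := th_lip (∑ r, d r * p.1 (e r)) (∑ r, d r * (swp S p).1 (e r))
    rw [dif c (fun _ _ => trivial) p] at h1
    rw [dif d (fun _ _ => trivial) p] at h2
    have h1' : (f1 p - f2 p) ^ 2 ≤ 1 / 2 * (∑ r ∈ T, c r * δ r p) ^ 2 := h1
    have h2' : (g1 p - g2 p) ^ 2 ≤ 1 / 2 * (∑ r ∈ T, d r * δ r p) ^ 2 := h2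
    rw [abs_le]
    constructor
    · nlinarith [sq_nonneg ((f1 p - f2 p) + (g1 p - g2 p))]
    · nlinarith [sq_nonneg ((f1 p - f2 p) - (g1 p - g2 p))]
  obtain ⟨ic, qc⟩ := quad c
  obtain ⟨id', qd⟩ := quad d
  have fin : |∫ p, (f1 p - f2 p) * (g1 p - g2 p) ∂(μ.prod μ)| ≤
      ∑ r ∈ T, c r ^ 2 + ∑ r ∈ T, d r ^ 2 := by
    calc |∫ p, (f1 p - f2 p) * (g1 p - g2 p) ∂(μ.prod μ)|
        ≤ ∫ p, |(f1 p - f2 p) * (g1 p - g2 p)| ∂(μ.prod μ) := abs_integral_le_integral_abs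
      _ ≤ ∫ p, ((1 / 4) * (∑ r ∈ T, c r * δ r p) ^ 2 + (1 / 4) * (∑ r ∈ T, d r * δ r p) ^ 2)
            ∂(μ.prod μ) := by
          apply integral_mono_of_nonneg (Filter.Eventually.of_forall fun p => abs_nonneg _)
            ((ic.const_mul _).add (id'.const_mul _))
            (Filter.Eventually.of_forall pt)
      _ = (1 / 4) * ∫ p, (∑ r ∈ T, c r * δ r p) ^ 2 ∂(μ.prod μ) +
            (1 / 4) * ∫ p, (∑ r ∈ T, d r * δ r p) ^ 2 ∂(μ.prod μ) := by
          rw [integral_add (ic.const_mul _) (id'.const_mul _), integral_const_mul, integral_const_mul]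
      _ ≤ _ := by linarith
  rw [key, abs_mul, abs_of_pos (by norm_num : (0 : ℝ) < 2)] at fin
  show |∫ a, F a * G a ∂μ - (∫ a, F a ∂μ) * ∫ a, G a ∂μ| ≤ _
  linarith

end CovAux

theorem U1_prob : IsProbabilityMeasure U1 := by
  constructor
  unfold U1
  rw [Measure.smul_apply, Measure.restrict_apply_univ, Real.volume_Icc, smul_eq_mul]
  norm_num
  exact ENNReal.inv_mul_cancel (by norm_num) (by norm_num)

theorem U1_ae : ∀ᵐ t ∂U1, |t| ≤ 1 := by
  unfold U1
  apply Measure.ae_smul_measure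
  rw [ae_restrict_iff' measurableSet_Icc]
  filter_upwards with t ht
  exact abs_le.2 ⟨ht.1, ht.2⟩

theorem chiB_bounds {D n k : ℕ} (r : BIdx D n k) (x : Fin D → Str n) :
    0 ≤ chiB r x ∧ chiB r x ≤ 1 := by
  have h : ∀ i, 0 ≤ (if trunc (r.1.1 i) (x i) = r.1.2 i then chi (r.1.1 i) (x i) else (0 : ℝ)) ∧
      (if trunc (r.1.1 i) (x i) = r.1.2 i then chi (r.1.1 i) (x i) else (0 : ℝ)) ≤ 1 := by
    intro i
    split_ifs
    · exact chi_bounds (by have := (r.1.1 i).2; omega) (x i)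
    · exact ⟨le_rfl, zero_le_one⟩
  unfold chiB
  exact ⟨Finset.prod_nonneg fun i _ => (h i).1, Finset.prod_le_one (fun i _ => (h i).1)
    fun i _ => (h i).2⟩

theorem chiB_ne {D n k : ℕ} (r : BIdx D n k) (x : Fin D → Str n) (h : chiB r x ≠ 0) (i : Fin D) :
    trunc (r.1.1 i) (x i) = r.1.2 i := by
  by_contra h0
  apply h
  unfold chiB
  apply Finset.prod_eq_zero (Finset.mem_univ i)
  rw [if_neg h0]

open Classical in
theorem card_shared {D n k : ℕ} (x y : Fin D → Str n) :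
    (Finset.univ.filter (fun r : BIdx D n k => chiB r x ≠ 0 ∧ chiB r y ≠ 0)).card ≤ cnt D k x y := by
  unfold cnt
  rw [← Fintype.card_coe]
  let φ : {r // r ∈ Finset.univ.filter (fun r : BIdx D n k => chiB r x ≠ 0 ∧ chiB r y ≠ 0)} →
      {s : Fin D → Fin (n+1) // (∑ i, ((s i : Fin (n+1)) : ℕ)) + k = n ∧
        ∀ i, trunc (s i) (x i) = trunc (s i) (y i)} := fun r =>
    ⟨r.1.1.1, r.1.2.1, fun i => by
      have h := (Finset.mem_filter.1 r.2).2
      rw [chiB_ne _ _ h.1 i, chiB_ne _ _ h.2 i]⟩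
  refine (Fintype.card_le_of_injective φ ?_).trans (le_of_eq ?_)
  · intro r r' h
    have h1 : r.1.1.1 = r'.1.1.1 := congrArg Subtype.val h
    apply Subtype.ext
    apply Subtype.ext
    apply Prod.ext h1
    funext i
    have h2 := (Finset.mem_filter.1 r.2).2
    have h3 := (Finset.mem_filter.1 r'.2).2
    rw [← chiB_ne _ _ h2.1 i, ← chiB_ne _ _ h3.1 i, h1]
  · exact Fintype.card_congr (Equiv.refl _)

theorem cov_theta {D n : ℕ} (κ : Node n) (x y : Fin D → Str n) :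
    |∫ a, (1 + psi a κ x ^ 2)⁻¹ * (1 + psi a κ y ^ 2)⁻¹ ∂(mu D n) - kbar D n κ x * kbar D n κ y|
      ≤ rho D κ.1.1 x y := by
  classical
  have := U1_prob
  have hw : ((Real.sqrt (ms D n κ.1.1))⁻¹) ^ 2 = ((ms D n κ.1.1 : ℕ) : ℝ)⁻¹ := by
    rw [inv_pow, Real.sq_sqrt (Nat.cast_nonneg _)]
  have hpsi : ∀ (a : Idx D n → ℝ) (z : Fin D → Str n), psi a κ z =
      ∑ r : BIdx D n κ.1.1, ((Real.sqrt (ms D n κ.1.1))⁻¹ * chiB r z) * a ⟨κ, r⟩ := by
    intro a z
    unfold psi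
    rw [Finset.mul_sum]
    apply Finset.sum_congr rfl
    intro r _
    ring
  have h := cov_abs (ι := Idx D n) (β := BIdx D n κ.1.1) U1 U1_ae (fun r => ⟨κ, r⟩)
    (fun r r' hrr => eq_of_heq (Sigma.mk.inj hrr).2)
    (fun r => (Real.sqrt (ms D n κ.1.1))⁻¹ * chiB r x)
    (fun r => (Real.sqrt (ms D n κ.1.1))⁻¹ * chiB r y)
  have hb : ∀ z : Fin D → Str n,
      ∑ r ∈ Finset.univ.filter (fun r : BIdx D n κ.1.1 =>
        (Real.sqrt (ms D n κ.1.1))⁻¹ * chiB r x ≠ 0 ∧ (Real.sqrt (ms D n κ.1.1))⁻¹ * chiB r y ≠ 0),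
        ((Real.sqrt (ms D n κ.1.1))⁻¹ * chiB r z) ^ 2 ≤ rho D κ.1.1 x y := by
    intro z
    have h1 : ∀ r : BIdx D n κ.1.1, ((Real.sqrt (ms D n κ.1.1))⁻¹ * chiB r z) ^ 2 ≤
        ((ms D n κ.1.1 : ℕ) : ℝ)⁻¹ := by
      intro r
      rw [mul_pow, hw]
      have h2 := chiB_bounds r z
      have h3 : chiB r z ^ 2 ≤ 1 := by nlinarith
      have h4 : (0 : ℝ) ≤ ((ms D n κ.1.1 : ℕ) : ℝ)⁻¹ := by positivity
      nlinarith
    refine (Finset.sum_le_card_nsmul _ _ _ fun r _ => h1 r).trans ?_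
    rw [nsmul_eq_mul, rho, div_eq_mul_inv]
    apply mul_le_mul_of_nonneg_right _ (by positivity)
    have h5 : (Finset.univ.filter (fun r : BIdx D n κ.1.1 =>
        (Real.sqrt (ms D n κ.1.1))⁻¹ * chiB r x ≠ 0 ∧ (Real.sqrt (ms D n κ.1.1))⁻¹ * chiB r y ≠ 0)).card ≤
        (Finset.univ.filter (fun r : BIdx D n κ.1.1 => chiB r x ≠ 0 ∧ chiB r y ≠ 0)).card := by
      apply Finset.card_le_card
      intro r hr
      rw [Finset.mem_filter] at hr ⊢
      exact ⟨hr.1, right_ne_zero_of_mul hr.2.1, right_ne_zero_of_mul hr.2.2⟩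
    exact_mod_cast h5.trans (card_shared x y)
  simp only [kbar, hpsi]
  refine le_trans h ?_
  have hx := hb x
  have hy := hb y
  linarith


end Sol_cov_theta

alias cov_theta := Sol_cov_theta.cov_theta

end BSheet
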