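import Pool.Agent.BSheet.Defs
open MeasureTheory Real
open scoped ENNReal BigOperators

namespace BSheet
open ProbabilityTheory
namespace Sol_indep_sigma



theorem indep_sigma {I : Type} [Fintype I] [DecidableEq I] {J : I → Type} [∀ i, Fintype (J i)]
    (ν : Measure ℝ) [IsProbabilityMeasure ν] (T : Finset I) (f : ∀ i, (J i → ℝ) → ℝ)
    (hf : ∀ i, Continuous (f i)) (hb : ∀ i, ∃ C, ∀ v, |f i v| ≤ C) :
    ∫ a, ∏ i ∈ T, f i (fun r => a ⟨i, r⟩) ∂(Measure.pi (fun _ : (i : I) × J i => ν))
      = ∏ i ∈ T, ∫ a, f i (fun r => a ⟨i, r⟩) ∂(Measure.pi (fun _ : (i : I) × J i => ν)) := by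
  have hm : ∀ i, Measurable (fun (a : (i : I) × J i → ℝ) (r : J i) => a ⟨i, r⟩) := fun i => by
    fun_prop
  have hind : ProbabilityTheory.iIndepFun
      (fun (i : I) (a : (i : I) × J i → ℝ) (r : J i) => a ⟨i, r⟩)
      (Measure.pi (fun _ : (i : I) × J i => ν)) := by
    rw [← Measure.infinitePi_eq_pi]
    rw [ProbabilityTheory.iIndepFun_iff_map_fun_eq_infinitePi_map (by fun_prop)]
    have e1 := Measure.infinitePi_map_piCurry (fun (i : I) (_ : J i) => ν)
    have e2 : ∀ i : I, (Measure.infinitePi (fun _ : (i : I) × J i => ν)).map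
        (fun (a : (i : I) × J i → ℝ) (r : J i) => a ⟨i, r⟩) =
        Measure.infinitePi (fun _ : J i => ν) := fun i =>
      Measure.map_infinitePi_infinitePi_of_inj (P := fun _ : (i : I) × J i => ν)
        (f := fun j : J i => (⟨i, j⟩ : (i : I) × J i)) (sigma_mk_injective)
    simp_rw [e2]
    exact e1
  have key := hind.integral_fun_prod_comp (f := fun i v => if i ∈ T then f i v else 1)
    (fun i => (hm i).aemeasurable) (fun i => by
      by_cases h : i ∈ T
      · simp only [if_pos h]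
        exact (hf i).aestronglyMeasurable
      · simp only [if_neg h]
        exact aestronglyMeasurable_const)
  have e3 : ∀ a : (i : I) × J i → ℝ, (∏ i, if i ∈ T then f i (fun r => a ⟨i, r⟩) else 1) =
      ∏ i ∈ T, f i (fun r => a ⟨i, r⟩) := by
    intro a
    rw [Finset.prod_ite_mem, Finset.univ_inter]
  have e4 : (∏ i, ∫ a : (i : I) × J i → ℝ, (if i ∈ T then f i (fun r => a ⟨i, r⟩) else 1)
      ∂(Measure.pi (fun _ : (i : I) × J i => ν))) =
      ∏ i ∈ T, ∫ a, f i (fun r => a ⟨i, r⟩) ∂(Measure.pi (fun _ : (i : I) × J i => ν)) := by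
    rw [← Finset.univ_inter T, ← Finset.prod_ite_mem]
    refine Finset.prod_congr rfl fun i _ => ?_
    by_cases h : i ∈ T
    · simp [if_pos h, Finset.univ_inter]
    · simp [if_neg h, Finset.univ_inter]
  simp_rw [e3] at key
  rw [key, e4]


end Sol_indep_sigma

alias indep_sigma := Sol_indep_sigma.indep_sigma

end BSheet
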