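import Pool.Agent.BSheet.Defs
open MeasureTheory Real
open scoped ENNReal BigOperators

namespace BSheet
open ProbabilityTheory
namespace Sol_int_arctan



theorem h400_U1_fin : IsFiniteMeasure U1 := by
  unfold U1
  exact Measure.smul_finite _ (by simp)

theorem h400_U1_neg : U1.IsNegInvariant := by
  constructor
  unfold Measure.neg U1
  have h1 : MeasurePreserving (Neg.neg : ℝ → ℝ) volume volume := Measure.measurePreserving_neg volume
  have h2 := h1.restrict_preimage (measurableSet_Icc (a := (-1 : ℝ)) (b := 1))
  have h3 : (Neg.neg : ℝ → ℝ) ⁻¹' Set.Icc (-1) 1 = Set.Icc (-1) 1 := by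
    ext x
    simp only [Set.mem_preimage, Set.mem_Icc]
    constructor <;> intro h <;> constructor <;> linarith [h.1, h.2]
  rw [h3] at h2
  rw [Measure.map_smul, h2.map_eq]

theorem h400_psi_neg {D n : ℕ} (a : Idx D n → ℝ) (κ : Node n) (x : Fin D → Str n) :
    psi (-a) κ x = - psi a κ x := by
  unfold psi
  rw [← mul_neg, ← Finset.sum_neg_distrib]
  congr 1
  apply Finset.sum_congr rfl
  intro r _
  simp

theorem int_arctan {D n : ℕ} (κ : Node n) (x : Fin D → Str n) :
    ∫ a, Real.arctan (psi a κ x) ∂(mu D n) = 0 := by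
  haveI := h400_U1_fin
  haveI := h400_U1_neg
  haveI : (mu D n).IsNegInvariant := by
    unfold mu
    infer_instance
  have h := integral_neg_eq_self (fun a => Real.arctan (psi a κ x)) (mu D n)
  simp only [h400_psi_neg, Real.arctan_neg] at h
  rw [integral_neg] at h
  linarith


end Sol_int_arctan

alias int_arctan := Sol_int_arctan.int_arctan

end BSheet
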