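import Pool.Agent.BSheet.Defs
import Pool.Agent.BSheet.L_mu_prob
import Pool.Agent.BSheet.L_int_arctan
import Pool.Agent.BSheet.L_cov_arctan
import Pool.Agent.BSheet.L_cov_theta
import Pool.Agent.BSheet.L_indep_sigma
open MeasureTheory Real
open scoped ENNReal BigOperators

namespace BSheet
open ProbabilityTheory
namespace Sol_cov_main








theorem cov_main_U1 : IsProbabilityMeasure U1 := by
  refine ⟨?_⟩
  unfold U1
  rw [Measure.smul_apply, Measure.restrict_apply MeasurableSet.univ, Set.univ_inter,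
    Real.volume_Icc, smul_eq_mul]
  norm_num
  exact ENNReal.inv_mul_cancel (by norm_num) (by norm_num)

noncomputable def cov_main_p {D n : ℕ} (κ : Node n) (x : Fin D → Str n)
    (v : BIdx D n κ.1.1 → ℝ) : ℝ :=
  (Real.sqrt (ms D n κ.1.1))⁻¹ * ∑ r : BIdx D n κ.1.1, v r * chiB r x

theorem cov_main_p_cont {D n : ℕ} (κ : Node n) (x : Fin D → Str n) :
    Continuous (cov_main_p κ x) := by
  unfold cov_main_p
  fun_prop

theorem cov_main_psi_cont {D n : ℕ} (κ : Node n) (x : Fin D → Str n) :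
    Continuous (fun a : Idx D n → ℝ => psi a κ x) := by
  unfold psi
  fun_prop

theorem cov_main_indep {D n : ℕ} (κ : Node n)
    (F : ∀ ν : Node n, (BIdx D n ν.1.1 → ℝ) → ℝ)
    (hF : ∀ ν, Continuous (F ν)) (hb : ∀ ν, ∃ C, ∀ v, |F ν v| ≤ C) :
    ∫ a, (∏ j : Fin (n+1), if j < κ.1.1 then
        F (mkNode j κ.1.2) (fun r => a ⟨mkNode j κ.1.2, r⟩) else 1) *
        F κ (fun r => a ⟨κ, r⟩) ∂(mu D n) =
      (∏ j : Fin (n+1), if j < κ.1.1 then
        ∫ a, F (mkNode j κ.1.2) (fun r => a ⟨mkNode j κ.1.2, r⟩) ∂(mu D n) else 1) *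
        ∫ a, F κ (fun r => a ⟨κ, r⟩) ∂(mu D n) := by
  have hU := cov_main_U1
  let S : Finset (Fin (n+1)) := Finset.univ.filter (fun j => j < κ.1.1)
  let T : Finset (Node n) := S.image (fun j => mkNode j κ.1.2)
  have hκT : κ ∉ T := by
    intro h
    obtain ⟨j, hj, hj'⟩ := Finset.mem_image.1 h
    have h1 : (mkNode j κ.1.2).1.1 = κ.1.1 := by rw [hj']
    have h2 : j = κ.1.1 := h1
    have h3 := (Finset.mem_filter.1 hj).2
    exact absurd h2 (ne_of_lt h3)
  have hinj : Set.InjOn (fun j => mkNode j κ.1.2) (S : Set (Fin (n+1))) := by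
    intro i _ j _ hij
    have h1 : (mkNode i κ.1.2).1.1 = (mkNode j κ.1.2).1.1 := by
      have : mkNode i κ.1.2 = mkNode j κ.1.2 := hij
      rw [this]
    exact h1
  have key := indep_sigma (I := Node n) (J := fun ν => BIdx D n ν.1.1) U1 (insert κ T) F hF hb
  have e1 : ∀ (G : Node n → ℝ), ∏ i ∈ insert κ T, G i =
      (∏ j : Fin (n+1), if j < κ.1.1 then G (mkNode j κ.1.2) else 1) * G κ := by
    intro G
    rw [Finset.prod_insert hκT, Finset.prod_image hinj, Finset.prod_filter, mul_comm]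
  rw [e1] at key
  refine Eq.trans ?_ key
  refine integral_congr_ae (Filter.Eventually.of_forall fun a => ?_)
  exact (e1 (fun i => F i (fun r => a ⟨i, r⟩))).symm

/-- the factors -/
noncomputable def cov_main_F {D n : ℕ} (κ : Node n) (x : Fin D → Str n) (ν : Node n)
    (v : BIdx D n ν.1.1 → ℝ) : ℝ :=
  if ν.1.1 = κ.1.1 then (1 + cov_main_p ν x v ^ 2)⁻¹
  else 1 + (1/4) * gd (κ.1.2 ν.1.1) * Real.arctan (cov_main_p ν x v)

theorem cov_main_F_cont {D n : ℕ} (κ : Node n) (x : Fin D → Str n) (ν : Node n) :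
    Continuous (cov_main_F κ x ν) := by
  have h := cov_main_p_cont ν x
  unfold cov_main_F
  by_cases hν : ν.1.1 = κ.1.1
  · simp only [hν, if_true]
    refine Continuous.inv₀ (by fun_prop) fun v => ?_
    positivity
  · simp only [hν, if_false]
    exact continuous_const.add (continuous_const.mul (Real.continuous_arctan.comp h))

theorem cov_main_gd (a : Fin 4) : |gd a| ≤ 1 ∧ gd a * gd a = 1 := by
  unfold gd
  split_ifs <;> norm_num

theorem cov_main_arctan (s : ℝ) : |Real.arctan s| ≤ 2 := by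
  have h1 := Real.arctan_lt_pi_div_two s
  have h2 := Real.neg_pi_div_two_lt_arctan s
  have h3 := Real.pi_lt_four
  rw [abs_le]
  constructor <;> linarith

theorem cov_main_F_bd {D n : ℕ} (κ : Node n) (x : Fin D → Str n) (ν : Node n)
    (v : BIdx D n ν.1.1 → ℝ) : |cov_main_F κ x ν v| ≤ 2 := by
  unfold cov_main_F
  split_ifs
  · rw [abs_of_nonneg (by positivity)]
    have : (1 + cov_main_p ν x v ^ 2)⁻¹ ≤ 1 := inv_le_one_of_one_le₀ (by nlinarith [sq_nonneg (cov_main_p ν x v)])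
    linarith
  · have h1 := (cov_main_gd (κ.1.2 ν.1.1)).1
    have h2 := cov_main_arctan (cov_main_p ν x v)
    have h3 : |gd (κ.1.2 ν.1.1) * Real.arctan (cov_main_p ν x v)| ≤ 2 := by
      rw [abs_mul]
      nlinarith [abs_nonneg (gd (κ.1.2 ν.1.1)), abs_nonneg (Real.arctan (cov_main_p ν x v))]
    rw [abs_le] at h3 ⊢
    constructor <;> linarith [h3.1, h3.2]

theorem cov_main_F_self {D n : ℕ} (κ : Node n) (x : Fin D → Str n) (a : Idx D n → ℝ) :
    cov_main_F κ x κ (fun r => a ⟨κ, r⟩) = (1 + psi a κ x ^ 2)⁻¹ := by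
  unfold cov_main_F
  rw [if_pos rfl]
  rfl

theorem cov_main_F_ne {D n : ℕ} (κ : Node n) (x : Fin D → Str n) (a : Idx D n → ℝ)
    (j : Fin (n+1)) (hj : j < κ.1.1) :
    cov_main_F κ x (mkNode j κ.1.2) (fun r => a ⟨mkNode j κ.1.2, r⟩) =
      1 + (1/4) * gd (κ.1.2 j) * Real.arctan (psi a (mkNode j κ.1.2) x) := by
  unfold cov_main_F
  rw [if_neg (show ¬ (mkNode j κ.1.2).1.1 = κ.1.1 from ne_of_lt hj)]
  rfl

theorem cov_main_W {D n : ℕ} (κ : Node n) (x : Fin D → Str n) (a : Idx D n → ℝ) :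
    (∏ j : Fin (n+1), if j < κ.1.1 then
        cov_main_F κ x (mkNode j κ.1.2) (fun r => a ⟨mkNode j κ.1.2, r⟩) else 1) = W a κ x := by
  unfold W
  refine Finset.prod_congr rfl fun j _ => ?_
  by_cases hj : j < κ.1.1
  · rw [if_pos hj, if_pos hj, cov_main_F_ne κ x a j hj]
  · rw [if_neg hj, if_neg hj]

theorem cov_main_mean {D n : ℕ} (κ : Node n) (x : Fin D → Str n) :
    ∫ a, W a κ x * (1 + psi a κ x ^ 2)⁻¹ ∂(mu D n) = kbar D n κ x := by
  have hP := mu_prob D n
  have h := cov_main_indep κ (cov_main_F κ x) (cov_main_F_cont κ x)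
    (fun ν => ⟨2, cov_main_F_bd κ x ν⟩)
  simp_rw [cov_main_W, cov_main_F_self] at h
  rw [h]
  have h1 : (∏ j : Fin (n+1), if j < κ.1.1 then
      ∫ a, cov_main_F κ x (mkNode j κ.1.2) (fun r => a ⟨mkNode j κ.1.2, r⟩) ∂(mu D n) else 1) = 1 := by
    refine Finset.prod_eq_one fun j _ => ?_
    by_cases hj : j < κ.1.1
    · rw [if_pos hj]
      simp_rw [cov_main_F_ne κ x _ j hj]
      have hc : Continuous (fun a : Idx D n → ℝ => Real.arctan (psi a (mkNode j κ.1.2) x)) :=
        Real.continuous_arctan.comp (cov_main_psi_cont _ _)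
      have hi : Integrable (fun a : Idx D n → ℝ => Real.arctan (psi a (mkNode j κ.1.2) x)) (mu D n) :=
        (integrable_const (2 : ℝ)).mono' hc.aestronglyMeasurable
          (Filter.Eventually.of_forall fun a => cov_main_arctan _)
      rw [integral_add (integrable_const _) (hi.const_mul _), integral_const_mul, int_arctan]
      simp
    · rw [if_neg hj]
  rw [h1, one_mul]
  rfl

theorem cov_main_cross {D n : ℕ} (κ : Node n) (x y : Fin D → Str n) :
    ∫ a, (W a κ x * (1 + psi a κ x ^ 2)⁻¹) * (W a κ y * (1 + psi a κ y ^ 2)⁻¹) ∂(mu D n) =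
      (∏ j : Fin (n+1), (1 + if j < κ.1.1 then (1/16) * ∫ a, Real.arctan (psi a (mkNode j κ.1.2) x) *
        Real.arctan (psi a (mkNode j κ.1.2) y) ∂(mu D n) else 0)) *
      ∫ a, (1 + psi a κ x ^ 2)⁻¹ * (1 + psi a κ y ^ 2)⁻¹ ∂(mu D n) := by
  have hP := mu_prob D n
  have h := cov_main_indep κ (fun ν v => cov_main_F κ x ν v * cov_main_F κ y ν v)
    (fun ν => (cov_main_F_cont κ x ν).mul (cov_main_F_cont κ y ν))
    (fun ν => ⟨4, fun v => by
      rw [abs_mul]
      nlinarith [cov_main_F_bd κ x ν v, cov_main_F_bd κ y ν v, abs_nonneg (cov_main_F κ x ν v),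
        abs_nonneg (cov_main_F κ y ν v)]⟩)
  have h0 : ∀ a : Idx D n → ℝ, (∏ j : Fin (n+1), if j < κ.1.1 then
      cov_main_F κ x (mkNode j κ.1.2) (fun r => a ⟨mkNode j κ.1.2, r⟩) *
      cov_main_F κ y (mkNode j κ.1.2) (fun r => a ⟨mkNode j κ.1.2, r⟩) else 1) =
      W a κ x * W a κ y := by
    intro a
    rw [← cov_main_W κ x a, ← cov_main_W κ y a, ← Finset.prod_mul_distrib]
    refine Finset.prod_congr rfl fun j _ => ?_
    split_ifs <;> simp
  simp_rw [h0, cov_main_F_self] at h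
  have h2 : ∀ a : Idx D n → ℝ, (W a κ x * (1 + psi a κ x ^ 2)⁻¹) * (W a κ y * (1 + psi a κ y ^ 2)⁻¹) =
    W a κ x * W a κ y * ((1 + psi a κ x ^ 2)⁻¹ * (1 + psi a κ y ^ 2)⁻¹) := fun a => by ring
  simp_rw [h2]
  rw [h]
  congr 1
  refine Finset.prod_congr rfl fun j _ => ?_
  by_cases hj : j < κ.1.1
  · rw [if_pos hj, if_pos hj]
    simp_rw [cov_main_F_ne κ _ _ j hj]
    have hc : ∀ x, Continuous (fun a : Idx D n → ℝ => Real.arctan (psi a (mkNode j κ.1.2) x)) :=
      fun x => Real.continuous_arctan.comp (cov_main_psi_cont _ _)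
    have hi : ∀ x, Integrable (fun a : Idx D n → ℝ => Real.arctan (psi a (mkNode j κ.1.2) x)) (mu D n) :=
      fun x => (integrable_const (2 : ℝ)).mono' (hc x).aestronglyMeasurable
        (Filter.Eventually.of_forall fun a => cov_main_arctan _)
    have hii : Integrable (fun a : Idx D n → ℝ => Real.arctan (psi a (mkNode j κ.1.2) x) *
        Real.arctan (psi a (mkNode j κ.1.2) y)) (mu D n) :=
      (integrable_const (4 : ℝ)).mono' ((hc x).mul (hc y)).aestronglyMeasurable
        (Filter.Eventually.of_forall fun a => by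
          rw [Real.norm_eq_abs, abs_mul]
          nlinarith [cov_main_arctan (psi a (mkNode j κ.1.2) x),
            cov_main_arctan (psi a (mkNode j κ.1.2) y),
            abs_nonneg (Real.arctan (psi a (mkNode j κ.1.2) x)),
            abs_nonneg (Real.arctan (psi a (mkNode j κ.1.2) y))])
    have hg := (cov_main_gd (κ.1.2 j)).2
    have h3 : ∀ a : Idx D n → ℝ,
        (1 + (1/4) * gd (κ.1.2 j) * Real.arctan (psi a (mkNode j κ.1.2) x)) *
        (1 + (1/4) * gd (κ.1.2 j) * Real.arctan (psi a (mkNode j κ.1.2) y)) =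
        (1 + (1/16) * (Real.arctan (psi a (mkNode j κ.1.2) x) *
          Real.arctan (psi a (mkNode j κ.1.2) y))) +
        ((1/4) * gd (κ.1.2 j) * Real.arctan (psi a (mkNode j κ.1.2) x) +
          (1/4) * gd (κ.1.2 j) * Real.arctan (psi a (mkNode j κ.1.2) y)) := by
      intro a
      linear_combination (1/16) * Real.arctan (psi a (mkNode j κ.1.2) x) *
          Real.arctan (psi a (mkNode j κ.1.2) y) * hg
    simp_rw [h3]
    have hA : Integrable (fun a : Idx D n → ℝ => 1 + (1/16) *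
        (Real.arctan (psi a (mkNode j κ.1.2) x) * Real.arctan (psi a (mkNode j κ.1.2) y)))
        (mu D n) := (integrable_const _).add (hii.const_mul _)
    have hB : Integrable (fun a : Idx D n → ℝ =>
        (1/4) * gd (κ.1.2 j) * Real.arctan (psi a (mkNode j κ.1.2) x) +
          (1/4) * gd (κ.1.2 j) * Real.arctan (psi a (mkNode j κ.1.2) y)) (mu D n) :=
      ((hi x).const_mul _).add ((hi y).const_mul _)
    rw [integral_add hA hB,
      integral_add (integrable_const _) (hii.const_mul _),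
      integral_add ((hi x).const_mul _) ((hi y).const_mul _),
      integral_const_mul, integral_const_mul, integral_const_mul, int_arctan, int_arctan]
    simp
  · rw [if_neg hj, if_neg hj, add_zero]

theorem cov_main_Wbd {D n : ℕ} (κ : Node n) (x : Fin D → Str n) (a : Idx D n → ℝ) :
    |W a κ x * (1 + psi a κ x ^ 2)⁻¹| ≤ 2 ^ (n + 1) := by
  have h1 : |W a κ x| ≤ 2 ^ (n + 1) := by
    rw [← cov_main_W, Finset.abs_prod]
    have h2 : ∀ j ∈ (Finset.univ : Finset (Fin (n+1))), |if j < κ.1.1 then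
        cov_main_F κ x (mkNode j κ.1.2) (fun r => a ⟨mkNode j κ.1.2, r⟩) else 1| ≤ 2 := by
      intro j _
      split_ifs
      · exact cov_main_F_bd _ _ _ _
      · norm_num
    calc _ ≤ ∏ _j : Fin (n+1), (2 : ℝ) := Finset.prod_le_prod (fun _ _ => abs_nonneg _) h2
      _ = 2 ^ (n + 1) := by simp
  rw [abs_mul, abs_of_nonneg (show 0 ≤ (1 + psi a κ x ^ 2)⁻¹ by positivity)]
  have h3 : (1 + psi a κ x ^ 2)⁻¹ ≤ 1 := inv_le_one_of_one_le₀ (by nlinarith [sq_nonneg (psi a κ x)])
  calc |W a κ x| * (1 + psi a κ x ^ 2)⁻¹ ≤ 2 ^ (n + 1) * 1 := by gcongr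
    _ = _ := mul_one _

theorem cov_main_Wcont {D n : ℕ} (κ : Node n) (x : Fin D → Str n) :
    Continuous (fun a : Idx D n → ℝ => W a κ x * (1 + psi a κ x ^ 2)⁻¹) := by
  refine Continuous.mul ?_ ?_
  · unfold W
    refine continuous_finsetProd _ fun j _ => ?_
    by_cases hj : j < κ.1.1
    · simp only [hj, if_true]
      exact continuous_const.add (continuous_const.mul
        (Real.continuous_arctan.comp (cov_main_psi_cont _ _)))
    · simp only [hj, if_false]
      exact continuous_const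
  · refine Continuous.inv₀ ?_ fun a => by positivity
    exact continuous_const.add ((cov_main_psi_cont _ _).pow 2)

theorem cov_main {D n : ℕ} (κ : Node n) (x y : Fin D → Str n) :
    |∫ a, (W a κ x * (1 + psi a κ x ^ 2)⁻¹ - kbar D n κ x)
        * (W a κ y * (1 + psi a κ y ^ 2)⁻¹ - kbar D n κ y) ∂(mu D n)| ≤ maj D κ.1.1 x y := by
  have hP := mu_prob D n
  have hi : ∀ x, Integrable (fun a : Idx D n → ℝ => W a κ x * (1 + psi a κ x ^ 2)⁻¹) (mu D n) :=
    fun x => (integrable_const ((2 : ℝ) ^ (n + 1))).mono' (cov_main_Wcont κ x).aestronglyMeasurable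
      (Filter.Eventually.of_forall fun a => cov_main_Wbd κ x a)
  have hii : Integrable (fun a : Idx D n → ℝ => (W a κ x * (1 + psi a κ x ^ 2)⁻¹) *
      (W a κ y * (1 + psi a κ y ^ 2)⁻¹)) (mu D n) :=
    (integrable_const ((2 : ℝ) ^ (n + 1) * 2 ^ (n + 1))).mono'
      ((cov_main_Wcont κ x).mul (cov_main_Wcont κ y)).aestronglyMeasurable
      (Filter.Eventually.of_forall fun a => by
        rw [Real.norm_eq_abs, abs_mul]
        exact mul_le_mul (cov_main_Wbd κ x a) (cov_main_Wbd κ y a) (abs_nonneg _) (by positivity))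
  have h1 : ∀ a : Idx D n → ℝ, (W a κ x * (1 + psi a κ x ^ 2)⁻¹ - kbar D n κ x)
        * (W a κ y * (1 + psi a κ y ^ 2)⁻¹ - kbar D n κ y) =
      ((W a κ x * (1 + psi a κ x ^ 2)⁻¹) * (W a κ y * (1 + psi a κ y ^ 2)⁻¹) +
        kbar D n κ x * kbar D n κ y) -
      (kbar D n κ y * (W a κ x * (1 + psi a κ x ^ 2)⁻¹) +
        kbar D n κ x * (W a κ y * (1 + psi a κ y ^ 2)⁻¹)) := fun a => by ring
  have h2 : ∫ a, (W a κ x * (1 + psi a κ x ^ 2)⁻¹ - kbar D n κ x)
        * (W a κ y * (1 + psi a κ y ^ 2)⁻¹ - kbar D n κ y) ∂(mu D n) =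
      ∫ a, (W a κ x * (1 + psi a κ x ^ 2)⁻¹) * (W a κ y * (1 + psi a κ y ^ 2)⁻¹) ∂(mu D n) -
        kbar D n κ x * kbar D n κ y := by
    simp_rw [h1]
    have hA : Integrable (fun a : Idx D n → ℝ => (W a κ x * (1 + psi a κ x ^ 2)⁻¹) *
        (W a κ y * (1 + psi a κ y ^ 2)⁻¹) + kbar D n κ x * kbar D n κ y) (mu D n) :=
      hii.add (integrable_const _)
    have hB : Integrable (fun a : Idx D n → ℝ =>
        kbar D n κ y * (W a κ x * (1 + psi a κ x ^ 2)⁻¹) +
        kbar D n κ x * (W a κ y * (1 + psi a κ y ^ 2)⁻¹)) (mu D n) :=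
      ((hi x).const_mul _).add ((hi y).const_mul _)
    rw [integral_sub hA hB,
      integral_add hii (integrable_const _),
      integral_add ((hi x).const_mul _) ((hi y).const_mul _)]
    have e1 : ∫ a, kbar D n κ y * (W a κ x * (1 + psi a κ x ^ 2)⁻¹) ∂(mu D n) =
        kbar D n κ y * kbar D n κ x := by rw [integral_const_mul, cov_main_mean]
    have e2 : ∫ a, kbar D n κ x * (W a κ y * (1 + psi a κ y ^ 2)⁻¹) ∂(mu D n) =
        kbar D n κ x * kbar D n κ y := by rw [integral_const_mul, cov_main_mean]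
    have e3 : ∫ _a : Idx D n → ℝ, kbar D n κ x * kbar D n κ y ∂(mu D n) =
        kbar D n κ x * kbar D n κ y := by simp
    rw [e1, e2, e3]
    ring
  rw [h2, cov_main_cross]
  set P := ∏ j : Fin (n+1), (1 + if j < κ.1.1 then (1/16) * ∫ a, Real.arctan (psi a (mkNode j κ.1.2) x) *
        Real.arctan (psi a (mkNode j κ.1.2) y) ∂(mu D n) else 0) with hPdef
  set Ex := ∫ a, (1 + psi a κ x ^ 2)⁻¹ * (1 + psi a κ y ^ 2)⁻¹ ∂(mu D n) with hEx
  have h3 : |P - 1| ≤ Real.exp ((1/16) * ∑ j : Fin (n+1), if j < κ.1.1 then rho D j x y else 0) - 1 := by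
    have h4 := Finset.norm_prod_one_add_sub_one_le (Finset.univ : Finset (Fin (n+1)))
      (fun j => if j < κ.1.1 then (1/16) * ∫ a, Real.arctan (psi a (mkNode j κ.1.2) x) *
        Real.arctan (psi a (mkNode j κ.1.2) y) ∂(mu D n) else 0)
    rw [← hPdef, Real.norm_eq_abs] at h4
    refine h4.trans ?_
    have h5 : ∑ j : Fin (n+1), ‖if j < κ.1.1 then (1/16) * ∫ a, Real.arctan (psi a (mkNode j κ.1.2) x) *
        Real.arctan (psi a (mkNode j κ.1.2) y) ∂(mu D n) else 0‖ ≤
        (1/16) * ∑ j : Fin (n+1), if j < κ.1.1 then rho D j x y else 0 := by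
      rw [Finset.mul_sum]
      refine Finset.sum_le_sum fun j _ => ?_
      by_cases hj : j < κ.1.1
      · rw [if_pos hj, if_pos hj, Real.norm_eq_abs, abs_mul, abs_of_pos (by norm_num : (0:ℝ) < 1/16)]
        have h6 := cov_arctan (mkNode j κ.1.2) x y
        exact mul_le_mul_of_nonneg_left h6 (by norm_num)
      · rw [if_neg hj, if_neg hj]; simp
    have := Real.exp_le_exp.2 h5
    linarith
  have h7 : |Ex| ≤ 1 := by
    rw [hEx, ← Real.norm_eq_abs]
    have h8 : ∀ᵐ a ∂(mu D n), ‖(1 + psi a κ x ^ 2)⁻¹ * (1 + psi a κ y ^ 2)⁻¹‖ ≤ 1 := by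
      refine Filter.Eventually.of_forall fun a => ?_
      rw [Real.norm_eq_abs, abs_of_nonneg (by positivity)]
      have e1 : (1 + psi a κ x ^ 2)⁻¹ ≤ 1 := inv_le_one_of_one_le₀ (by nlinarith [sq_nonneg (psi a κ x)])
      have e2 : (1 + psi a κ y ^ 2)⁻¹ ≤ 1 := inv_le_one_of_one_le₀ (by nlinarith [sq_nonneg (psi a κ y)])
      have e3 : 0 ≤ (1 + psi a κ x ^ 2)⁻¹ := by positivity
      have e4 : 0 ≤ (1 + psi a κ y ^ 2)⁻¹ := by positivity
      nlinarith
    have h9 := norm_integral_le_of_norm_le_const h8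
    simpa using h9
  have h10 := cov_theta κ x y
  rw [← hEx] at h10
  have h11 : P * Ex - kbar D n κ x * kbar D n κ y =
      (P - 1) * Ex + (Ex - kbar D n κ x * kbar D n κ y) := by ring
  rw [h11]
  refine (abs_add_le _ _).trans ?_
  unfold maj
  refine add_le_add ?_ h10
  rw [abs_mul]
  calc |P - 1| * |Ex| ≤ |P - 1| * 1 := mul_le_mul_of_nonneg_left h7 (abs_nonneg _)
    _ = |P - 1| := mul_one _
    _ ≤ _ := h3


end Sol_cov_main

alias cov_main := Sol_cov_main.cov_main

end BSheet
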