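import Pool.Agent.BSheet.Defs
open MeasureTheory Real
open scoped ENNReal BigOperators

namespace BSheet
open ProbabilityTheory
namespace Sol_ctr_mem



theorem ctr_mem {n : ℕ} (x : Str n) : 0 ≤ ctr x ∧ ctr x ≤ 1 := by
  have hg : ∀ m : ℕ, (∑ j ∈ Finset.range m, (3:ℝ) * (1/4)^(j+1)) = 1 - (1/4)^m := by
    intro m
    induction m with
    | zero => simp
    | succ m ih => rw [Finset.sum_range_succ, ih]; ring
  have h1 : (∑ j : Fin (n+1), ((x j : ℕ) : ℝ) * (1/4)^((j:ℕ)+1)) ≤ 1 - (1/4)^(n+1) := by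
    rw [← hg (n+1), ← Fin.sum_univ_eq_sum_range (fun j => (3:ℝ) * (1/4)^(j+1))]
    apply Finset.sum_le_sum
    intro j _
    apply mul_le_mul_of_nonneg_right _ (by positivity)
    have : (x j : ℕ) ≤ 3 := by omega
    exact_mod_cast this
  have h0 : 0 ≤ (∑ j : Fin (n+1), ((x j : ℕ) : ℝ) * (1/4)^((j:ℕ)+1)) :=
    Finset.sum_nonneg (fun j _ => by positivity)
  have hp : (0:ℝ) < (1/4)^(n+1) := by positivity
  unfold ctr
  constructor <;> linarith


end Sol_ctr_mem

alias ctr_mem := Sol_ctr_mem.ctr_mem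

end BSheet
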