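import Pool.Agent.BSheet.Defs
open MeasureTheory Real
open scoped ENNReal BigOperators

namespace BSheet
open ProbabilityTheory
namespace Sol_q_contDiff



theorem q_contDiff_psi {D n : ℕ} (κ : Node n) (x : Fin D → Str n) :
    ContDiff ℝ 1 (fun a : Idx D n → ℝ => psi a κ x) := by
  unfold psi
  refine contDiff_const.mul (ContDiff.sum fun r _ => ?_)
  exact (contDiff_apply ℝ ℝ (⟨κ, r⟩ : Idx D n)).mul contDiff_const

theorem q_contDiff_atan {D n : ℕ} (κ : Node n) (x : Fin D → Str n) :
    ContDiff ℝ 1 (fun a : Idx D n → ℝ => Real.arctan (psi a κ x)) :=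
  Real.contDiff_arctan.comp (q_contDiff_psi κ x)

theorem q_contDiff_W {D n : ℕ} (κ : Node n) (x : Fin D → Str n) :
    ContDiff ℝ 1 (fun a : Idx D n → ℝ => W a κ x) := by
  unfold W
  refine contDiff_prod fun j _ => ?_
  by_cases h : j < κ.1.1
  · simp only [if_pos h]
    exact contDiff_const.add (contDiff_const.mul (q_contDiff_atan _ _))
  · simp only [if_neg h]
    exact contDiff_const

theorem q_contDiff (D n : ℕ) : ContDiff ℝ 1 (fun a : Idx D n → ℝ => q a) := by
  rw [contDiff_pi]
  intro i
  unfold q avg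
  refine contDiff_const.mul (contDiff_const.mul (ContDiff.sum fun x _ => ?_))
  exact (contDiff_const.mul (q_contDiff_W _ _)).mul
    (contDiff_const.add (contDiff_const.mul (q_contDiff_atan _ _)))


end Sol_q_contDiff

alias q_contDiff := Sol_q_contDiff.q_contDiff

end BSheet
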