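import Pool.Agent.BSheet.Defs
import Pool.Agent.BSheet.L_q_contDiff
open MeasureTheory Real
open scoped ENNReal BigOperators

namespace BSheet
open ProbabilityTheory
namespace Sol_det_fderiv




theorem dfd_single {D n : ℕ} (a : Idx D n → ℝ) (j i : Idx D n) (t : ℝ) :
    (a + t • (Pi.single j (1:ℝ) : Idx D n → ℝ)) i = a i + t * (if i = j then 1 else 0) := by
  rw [Pi.add_apply, Pi.smul_apply, Pi.single_apply, smul_eq_mul]

theorem dfd_psi {D n : ℕ} (a : Idx D n → ℝ) (κ : Node n) (j : Idx D n) (t : ℝ)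
    (x : Fin D → Str n) (h : κ ≠ j.1) :
    psi (a + t • (Pi.single j (1:ℝ) : Idx D n → ℝ)) κ x = psi a κ x := by
  unfold psi
  congr 1
  refine Finset.sum_congr rfl fun r _ => ?_
  rw [dfd_single, if_neg]
  · ring
  · intro h'
    exact h (congrArg Sigma.fst h')

theorem dfd_psi_self {D n : ℕ} (a : Idx D n → ℝ) (κ : Node n) (r2 : BIdx D n κ.1.1) (t : ℝ)
    (x : Fin D → Str n) :
    psi (a + t • (Pi.single (⟨κ, r2⟩ : Idx D n) (1:ℝ) : Idx D n → ℝ)) κ x =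
      psi a κ x + t * ((Real.sqrt (ms D n κ.1.1))⁻¹ * chiB r2 x) := by
  unfold psi
  have h1 : ∀ r : BIdx D n κ.1.1,
      (a + t • (Pi.single (⟨κ, r2⟩ : Idx D n) (1:ℝ) : Idx D n → ℝ)) ⟨κ, r⟩ * chiB r x =
        a ⟨κ, r⟩ * chiB r x + (if r = r2 then t * chiB r2 x else 0) := by
    intro r
    rw [dfd_single]
    by_cases hr : r = r2
    · subst hr
      rw [if_pos rfl, if_pos rfl]
      ring
    · rw [if_neg hr, if_neg]
      · ring
      · intro h'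
        exact hr (eq_of_heq (Sigma.mk.inj h').2)
  rw [Finset.sum_congr rfl fun r _ => h1 r, Finset.sum_add_distrib, Finset.sum_ite_eq' Finset.univ r2,
    if_pos (Finset.mem_univ _)]
  ring

theorem dfd_W {D n : ℕ} (a : Idx D n → ℝ) (κ : Node n) (j : Idx D n) (t : ℝ)
    (x : Fin D → Str n) (h : κ.1.1 ≤ j.1.1.1) :
    W (a + t • (Pi.single j (1:ℝ) : Idx D n → ℝ)) κ x = W a κ x := by
  unfold W
  refine Finset.prod_congr rfl fun i _ => ?_
  by_cases hi : i < κ.1.1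
  · rw [if_pos hi, if_pos hi, dfd_psi]
    intro h'
    have h2 : (mkNode i κ.1.2).1.1 = j.1.1.1 := by rw [h']
    have h3 : i = j.1.1.1 := h2
    rw [← h3] at h
    exact absurd hi (not_lt.2 h)
  · rw [if_neg hi, if_neg hi]

theorem dfd_zero {D n : ℕ} (a : Idx D n → ℝ) (i j : Idx D n) (t : ℝ)
    (h : i.1.1.1 ≤ j.1.1.1) (h' : i.1 ≠ j.1) :
    q (a + t • (Pi.single j (1:ℝ) : Idx D n → ℝ)) i = q a i := by
  unfold q
  congr 2
  funext x
  rw [dfd_W _ _ _ _ _ h, dfd_psi _ _ _ _ _ h']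

theorem dfd_avg {D n : ℕ} (f : ℝ → (Fin D → Str n) → ℝ) (f' : (Fin D → Str n) → ℝ) (t : ℝ)
    (h : ∀ x, HasDerivAt (fun s => f s x) (f' x) t) :
    HasDerivAt (fun s => avg (f s)) (avg f') t := by
  unfold avg
  have h1 := HasDerivAt.fun_sum (u := (Finset.univ : Finset (Fin D → Str n)))
    (A := fun x s => f s x) (A' := f') (x := t) (fun x _ => h x)
  exact h1.const_mul _

theorem dfd_line {D n : ℕ} (a : Idx D n → ℝ) (i j : Idx D n) (c : ℝ)
    (h : HasDerivAt (fun t : ℝ => q (a + t • (Pi.single j (1:ℝ) : Idx D n → ℝ)) i) c 0) :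
    fderiv ℝ (fun a : Idx D n → ℝ => q a) a (Pi.single j 1) i = c := by
  have hd : DifferentiableAt ℝ (fun a : Idx D n → ℝ => q a) a :=
    (q_contDiff D n).differentiable (by simp) a
  have h1 : HasFDerivAt (fun a : Idx D n → ℝ => q a) (fderiv ℝ (fun a : Idx D n → ℝ => q a) a)
      (a + (0:ℝ) • (Pi.single j (1:ℝ) : Idx D n → ℝ)) := by
    rw [zero_smul, add_zero]
    exact hd.hasFDerivAt
  have h2 : HasDerivAt (fun t : ℝ => a + t • (Pi.single j (1:ℝ) : Idx D n → ℝ))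
      ((1:ℝ) • (Pi.single j (1:ℝ) : Idx D n → ℝ)) 0 := by
    have h3 := ((hasDerivAt_id (0:ℝ)).smul_const (Pi.single j (1:ℝ) : Idx D n → ℝ)).const_add a
    exact h3
  have h4 := h1.comp_hasDerivAt (0:ℝ) h2
  rw [one_smul] at h4
  have h5 := (hasDerivAt_pi.1 h4) i
  exact h5.unique h

theorem dfd_entry_zero {D n : ℕ} (a : Idx D n → ℝ) (i j : Idx D n)
    (h : i.1.1.1 ≤ j.1.1.1) (h' : i.1 ≠ j.1) :
    fderiv ℝ (fun a : Idx D n → ℝ => q a) a (Pi.single j 1) i = 0 := by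
  apply dfd_line
  have h1 : (fun t : ℝ => q (a + t • (Pi.single j (1:ℝ) : Idx D n → ℝ)) i) = fun _ => q a i := by
    funext t
    exact dfd_zero a i j t h h'
  rw [h1]
  exact hasDerivAt_const _ _

theorem dfd_entry_self {D n : ℕ} (a : Idx D n → ℝ) (κ : Node n) (r r2 : BIdx D n κ.1.1) :
    fderiv ℝ (fun a : Idx D n → ℝ => q a) a (Pi.single (⟨κ, r2⟩ : Idx D n) 1) ⟨κ, r⟩ =
      ((1/16) * (Real.sqrt (ms D n κ.1.1))⁻¹ * (1/4)^n) * Amat a κ r r2 := by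
  apply dfd_line
  have h1 : ∀ x : Fin D → Str n, HasDerivAt (fun t : ℝ => chiB r x * W a κ x
      * (1/2 + (1/16) * Real.arctan (psi a κ x + t * ((Real.sqrt (ms D n κ.1.1))⁻¹ * chiB r2 x))))
      ((1/16) * (Real.sqrt (ms D n κ.1.1))⁻¹ * (W a κ x * (1 + psi a κ x ^ 2)⁻¹ *
        (chiB r x * chiB r2 x))) 0 := by
    intro x
    have h2 : HasDerivAt (fun t : ℝ => psi a κ x + t * ((Real.sqrt (ms D n κ.1.1))⁻¹ * chiB r2 x))
        ((Real.sqrt (ms D n κ.1.1))⁻¹ * chiB r2 x) 0 := by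
      have h3 := ((hasDerivAt_id (0:ℝ)).mul_const
        ((Real.sqrt (ms D n κ.1.1))⁻¹ * chiB r2 x)).const_add (psi a κ x)
      rw [one_mul] at h3
      exact h3
    have h4 := (((h2.arctan.const_mul (1/16)).const_add (1/2)).const_mul (chiB r x * W a κ x))
    refine h4.congr_deriv ?_
    rw [zero_mul, add_zero, one_div]
    ring
  have h5 := (dfd_avg (fun t x => chiB r x * W a κ x
      * (1/2 + (1/16) * Real.arctan (psi a κ x + t * ((Real.sqrt (ms D n κ.1.1))⁻¹ * chiB r2 x))))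
      (fun x => (1/16) * (Real.sqrt (ms D n κ.1.1))⁻¹ * (W a κ x * (1 + psi a κ x ^ 2)⁻¹ *
        (chiB r x * chiB r2 x))) 0 h1).const_mul ((1/4 : ℝ)^(κ.1.1 : ℕ))
  have h6 : (fun t : ℝ => q (a + t • (Pi.single (⟨κ, r2⟩ : Idx D n) (1:ℝ) : Idx D n → ℝ)) ⟨κ, r⟩) =
      fun t => (1/4 : ℝ)^(κ.1.1 : ℕ) * avg ((fun t x => chiB r x * W a κ x
      * (1/2 + (1/16) * Real.arctan (psi a κ x +
        t * ((Real.sqrt (ms D n κ.1.1))⁻¹ * chiB r2 x)))) t) := by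
    funext t
    unfold q
    congr 2
    funext x
    rw [dfd_W _ _ _ _ _ le_rfl, dfd_psi_self]
  rw [h6]
  refine h5.congr_deriv ?_
  have h7 : avg (fun x => (1/16) * (Real.sqrt (ms D n κ.1.1))⁻¹ *
      (W a κ x * (1 + psi a κ x ^ 2)⁻¹ * (chiB r x * chiB r2 x))) =
      (1/16) * (Real.sqrt (ms D n κ.1.1))⁻¹ *
        avg (fun x => W a κ x * (1 + psi a κ x ^ 2)⁻¹ * (chiB r x * chiB r2 x)) := by
    unfold avg
    rw [← Finset.mul_sum]
    ring
  rw [h7]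
  unfold Amat
  have h8 : (κ.1.1 : ℕ) ≤ n := Nat.lt_succ_iff.1 κ.1.1.2
  have h9 : (1/4 : ℝ)^(κ.1.1 : ℕ) = (1/4)^n * 4^(n - (κ.1.1 : ℕ)) := by
    have h10 : (1/4 : ℝ)^n = (1/4)^(κ.1.1 : ℕ) * (1/4)^(n - (κ.1.1 : ℕ)) := by
      rw [← pow_add, Nat.add_sub_cancel' h8]
    rw [h10, mul_assoc, ← mul_pow]
    norm_num
  rw [h9]
  ring

theorem dfd_block {m ν : Type*} [Fintype m] [DecidableEq m] [Fintype ν] [DecidableEq ν]
    (M : Matrix m m ℝ) (b : m → ν) (l : ν → ℕ)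
    (h : ∀ i j, l (b i) ≤ l (b j) → b i ≠ b j → M i j = 0) :
    M.det = ∏ k : ν, (M.toSquareBlock b k).det := by
  classical
  obtain ⟨e⟩ : Nonempty (ν ≃ Fin (Fintype.card ν)) := ⟨Fintype.equivFin ν⟩
  obtain ⟨N, hN⟩ : ∃ N, ∀ k, l k ≤ N := by
    refine ⟨∑ k, l k, fun k => Finset.single_le_sum (f := l) (fun _ _ => Nat.zero_le _)
      (Finset.mem_univ k)⟩
  obtain ⟨g, hg⟩ : ∃ g : ν → ℕ ×ₗ ℕ, g = fun k => toLex (N - l k, (e k : ℕ)) := ⟨_, rfl⟩
  have hinj : Function.Injective g := by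
    intro k k' hk
    rw [hg] at hk
    have h1 := congrArg (fun p => (ofLex p).2) hk
    exact e.injective (Fin.ext h1)
  letI : LinearOrder ν := LinearOrder.lift' g hinj
  have hM : M.BlockTriangular b := by
    intro i j hij
    have hij' : g (b j) < g (b i) := hij
    refine h i j ?_ ?_
    · by_contra hc
      rw [hg] at hij'
      rcases (Prod.Lex.toLex_lt_toLex.1 hij') with h1 | h1
      · have h2 : N - l (b j) < N - l (b i) := h1
        omega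
      · have h2 : N - l (b j) = N - l (b i) := h1.1
        have := hN (b i)
        have := hN (b j)
        omega
    · intro h1
      rw [h1] at hij'
      exact lt_irrefl _ hij'
  rw [hM.det_fintype]

theorem det_fderiv {D n : ℕ} (a : Idx D n → ℝ) :
    (fderiv ℝ (fun a : Idx D n → ℝ => q a) a).det = ∏ κ : Node n,
      (((1/16) * (Real.sqrt (ms D n κ.1.1))⁻¹ * (1/4)^n) ^ Fintype.card (BIdx D n κ.1.1)
        * (Amat a κ).det) := by
  have h0 : (fderiv ℝ (fun a : Idx D n → ℝ => q a) a).det =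
      (LinearMap.toMatrix' ((fderiv ℝ (fun a : Idx D n → ℝ => q a) a :
        (Idx D n → ℝ) →L[ℝ] (Idx D n → ℝ)) : (Idx D n → ℝ) →ₗ[ℝ] (Idx D n → ℝ))).det := by
    rw [LinearMap.det_toMatrix']
  have hent : ∀ i j, (LinearMap.toMatrix' ((fderiv ℝ (fun a : Idx D n → ℝ => q a) a :
        (Idx D n → ℝ) →L[ℝ] (Idx D n → ℝ)) : (Idx D n → ℝ) →ₗ[ℝ] (Idx D n → ℝ))) i j =
      fderiv ℝ (fun a : Idx D n → ℝ => q a) a (Pi.single j 1) i := by
    intro i j
    rw [LinearMap.toMatrix'_apply]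
    rfl
  rw [h0]
  obtain ⟨M, hMdef⟩ : ∃ M, M = (LinearMap.toMatrix' ((fderiv ℝ (fun a : Idx D n → ℝ => q a) a :
        (Idx D n → ℝ) →L[ℝ] (Idx D n → ℝ)) : (Idx D n → ℝ) →ₗ[ℝ] (Idx D n → ℝ))) := ⟨_, rfl⟩
  rw [← hMdef] at hent ⊢
  rw [dfd_block M (fun i : Idx D n => i.1) (fun κ => (κ.1.1 : ℕ)) (by
    intro i j hij hne
    rw [hent]
    exact dfd_entry_zero a i j hij hne)]
  refine Finset.prod_congr rfl fun κ _ => ?_
  obtain ⟨e, he⟩ : ∃ e : BIdx D n κ.1.1 ≃ {i : Idx D n // i.1 = κ},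
      ∀ r, e r = ⟨⟨κ, r⟩, rfl⟩ := by
    refine ⟨(Equiv.sigmaSubtype (β := fun κ : Node n => BIdx D n κ.1.1) κ).symm, fun r => ?_⟩
    rfl
  have h1 : ((1/16) * (Real.sqrt (ms D n κ.1.1))⁻¹ * (1/4)^n) • Amat a κ =
      (M.toSquareBlock (fun i : Idx D n => i.1) κ).submatrix e e := by
    ext r r2
    rw [Matrix.smul_apply, Matrix.submatrix_apply, he, he, smul_eq_mul]
    rw [← dfd_entry_self]
    exact (hent _ _).symm
  rw [← Matrix.det_smul, h1, Matrix.det_submatrix_equiv_self]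


end Sol_det_fderiv

alias det_fderiv := Sol_det_fderiv.det_fderiv

end BSheet
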