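import Pool.Agent.BSheet.Defs
open MeasureTheory Real
open scoped ENNReal BigOperators

namespace BSheet
open ProbabilityTheory
namespace Sol_final_num



theorem final_num_ex (D : ℕ) (a : ℝ) (ha : 0 < a) :
    ∃ m : ℕ, 1 ≤ m ∧ Real.exp (-1) < a * 2 ^ (m + 1) * (Real.sqrt (((m + 1 : ℕ) : ℝ) ^ (D + 1)))⁻¹ := by
  have h1 := tendsto_pow_const_div_const_pow_of_one_lt (D + 1) (r := (4 : ℝ)) (by norm_num)
  have hpos : 0 < (a * Real.exp 1) ^ 2 := by positivity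
  have h2 : ∀ᶠ n : ℕ in Filter.atTop, (n : ℝ) ^ (D + 1) / 4 ^ n < (a * Real.exp 1) ^ 2 :=
    h1.eventually (gt_mem_nhds hpos)
  obtain ⟨n, hn, hn2⟩ := (h2.and (Filter.eventually_ge_atTop 2)).exists
  refine ⟨n - 1, by omega, ?_⟩
  rw [Nat.sub_add_cancel (by omega)]
  have hn0 : (0 : ℝ) < n := by exact_mod_cast (by omega : 0 < n)
  have hS : 0 < Real.sqrt ((n : ℝ) ^ (D + 1)) := Real.sqrt_pos.2 (by positivity)
  rw [div_lt_iff₀ (by positivity)] at hn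
  have h3 : Real.sqrt ((n : ℝ) ^ (D + 1)) < a * Real.exp 1 * 2 ^ n := by
    rw [Real.sqrt_lt' (by positivity), mul_pow (a * Real.exp 1), ← pow_mul, mul_comm n 2, pow_mul]
    norm_num
    exact hn
  rw [← div_eq_mul_inv, lt_div_iff₀ hS]
  calc Real.exp (-1) * Real.sqrt ((n : ℝ) ^ (D + 1))
      < Real.exp (-1) * (a * Real.exp 1 * 2 ^ n) := by
        exact mul_lt_mul_of_pos_left h3 (Real.exp_pos _)
    _ = (Real.exp (-1) * Real.exp 1) * (a * 2 ^ n) := by ring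
    _ = a * 2 ^ n := by rw [← Real.exp_add]; simp

theorem final_num (D : ℕ) (hD : 1 ≤ D) (C c1 c2 : ℝ) (hC : 0 < C) (hc1 : 0 < c1) (hc2 : 0 < c2) :
    ∃ c : ℝ, 0 < c ∧ ∀ (p ε : ℝ) (N : ℕ → ℕ), 0 ≤ p → 0 < ε → ε < 1/2 → p ≤ Real.exp (-c2) →
      (∀ n : ℕ, 1 ≤ n → c1 * 4^n * (n:ℝ)^D ≤ N n) →
      (∀ n : ℕ, 1 ≤ n → p ≤ (C * ε * 2^n * (Real.sqrt ((n:ℝ)^(D+1)))⁻¹)^(N n)) →
      p ≤ Real.exp (-c * (ε^2)⁻¹ * (Real.log (1/ε))^(2*D+1)) := by
  obtain ⟨K, hKd⟩ : ∃ K, K = 2 * Real.exp 1 * C + 1 := ⟨_, rfl⟩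
  have he := Real.exp_pos 1
  have hK1 : 1 ≤ K := by
    have : 0 < 2 * Real.exp 1 * C := by positivity
    linarith
  have hK0 : 0 < K := by linarith
  have hKC : 2 * Real.exp 1 * C ≤ K := by linarith
  refine ⟨min (c2 / K ^ (2 * D + 3)) (c1 / (K ^ 2 * (K + 1) ^ (2 * D + 1))),
    lt_min (by positivity) (by positivity), ?_⟩
  intro p ε N hp hε hε2 hp2 hN hpN
  have hie : 2 < 1 / ε := by
    rw [lt_div_iff₀ hε]
    linarith
  obtain ⟨l, hl⟩ : ∃ l, l = Real.log (1 / ε) := ⟨_, rfl⟩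
  rw [← hl]
  have hl0 : 0 ≤ l := by
    rw [hl]
    exact Real.log_nonneg (by linarith)
  have hlle : l ≤ 1 / ε := by
    rw [hl]
    have := Real.log_le_sub_one_of_pos (show 0 < 1 / ε by positivity)
    linarith
  have hee : Real.exp (-1) * Real.exp 1 = 1 := by rw [← Real.exp_add]; simp
  have hsq : (ε ^ 2)⁻¹ = (1 / ε) ^ 2 := by
    rw [one_div, inv_pow]
  have hX0 : 0 ≤ (ε ^ 2)⁻¹ * l ^ (2 * D + 1) := by positivity
  obtain ⟨c, hc⟩ : ∃ c, c = min (c2 / K ^ (2 * D + 3)) (c1 / (K ^ 2 * (K + 1) ^ (2 * D + 1))) :=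
    ⟨_, rfl⟩
  rw [← hc]
  have hcc2 : c ≤ c2 / K ^ (2 * D + 3) := by rw [hc]; exact min_le_left _ _
  have hcc1 : c ≤ c1 / (K ^ 2 * (K + 1) ^ (2 * D + 1)) := by rw [hc]; exact min_le_right _ _
  by_cases hcase : Real.exp (-1) < C * ε * 2
  · have h1 : 1 / ε < K := by
      rw [div_lt_iff₀ hε]
      have h2 := mul_lt_mul_of_pos_right hcase he
      rw [hee] at h2
      have h3 := mul_le_mul_of_nonneg_right hKC hε.le
      linarith
    have h2 : (ε ^ 2)⁻¹ * l ^ (2 * D + 1) ≤ K ^ (2 * D + 3) := by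
      rw [hsq]
      have h3 : (1 / ε) ^ 2 ≤ K ^ 2 := pow_le_pow_left₀ (by positivity) h1.le 2
      have h4 : l ^ (2 * D + 1) ≤ K ^ (2 * D + 1) := pow_le_pow_left₀ hl0 (by linarith) _
      calc (1 / ε) ^ 2 * l ^ (2 * D + 1) ≤ K ^ 2 * K ^ (2 * D + 1) :=
            mul_le_mul h3 h4 (by positivity) (by positivity)
        _ = K ^ (2 * D + 3) := by rw [← pow_add]; congr 1; ring
    refine hp2.trans (Real.exp_le_exp.2 ?_)
    have h5 : c * ((ε ^ 2)⁻¹ * l ^ (2 * D + 1)) ≤ c2 := by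
      calc c * ((ε ^ 2)⁻¹ * l ^ (2 * D + 1))
          ≤ c2 / K ^ (2 * D + 3) * ((ε ^ 2)⁻¹ * l ^ (2 * D + 1)) :=
            mul_le_mul_of_nonneg_right hcc2 hX0
        _ ≤ c2 / K ^ (2 * D + 3) * K ^ (2 * D + 3) :=
            mul_le_mul_of_nonneg_left h2 (by positivity)
        _ = c2 := div_mul_cancel₀ _ (by positivity)
    have h6 : -c * (ε ^ 2)⁻¹ * l ^ (2 * D + 1) = -(c * ((ε ^ 2)⁻¹ * l ^ (2 * D + 1))) := by ring
    rw [h6]
    linarith
  · push Not at hcase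
    have hex := final_num_ex D (C * ε) (by positivity)
    classical
    obtain ⟨m, hm⟩ : ∃ m, m = Nat.find hex := ⟨_, rfl⟩
    obtain ⟨hm1, hm2⟩ := Nat.find_spec hex
    rw [← hm] at hm1 hm2
    have hAm : C * ε * 2 ^ m * (Real.sqrt ((m : ℝ) ^ (D + 1)))⁻¹ ≤ Real.exp (-1) := by
      rcases eq_or_lt_of_le hm1 with h | h
      · rw [← h]
        simpa using hcase
      · by_contra hcon
        push Not at hcon
        have h2 := Nat.find_min hex (m := m - 1) (by omega)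
        rw [Nat.sub_add_cancel hm1] at h2
        exact h2 ⟨by omega, hcon⟩
    have hmR : (1 : ℝ) ≤ m := by exact_mod_cast hm1
    have hm0 : (0 : ℝ) < m := by linarith
    obtain ⟨S, hSd⟩ : ∃ S, S = Real.sqrt ((m : ℝ) ^ (D + 1)) := ⟨_, rfl⟩
    have hS1 : 1 ≤ S := by
      rw [hSd, Real.one_le_sqrt]
      exact one_le_pow₀ hmR
    have hS0 : 0 < S := by linarith
    have hS2 : S ^ 2 = (m : ℝ) ^ (D + 1) := by
      rw [hSd, Real.sq_sqrt (by positivity)]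
    have hSle : S ≤ Real.sqrt (((m + 1 : ℕ) : ℝ) ^ (D + 1)) := by
      rw [hSd]
      apply Real.sqrt_le_sqrt
      apply pow_le_pow_left₀ hm0.le
      push_cast
      linarith
    have h1 : Real.exp (-1) < C * ε * 2 ^ (m + 1) * S⁻¹ := by
      refine hm2.trans_le ?_
      apply mul_le_mul_of_nonneg_left _ (by positivity)
      exact inv_anti₀ hS0 hSle
    have h2 : 1 / ε * S ≤ K * 2 ^ m := by
      rw [← div_eq_mul_inv, lt_div_iff₀ hS0] at h1
      have h3 := mul_lt_mul_of_pos_left h1 he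
      have h4 : Real.exp 1 * (Real.exp (-1) * S) = S := by
        rw [← mul_assoc, mul_comm (Real.exp 1), hee, one_mul]
      rw [h4] at h3
      rw [div_mul_eq_mul_div, one_mul, div_le_iff₀ hε]
      have h5 : Real.exp 1 * (C * ε * 2 ^ (m + 1)) = (2 * Real.exp 1 * C) * (2 ^ m * ε) := by ring
      rw [h5] at h3
      have h6 := mul_le_mul_of_nonneg_right hKC (show 0 ≤ 2 ^ m * ε by positivity)
      calc S ≤ (2 * Real.exp 1 * C) * (2 ^ m * ε) := h3.le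
        _ ≤ K * (2 ^ m * ε) := h6
        _ = K * 2 ^ m * ε := by ring
    have h3 : (ε ^ 2)⁻¹ * (m : ℝ) ^ (D + 1) ≤ K ^ 2 * 4 ^ m := by
      rw [hsq, ← hS2, ← mul_pow]
      calc (1 / ε * S) ^ 2 ≤ (K * 2 ^ m) ^ 2 := pow_le_pow_left₀ (by positivity) h2 2
        _ = K ^ 2 * 4 ^ m := by
          rw [mul_pow, ← pow_mul, mul_comm m 2, pow_mul]
          norm_num
    have h4 : 1 / ε ≤ K * 2 ^ m := by
      refine le_trans ?_ h2
      exact le_mul_of_one_le_right (by positivity) hS1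
    have h5 : l ≤ (K + 1) * m := by
      have h6 : l ≤ Real.log (K * 2 ^ m) := by
        rw [hl]
        exact Real.log_le_log (by positivity) h4
      rw [Real.log_mul (by positivity) (by positivity), Real.log_pow] at h6
      have h7 := Real.log_le_sub_one_of_pos hK0
      have h8 : Real.log 2 ≤ 1 := by
        have := Real.log_le_sub_one_of_pos (show (0 : ℝ) < 2 by norm_num)
        linarith
      have h9 : (m : ℝ) * Real.log 2 ≤ m * 1 := mul_le_mul_of_nonneg_left h8 hm0.le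
      have h10 : K * 1 ≤ K * m := mul_le_mul_of_nonneg_left hmR hK0.le
      linarith
    have h6 : l ^ (2 * D + 1) ≤ (K + 1) ^ (2 * D + 1) * (m : ℝ) ^ (2 * D + 1) := by
      rw [← mul_pow]
      exact pow_le_pow_left₀ hl0 h5 _
    have h7 : (ε ^ 2)⁻¹ * l ^ (2 * D + 1) ≤ (K ^ 2 * (K + 1) ^ (2 * D + 1)) * (4 ^ m * (m : ℝ) ^ D) := by
      calc (ε ^ 2)⁻¹ * l ^ (2 * D + 1)
          ≤ (ε ^ 2)⁻¹ * ((K + 1) ^ (2 * D + 1) * (m : ℝ) ^ (2 * D + 1)) :=
            mul_le_mul_of_nonneg_left h6 (by positivity)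
        _ = ((ε ^ 2)⁻¹ * (m : ℝ) ^ (D + 1)) * ((K + 1) ^ (2 * D + 1) * (m : ℝ) ^ D) := by ring
        _ ≤ (K ^ 2 * 4 ^ m) * ((K + 1) ^ (2 * D + 1) * (m : ℝ) ^ D) :=
            mul_le_mul_of_nonneg_right h3 (by positivity)
        _ = (K ^ 2 * (K + 1) ^ (2 * D + 1)) * (4 ^ m * (m : ℝ) ^ D) := by ring
    have h8 : c * ((ε ^ 2)⁻¹ * l ^ (2 * D + 1)) ≤ N m := by
      calc c * ((ε ^ 2)⁻¹ * l ^ (2 * D + 1))
          ≤ c1 / (K ^ 2 * (K + 1) ^ (2 * D + 1)) * ((ε ^ 2)⁻¹ * l ^ (2 * D + 1)) :=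
            mul_le_mul_of_nonneg_right hcc1 hX0
        _ ≤ c1 / (K ^ 2 * (K + 1) ^ (2 * D + 1)) *
              ((K ^ 2 * (K + 1) ^ (2 * D + 1)) * (4 ^ m * (m : ℝ) ^ D)) :=
            mul_le_mul_of_nonneg_left h7 (by positivity)
        _ = c1 * 4 ^ m * (m : ℝ) ^ D := by
            field_simp
        _ ≤ N m := hN m hm1
    have h9 := hpN m hm1
    have h10 : (C * ε * 2 ^ m * (Real.sqrt ((m : ℝ) ^ (D + 1)))⁻¹) ^ (N m) ≤
        Real.exp (-1) ^ (N m) := pow_le_pow_left₀ (by positivity) hAm _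
    rw [← Real.exp_nat_mul] at h10
    refine (h9.trans h10).trans (Real.exp_le_exp.2 ?_)
    have h11 : -c * (ε ^ 2)⁻¹ * l ^ (2 * D + 1) = -(c * ((ε ^ 2)⁻¹ * l ^ (2 * D + 1))) := by ring
    rw [h11]
    linarith


end Sol_final_num

alias final_num := Sol_final_num.final_num

end BSheet
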