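import Pool.Agent.BSheet.Defs
open MeasureTheory Real
open scoped ENNReal BigOperators

namespace BSheet
open ProbabilityTheory
namespace Sol_gauss_density



theorem h208_pi_le {ι : Type} [Fintype ι] (ν : ι → Measure ℝ) [∀ i, SigmaFinite (ν i)]
    (c : ℝ≥0∞) (hc0 : c ≠ 0) (hct : c ≠ ⊤)
    (h : ∀ i, ∀ s, ν i s ≤ c * volume s) (s : Set (ι → ℝ)) (hs : MeasurableSet s) :
    Measure.pi ν s ≤ c ^ Fintype.card ι * volume s := by
  have hN0 : c ^ Fintype.card ι ≠ 0 := pow_ne_zero _ hc0
  have hNt : c ^ Fintype.card ι ≠ ⊤ := ENNReal.pow_ne_top hct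
  have key : ((c ^ Fintype.card ι)⁻¹ • (Measure.pi ν).toOuterMeasure)
      ≤ OuterMeasure.pi (fun _ : ι => (volume : Measure ℝ).toOuterMeasure) := by
    rw [OuterMeasure.le_pi]
    intro t _
    rw [smul_apply, smul_eq_mul]
    change (c ^ Fintype.card ι)⁻¹ * (Measure.pi ν) (Set.pi Set.univ t) ≤ ∏ i, volume (t i)
    rw [Measure.pi_pi]
    calc (c ^ Fintype.card ι)⁻¹ * ∏ i, ν i (t i)
        ≤ (c ^ Fintype.card ι)⁻¹ * ∏ i, (c * volume (t i)) := by
          gcongr with i _
          exact h i (t i)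
      _ = (c ^ Fintype.card ι)⁻¹ * c ^ Fintype.card ι * ∏ i, volume (t i) := by
          rw [Finset.prod_mul_distrib, Finset.prod_const, Finset.card_univ, mul_assoc]
      _ = ∏ i, volume (t i) := by rw [ENNReal.inv_mul_cancel hN0 hNt, one_mul]
  have h2 : (volume : Measure (ι → ℝ)) s
      = OuterMeasure.pi (fun _ : ι => (volume : Measure ℝ).toOuterMeasure) s := by
    rw [volume_pi, Measure.pi_def]
    exact toMeasure_apply _ _ hs
  have h3 := key s
  rw [← h2, smul_apply, smul_eq_mul] at h3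
  change (c ^ Fintype.card ι)⁻¹ * (Measure.pi ν) s ≤ volume s at h3
  calc Measure.pi ν s = c ^ Fintype.card ι * ((c ^ Fintype.card ι)⁻¹ * Measure.pi ν s) := by
        rw [← mul_assoc, ENNReal.mul_inv_cancel hN0 hNt, one_mul]
    _ ≤ c ^ Fintype.card ι * volume s := by gcongr

theorem h208_gauss_le (v : NNReal) (hv : v ≠ 0) (s : Set ℝ) :
    gaussianReal 0 v s ≤ ENNReal.ofReal (Real.sqrt (2 * π * v))⁻¹ * volume s := by
  rw [gaussianReal_apply _ hv]
  calc ∫⁻ x in s, gaussianPDF 0 v x ≤ ∫⁻ _ in s, ENNReal.ofReal (Real.sqrt (2 * π * v))⁻¹ := by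
        refine lintegral_mono fun x => ?_
        rw [gaussianPDF_def]
        refine ENNReal.ofReal_le_ofReal ?_
        rw [gaussianPDFReal_def]
        refine mul_le_of_le_one_right (by positivity) ?_
        rw [Real.exp_le_one_iff]
        have : 0 ≤ (x - 0) ^ 2 / (2 * (v : ℝ)) := by positivity
        rw [neg_div]
        linarith
    _ = _ := by rw [lintegral_const, Measure.restrict_apply_univ]

open scoped Pointwise in
theorem h208_slab {ι X : Type} [Fintype ι] [Fintype X] (V : X → ι → ℝ) (ε : ℝ) (b : X → ℝ) :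
    volume {v : ι → ℝ | ∀ x, |∑ i, v i * V x i + b x| ≤ ε}
      ≤ 2 ^ Fintype.card ι * volume {v : ι → ℝ | ∀ x, |∑ i, v i * V x i| ≤ ε} := by
  rcases Set.eq_empty_or_nonempty {v : ι → ℝ | ∀ x, |∑ i, v i * V x i + b x| ≤ ε} with h | ⟨v0, hv0⟩
  · rw [h, measure_empty]; exact bot_le
  · have hsub : {v : ι → ℝ | ∀ x, |∑ i, v i * V x i + b x| ≤ ε} ⊆
        (fun w => v0 + w) '' ((2 : ℝ) • {v : ι → ℝ | ∀ x, |∑ i, v i * V x i| ≤ ε}) := by
      intro v hv
      refine ⟨v - v0, ?_, by simp⟩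
      rw [Set.mem_smul_set]
      refine ⟨(1/2 : ℝ) • (v - v0), ?_, ?_⟩
      · intro x
        have h1 := abs_le.1 (hv x)
        have h2 := abs_le.1 (hv0 x)
        have e : ∑ i, ((1/2 : ℝ) • (v - v0)) i * V x i
            = (1/2) * ((∑ i, v i * V x i + b x) - (∑ i, v0 i * V x i + b x)) := by
          rw [add_sub_add_right_eq_sub, ← Finset.sum_sub_distrib, Finset.mul_sum]
          refine Finset.sum_congr rfl fun i _ => ?_
          simp only [Pi.smul_apply, Pi.sub_apply, smul_eq_mul]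
          ring
        rw [e, abs_le]
        constructor <;> linarith [h1.1, h1.2, h2.1, h2.2]
      · rw [smul_smul]; norm_num
    calc volume {v : ι → ℝ | ∀ x, |∑ i, v i * V x i + b x| ≤ ε}
        ≤ volume ((fun w => v0 + w) '' ((2 : ℝ) • {v : ι → ℝ | ∀ x, |∑ i, v i * V x i| ≤ ε})) :=
          measure_mono hsub
      _ = volume ((2 : ℝ) • {v : ι → ℝ | ∀ x, |∑ i, v i * V x i| ≤ ε}) := by
          rw [Set.image_add_left, measure_preimage_add]
      _ = 2 ^ Fintype.card ι * volume {v : ι → ℝ | ∀ x, |∑ i, v i * V x i| ≤ ε} := by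
          rw [Measure.addHaar_smul, Module.finrank_fintype_fun_eq_card, abs_of_nonneg (by positivity),
            ENNReal.ofReal_pow (by norm_num)]
          norm_num

theorem gauss_density {Ω : Type*} {mΩ : MeasurableSpace Ω} (P : Measure Ω)
    {ι X : Type} [Fintype ι] [DecidableEq ι] [Fintype X] (a : ι → Ω → ℝ) (b : X → Ω → ℝ)
    (hG : HasGaussianLaw (fun ω => ((fun i => a i ω), (fun x => b x ω))) P)
    (s2 : ℝ) (hs : 0 < s2) (hmean : ∀ i, ∫ ω, a i ω ∂P = 0)
    (hvar : ∀ i j, cov[a i, a j; P] = if i = j then s2 else 0)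
    (hcross : ∀ i x, cov[a i, b x; P] = 0) (V : X → ι → ℝ) (ε : ℝ) (hε : 0 < ε) :
    P {ω | ∀ x, |∑ i, a i ω * V x i + b x ω| ≤ ε}
      ≤ ENNReal.ofReal ((2 / Real.sqrt (2 * π * s2))^(Fintype.card ι))
        * volume {v : ι → ℝ | ∀ x, |∑ i, v i * V x i| ≤ ε} := by
  have := hG.isProbabilityMeasure
  have hGa : HasGaussianLaw (fun ω => (fun i => a i ω)) P := hG.fst
  have hGb : HasGaussianLaw (fun ω => (fun x => b x ω)) P := hG.snd
  have hv : Real.toNNReal s2 ≠ 0 := by
    rw [ne_eq, Real.toNNReal_eq_zero]; linarith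
  have hcoe : ((Real.toNNReal s2 : NNReal) : ℝ) = s2 := Real.coe_toNNReal _ hs.le
  have hind : IndepFun (fun ω i => a i ω) (fun ω x => b x ω) P :=
    hG.indepFun_of_covariance_eval hcross
  have hind' : iIndepFun a P := hGa.iIndepFun_of_covariance_eq_zero fun i j hij => by
    rw [hvar, if_neg hij]
  have hlaw : ∀ i, P.map (a i) = gaussianReal 0 (Real.toNNReal s2) := by
    intro i
    have h1 : HasGaussianLaw (a i) P := hGa.eval i
    rw [h1.map_eq_gaussianReal, hmean i, ← covariance_self h1.aemeasurable, hvar, if_pos rfl]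
  have hma : P.map (fun ω i => a i ω) = Measure.pi (fun _ => gaussianReal 0 (Real.toNNReal s2)) := by
    rw [(iIndepFun_iff_map_fun_eq_pi_map (fun i => (hGa.eval i).aemeasurable)).1 hind']
    congr 1
    funext i
    exact hlaw i
  have hmab : P.map (fun ω => ((fun i => a i ω), (fun x => b x ω)))
      = (Measure.pi (fun _ => gaussianReal 0 (Real.toNNReal s2))).prod
        (P.map (fun ω x => b x ω)) := by
    rw [← hma]
    exact (indepFun_iff_map_prod_eq_prod_map_map hGa.aemeasurable hGb.aemeasurable).1 hind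
  have hprobb : IsProbabilityMeasure (P.map (fun ω x => b x ω)) :=
    Measure.isProbabilityMeasure_map hGb.aemeasurable
  have hmeas : MeasurableSet {p : (ι → ℝ) × (X → ℝ) | ∀ x, |∑ i, p.1 i * V x i + p.2 x| ≤ ε} := by
    apply IsClosed.measurableSet
    rw [Set.ofPred_forall]
    refine isClosed_iInter fun x => ?_
    exact isClosed_le (by fun_prop) continuous_const
  have hmeas2 : ∀ y : X → ℝ, MeasurableSet {v : ι → ℝ | ∀ x, |∑ i, v i * V x i + y x| ≤ ε} := by
    intro y
    apply IsClosed.measurableSet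
    rw [Set.ofPred_forall]
    refine isClosed_iInter fun x => ?_
    exact isClosed_le (by fun_prop) continuous_const
  have e1 : P {ω | ∀ x, |∑ i, a i ω * V x i + b x ω| ≤ ε}
      = P.map (fun ω => ((fun i => a i ω), (fun x => b x ω)))
        {p : (ι → ℝ) × (X → ℝ) | ∀ x, |∑ i, p.1 i * V x i + p.2 x| ≤ ε} := by
    rw [Measure.map_apply_of_aemeasurable hG.aemeasurable hmeas]
    rfl
  set c : ℝ≥0∞ := ENNReal.ofReal (Real.sqrt (2 * π * s2))⁻¹ with hc
  have hsq : 0 < Real.sqrt (2 * π * s2) := Real.sqrt_pos.2 (by positivity)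
  have hc0 : c ≠ 0 := by
    rw [hc, ne_eq, ENNReal.ofReal_eq_zero, not_le]; positivity
  have hct : c ≠ ⊤ := ENNReal.ofReal_ne_top
  have hcc : c ^ Fintype.card ι * 2 ^ Fintype.card ι
      = ENNReal.ofReal ((2 / Real.sqrt (2 * π * s2))^(Fintype.card ι)) := by
    rw [← mul_pow, ENNReal.ofReal_pow (by positivity), hc]
    congr 1
    rw [div_eq_mul_inv, mul_comm, ENNReal.ofReal_mul (by norm_num)]
    norm_num
  rw [e1, hmab, Measure.prod_apply_symm hmeas]
  calc ∫⁻ y, (Measure.pi (fun _ : ι => gaussianReal 0 (Real.toNNReal s2)))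
        ((fun x => (x, y)) ⁻¹' {p : (ι → ℝ) × (X → ℝ) | ∀ x, |∑ i, p.1 i * V x i + p.2 x| ≤ ε})
          ∂(P.map (fun ω x => b x ω))
      ≤ ∫⁻ _, (c ^ Fintype.card ι * 2 ^ Fintype.card ι
          * volume {v : ι → ℝ | ∀ x, |∑ i, v i * V x i| ≤ ε}) ∂(P.map (fun ω x => b x ω)) := by
        refine lintegral_mono fun y => ?_
        calc (Measure.pi (fun _ : ι => gaussianReal 0 (Real.toNNReal s2)))
              {v : ι → ℝ | ∀ x, |∑ i, v i * V x i + y x| ≤ ε}
            ≤ c ^ Fintype.card ι * volume {v : ι → ℝ | ∀ x, |∑ i, v i * V x i + y x| ≤ ε} := by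
              refine h208_pi_le _ c hc0 hct (fun i s => ?_) _ (hmeas2 y)
              have := h208_gauss_le (Real.toNNReal s2) hv s
              rwa [hcoe] at this
          _ ≤ c ^ Fintype.card ι * (2 ^ Fintype.card ι
                * volume {v : ι → ℝ | ∀ x, |∑ i, v i * V x i| ≤ ε}) := by
              gcongr
              exact h208_slab V ε y
          _ = _ := by rw [mul_assoc]
    _ = _ := by rw [lintegral_const, measure_univ, mul_one, hcc]


end Sol_gauss_density

alias gauss_density := Sol_gauss_density.gauss_density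

end BSheet
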