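import Pool.Agent.BSheet.Defs
import Pool.Agent.BSheet.L_chi_bounds
import Pool.Agent.BSheet.L_mu_prob
import Pool.Agent.BSheet.L_cov_main
open MeasureTheory Real
open scoped ENNReal BigOperators

namespace BSheet
open ProbabilityTheory
namespace Sol_hs_int






theorem hs_int_chiB {D n k : ℕ} (r : BIdx D n k) (x : Fin D → Str n) :
    0 ≤ chiB r x ∧ chiB r x ≤ 1 := by
  unfold chiB
  have h : ∀ i, 0 ≤ (if trunc (r.1.1 i) (x i) = r.1.2 i then chi (r.1.1 i) (x i) else 0) ∧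
      (if trunc (r.1.1 i) (x i) = r.1.2 i then chi (r.1.1 i) (x i) else 0) ≤ 1 := by
    intro i
    split_ifs
    · exact chi_bounds (Nat.le_of_lt_succ (r.1.1 i).2) (x i)
    · exact ⟨le_rfl, zero_le_one⟩
  exact ⟨Finset.prod_nonneg fun i _ => (h i).1,
    Finset.prod_le_one (fun i _ => (h i).1) fun i _ => (h i).2⟩

theorem hs_int_chiB_zero {D n k : ℕ} (r : BIdx D n k) (x : Fin D → Str n)
    (h : ¬ ∀ i, trunc (r.1.1 i) (x i) = r.1.2 i) : chiB r x = 0 := by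
  push Not at h
  obtain ⟨i, hi⟩ := h
  unfold chiB
  exact Finset.prod_eq_zero (Finset.mem_univ i) (if_neg hi)

theorem hs_int_S {D n k : ℕ} (x y : Fin D → Str n) :
    0 ≤ ∑ r : BIdx D n k, chiB r x * chiB r y ∧
      ∑ r : BIdx D n k, chiB r x * chiB r y ≤ (cnt D k x y : ℝ) := by
  classical
  refine ⟨Finset.sum_nonneg fun r _ => mul_nonneg (hs_int_chiB r x).1 (hs_int_chiB r y).1, ?_⟩
  have h1 : ∑ r : BIdx D n k, chiB r x * chiB r y ≤
      ∑ r : BIdx D n k, if (∀ i, trunc (r.1.1 i) (x i) = r.1.2 i) ∧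
        (∀ i, trunc (r.1.1 i) (y i) = r.1.2 i) then (1:ℝ) else 0 := by
    refine Finset.sum_le_sum fun r _ => ?_
    split_ifs with h
    · exact mul_le_one₀ (hs_int_chiB r x).2 (hs_int_chiB r y).1 (hs_int_chiB r y).2
    · rw [not_and_or] at h
      rcases h with h | h
      · rw [hs_int_chiB_zero r x h, zero_mul]
      · rw [hs_int_chiB_zero r y h, mul_zero]
  refine h1.trans ?_
  rw [Finset.sum_boole]
  have h2 : (Finset.univ.filter fun r : BIdx D n k => (∀ i, trunc (r.1.1 i) (x i) = r.1.2 i) ∧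
      (∀ i, trunc (r.1.1 i) (y i) = r.1.2 i)).card ≤ cnt D k x y := by
    rw [← Fintype.card_coe]
    unfold cnt
    refine Fintype.card_le_of_injective (fun r => ⟨r.1.1.1, r.1.2.1, fun i => ?_⟩) ?_
    · have hr := (Finset.mem_filter.1 r.2).2
      rw [hr.1 i, hr.2 i]
    · intro r r' hrr
      have hs : r.1.1.1 = r'.1.1.1 := congrArg Subtype.val hrr
      have hr := (Finset.mem_filter.1 r.2).2
      have hr' := (Finset.mem_filter.1 r'.2).2
      apply Subtype.ext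
      apply Subtype.ext
      refine Prod.ext hs ?_
      funext i
      rw [← hr.1 i, ← hr'.1 i, hs]
  exact_mod_cast h2

theorem hs_int_W {D n : ℕ} (a : Idx D n → ℝ) (κ : Node n) (x : Fin D → Str n) :
    |W a κ x| ≤ 2 ^ (n + 1) := by
  unfold W
  rw [Finset.abs_prod]
  have h : ∀ j ∈ (Finset.univ : Finset (Fin (n+1))), |(if j < κ.1.1 then
    (1 + (1/4) * gd (κ.1.2 j) * Real.arctan (psi a (mkNode j κ.1.2) x)) else 1)| ≤ 2 := by
    intro j _
    split_ifs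
    · have h1 : |Real.arctan (psi a (mkNode j κ.1.2) x)| ≤ 2 := by
        have := Real.arctan_lt_pi_div_two (psi a (mkNode j κ.1.2) x)
        have := Real.neg_pi_div_two_lt_arctan (psi a (mkNode j κ.1.2) x)
        have := Real.pi_lt_four
        exact abs_le.2 ⟨by linarith, by linarith⟩
      have h2 : |gd (κ.1.2 j)| = 1 := by
        unfold gd
        split_ifs <;> simp
      have h3 : |(1/4) * gd (κ.1.2 j) * Real.arctan (psi a (mkNode j κ.1.2) x)| ≤ 1 := by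
        rw [abs_mul, abs_mul, h2]
        have : |(1/4 : ℝ)| = 1/4 := abs_of_pos (by norm_num)
        rw [this]
        linarith
      refine (abs_add_le _ _).trans ?_
      rw [abs_one]
      linarith
    · rw [abs_one]; norm_num
  refine (Finset.prod_le_prod (fun j _ => abs_nonneg _) h).trans (le_of_eq ?_)
  rw [Finset.prod_const, Finset.card_univ, Fintype.card_fin]

theorem hs_int_psi_cont {D n : ℕ} (κ : Node n) (x : Fin D → Str n) :
    Continuous (fun a : Idx D n → ℝ => psi a κ x) := by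
  unfold psi
  fun_prop

theorem hs_int_W_cont {D n : ℕ} (κ : Node n) (x : Fin D → Str n) :
    Continuous (fun a : Idx D n → ℝ => W a κ x) := by
  unfold W
  refine continuous_finset_prod _ fun j _ => ?_
  split_ifs
  · exact continuous_const.add (continuous_const.mul
      (Real.continuous_arctan.comp (hs_int_psi_cont _ x)))
  · exact continuous_const

/-- the centred function -/
noncomputable def hsF {D n : ℕ} (a : Idx D n → ℝ) (κ : Node n) (x : Fin D → Str n) : ℝ :=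
  W a κ x * (1 + psi a κ x ^ 2)⁻¹ - kbar D n κ x

theorem hs_int_F_cont {D n : ℕ} (κ : Node n) (x : Fin D → Str n) :
    Continuous (fun a : Idx D n → ℝ => hsF a κ x) := by
  unfold hsF
  refine ((hs_int_W_cont κ x).mul (Continuous.inv₀ ?_ ?_)).sub continuous_const
  · exact continuous_const.add ((hs_int_psi_cont κ x).pow 2)
  · intro a
    positivity

theorem hs_int_F_bound {D n : ℕ} (a : Idx D n → ℝ) (κ : Node n) (x : Fin D → Str n) :
    |hsF a κ x| ≤ 2 ^ (n + 1) + |kbar D n κ x| := by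
  unfold hsF
  refine (abs_sub _ _).trans ?_
  refine add_le_add ?_ le_rfl
  rw [abs_mul]
  have h1 : |(1 + psi a κ x ^ 2)⁻¹| ≤ 1 := by
    rw [abs_of_pos (by positivity)]
    exact inv_le_one_of_one_le₀ (by nlinarith [sq_nonneg (psi a κ x)])
  have h2 := hs_int_W a κ x
  nlinarith [abs_nonneg (W a κ x), abs_nonneg ((1 + psi a κ x ^ 2)⁻¹)]

theorem hs_int_integrable {D n : ℕ} (κ : Node n) (x y : Fin D → Str n) :
    Integrable (fun a : Idx D n → ℝ => hsF a κ x * hsF a κ y) (mu D n) := by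
  haveI := mu_prob D n
  refine Integrable.of_bound (C := (2 ^ (n + 1) + |kbar D n κ x|) * (2 ^ (n + 1) + |kbar D n κ y|))
    ((hs_int_F_cont κ x).mul (hs_int_F_cont κ y)).aestronglyMeasurable ?_
  refine Filter.Eventually.of_forall fun a => ?_
  rw [Real.norm_eq_abs, abs_mul]
  exact mul_le_mul (hs_int_F_bound a κ x) (hs_int_F_bound a κ y) (abs_nonneg _) (by positivity)

theorem hs_int_alg {D n : ℕ} (κ : Node n) (a : Idx D n → ℝ) :
    ∑ r, ∑ r', (Amat a κ r r' - Bmat D n κ r r')^2 =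
      (16:ℝ)^(n-(κ.1.1:ℕ)) * (((4:ℝ)^((n+1)*D))⁻¹ * ∑ x, ((4:ℝ)^((n+1)*D))⁻¹ * ∑ y,
        (hsF a κ x * hsF a κ y) * (∑ r : BIdx D n κ.1.1, chiB r x * chiB r y) ^ 2) := by
  have hent : ∀ r r', Amat a κ r r' - Bmat D n κ r r' =
      (4:ℝ)^(n - (κ.1.1 : ℕ)) * (((4:ℝ)^((n+1)*D))⁻¹ * ∑ x, hsF a κ x * (chiB r x * chiB r' x)) := by
    intro r r'
    unfold Amat Bmat avg hsF
    rw [← mul_sub, ← mul_sub, ← Finset.sum_sub_distrib]
    congr 2
    refine Finset.sum_congr rfl fun x _ => ?_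
    ring
  have hsq : ∀ r r', (Amat a κ r r' - Bmat D n κ r r')^2 =
      ∑ x, ∑ y, (16:ℝ)^(n - (κ.1.1 : ℕ)) * (((4:ℝ)^((n+1)*D))⁻¹ * ((4:ℝ)^((n+1)*D))⁻¹) *
        ((hsF a κ x * hsF a κ y) * ((chiB r x * chiB r y) * (chiB r' x * chiB r' y))) := by
    intro r r'
    have e16 : (16:ℝ)^(n - (κ.1.1 : ℕ)) = (4:ℝ)^(n - (κ.1.1 : ℕ)) * (4:ℝ)^(n - (κ.1.1 : ℕ)) := by
      rw [← mul_pow]; norm_num
    rw [hent, sq, e16]
    have e1 : (∑ x, hsF a κ x * (chiB r x * chiB r' x)) * (∑ x, hsF a κ x * (chiB r x * chiB r' x)) =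
        ∑ x, ∑ y, (hsF a κ x * (chiB r x * chiB r' x)) * (hsF a κ y * (chiB r y * chiB r' y)) :=
      Finset.sum_mul_sum _ _ _ _
    calc (4:ℝ)^(n - (κ.1.1 : ℕ)) * (((4:ℝ)^((n+1)*D))⁻¹ * ∑ x, hsF a κ x * (chiB r x * chiB r' x)) *
        ((4:ℝ)^(n - (κ.1.1 : ℕ)) * (((4:ℝ)^((n+1)*D))⁻¹ * ∑ x, hsF a κ x * (chiB r x * chiB r' x)))
        = ((4:ℝ)^(n - (κ.1.1 : ℕ)) * (4:ℝ)^(n - (κ.1.1 : ℕ))) *
          (((4:ℝ)^((n+1)*D))⁻¹ * ((4:ℝ)^((n+1)*D))⁻¹) *
          ((∑ x, hsF a κ x * (chiB r x * chiB r' x)) * (∑ x, hsF a κ x * (chiB r x * chiB r' x))) := by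
            ring
      _ = _ := by
        rw [e1, Finset.mul_sum]
        refine Finset.sum_congr rfl fun x _ => ?_
        rw [Finset.mul_sum]
        refine Finset.sum_congr rfl fun y _ => ?_
        ring
  simp_rw [hsq]
  have hcomm : ∑ r : BIdx D n κ.1.1, ∑ r' : BIdx D n κ.1.1, ∑ x : Fin D → Str n,
      ∑ y : Fin D → Str n, (16:ℝ)^(n - (κ.1.1 : ℕ)) *
        (((4:ℝ)^((n+1)*D))⁻¹ * ((4:ℝ)^((n+1)*D))⁻¹) *
        ((hsF a κ x * hsF a κ y) * ((chiB r x * chiB r y) * (chiB r' x * chiB r' y))) =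
      ∑ x : Fin D → Str n, ∑ y : Fin D → Str n, ∑ r : BIdx D n κ.1.1, ∑ r' : BIdx D n κ.1.1,
        (16:ℝ)^(n - (κ.1.1 : ℕ)) * (((4:ℝ)^((n+1)*D))⁻¹ * ((4:ℝ)^((n+1)*D))⁻¹) *
        ((hsF a κ x * hsF a κ y) * ((chiB r x * chiB r y) * (chiB r' x * chiB r' y))) := by
    have s1 : ∀ r : BIdx D n κ.1.1, ∑ r' : BIdx D n κ.1.1, ∑ x : Fin D → Str n,
        ∑ y : Fin D → Str n, (16:ℝ)^(n - (κ.1.1 : ℕ)) *
        (((4:ℝ)^((n+1)*D))⁻¹ * ((4:ℝ)^((n+1)*D))⁻¹) *
        ((hsF a κ x * hsF a κ y) * ((chiB r x * chiB r y) * (chiB r' x * chiB r' y))) =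
        ∑ x : Fin D → Str n, ∑ y : Fin D → Str n, ∑ r' : BIdx D n κ.1.1,
        (16:ℝ)^(n - (κ.1.1 : ℕ)) * (((4:ℝ)^((n+1)*D))⁻¹ * ((4:ℝ)^((n+1)*D))⁻¹) *
        ((hsF a κ x * hsF a κ y) * ((chiB r x * chiB r y) * (chiB r' x * chiB r' y))) := by
      intro r
      rw [Finset.sum_comm]
      refine Finset.sum_congr rfl fun x _ => ?_
      rw [Finset.sum_comm]
    simp_rw [s1]
    rw [Finset.sum_comm]
    refine Finset.sum_congr rfl fun x _ => ?_
    rw [Finset.sum_comm]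
  rw [hcomm, Finset.mul_sum, Finset.mul_sum]
  refine Finset.sum_congr rfl fun x _ => ?_
  rw [Finset.mul_sum, Finset.mul_sum, Finset.mul_sum]
  refine Finset.sum_congr rfl fun y _ => ?_
  rw [sq, Finset.sum_mul_sum, Finset.mul_sum, Finset.mul_sum, Finset.mul_sum, Finset.mul_sum]
  refine Finset.sum_congr rfl fun r _ => ?_
  rw [Finset.mul_sum, Finset.mul_sum, Finset.mul_sum, Finset.mul_sum]
  refine Finset.sum_congr rfl fun r' _ => ?_
  ring

theorem hs_int {D n : ℕ} (κ : Node n) :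
    ∫ a, ∑ r, ∑ r', (Amat a κ r r' - Bmat D n κ r r')^2 ∂(mu D n)
      ≤ (16:ℝ)^(n-(κ.1.1:ℕ)) * avg (fun x => avg (fun y =>
        (cnt D κ.1.1 x y : ℝ)^2 * maj D κ.1.1 x y)) := by
  simp_rw [hs_int_alg]
  rw [integral_const_mul, integral_const_mul]
  unfold avg
  refine mul_le_mul_of_nonneg_left ?_ (by positivity)
  refine mul_le_mul_of_nonneg_left ?_ (by positivity)
  have hterm : ∀ x y : Fin D → Str n, Integrable (fun a : Idx D n → ℝ =>
      (hsF a κ x * hsF a κ y) * (∑ r : BIdx D n κ.1.1, chiB r x * chiB r y) ^ 2) (mu D n) :=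
    fun x y => (hs_int_integrable κ x y).mul_const _
  rw [integral_finsetSum _ (fun x _ => (integrable_finsetSum _ (fun y _ => hterm x y)).const_mul _)]
  refine Finset.sum_le_sum fun x _ => ?_
  rw [integral_const_mul]
  refine mul_le_mul_of_nonneg_left ?_ (by positivity)
  rw [integral_finsetSum _ (fun y _ => hterm x y)]
  refine Finset.sum_le_sum fun y _ => ?_
  rw [integral_mul_const]
  have h1 := cov_main κ x y
  have h2 : ∫ a, hsF a κ x * hsF a κ y ∂(mu D n) ≤ maj D κ.1.1 x y := (le_abs_self _).trans h1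
  have h3 : 0 ≤ maj D κ.1.1 x y := (abs_nonneg _).trans h1
  obtain ⟨h4, h5⟩ := hs_int_S (k := (κ.1.1 : ℕ)) x y
  have h6 : (∑ r : BIdx D n κ.1.1, chiB r x * chiB r y) ^ 2 ≤ (cnt D κ.1.1 x y : ℝ) ^ 2 :=
    pow_le_pow_left₀ h4 h5 2
  calc (∫ a, hsF a κ x * hsF a κ y ∂(mu D n)) * (∑ r : BIdx D n κ.1.1, chiB r x * chiB r y) ^ 2
      ≤ maj D κ.1.1 x y * (∑ r : BIdx D n κ.1.1, chiB r x * chiB r y) ^ 2 :=
        mul_le_mul_of_nonneg_right h2 (by positivity)
    _ ≤ maj D κ.1.1 x y * (cnt D κ.1.1 x y : ℝ) ^ 2 := mul_le_mul_of_nonneg_left h6 h3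
    _ = _ := by ring


end Sol_hs_int

alias hs_int := Sol_hs_int.hs_int

end BSheet
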