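import Pool.Agent.BSheet.Defs
open MeasureTheory Real
open scoped ENNReal BigOperators

namespace BSheet
open ProbabilityTheory
namespace Sol_ms_upper





theorem ms_upper (D : ℕ) (hD : 1 ≤ D) : ∃ C : ℝ, 0 < C ∧ ∀ n k : ℕ, 1 ≤ n →
    (ms D n k : ℝ) ≤ C * (n:ℝ)^(D-1) := by
  obtain ⟨m, rfl⟩ : ∃ m, D = m + 1 := ⟨D - 1, by omega⟩
  refine ⟨2 ^ m, by positivity, fun n k hn => ?_⟩
  have h1 : ms (m + 1) n k ≤ (n + 1) ^ m := by
    have h2 : Fintype.card (Fin m → Fin (n + 1)) = (n + 1) ^ m := by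
      rw [Fintype.card_fun, Fintype.card_fin, Fintype.card_fin]
    rw [← h2]
    unfold ms
    refine Fintype.card_le_of_injective
      (fun s : {s : Fin (m + 1) → Fin (n+1) // (∑ i, ((s i : Fin (n+1)) : ℕ)) + k = n} =>
        fun i : Fin m => s.1 i.succ) ?_
    rintro ⟨s, hs⟩ ⟨t, ht⟩ hst
    have hst' : ∀ i : Fin m, s i.succ = t i.succ := fun i => congrFun hst i
    rw [Fin.sum_univ_succ] at hs ht
    have h3 : ∑ i : Fin m, ((s i.succ : Fin (n+1)) : ℕ) = ∑ i : Fin m, ((t i.succ : Fin (n+1)) : ℕ) :=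
      Finset.sum_congr rfl fun i _ => by rw [hst' i]
    rw [h3] at hs
    apply Subtype.ext
    funext i
    refine Fin.cases ?_ (fun i => hst' i) i
    apply Fin.ext
    show (s 0 : ℕ) = (t 0 : ℕ)
    omega
  have h2 : (ms (m + 1) n k : ℝ) ≤ ((n : ℝ) + 1) ^ m := by exact_mod_cast h1
  have hn' : (1 : ℝ) ≤ n := by exact_mod_cast hn
  refine h2.trans ?_
  rw [Nat.add_sub_cancel, ← mul_pow]
  exact pow_le_pow_left₀ (by positivity) (by linarith) m


end Sol_ms_upper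

alias ms_upper := Sol_ms_upper.ms_upper

end BSheet
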