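import Pool.Agent.BSheet.Defs
open MeasureTheory Real
open scoped ENNReal BigOperators

namespace BSheet
open ProbabilityTheory
namespace Sol_mu_cube



theorem mu_cube (D n : ℕ) : ∀ᵐ a ∂(mu D n), ∀ i, |a i| ≤ 1 := by
  have hU : ∀ᵐ t ∂U1, |t| ≤ 1 := by
    unfold U1
    apply Measure.ae_smul_measure
    rw [ae_restrict_iff' measurableSet_Icc]
    exact Filter.Eventually.of_forall (fun t ht => abs_le.mpr ⟨ht.1, ht.2⟩)
  haveI : IsFiniteMeasure U1 := by
    refine ⟨?_⟩
    unfold U1
    rw [Measure.smul_apply, Measure.restrict_apply MeasurableSet.univ, Set.univ_inter, Real.volume_Icc]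
    simp only [smul_eq_mul]
    exact ENNReal.mul_lt_top (by simp) ENNReal.ofReal_lt_top
  rw [ae_all_iff]
  intro i
  unfold mu
  exact (Measure.quasiMeasurePreserving_eval (fun _ : Idx D n => U1) i).ae hU


end Sol_mu_cube

alias mu_cube := Sol_mu_cube.mu_cube

end BSheet
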