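import Pool.Agent.BSheet.Defs
import Pool.Agent.BSheet.L_mu_prob
import Pool.Agent.BSheet.L_Amat_lower
import Pool.Agent.BSheet.L_Bmat_lower
import Pool.Agent.BSheet.L_logdet
import Pool.Agent.BSheet.L_hs_int
import Pool.Agent.BSheet.L_counting
import Pool.Agent.BSheet.L_mu_cube
import Pool.Agent.BSheet.L_ms_upper
import Pool.Agent.BSheet.L_Amat_facts
open MeasureTheory Real
open scoped ENNReal BigOperators

namespace BSheet
open ProbabilityTheory
namespace Sol_int_logdet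












theorem int_logdet_psi_cont {D n : ℕ} (κ : Node n) (x : Fin D → Str n) :
    Continuous (fun a : Idx D n → ℝ => psi a κ x) := by
  unfold psi
  refine continuous_const.mul (continuous_finsetSum _ (fun r _ => ?_))
  exact (continuous_apply _).mul continuous_const

theorem int_logdet_W_cont {D n : ℕ} (κ : Node n) (x : Fin D → Str n) :
    Continuous (fun a : Idx D n → ℝ => W a κ x) := by
  unfold W
  refine continuous_finsetProd _ (fun j _ => ?_)
  split_ifs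
  · refine continuous_const.add (continuous_const.mul ?_)
    exact Real.continuous_arctan.comp (int_logdet_psi_cont _ _)
  · exact continuous_const

theorem int_logdet_A_cont {D n : ℕ} (κ : Node n) (r r' : BIdx D n κ.1.1) :
    Continuous (fun a : Idx D n → ℝ => Amat a κ r r') := by
  unfold Amat avg
  refine continuous_const.mul (continuous_const.mul (continuous_finsetSum _ (fun x _ => ?_)))
  refine ((int_logdet_W_cont κ x).mul ?_).mul continuous_const
  refine Continuous.inv₀ (continuous_const.add ((int_logdet_psi_cont κ x).pow 2)) ?_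
  intro a
  positivity

theorem int_logdet_HS_int {D n : ℕ} (κ : Node n) :
    Integrable (fun a : Idx D n → ℝ => ∑ r, ∑ r', (Amat a κ r r' - Bmat D n κ r r')^2) (mu D n) := by
  haveI := mu_prob D n
  have hc : Continuous (fun a : Idx D n → ℝ => ∑ r, ∑ r', (Amat a κ r r' - Bmat D n κ r r')^2) := by
    refine continuous_finsetSum _ (fun r _ => continuous_finsetSum _ (fun r' _ => ?_))
    exact ((int_logdet_A_cont κ r r').sub continuous_const).pow 2
  have hK : IsCompact (Set.pi Set.univ (fun _ : Idx D n => Set.Icc (-1 : ℝ) 1)) :=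
    isCompact_univ_pi (fun _ => isCompact_Icc)
  have h1 : IntegrableOn (fun a : Idx D n → ℝ => ∑ r, ∑ r', (Amat a κ r r' - Bmat D n κ r r')^2)
      (Set.pi Set.univ (fun _ : Idx D n => Set.Icc (-1 : ℝ) 1)) (mu D n) :=
    hc.continuousOn.integrableOn_compact hK
  have h2 : (mu D n).restrict (Set.pi Set.univ (fun _ : Idx D n => Set.Icc (-1 : ℝ) 1)) = mu D n := by
    apply Measure.restrict_eq_self_of_ae_mem
    filter_upwards [mu_cube D n] with a ha
    intro i _
    exact abs_le.1 (ha i)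
  unfold IntegrableOn at h1
  rwa [h2] at h1

theorem int_logdet_symm {D n : ℕ} (a : Idx D n → ℝ) (κ : Node n) : (Amat a κ).IsSymm := by
  apply Matrix.IsSymm.ext
  intro r r'
  unfold Amat
  congr 2
  funext x
  ring

theorem int_logdet_log (D : ℕ) : ∃ C : ℝ, 0 < C ∧ ∀ (n : ℕ) (M : ℝ) (C2 : ℝ), 1 ≤ n → 0 ≤ M →
    0 < C2 → M ≤ C2 * (n : ℝ) ^ (D - 1) →
    Real.log (1 / ((1/16)^D * (1/2)^n * (1 + M)⁻¹)) ≤ (C + Real.log (1 + C2)) * n := by
  refine ⟨D * Real.log 16 + Real.log 2 + D + 1, by positivity, ?_⟩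
  intro n M C2 hn hM hC2 hM2
  have hn1 : (1 : ℝ) ≤ n := by exact_mod_cast hn
  have e1 : (1 / ((1/16)^D * (1/2)^n * (1 + M)⁻¹) : ℝ) = 16 ^ D * 2 ^ n * (1 + M) := by
    have : (0 : ℝ) < 1 + M := by positivity
    rw [one_div_pow, one_div_pow]
    field_simp
  have h1 : Real.log (16 ^ D * 2 ^ n * (1 + M)) = D * Real.log 16 + n * Real.log 2
      + Real.log (1 + M) := by
    rw [Real.log_mul (by positivity) (by positivity), Real.log_mul (by positivity) (by positivity),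
      Real.log_pow, Real.log_pow]
  have hp : (1 : ℝ) ≤ (n : ℝ) ^ (D - 1) := one_le_pow₀ hn1
  have h2 : Real.log (1 + M) ≤ Real.log (1 + C2) + D * n := by
    have h3 : 1 + M ≤ (1 + C2) * (n : ℝ) ^ (D - 1) := by nlinarith
    have h4 : Real.log (1 + M) ≤ Real.log ((1 + C2) * (n : ℝ) ^ (D - 1)) :=
      Real.log_le_log (by positivity) h3
    rw [Real.log_mul (by positivity) (by positivity), Real.log_pow] at h4
    have h5 : Real.log n ≤ n := by
      have := Real.log_le_sub_one_of_pos (show (0 : ℝ) < n by positivity)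
      linarith
    have h6 : ((D - 1 : ℕ) : ℝ) * Real.log n ≤ D * n := by
      have h7 : ((D - 1 : ℕ) : ℝ) ≤ D := by exact_mod_cast Nat.sub_le D 1
      exact mul_le_mul h7 h5 (Real.log_nonneg hn1) (by positivity)
    linarith
  have h16 : 0 ≤ Real.log 16 := Real.log_nonneg (by norm_num)
  have hC : 0 ≤ Real.log (1 + C2) := Real.log_nonneg (by linarith)
  have hD : (0 : ℝ) ≤ D := by positivity
  have h8 : (D : ℝ) * Real.log 16 ≤ (D * Real.log 16) * n := by nlinarith [mul_nonneg hD h16]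
  have h9 : Real.log (1 + C2) ≤ Real.log (1 + C2) * n := by nlinarith
  rw [e1, h1]
  nlinarith

theorem int_logdet (D : ℕ) (hD : 1 ≤ D) : ∃ C : ℝ, 0 < C ∧ ∀ (n : ℕ) (κ : Node n), 1 ≤ n →
    -C * (Fintype.card (BIdx D n κ.1.1) : ℝ) - C * n * 4^(n-(κ.1.1:ℕ))
      ≤ ∫ a, Real.log (Amat a κ).det ∂(mu D n) := by
  obtain ⟨C1, hC1, hcount⟩ := counting D hD
  obtain ⟨C2, hC2, hms⟩ := ms_upper D hD
  obtain ⟨C3, hC3, hlog⟩ := int_logdet_log D
  obtain ⟨kap, hkap⟩ : ∃ kap : ℝ, kap = (3/4) * (1/16)^D := ⟨_, rfl⟩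
  have hk0 : 0 < kap := by rw [hkap]; positivity
  have hk1 : kap ≤ 1 := by
    rw [hkap]
    have : ((1 : ℝ)/16)^D ≤ 1 := pow_le_one₀ (by norm_num) (by norm_num)
    nlinarith
  have hl2 : 0 ≤ Real.log (2 / kap) := by
    apply Real.log_nonneg
    rw [le_div_iff₀ hk0]
    linarith
  have hl3 : 0 ≤ Real.log (1 + C2) := Real.log_nonneg (by linarith)
  refine ⟨Real.log (2 / kap) + (C3 + Real.log (1 + C2)) * (4 / kap ^ 2) * C1, by positivity, ?_⟩
  intro n κ hn
  have hn1 : (1 : ℝ) ≤ n := by exact_mod_cast hn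
  have hneg : -(Real.log (2 / kap) + (C3 + Real.log (1 + C2)) * (4 / kap ^ 2) * C1)
      * (Fintype.card (BIdx D n κ.1.1) : ℝ)
      - (Real.log (2 / kap) + (C3 + Real.log (1 + C2)) * (4 / kap ^ 2) * C1) * n
        * 4^(n-(κ.1.1:ℕ)) ≤ 0 := by
    have h1 : 0 ≤ (Real.log (2 / kap) + (C3 + Real.log (1 + C2)) * (4 / kap ^ 2) * C1)
      * (Fintype.card (BIdx D n κ.1.1) : ℝ) := by positivity
    have h2 : 0 ≤ (Real.log (2 / kap) + (C3 + Real.log (1 + C2)) * (4 / kap ^ 2) * C1) * n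
        * 4^(n-(κ.1.1:ℕ)) := by positivity
    linarith
  by_cases hint : Integrable (fun a : Idx D n → ℝ => Real.log (Amat a κ).det) (mu D n)
  swap
  · rw [integral_undef hint]
    exact hneg
  haveI := mu_prob D n
  obtain ⟨δ, hδ⟩ : ∃ δ : ℝ, δ = (1/16)^D * (1/2)^n * (1 + (ms D n κ.1.1 : ℝ))⁻¹ := ⟨_, rfl⟩
  have hδ0 : 0 < δ := by rw [hδ]; positivity
  have hδ1 : δ ≤ 1 := by
    rw [hδ]
    have h1 : ((1 : ℝ)/16)^D ≤ 1 := pow_le_one₀ (by norm_num) (by norm_num)
    have h2 : ((1 : ℝ)/2)^n ≤ 1 := pow_le_one₀ (by norm_num) (by norm_num)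
    have h3 : (1 + (ms D n κ.1.1 : ℝ))⁻¹ ≤ 1 := inv_le_one_of_one_le₀ (by
      have : (0 : ℝ) ≤ (ms D n κ.1.1 : ℝ) := by positivity
      linarith)
    exact mul_le_one₀ (mul_le_one₀ h1 (by positivity) h2) (by positivity) h3
  have hδl : Real.log (1 / δ) ≤ (C3 + Real.log (1 + C2)) * n := by
    rw [hδ]
    exact hlog n (ms D n κ.1.1 : ℝ) C2 hn (by positivity) hC2 (hms n _ hn)
  have hδl0 : 0 ≤ Real.log (1 / δ) := Real.log_nonneg (by
    rw [le_div_iff₀ hδ0]
    linarith)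
  have hHS := int_logdet_HS_int (D := D) κ
  have hpt : ∀ᵐ a ∂(mu D n), -(Fintype.card (BIdx D n κ.1.1) : ℝ) * Real.log (2/kap)
      - Real.log (1/δ) * (4/kap^2) * ∑ r, ∑ r', (Amat a κ r r' - Bmat D n κ r r')^2
      ≤ Real.log (Amat a κ).det := by
    filter_upwards [mu_cube D n] with a ha
    refine (logdet (Amat a κ) (Bmat D n κ) (int_logdet_symm a κ) kap δ hk0 hk1 hδ0 hδ1 ?_ ?_).2
    · rw [hδ]
      exact Amat_lower a ha κ
    · rw [hkap]
      exact Bmat_lower D n κ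
  have hmono := integral_mono_ae ((integrable_const _).sub (hHS.const_mul _)) hint hpt
  have hcalc : ∫ a, (-(Fintype.card (BIdx D n κ.1.1) : ℝ) * Real.log (2/kap)
      - Real.log (1/δ) * (4/kap^2) * ∑ r, ∑ r', (Amat a κ r r' - Bmat D n κ r r')^2) ∂(mu D n)
      = -(Fintype.card (BIdx D n κ.1.1) : ℝ) * Real.log (2/kap)
      - Real.log (1/δ) * (4/kap^2) *
        ∫ a, ∑ r, ∑ r', (Amat a κ r r' - Bmat D n κ r r')^2 ∂(mu D n) := by
    rw [integral_sub (integrable_const _) (hHS.const_mul _), integral_const, integral_const_mul]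
    simp
  have hHS0 : 0 ≤ ∫ a, ∑ r, ∑ r', (Amat a κ r r' - Bmat D n κ r r')^2 ∂(mu D n) := by
    apply integral_nonneg
    intro a
    exact Finset.sum_nonneg (fun r _ => Finset.sum_nonneg (fun r' _ => sq_nonneg _))
  have hHSle : ∫ a, ∑ r, ∑ r', (Amat a κ r r' - Bmat D n κ r r')^2 ∂(mu D n)
      ≤ 4 ^ (n - (κ.1.1 : ℕ)) * C1 := by
    refine (hs_int κ).trans ?_
    have h16 : (16 : ℝ) ^ (n - (κ.1.1 : ℕ)) = 4 ^ (n - (κ.1.1 : ℕ)) * 4 ^ (n - (κ.1.1 : ℕ)) := by
      rw [← mul_pow]; norm_num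
    rw [h16, mul_assoc]
    exact mul_le_mul_of_nonneg_left (hcount n κ.1.1) (by positivity)
  have hprod : Real.log (1/δ) * (4/kap^2) *
      ∫ a, ∑ r, ∑ r', (Amat a κ r r' - Bmat D n κ r r')^2 ∂(mu D n)
      ≤ ((C3 + Real.log (1 + C2)) * n) * (4/kap^2) * (4 ^ (n - (κ.1.1 : ℕ)) * C1) := by
    apply mul_le_mul _ hHSle hHS0 (by positivity)
    exact mul_le_mul_of_nonneg_right hδl (by positivity)
  have hfin : -(Fintype.card (BIdx D n κ.1.1) : ℝ) * Real.log (2/kap)
      - ((C3 + Real.log (1 + C2)) * n) * (4/kap^2) * (4 ^ (n - (κ.1.1 : ℕ)) * C1)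
      ≤ ∫ a, Real.log (Amat a κ).det ∂(mu D n) := by
    have hmono' : ∫ a, (-(Fintype.card (BIdx D n κ.1.1) : ℝ) * Real.log (2/kap)
      - Real.log (1/δ) * (4/kap^2) * ∑ r, ∑ r', (Amat a κ r r' - Bmat D n κ r r')^2) ∂(mu D n)
      ≤ ∫ a, Real.log (Amat a κ).det ∂(mu D n) := hmono
    rw [hcalc] at hmono'
    linarith
  refine le_trans ?_ hfin
  have hcard : (0 : ℝ) ≤ (Fintype.card (BIdx D n κ.1.1) : ℝ) := by positivity
  have g1 : 0 ≤ ((C3 + Real.log (1 + C2)) * (4 / kap ^ 2) * C1)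
      * (Fintype.card (BIdx D n κ.1.1) : ℝ) := by positivity
  have g2 : 0 ≤ Real.log (2 / kap) * n * 4^(n-(κ.1.1:ℕ)) := by positivity
  nlinarith


end Sol_int_logdet

alias int_logdet := Sol_int_logdet.int_logdet

end BSheet
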