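import Pool.Agent.BSheet.Defs
open MeasureTheory Real
open scoped ENNReal BigOperators

namespace BSheet
open ProbabilityTheory
namespace Sol_ms_mono



theorem ms_pos (D n k : ℕ) (hD : 1 ≤ D) (hk : k ≤ n) : 0 < ms D n k := by
  unfold ms
  rw [Fintype.card_pos_iff]
  refine ⟨⟨fun i => if i = ⟨0, hD⟩ then ⟨n - k, by omega⟩ else ⟨0, by omega⟩, ?_⟩⟩
  have h1 : ∀ i : Fin D, (((if i = ⟨0, hD⟩ then (⟨n - k, by omega⟩ : Fin (n + 1))
      else ⟨0, by omega⟩ : Fin (n + 1))) : ℕ) = if i = ⟨0, hD⟩ then n - k else 0 := by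
    intro i
    split_ifs <;> rfl
  simp only [h1]
  rw [Finset.sum_ite_eq' Finset.univ (⟨0, hD⟩ : Fin D) (fun _ => n - k),
    if_pos (Finset.mem_univ _)]
  omega


end Sol_ms_mono

alias ms_pos := Sol_ms_mono.ms_pos

end BSheet
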