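import Pool.Agent.BSheet.Defs
open MeasureTheory Real
open scoped ENNReal BigOperators

namespace BSheet
open ProbabilityTheory
namespace Sol_ms_sum



theorem ms_sum (D : ℕ) (hD : 1 ≤ D) : ∃ c : ℝ, 0 < c ∧ ∀ n : ℕ, 1 ≤ n →
    c * (n:ℝ)^D ≤ ∑ k : Fin (n+1), (ms D n k : ℝ) := by
  have hD0 : (0:ℝ) < D := by exact_mod_cast hD
  refine ⟨(1/(D:ℝ))^D, by positivity, fun n hn => ?_⟩
  have key : (n/D+1)^D ≤ ∑ k : Fin (n+1), ms D n k := by
    have hc : Fintype.card (Σ k : Fin (n+1),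
        {s : Fin D → Fin (n+1) // (∑ i, ((s i : Fin (n+1)) : ℕ)) + (k:ℕ) = n})
        = ∑ k : Fin (n+1), ms D n k := by
      rw [Fintype.card_sigma]; rfl
    have hc2 : Fintype.card (Fin D → Fin (n/D+1)) = (n/D+1)^D := by simp
    rw [← hc, ← hc2]
    have hle : n/D + 1 ≤ n + 1 := by
      have := Nat.div_le_self n D
      omega
    have hsum : ∀ t : Fin D → Fin (n/D+1), ∑ i, (t i : ℕ) ≤ n := by
      intro t
      calc ∑ i, (t i : ℕ) ≤ ∑ i : Fin D, n / D :=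
            Finset.sum_le_sum (fun i _ => by have := (t i).2; omega)
        _ = D * (n/D) := by simp
        _ ≤ n := Nat.mul_div_le n D
    let f : (Fin D → Fin (n/D+1)) → (Σ k : Fin (n+1),
        {s : Fin D → Fin (n+1) // (∑ i, ((s i : Fin (n+1)) : ℕ)) + (k:ℕ) = n}) :=
      fun t => ⟨⟨n - ∑ i, (t i : ℕ), by omega⟩, ⟨fun i => Fin.castLE hle (t i), by
        simp only [Fin.val_castLE]
        have := hsum t
        omega⟩⟩
    apply Fintype.card_le_of_injective f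
    intro t t' h
    have h2 := congrArg (fun p : (Σ k : Fin (n+1),
        {s : Fin D → Fin (n+1) // (∑ i, ((s i : Fin (n+1)) : ℕ)) + (k:ℕ) = n}) =>
        (fun i => (p.2.1 i : ℕ))) h
    funext i
    have h3 := congrFun h2 i
    exact Fin.ext h3
  have h1 : (n:ℝ) / D ≤ ((n/D + 1 : ℕ) : ℝ) := by
    rw [div_le_iff₀ hD0]
    have h2 : n < D * (n / D + 1) := Nat.lt_mul_div_succ n hD
    have h3 : (n:ℝ) < D * ((n/D+1 : ℕ) : ℝ) := by exact_mod_cast h2
    linarith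
  calc (1/(D:ℝ))^D * (n:ℝ)^D = ((n:ℝ)/D)^D := by rw [← mul_pow]; congr 1; ring
    _ ≤ (((n/D + 1 : ℕ) : ℝ))^D := by gcongr
    _ ≤ ∑ k : Fin (n+1), (ms D n k : ℝ) := by exact_mod_cast key


end Sol_ms_sum

alias ms_sum := Sol_ms_sum.ms_sum

end BSheet
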