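import Pool.Agent.BSheet.Defs
open MeasureTheory Real
open scoped ENNReal BigOperators

namespace BSheet
open ProbabilityTheory
namespace Sol_oneD_mass



theorem oneD_mass_aux : ∀ (N : ℕ) (b : Fin N → (Fin N → Fin 4) → ℝ),
    (∀ j x y, (∀ i, i < j → x i = y i) → b j x = b j y) →
    ∑ x : Fin N → Fin 4, ∏ j, (1 + gd (x j) * b j x) = 4 ^ N := by
  intro N
  induction N with
  | zero =>
    intro b _
    simp
  | succ N ih =>
    intro b hb
    rw [← (Fin.consEquiv (fun _ => Fin 4)).sum_comp, Fintype.sum_prod_type]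
    have h1 : ∀ (a : Fin 4) (x : Fin N → Fin 4),
        ∏ j, (1 + gd ((Fin.consEquiv (fun _ : Fin (N+1) => Fin 4)) (a, x) j) *
          b j ((Fin.consEquiv (fun _ : Fin (N+1) => Fin 4)) (a, x))) =
        (1 + gd a * b 0 0) *
          ∏ j : Fin N, (1 + gd (x j) * b j.succ (Fin.cons a x)) := by
      intro a x
      rw [Fin.prod_univ_succ]
      have h2 : b 0 ((Fin.consEquiv (fun _ : Fin (N+1) => Fin 4)) (a, x)) = b 0 0 :=
        hb 0 _ _ (fun i hi => absurd hi (Fin.not_lt_zero i))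
      rw [h2]
      rfl
    have h3 : ∀ a : Fin 4, ∑ x : Fin N → Fin 4,
        ∏ j : Fin N, (1 + gd (x j) * b j.succ (Fin.cons a x)) = 4 ^ N := by
      intro a
      refine ih (fun j x => b j.succ (Fin.cons a x)) ?_
      intro j x y hxy
      apply hb
      intro i hi
      rcases Fin.eq_zero_or_eq_succ i with rfl | ⟨i', rfl⟩
      · rfl
      · rw [Fin.cons_succ, Fin.cons_succ]
        exact hxy i' (Fin.succ_lt_succ_iff.mp hi)
    have h4 : ∀ a : Fin 4, ∑ x : Fin N → Fin 4,
        ∏ j, (1 + gd ((Fin.consEquiv (fun _ : Fin (N+1) => Fin 4)) (a, x) j) *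
          b j ((Fin.consEquiv (fun _ : Fin (N+1) => Fin 4)) (a, x))) =
        (1 + gd a * b 0 0) * 4 ^ N := by
      intro a
      simp only [h1]
      rw [← Finset.mul_sum, h3]
    simp only [h4]
    rw [← Finset.sum_mul]
    have h5 : ∑ a : Fin 4, (1 + gd a * b 0 0) = 4 := by
      have g0 : gd 0 = -1 := if_neg (by decide)
      have g1 : gd 1 = 1 := if_pos (by decide)
      have g2 : gd 2 = 1 := if_pos (by decide)
      have g3 : gd 3 = -1 := if_neg (by decide)
      rw [Fin.sum_univ_four, g0, g1, g2, g3]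
      ring
    rw [h5]
    ring

theorem oneD_mass {n : ℕ} (b : Fin (n+1) → Str n → ℝ) (hb : ∀ j x, b j x = b j (trunc j x)) :
    ∑ x : Str n, ∏ j, (1 + gd (x j) * b j x) = 4^(n+1) := by
  apply oneD_mass_aux
  intro j x y hxy
  rw [hb j x, hb j y]
  congr 1
  funext i
  unfold trunc
  by_cases h : (i : ℕ) < (j : ℕ)
  · rw [if_pos h, if_pos h]
    exact hxy i h
  · rw [if_neg h, if_neg h]



end Sol_oneD_mass

alias oneD_mass := Sol_oneD_mass.oneD_mass

end BSheet
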