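import Pool.Agent.BSheet.Defs
open MeasureTheory Real
open scoped ENNReal BigOperators

namespace BSheet
open ProbabilityTheory
namespace Sol_one_point



theorem one_point_gauss : gaussianReal 0 1 (Set.Icc (-1/2) (1/2)) ≤ ENNReal.ofReal (1/2) := by
  rw [gaussianReal_apply 0 one_ne_zero]
  have h1 : ∀ x : ℝ, gaussianPDF 0 1 x ≤ ENNReal.ofReal (1/2) := by
    intro x
    unfold gaussianPDF
    apply ENNReal.ofReal_le_ofReal
    unfold gaussianPDFReal
    have h2 : Real.exp (-(x - 0) ^ 2 / (2 * ((1 : NNReal) : ℝ))) ≤ 1 := by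
      rw [Real.exp_le_one_iff]
      have : 0 ≤ (x - 0) ^ 2 := sq_nonneg _
      rw [NNReal.coe_one, mul_one]
      linarith
    have h3 : (√(2 * π * ((1 : NNReal) : ℝ)))⁻¹ ≤ 1/2 := by
      rw [NNReal.coe_one, mul_one, one_div]
      apply inv_anti₀ (by norm_num)
      apply Real.le_sqrt_of_sq_le
      nlinarith [Real.pi_gt_three]
    calc (√(2 * π * ((1 : NNReal) : ℝ)))⁻¹ * Real.exp (-(x - 0) ^ 2 / (2 * ((1 : NNReal) : ℝ)))
        ≤ (1/2) * 1 := mul_le_mul h3 h2 (Real.exp_pos _).le (by norm_num)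
      _ = 1/2 := by norm_num
  calc ∫⁻ x in Set.Icc (-1/2 : ℝ) (1/2), gaussianPDF 0 1 x
      ≤ ∫⁻ _ in Set.Icc (-1/2 : ℝ) (1/2), ENNReal.ofReal (1/2) := lintegral_mono (fun x => h1 x)
    _ = ENNReal.ofReal (1/2) * volume (Set.Icc (-1/2 : ℝ) (1/2)) := by
        rw [lintegral_const, Measure.restrict_apply_univ]
    _ = ENNReal.ofReal (1/2) := by
        rw [Real.volume_Icc]
        have : (1/2 - -1/2 : ℝ) = 1 := by norm_num
        rw [this, ENNReal.ofReal_one, mul_one]

theorem one_point : ∃ c : ℝ, 0 < c ∧ ∀ {Ω : Type*} {mΩ : MeasurableSpace Ω} (P : Measure Ω) (d : ℕ)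
    (B : (Fin d → unitInterval) → Ω → ℝ) (_ : IsBrownianSheet d B P) (ε : ℝ), ε < 1/2 →
    P {ω | ∀ x, |B x ω| ≤ ε} ≤ ENNReal.ofReal (Real.exp (-c)) := by
  refine ⟨Real.log 2, Real.log_pos (by norm_num), ?_⟩
  intro Ω mΩ P d B hB ε hε
  have hexp : Real.exp (-Real.log 2) = 1/2 := by
    rw [Real.exp_neg, Real.exp_log (by norm_num)]
    norm_num
  rw [hexp]
  have hG := hB.gaussian.hasGaussianLaw_eval (fun _ => (1 : unitInterval))
  have hae := hB.gaussian.aemeasurable (fun _ => (1 : unitInterval))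
  have hmap := hG.map_eq_gaussianReal
  have hvar : Var[B (fun _ => (1 : unitInterval)); P] = 1 := by
    rw [← covariance_self hae, hB.cov]
    simp
  rw [hB.mean, hvar, Real.toNNReal_one] at hmap
  calc P {ω | ∀ x, |B x ω| ≤ ε}
      ≤ P (B (fun _ => (1 : unitInterval)) ⁻¹' Set.Icc (-1/2) (1/2)) := by
        apply measure_mono
        intro ω hω
        have h1 := hω (fun _ => (1 : unitInterval))
        have h2 := abs_le.1 (h1.trans hε.le)
        exact ⟨by linarith [h2.1], h2.2⟩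
    _ = (P.map (B (fun _ => (1 : unitInterval)))) (Set.Icc (-1/2) (1/2)) :=
        (Measure.map_apply_of_aemeasurable hae measurableSet_Icc).symm
    _ ≤ ENNReal.ofReal (1/2) := by
        rw [hmap]
        exact one_point_gauss



end Sol_one_point

alias one_point := Sol_one_point.one_point

end BSheet
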