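import Pool.Agent.BSheet.Defs
open MeasureTheory Real
open scoped ENNReal BigOperators

namespace BSheet
open ProbabilityTheory
namespace Sol_psi_trunc



theorem wt_pos {D n : ℕ} (a : Idx D n → ℝ) (x1 : Str n) (x : Fin D → Str n) : 0 < wt a x1 x := by
  unfold wt
  apply mul_pos (by positivity)
  apply Finset.prod_pos
  intro j _
  have h1 := Real.arctan_lt_pi_div_two (psi a (mkNode j x1) x)
  have h2 := Real.neg_pi_div_two_lt_arctan (psi a (mkNode j x1) x)
  have h3 := Real.pi_lt_four
  unfold gd
  split_ifs <;> linarith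


end Sol_psi_trunc

alias wt_pos := Sol_psi_trunc.wt_pos

end BSheet
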