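import Pool.Agent.BSheet.Defs
open MeasureTheory Real
open scoped ENNReal BigOperators

namespace BSheet
open ProbabilityTheory
namespace Sol_pt_mem



theorem pt_mem {n : ℕ} (k : Fin (n+1)) (u : Str n) (hu : trunc k u = u) (e : Fin 3) :
    0 ≤ pt k u e ∧ pt k u e ≤ 1 := by
  have h0 : ∀ m : ℕ, ∑ i ∈ Finset.range m, (if i < (k:ℕ) then 3 * (1/4:ℝ)^(i+1) else 0)
      = 1 - (1/4:ℝ)^(min m (k:ℕ)) := by
    intro m
    induction m with
    | zero => simp
    | succ m ih =>
      rw [Finset.sum_range_succ, ih]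
      by_cases h : m < (k:ℕ)
      · rw [if_pos h, min_eq_left h.le, min_eq_left (by omega : m + 1 ≤ (k:ℕ))]
        ring
      · rw [if_neg h, min_eq_right (by omega : (k:ℕ) ≤ m), min_eq_right (by omega : (k:ℕ) ≤ m + 1)]
        ring
  have hl0 : 0 ≤ lft u := Finset.sum_nonneg fun j _ => by positivity
  have hl1 : lft u ≤ 1 - (1/4:ℝ)^(k:ℕ) := by
    have h1 : lft u ≤ ∑ j : Fin (n+1), (fun i : ℕ => if i < (k:ℕ) then 3 * (1/4:ℝ)^(i+1) else 0) j := by
      refine Finset.sum_le_sum fun j _ => ?_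
      show ((u j : ℕ) : ℝ) * (1/4)^((j:ℕ)+1) ≤ if (j:ℕ) < (k:ℕ) then 3 * (1/4:ℝ)^((j:ℕ)+1) else 0
      have hj := congrFun hu j
      unfold trunc at hj
      by_cases h : (j:ℕ) < (k:ℕ)
      · rw [if_pos h]
        have h3 : ((u j : ℕ) : ℝ) ≤ 3 := by
          have : (u j : ℕ) ≤ 3 := by omega
          exact_mod_cast this
        exact mul_le_mul_of_nonneg_right h3 (by positivity)
      · rw [if_neg h] at hj
        rw [if_neg h, ← hj]
        simp
    rw [Fin.sum_univ_eq_sum_range (fun i : ℕ => if i < (k:ℕ) then 3 * (1/4:ℝ)^(i+1) else 0) (n+1), h0, min_eq_right (by omega : (k:ℕ) ≤ n + 1)] at h1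
    exact h1
  have hp : 0 < (1/4:ℝ)^(k:ℕ) := by positivity
  unfold pt
  split_ifs
  · constructor <;> linarith
  · constructor <;> linarith
  · constructor <;> linarith


end Sol_pt_mem

alias pt_mem := Sol_pt_mem.pt_mem

end BSheet
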