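import Pool.Agent.BSheet.Defs
import Pool.Agent.BSheet.L_oneD_key
open MeasureTheory Real
open scoped ENNReal BigOperators

namespace BSheet
open ProbabilityTheory
namespace Sol_q_eq




theorem q_eq_mk {n : ℕ} (j : Fin (n+1)) (y : Str n) : mkNode j (trunc j y) = mkNode j y :=
  Subtype.ext (Prod.ext rfl (trunc_trunc _ _))

theorem q_eq {D n : ℕ} (a : Idx D n → ℝ) (i : Idx D n) :
    q a i = ∑ x1 : Str n, ∑ x : Fin D → Str n, wt a x1 x * vec x1 x i := by
  obtain ⟨κ, r⟩ := i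
  obtain ⟨⟨k, u⟩, hu⟩ := κ
  have hu' : trunc k u = u := hu
  obtain ⟨κ, hκ⟩ : ∃ κ : Node n, κ = ⟨(k, u), hu⟩ := ⟨_, rfl⟩
  have hmk : mkNode k u = ⟨(k, u), hu⟩ := Subtype.ext (Prod.ext rfl hu')
  have hkn : (k : ℕ) ≤ n + 1 := by have := k.2; omega
  rw [Finset.sum_comm]
  have hx : ∀ x : Fin D → Str n, ∑ x1, wt a x1 x * vec x1 x ⟨⟨(k, u), hu⟩, r⟩ =
      (4 ^ ((n+1) * (D+1)) : ℝ)⁻¹ * chiB r x * (4 ^ (n + 1 - (k : ℕ)) *
        W a ⟨(k, u), hu⟩ x * (1/2 + (1/16) * Real.arctan (psi a ⟨(k, u), hu⟩ x))) := by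
    intro x
    have key := oneD_key k u hu' (fun j y => (1/4) * Real.arctan (psi a (mkNode j y) x))
      (by intro j y; simp only [q_eq_mk])
    have h1 : ∑ x1, wt a x1 x * vec x1 x ⟨⟨(k, u), hu⟩, r⟩ =
        (4 ^ ((n+1) * (D+1)) : ℝ)⁻¹ * chiB r x * ∑ x1 : Str n,
          (if trunc k x1 = u then chi k x1 else 0) *
            ∏ j, (1 + gd (x1 j) * ((1/4) * Real.arctan (psi a (mkNode j x1) x))) := by
      rw [Finset.mul_sum]
      refine Finset.sum_congr rfl fun x1 _ => ?_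
      unfold wt vec
      have hp : (∏ j : Fin (n+1), (1 + (1/4) * gd (x1 j) * Real.arctan (psi a (mkNode j x1) x))) =
          ∏ j, (1 + gd (x1 j) * ((1/4) * Real.arctan (psi a (mkNode j x1) x))) :=
        Finset.prod_congr rfl fun j _ => by ring
      rw [hp]
      ring
    rw [h1, key]
    have hW : W a ⟨(k, u), hu⟩ x = ∏ j : Fin (n+1), (if j < k then
        1 + gd (u j) * ((1/4) * Real.arctan (psi a (mkNode j u) x)) else 1) := by
      unfold W
      refine Finset.prod_congr rfl fun j _ => ?_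
      show (if j < k then (1 + (1/4) * gd (u j) * Real.arctan (psi a (mkNode j u) x)) else 1) = _
      split_ifs
      · ring
      · rfl
    rw [hW]
    simp only [hmk]
    ring
  rw [Finset.sum_congr rfl fun x _ => hx x]
  unfold q avg
  simp only
  rw [Finset.mul_sum, Finset.mul_sum]
  refine Finset.sum_congr rfl fun x _ => ?_
  have h4 : (4 : ℝ) ^ ((n+1) * (D+1)) = 4 ^ ((n+1) * D) * (4 ^ (n + 1 - (k : ℕ)) * 4 ^ (k : ℕ)) := by
    rw [← pow_add, ← pow_add]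
    congr 1
    rw [Nat.sub_add_cancel hkn]
    ring
  rw [h4]
  have h5 : ((1 : ℝ) / 4) ^ (k : ℕ) = (4 ^ (k : ℕ))⁻¹ := by
    rw [one_div, inv_pow]
  rw [h5]
  field_simp



end Sol_q_eq

alias q_eq := Sol_q_eq.q_eq

end BSheet
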