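import Pool.Agent.BSheet.Defs
import Pool.Agent.BSheet.L_gram_lower
open MeasureTheory Real
open scoped ENNReal BigOperators

namespace BSheet
open ProbabilityTheory
namespace Sol_q_inj




theorem q_inj_W_pos {D n : ℕ} (a : Idx D n → ℝ) (κ : Node n) (x : Fin D → Str n) :
    0 < W a κ x := by
  unfold W
  refine Finset.prod_pos fun j _ => ?_
  split_ifs
  · have h1 := Real.arctan_lt_pi_div_two (psi a (mkNode j κ.1.2) x)
    have h2 := Real.neg_pi_div_two_lt_arctan (psi a (mkNode j κ.1.2) x)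
    have h3 := Real.pi_lt_d2
    unfold gd
    split_ifs <;> linarith
  · norm_num

theorem q_inj_W_eq {D n : ℕ} (a b : Idx D n → ℝ) (κ : Node n) (x : Fin D → Str n)
    (h : ∀ κ' : Node n, (κ'.1.1 : ℕ) < (κ.1.1 : ℕ) → ∀ r, a ⟨κ', r⟩ = b ⟨κ', r⟩) :
    W a κ x = W b κ x := by
  unfold W
  refine Finset.prod_congr rfl fun j _ => ?_
  split_ifs with hj
  · have : psi a (mkNode j κ.1.2) x = psi b (mkNode j κ.1.2) x := by
      unfold psi
      congr 1
      exact Finset.sum_congr rfl fun r _ => by rw [h (mkNode j κ.1.2) hj r]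
    rw [this]
  · rfl

theorem q_inj_step {D n : ℕ} (a b : Idx D n → ℝ) (hab : q a = q b) (κ : Node n)
    (h : ∀ κ' : Node n, (κ'.1.1 : ℕ) < (κ.1.1 : ℕ) → ∀ r, a ⟨κ', r⟩ = b ⟨κ', r⟩)
    (r0 : BIdx D n κ.1.1) : a ⟨κ, r0⟩ = b ⟨κ, r0⟩ := by
  have hms : 0 < Real.sqrt (ms D n κ.1.1) := by
    have : 0 < ms D n κ.1.1 := by
      unfold ms
      exact Fintype.card_pos_iff.2 ⟨⟨r0.1.1, r0.2.1⟩⟩
    exact Real.sqrt_pos.2 (by exact_mod_cast this)
  have hc : (0 : ℝ) < ((4 : ℝ) ^ ((n + 1) * D))⁻¹ := by positivity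
  have hk : (0 : ℝ) < (1 / 4) ^ (κ.1.1 : ℕ) := by positivity
  set T : (Fin D → Str n) → ℝ := fun x =>
    W a κ x * (Real.arctan (psi a κ x) - Real.arctan (psi b κ x)) with hT
  have h1 : ∀ r : BIdx D n κ.1.1, ∑ x, chiB r x * T x = 0 := by
    intro r
    have h2 := congrFun hab ⟨κ, r⟩
    unfold q avg at h2
    simp only at h2
    have h3 := mul_left_cancel₀ hc.ne' (mul_left_cancel₀ hk.ne' h2)
    have h4 : ∑ x, chiB r x * T x = 16 * (∑ x, chiB r x * W a κ x *
        (1 / 2 + 1 / 16 * Real.arctan (psi a κ x)) - ∑ x, chiB r x * W b κ x *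
        (1 / 2 + 1 / 16 * Real.arctan (psi b κ x))) := by
      rw [← Finset.sum_sub_distrib, Finset.mul_sum]
      refine Finset.sum_congr rfl fun x _ => ?_
      rw [← q_inj_W_eq a b κ x h, hT]
      ring
    rw [h4, h3, sub_self, mul_zero]
  have h5 : ∀ x, ∑ r : BIdx D n κ.1.1, (a ⟨κ, r⟩ - b ⟨κ, r⟩) * chiB r x =
      Real.sqrt (ms D n κ.1.1) * (psi a κ x - psi b κ x) := by
    intro x
    unfold psi
    rw [← mul_sub, ← mul_assoc, mul_inv_cancel₀ hms.ne', one_mul, ← Finset.sum_sub_distrib]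
    exact Finset.sum_congr rfl fun r _ => by ring
  have h6 : ∑ x, (Real.sqrt (ms D n κ.1.1) * (psi a κ x - psi b κ x)) * T x = 0 := by
    simp only [← h5, Finset.sum_mul]
    rw [Finset.sum_comm]
    refine Finset.sum_eq_zero fun r _ => ?_
    have : ∀ x, (a ⟨κ, r⟩ - b ⟨κ, r⟩) * chiB r x * T x =
        (a ⟨κ, r⟩ - b ⟨κ, r⟩) * (chiB r x * T x) := fun x => by ring
    simp only [this]
    rw [← Finset.mul_sum, h1 r, mul_zero]
  have h7 : ∀ x, 0 ≤ (psi a κ x - psi b κ x) *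
      (Real.arctan (psi a κ x) - Real.arctan (psi b κ x)) := by
    intro x
    rcases le_total (psi a κ x) (psi b κ x) with hh | hh
    · have := Real.arctan_strictMono.monotone hh
      exact mul_nonneg_of_nonpos_of_nonpos (by linarith) (by linarith)
    · have := Real.arctan_strictMono.monotone hh
      exact mul_nonneg (by linarith) (by linarith)
  have h8 : ∀ x ∈ Finset.univ, 0 ≤ (Real.sqrt (ms D n κ.1.1) * (psi a κ x - psi b κ x)) * T x := by
    intro x _
    have e : (Real.sqrt (ms D n κ.1.1) * (psi a κ x - psi b κ x)) * T x =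
        Real.sqrt (ms D n κ.1.1) * W a κ x * ((psi a κ x - psi b κ x) *
          (Real.arctan (psi a κ x) - Real.arctan (psi b κ x))) := by rw [hT]; ring
    rw [e]
    exact mul_nonneg (mul_pos hms (q_inj_W_pos a κ x)).le (h7 x)
  rw [Finset.sum_eq_zero_iff_of_nonneg h8] at h6
  have h9 : ∀ x, psi a κ x = psi b κ x := by
    intro x
    have h10 := h6 x (Finset.mem_univ x)
    rcases mul_eq_zero.1 h10 with h11 | h11
    · rcases mul_eq_zero.1 h11 with h12 | h12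
      · exact absurd h12 hms.ne'
      · linarith
    · rcases mul_eq_zero.1 h11 with h12 | h12
      · exact absurd h12 (q_inj_W_pos a κ x).ne'
      · exact Real.arctan_injective (by linarith)
  have h13 := gram_lower (fun r : BIdx D n κ.1.1 => a ⟨κ, r⟩ - b ⟨κ, r⟩)
  have h14 : avg (fun x => (∑ r : BIdx D n κ.1.1, (a ⟨κ, r⟩ - b ⟨κ, r⟩) * chiB r x) ^ 2) = 0 := by
    unfold avg
    have : ∀ x : Fin D → Str n,
        (∑ r : BIdx D n κ.1.1, (a ⟨κ, r⟩ - b ⟨κ, r⟩) * chiB r x) ^ 2 = 0 := by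
      intro x
      rw [h5, h9 x]; ring
    simp only [this]
    simp
  rw [h14, mul_zero] at h13
  have h15 : (0 : ℝ) < (1 / 16) ^ D := by positivity
  have h16 : ∑ r : BIdx D n κ.1.1, (a ⟨κ, r⟩ - b ⟨κ, r⟩) ^ 2 ≤ 0 := by
    by_contra hcon
    rw [not_le] at hcon
    have := mul_pos h15 hcon
    linarith
  have h17 : (a ⟨κ, r0⟩ - b ⟨κ, r0⟩) ^ 2 ≤ 0 :=
    (Finset.single_le_sum (f := fun r : BIdx D n κ.1.1 => (a ⟨κ, r⟩ - b ⟨κ, r⟩) ^ 2)
      (fun r _ => sq_nonneg _) (Finset.mem_univ r0)).trans h16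
  have h18 : (a ⟨κ, r0⟩ - b ⟨κ, r0⟩) ^ 2 = 0 := le_antisymm h17 (sq_nonneg _)
  have := pow_eq_zero_iff (two_ne_zero) |>.1 h18
  linarith

theorem q_inj (D n : ℕ) : Function.Injective (fun a : Idx D n → ℝ => q a) := by
  intro a b hab
  have hab : q a = q b := hab
  have key : ∀ m : ℕ, ∀ κ : Node n, (κ.1.1 : ℕ) = m → ∀ r, a ⟨κ, r⟩ = b ⟨κ, r⟩ := by
    intro m
    induction m using Nat.strong_induction_on with
    | _ m ih =>
      intro κ hκ r
      exact q_inj_step a b hab κ (fun κ' h' r' => ih _ (by omega) κ' rfl r') r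
  funext ⟨κ, r⟩
  exact key _ κ rfl r


end Sol_q_inj

alias q_inj := Sol_q_inj.q_inj

end BSheet
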