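import Pool.Agent.BSheet.Defs
import Pool.Agent.BSheet.L_oneD_mass
open MeasureTheory Real
open scoped ENNReal BigOperators

namespace BSheet
open ProbabilityTheory
namespace Sol_sum_wt




theorem sum_wt {D n : ℕ} (a : Idx D n → ℝ) : ∑ x1 : Str n, ∑ x : Fin D → Str n, wt a x1 x = 1 := by
  have hnode : ∀ (j : Fin (n+1)) (x1 : Str n), mkNode j (trunc j x1) = mkNode j x1 := by
    intro j x1
    unfold mkNode
    apply Subtype.ext
    exact Prod.ext rfl (trunc_trunc _ _)
  have key : ∀ x : Fin D → Str n, ∑ x1 : Str n, wt a x1 x =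
      ((4:ℝ)^((n+1)*(D+1)))⁻¹ * 4^(n+1) := by
    intro x
    unfold wt
    rw [← Finset.mul_sum]
    congr 1
    have h := oneD_mass (n := n) (fun j x1 => (1/4) * Real.arctan (psi a (mkNode j x1) x)) (by
      intro j x1
      simp only [hnode])
    rw [← h]
    refine Finset.sum_congr rfl fun x1 _ => Finset.prod_congr rfl fun j _ => ?_
    ring
  rw [Finset.sum_comm]
  simp only [key]
  rw [Finset.sum_const, Finset.card_univ, nsmul_eq_mul]
  have hcard : (Fintype.card (Fin D → Str n) : ℝ) = (4:ℝ)^((n+1)*D) := by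
    rw [Fintype.card_fun, Fintype.card_fun, Fintype.card_fin, Fintype.card_fin, Fintype.card_fin]
    push_cast
    rw [← pow_mul]
  rw [hcard]
  have h4 : (4:ℝ)^((n+1)*(D+1)) = (4:ℝ)^((n+1)*D) * 4^(n+1) := by
    rw [← pow_add]; congr 1
  rw [h4]
  have hp1 : (4:ℝ)^((n+1)*D) ≠ 0 := by positivity
  have hp2 : (4:ℝ)^(n+1) ≠ 0 := by positivity
  field_simp


end Sol_sum_wt

alias sum_wt := Sol_sum_wt.sum_wt

end BSheet
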