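import Pool.Agent.BSheet.Defs
import Pool.Agent.BSheet.L_psi_trunc
import Pool.Agent.BSheet.L_sum_wt
import Pool.Agent.BSheet.L_q_eq
open MeasureTheory Real
open scoped ENNReal BigOperators

namespace BSheet
open ProbabilityTheory
namespace Sol_q_polar






theorem q_polar {D n : ℕ} (a a' : Idx D n → ℝ) (ha' : a' ∈ Kset D n) : |∑ i, a' i * q a i| ≤ 1 := by
  have h1 : ∑ i, a' i * q a i =
      ∑ x1 : Str n, ∑ x : Fin D → Str n, wt a x1 x * ∑ i, a' i * vec x1 x i := by
    calc ∑ i, a' i * q a i
        = ∑ i, ∑ x1 : Str n, ∑ x : Fin D → Str n, wt a x1 x * (a' i * vec x1 x i) := by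
          apply Finset.sum_congr rfl
          intro i _
          rw [q_eq, Finset.mul_sum]
          apply Finset.sum_congr rfl
          intro x1 _
          rw [Finset.mul_sum]
          apply Finset.sum_congr rfl
          intro x _
          ring
      _ = ∑ x1 : Str n, ∑ i, ∑ x : Fin D → Str n, wt a x1 x * (a' i * vec x1 x i) :=
          Finset.sum_comm
      _ = ∑ x1 : Str n, ∑ x : Fin D → Str n, ∑ i, wt a x1 x * (a' i * vec x1 x i) := by
          apply Finset.sum_congr rfl
          intro x1 _
          exact Finset.sum_comm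
      _ = _ := by
          apply Finset.sum_congr rfl
          intro x1 _
          apply Finset.sum_congr rfl
          intro x _
          rw [Finset.mul_sum]
  rw [h1, ← sum_wt a]
  refine (Finset.abs_sum_le_sum_abs _ _).trans (Finset.sum_le_sum fun x1 _ => ?_)
  refine (Finset.abs_sum_le_sum_abs _ _).trans (Finset.sum_le_sum fun x _ => ?_)
  rw [abs_mul, abs_of_pos (wt_pos a x1 x)]
  exact mul_le_of_le_one_right (wt_pos a x1 x).le (ha' x1 x)


end Sol_q_polar

alias q_polar := Sol_q_polar.q_polar

end BSheet
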