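import Pool.Agent.BSheet.Defs
import Pool.Agent.BSheet.L_cov1
import Pool.Agent.BSheet.L_cov2
import Pool.Agent.BSheet.L_pt_mem
import Pool.Agent.BSheet.L_ctr_mem
import Pool.Agent.BSheet.L_gauss_density
open MeasureTheory Real
open scoped ENNReal BigOperators

namespace BSheet
open ProbabilityTheory
namespace Sol_sheet_bound








theorem sb_sum_prod {m : ℕ} (f : Fin m → Fin 3 → ℝ) :
    ∑ e : Fin m → Fin 3, ∏ l, f l (e l) = ∏ l, ∑ e : Fin 3, f l e := by
  rw [Finset.prod_univ_sum, Fintype.piFinset_univ]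

theorem sb_sum_prod2 {m : ℕ} (f : Fin m → Fin 3 → Fin 3 → ℝ) :
    ∑ e : Fin m → Fin 3, ∑ e' : Fin m → Fin 3, ∏ l, f l (e l) (e' l) =
      ∏ l, ∑ e : Fin 3, ∑ e' : Fin 3, f l e e' := by
  have h1 : ∀ e : Fin m → Fin 3, ∑ e' : Fin m → Fin 3, ∏ l, f l (e l) (e' l) =
      ∏ l, ∑ e' : Fin 3, f l (e l) e' := fun e => sb_sum_prod (fun l e' => f l (e l) e')
  simp only [h1]
  exact sb_sum_prod (fun l e => ∑ e' : Fin 3, f l e e')

theorem sb_dig {D n : ℕ} (i : Idx D n) (l : Fin (D+1)) : trunc (lev i l) (dig i l) = dig i l := by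
  refine Fin.cases ?_ (fun l => ?_) l
  · exact i.1.2
  · exact i.2.2.2 l

theorem sb_lev {D n : ℕ} (i : Idx D n) : ∑ l, ((lev i l : Fin (n+1)) : ℕ) = n := by
  have h := i.2.2.1
  rw [Fin.sum_univ_succ]
  have h1 : ((lev i 0 : Fin (n+1)) : ℕ) = i.1.1.1 := rfl
  have h2 : ∀ l : Fin D, ((lev i l.succ : Fin (n+1)) : ℕ) = i.2.1.1 l := fun l => rfl
  simp only [h1, h2]
  omega

theorem sb_ext {D n : ℕ} (i j : Idx D n) (h : ∀ l, lev i l = lev j l ∧ dig i l = dig j l) :
    i = j := by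
  obtain ⟨⟨⟨k, u⟩, hu⟩, ⟨⟨r1, r2⟩, hr⟩⟩ := i
  obtain ⟨⟨⟨k', u'⟩, hu'⟩, ⟨⟨r1', r2'⟩, hr'⟩⟩ := j
  obtain ⟨h01, h02⟩ := h 0
  have h01' : k = k' := h01
  have h02' : u = u' := h02
  subst h01' h02'
  have h1 : r1 = r1' := by
    funext l
    exact (h l.succ).1
  have h2 : r2 = r2' := by
    funext l
    exact (h l.succ).2
  subst h1 h2
  rfl

noncomputable def sb_tent {n : ℕ} (k : Fin (n+1)) (u x : Str n) : ℝ :=
  if trunc k x = u then chi k x else 0

theorem sb_vec {D n : ℕ} (x1 : Str n) (x : Fin D → Str n) (i : Idx D n) :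
    ∏ l : Fin (D+1), sb_tent (lev i l) (dig i l) ((Fin.cons x1 x : Fin (D+1) → Str n) l) =
      vec x1 x i := by
  rw [Fin.prod_univ_succ]
  rfl

/-- the point -/
noncomputable def sb_pt {D n : ℕ} (i : Idx D n) (e : Fin (D+1) → Fin 3) :
    Fin (D+1) → unitInterval :=
  fun l => ⟨pt (lev i l) (dig i l) (e l), pt_mem (lev i l) (dig i l) (sb_dig i l) (e l)⟩

noncomputable def sb_ctr {D n : ℕ} (x : Str n × (Fin D → Str n)) : Fin (D+1) → unitInterval :=
  fun l => ⟨ctr ((Fin.cons x.1 x.2 : Fin (D+1) → Str n) l), ctr_mem _⟩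

noncomputable def sb_W {m : ℕ} (e : Fin m → Fin 3) : ℝ := ∏ l, wgt (e l)

noncomputable def sb_s2 (D n : ℕ) : ℝ := (1/4)^(n+D+1)

theorem sb_pow {D n : ℕ} (i : Idx D n) :
    ∏ l : Fin (D+1), ((1/4 : ℝ)^((lev i l : Fin (n+1)) : ℕ) / 4) = sb_s2 D n := by
  have h1 : ∀ l : Fin (D+1), ((1/4 : ℝ)^((lev i l : Fin (n+1)) : ℕ) / 4) =
      (1/4 : ℝ)^((lev i l : Fin (n+1)) : ℕ) * (1/4) := fun l => by ring
  simp only [h1]
  rw [Finset.prod_mul_distrib, Finset.prod_pow_eq_pow_sum, sb_lev, Finset.prod_const,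
    Finset.card_univ, Fintype.card_fin, sb_s2, ← pow_add]
  rfl

theorem sb_cov1 {D n : ℕ} (i : Idx D n) (x : Str n × (Fin D → Str n)) :
    ∑ e : Fin (D+1) → Fin 3, sb_W e * ∏ l, min ((sb_pt i e l : unitInterval) : ℝ)
      ((sb_ctr x l : unitInterval) : ℝ) = sb_s2 D n * vec x.1 x.2 i := by
  have h1 : ∀ e : Fin (D+1) → Fin 3, sb_W e * ∏ l, min ((sb_pt i e l : unitInterval) : ℝ)
      ((sb_ctr x l : unitInterval) : ℝ) =
      ∏ l, (wgt (e l) * min (pt (lev i l) (dig i l) (e l))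
        (ctr ((Fin.cons x.1 x.2 : Fin (D+1) → Str n) l))) := by
    intro e
    rw [sb_W, ← Finset.prod_mul_distrib]
    rfl
  simp only [h1]
  rw [sb_sum_prod (fun l e => wgt e * min (pt (lev i l) (dig i l) e)
        (ctr ((Fin.cons x.1 x.2 : Fin (D+1) → Str n) l)))]
  have h2 : ∀ l : Fin (D+1), ∑ e : Fin 3, wgt e * min (pt (lev i l) (dig i l) e)
        (ctr ((Fin.cons x.1 x.2 : Fin (D+1) → Str n) l)) =
      ((1/4 : ℝ)^((lev i l : Fin (n+1)) : ℕ) / 4) *
        sb_tent (lev i l) (dig i l) ((Fin.cons x.1 x.2 : Fin (D+1) → Str n) l) := fun l =>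
    cov1 (lev i l) (dig i l) _ (sb_dig i l)
  simp only [h2]
  rw [Finset.prod_mul_distrib, sb_pow, sb_vec]

theorem sb_cov2 {D n : ℕ} (i j : Idx D n) :
    ∑ e : Fin (D+1) → Fin 3, ∑ e' : Fin (D+1) → Fin 3, (sb_W e * sb_W e') *
      ∏ l, min ((sb_pt i e l : unitInterval) : ℝ) ((sb_pt j e' l : unitInterval) : ℝ) =
      if i = j then sb_s2 D n else 0 := by
  have h1 : ∀ e e' : Fin (D+1) → Fin 3, (sb_W e * sb_W e') *
      ∏ l, min ((sb_pt i e l : unitInterval) : ℝ) ((sb_pt j e' l : unitInterval) : ℝ) =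
      ∏ l, (wgt (e l) * wgt (e' l) * min (pt (lev i l) (dig i l) (e l))
        (pt (lev j l) (dig j l) (e' l))) := by
    intro e e'
    rw [sb_W, sb_W, ← Finset.prod_mul_distrib, ← Finset.prod_mul_distrib]
    rfl
  simp only [h1]
  rw [sb_sum_prod2 (fun l e e' => wgt e * wgt e' * min (pt (lev i l) (dig i l) e)
        (pt (lev j l) (dig j l) e'))]
  have h2 : ∀ l : Fin (D+1), ∑ e : Fin 3, ∑ e' : Fin 3, wgt e * wgt e' *
        min (pt (lev i l) (dig i l) e) (pt (lev j l) (dig j l) e') =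
      if lev i l = lev j l ∧ dig i l = dig j l then (1/4 : ℝ)^((lev i l : Fin (n+1)) : ℕ) / 4
        else 0 := fun l =>
    cov2 (lev i l) (lev j l) (dig i l) (dig j l) (sb_dig i l) (sb_dig j l)
  simp only [h2]
  by_cases hij : i = j
  · subst hij
    simp only [and_self, if_true]
    exact sb_pow i
  · rw [if_neg hij]
    have h3 : ∃ l, ¬ (lev i l = lev j l ∧ dig i l = dig j l) := by
      by_contra hcon
      push Not at hcon
      exact hij (sb_ext i j fun l => hcon l)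
    obtain ⟨l, hl⟩ := h3
    exact Finset.prod_eq_zero (Finset.mem_univ l) (if_neg hl)

theorem sb_gauss {Ω κ : Type*} {mΩ : MeasurableSpace Ω} [Fintype κ] [DecidableEq κ]
    (P : Measure Ω) (Y : κ → Ω → ℝ) (h : IsGaussianProcess Y P) :
    HasGaussianLaw (fun ω => (fun k => Y k ω)) P := by
  let L : (↥(Finset.univ : Finset κ) → ℝ) →L[ℝ] (κ → ℝ) :=
    { toFun := fun z k => z ⟨k, Finset.mem_univ k⟩
      map_add' := fun x y => rfl
      map_smul' := fun c x => rfl
      cont := by fun_prop }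
  exact (h.hasGaussianLaw Finset.univ).map L

open scoped Pointwise in
theorem sb_volume (D n : ℕ) (ε : ℝ) (hε : 0 < ε) :
    volume {v : Idx D n → ℝ | ∀ x : Str n × (Fin D → Str n), |∑ i, v i * vec x.1 x.2 i| ≤ ε} =
      ENNReal.ofReal (ε^(Fintype.card (Idx D n))) * volume (Kset D n) := by
  have h1 : {v : Idx D n → ℝ | ∀ x : Str n × (Fin D → Str n), |∑ i, v i * vec x.1 x.2 i| ≤ ε} =
      ε • Kset D n := by
    ext v
    rw [Set.mem_smul_set_iff_inv_smul_mem₀ hε.ne']
    have h2 : ∀ (x1 : Str n) (x : Fin D → Str n), ∑ i, (ε⁻¹ • v) i * vec x1 x i =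
        ε⁻¹ * ∑ i, v i * vec x1 x i := by
      intro x1 x
      rw [Finset.mul_sum]
      refine Finset.sum_congr rfl fun i _ => ?_
      simp only [Pi.smul_apply, smul_eq_mul]
      ring
    constructor
    · intro hv x1 x
      rw [h2, abs_mul, abs_of_pos (inv_pos.mpr hε), inv_mul_le_iff₀ hε, mul_one]
      exact hv (x1, x)
    · intro hv x
      have h3 := hv x.1 x.2
      rw [h2, abs_mul, abs_of_pos (inv_pos.mpr hε), inv_mul_le_iff₀ hε, mul_one] at h3
      exact h3
  rw [h1, Measure.addHaar_smul, Module.finrank_fintype_fun_eq_card, abs_of_pos (pow_pos hε _)]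

theorem sheet_bound {Ω : Type*} {mΩ : MeasurableSpace Ω} (P : Measure Ω) (D n : ℕ)
    (B : (Fin (D+1) → unitInterval) → Ω → ℝ) (hB : IsBrownianSheet (D+1) B P)
    (ε : ℝ) (hε : 0 < ε) :
    P {ω | ∀ x, |B x ω| ≤ ε}
      ≤ ENNReal.ofReal ((2 * ε * 2^(D+1+n) / Real.sqrt (2 * π))^(Fintype.card (Idx D n)))
        * volume (Kset D n) := by
  classical
  have hprob : IsProbabilityMeasure P := hB.gaussian.isProbabilityMeasure
  have hLp : ∀ x, MemLp (B x) 2 P := fun x => (hB.gaussian.hasGaussianLaw_eval x).memLp_two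
  have hInt : ∀ x, Integrable (B x) P := fun x => (hB.gaussian.hasGaussianLaw_eval x).integrable
  let a : Idx D n → Ω → ℝ := fun i ω => ∑ e : Fin (D+1) → Fin 3, sb_W e * B (sb_pt i e) ω
  let V : Str n × (Fin D → Str n) → Idx D n → ℝ := fun x i => vec x.1 x.2 i
  let b : Str n × (Fin D → Str n) → Ω → ℝ := fun x ω => B (sb_ctr x) ω - ∑ i, a i ω * V x i
  have haLp : ∀ i, MemLp (a i) 2 P := fun i =>
    memLp_finsetSum _ fun e _ => (hLp (sb_pt i e)).const_mul (sb_W e)
  have hs2 : 0 < sb_s2 D n := by unfold sb_s2; positivity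
  have hcovaB : ∀ i x, cov[a i, B (sb_ctr x); P] = sb_s2 D n * V x i := by
    intro i x
    have h1 : cov[a i, B (sb_ctr x); P] = ∑ e : Fin (D+1) → Fin 3,
        cov[fun ω => sb_W e * B (sb_pt i e) ω, B (sb_ctr x); P] :=
      covariance_fun_sum_left (fun e => (hLp (sb_pt i e)).const_mul (sb_W e)) (hLp _)
    rw [h1]
    simp only [covariance_const_mul_left, hB.cov]
    exact sb_cov1 i x
  have hcovaa : ∀ i j, cov[a i, a j; P] = if i = j then sb_s2 D n else 0 := by
    intro i j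
    have h1 : cov[a i, a j; P] = ∑ e : Fin (D+1) → Fin 3, ∑ e' : Fin (D+1) → Fin 3,
        cov[fun ω => sb_W e * B (sb_pt i e) ω, fun ω => sb_W e' * B (sb_pt j e') ω; P] :=
      covariance_fun_sum_fun_sum (fun e => (hLp (sb_pt i e)).const_mul (sb_W e))
        (fun e => (hLp (sb_pt j e)).const_mul (sb_W e))
    rw [h1, ← sb_cov2 i j]
    refine Finset.sum_congr rfl fun e _ => Finset.sum_congr rfl fun e' _ => ?_
    rw [covariance_const_mul_left, covariance_const_mul_right, hB.cov]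
    ring
  have hcross : ∀ i x, cov[a i, b x; P] = 0 := by
    intro i x
    have h1 : cov[a i, b x; P] = cov[a i, B (sb_ctr x); P] -
        cov[a i, fun ω => ∑ j, a j ω * V x j; P] :=
      covariance_fun_sub_right (haLp i) (hLp _)
        (memLp_finsetSum _ fun j _ => (haLp j).mul_const (V x j))
    have h2 : cov[a i, fun ω => ∑ j, a j ω * V x j; P] = ∑ j, cov[a i, fun ω => a j ω * V x j; P] :=
      covariance_fun_sum_right (fun j => (haLp j).mul_const (V x j)) (haLp i)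
    rw [h1, h2, hcovaB]
    simp only [covariance_mul_const_right, hcovaa]
    simp
  have hmean : ∀ i, ∫ ω, a i ω ∂P = 0 := by
    intro i
    show ∫ ω, ∑ e : Fin (D+1) → Fin 3, sb_W e * B (sb_pt i e) ω ∂P = 0
    rw [integral_finsetSum _ fun e _ => (hInt (sb_pt i e)).const_mul (sb_W e)]
    refine Finset.sum_eq_zero fun e _ => ?_
    rw [integral_const_mul, hB.mean, mul_zero]
  have hG : HasGaussianLaw (fun ω => ((fun i => a i ω), (fun x => b x ω))) P := by
    let κ : Type := (Idx D n × (Fin (D+1) → Fin 3)) ⊕ (Str n × (Fin D → Str n))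
    let f : κ → (Fin (D+1) → unitInterval) := Sum.elim (fun p => sb_pt p.1 p.2) (fun x => sb_ctr x)
    have hg := sb_gauss P (fun k : κ => B (f k)) (hB.gaussian.comp_right f)
    let A : (κ → ℝ) →ₗ[ℝ] (Idx D n → ℝ) :=
      { toFun := fun z i => ∑ e : Fin (D+1) → Fin 3, sb_W e * z (Sum.inl (i, e))
        map_add' := fun x y => by
          funext i
          simp only [Pi.add_apply, mul_add, Finset.sum_add_distrib]
        map_smul' := fun c x => by
          funext i
          simp only [Pi.smul_apply, smul_eq_mul, RingHom.id_apply, Finset.mul_sum]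
          refine Finset.sum_congr rfl fun e _ => by ring }
    let A2 : (κ → ℝ) →ₗ[ℝ] ((Str n × (Fin D → Str n)) → ℝ) :=
      { toFun := fun z x => z (Sum.inr x) - ∑ i, A z i * V x i
        map_add' := fun x y => by
          funext i
          simp only [map_add, Pi.add_apply, add_mul, Finset.sum_add_distrib]
          ring
        map_smul' := fun c x => by
          funext i
          simp only [map_smul, Pi.smul_apply, smul_eq_mul, RingHom.id_apply, mul_sub, Finset.mul_sum]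
          congr 1
          refine Finset.sum_congr rfl fun e _ => by ring }
    exact hg.map (LinearMap.toContinuousLinearMap (A.prod A2))
  have hmain := gauss_density P a b hG (sb_s2 D n) hs2 hmean hcovaa hcross V ε hε
  rw [sb_volume D n ε hε, ← mul_assoc, ← ENNReal.ofReal_mul (by positivity), ← mul_pow] at hmain
  have hconst : 2 / Real.sqrt (2 * π * sb_s2 D n) * ε =
      2 * ε * 2^(D+1+n) / Real.sqrt (2 * π) := by
    have h1 : sb_s2 D n = ((1/2 : ℝ)^(n+D+1))^2 := by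
      unfold sb_s2
      rw [← pow_mul, mul_comm, pow_mul]
      norm_num
    have h2 : Real.sqrt (2 * π * sb_s2 D n) = Real.sqrt (2 * π) * (1/2 : ℝ)^(n+D+1) := by
      rw [h1, Real.sqrt_mul (by positivity), Real.sqrt_sq (by positivity)]
    have h3 : 0 < Real.sqrt (2 * π) := Real.sqrt_pos.mpr (by positivity)
    rw [h2]
    have h4 : (1/2 : ℝ)^(n+D+1) * 2^(D+1+n) = 1 := by
      have : D + 1 + n = n + D + 1 := by ring
      rw [this, ← mul_pow]
      norm_num
    have h5 : (1/2 : ℝ)^(n+D+1) ≠ 0 := by positivity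
    rw [div_mul_eq_mul_div, div_eq_div_iff (by positivity) h3.ne']
    calc 2 * ε * Real.sqrt (2 * π) = 2 * ε * Real.sqrt (2 * π) * 1 := by ring
      _ = 2 * ε * Real.sqrt (2 * π) * ((1/2 : ℝ)^(n+D+1) * 2^(D+1+n)) := by rw [h4]
      _ = 2 * ε * 2^(D+1+n) * (Real.sqrt (2 * π) * (1/2 : ℝ)^(n+D+1)) := by ring
  rw [hconst] at hmain
  refine le_trans (measure_mono ?_) hmain
  intro ω hω x
  have h1 : ∑ i, a i ω * V x i + b x ω = B (sb_ctr x) ω := by
    show ∑ i, a i ω * V x i + (B (sb_ctr x) ω - ∑ i, a i ω * V x i) = B (sb_ctr x) ω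
    ring
  rw [h1]
  exact hω (sb_ctr x)


end Sol_sheet_bound

alias sheet_bound := Sol_sheet_bound.sheet_bound

end BSheet
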