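import Pool.Agent.BSheet.Defs
import Pool.Agent.BSheet.L_bm1
import Pool.Agent.BSheet.L_bm_sym
open MeasureTheory Real
open scoped ENNReal BigOperators

namespace BSheet
open ProbabilityTheory
namespace Sol_steiner





theorem fiber_compact2 {ι : Type} [Fintype ι] [DecidableEq ι] (p : ι → Prop) [DecidablePred p]
    (K : Set (ι → ℝ)) (hK : IsCompact K) (u : {x // p x} → ℝ) :
    IsCompact {v : {x // ¬ p x} → ℝ |
      (MeasurableEquiv.piEquivPiSubtypeProd (fun _ : ι => ℝ) p).symm (u, v) ∈ K} := by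
  have h1 : IsCompact (K ∩ {x : ι → ℝ | (fun j : {x // p x} => x j) = u}) := by
    apply hK.inter_right
    apply isClosed_eq
    · fun_prop
    · exact continuous_const
  have h2 : Continuous (fun x : ι → ℝ => (fun j : {x // ¬ p x} => x j)) := by fun_prop
  have h3 := h1.image h2
  convert h3 using 1
  ext v
  constructor
  · intro hv
    refine ⟨_, ⟨hv, ?_⟩, ?_⟩
    · exact congrArg Prod.fst ((MeasurableEquiv.piEquivPiSubtypeProd (fun _ : ι => ℝ) p).apply_symm_apply (u, v))
    · exact congrArg Prod.snd ((MeasurableEquiv.piEquivPiSubtypeProd (fun _ : ι => ℝ) p).apply_symm_apply (u, v))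
  · rintro ⟨x, ⟨hx, hu⟩, hv⟩
    have h4 : (MeasurableEquiv.piEquivPiSubtypeProd (fun _ : ι => ℝ) p).symm (u, v) = x := by
      rw [MeasurableEquiv.symm_apply_eq]
      exact Prod.ext hu.symm hv.symm
    show (MeasurableEquiv.piEquivPiSubtypeProd (fun _ : ι => ℝ) p).symm (u, v) ∈ K
    rw [h4]
    exact hx

theorem fiber_compact1 {ι : Type} [Fintype ι] [DecidableEq ι] (p : ι → Prop) [DecidablePred p]
    (K : Set (ι → ℝ)) (hK : IsCompact K) (v : {x // ¬ p x} → ℝ) :
    IsCompact {u : {x // p x} → ℝ |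
      (MeasurableEquiv.piEquivPiSubtypeProd (fun _ : ι => ℝ) p).symm (u, v) ∈ K} := by
  have h1 : IsCompact (K ∩ {x : ι → ℝ | (fun j : {x // ¬ p x} => x j) = v}) := by
    apply hK.inter_right
    apply isClosed_eq
    · fun_prop
    · exact continuous_const
  have h2 : Continuous (fun x : ι → ℝ => (fun j : {x // p x} => x j)) := by fun_prop
  have h3 := h1.image h2
  convert h3 using 1
  ext u
  constructor
  · intro hv
    refine ⟨_, ⟨hv, ?_⟩, ?_⟩
    · exact congrArg Prod.snd ((MeasurableEquiv.piEquivPiSubtypeProd (fun _ : ι => ℝ) p).apply_symm_apply (u, v))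
    · exact congrArg Prod.fst ((MeasurableEquiv.piEquivPiSubtypeProd (fun _ : ι => ℝ) p).apply_symm_apply (u, v))
  · rintro ⟨x, ⟨hx, hv⟩, hu⟩
    have h4 : (MeasurableEquiv.piEquivPiSubtypeProd (fun _ : ι => ℝ) p).symm (u, v) = x := by
      rw [MeasurableEquiv.symm_apply_eq]
      exact Prod.ext hu.symm hv.symm
    show (MeasurableEquiv.piEquivPiSubtypeProd (fun _ : ι => ℝ) p).symm (u, v) ∈ K
    rw [h4]
    exact hx

theorem symm_in {ι : Type} [DecidableEq ι] (p : ι → Prop) [DecidablePred p]
    (w : ({x // p x} → ℝ) × ({x // ¬ p x} → ℝ)) (j : ι) (h : p j) :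
    (MeasurableEquiv.piEquivPiSubtypeProd (fun _ : ι => ℝ) p).symm w j = w.1 ⟨j, h⟩ := by
  show (Equiv.piEquivPiSubtypeProd p (fun _ : ι => ℝ)).symm w j = w.1 ⟨j, h⟩
  rw [Equiv.piEquivPiSubtypeProd_symm_apply]
  simp [h]

theorem symm_out {ι : Type} [DecidableEq ι] (p : ι → Prop) [DecidablePred p]
    (w : ({x // p x} → ℝ) × ({x // ¬ p x} → ℝ)) (j : ι) (h : ¬ p j) :
    (MeasurableEquiv.piEquivPiSubtypeProd (fun _ : ι => ℝ) p).symm w j = w.2 ⟨j, h⟩ := by
  show (Equiv.piEquivPiSubtypeProd p (fun _ : ι => ℝ)).symm w j = w.2 ⟨j, h⟩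
  rw [Equiv.piEquivPiSubtypeProd_symm_apply]
  simp [h]

theorem steiner_step {ι : Type} [Fintype ι] [DecidableEq ι] (i : ι) (T : Finset ι)
    (K L : Set (ι → ℝ)) (hK : IsCompact K) (hL : IsCompact L)
    (sK : ∀ x ∈ K, -x ∈ K) (sL : ∀ x ∈ L, -x ∈ L)
    (hp : ∀ x ∈ K, ∀ y ∈ L, ∑ j, x j * y j ≤ 1)
    (iK : ∀ j ∈ T, ∀ x ∈ K, Function.update x j (-(x j)) ∈ K)
    (iL : ∀ j ∈ T, ∀ x ∈ L, Function.update x j (-(x j)) ∈ L) :
    ∃ K' L' : Set (ι → ℝ), IsCompact K' ∧ IsCompact L' ∧ (∀ x ∈ K', -x ∈ K') ∧ (∀ x ∈ L', -x ∈ L') ∧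
      (∀ x ∈ K', ∀ y ∈ L', ∑ j, x j * y j ≤ 1) ∧
      (∀ j ∈ insert i T, ∀ x ∈ K', Function.update x j (-(x j)) ∈ K') ∧
      (∀ j ∈ insert i T, ∀ x ∈ L', Function.update x j (-(x j)) ∈ L') ∧
      volume K ≤ volume K' ∧ volume L ≤ volume L' := by
  classical
  set K' : Set (ι → ℝ) := {z | ∃ x ∈ K, ∃ x2 ∈ K, (∀ j, j ≠ i → x j = z j ∧ x2 j = z j) ∧
    z i = (x i - x2 i) / 2} with hK'
  set L' : Set (ι → ℝ) := {z | ∃ y ∈ L, ∃ y2 ∈ L, y i = z i ∧ y2 i = - z i ∧
    ∀ j, j ≠ i → z j = (y j + y2 j) / 2} with hL'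
  have cK' : IsCompact K' := by
    have h1 : IsCompact ((K ×ˢ K) ∩ {w : (ι → ℝ) × (ι → ℝ) | ∀ j, j ≠ i → w.1 j = w.2 j}) := by
      apply (hK.prod hK).inter_right
      have : {w : (ι → ℝ) × (ι → ℝ) | ∀ j, j ≠ i → w.1 j = w.2 j} =
          ⋂ j : {j : ι // j ≠ i}, {w : (ι → ℝ) × (ι → ℝ) | w.1 j = w.2 j} := by
        ext w
        simp only [Set.mem_ofPred_eq, Set.mem_iInter]
        exact ⟨fun h j => h j.1 j.2, fun h j hj => h ⟨j, hj⟩⟩
      rw [this]
      apply isClosed_iInter
      intro j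
      apply isClosed_eq <;> fun_prop
    have h2 : Continuous (fun w : (ι → ℝ) × (ι → ℝ) =>
        Function.update w.1 i ((w.1 i - w.2 i) / 2)) := by
      apply Continuous.update continuous_fst
      fun_prop
    have h3 := h1.image h2
    convert h3 using 1
    ext z
    constructor
    · rintro ⟨x, hx, x2, hx2, h, hz⟩
      refine ⟨(x, x2), ⟨⟨hx, hx2⟩, fun j hj => ?_⟩, ?_⟩
      · exact (h j hj).1.trans (h j hj).2.symm
      · funext j
        show Function.update x i ((x i - x2 i) / 2) j = z j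
        by_cases hj : j = i
        · subst hj
          rw [Function.update_self, hz]
        · rw [Function.update_of_ne hj, (h j hj).1]
    · rintro ⟨⟨x, x2⟩, ⟨⟨hx, hx2⟩, h⟩, rfl⟩
      refine ⟨x, hx, x2, hx2, fun j hj => ?_, ?_⟩
      · show x j = Function.update x i ((x i - x2 i) / 2) j ∧
          x2 j = Function.update x i ((x i - x2 i) / 2) j
        rw [Function.update_of_ne hj]
        exact ⟨rfl, (h j hj).symm⟩
      · show Function.update x i ((x i - x2 i) / 2) i = _
        rw [Function.update_self]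
  have cL' : IsCompact L' := by
    have h1 : IsCompact ((L ×ˢ L) ∩ {w : (ι → ℝ) × (ι → ℝ) | w.2 i = - w.1 i}) := by
      apply (hL.prod hL).inter_right
      apply isClosed_eq <;> fun_prop
    have h2 : Continuous (fun w : (ι → ℝ) × (ι → ℝ) =>
        Function.update (fun j => (w.1 j + w.2 j) / 2) i (w.1 i)) := by
      apply Continuous.update
      · fun_prop
      · fun_prop
    have h3 := h1.image h2
    convert h3 using 1
    ext z
    constructor
    · rintro ⟨y, hy, y2, hy2, h, h', hz⟩
      refine ⟨(y, y2), ⟨⟨hy, hy2⟩, ?_⟩, ?_⟩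
      · show y2 i = - y i
        rw [h', h]
      · funext j
        show Function.update (fun j => (y j + y2 j) / 2) i (y i) j = z j
        by_cases hj : j = i
        · subst hj
          rw [Function.update_self, h]
        · rw [Function.update_of_ne hj, hz j hj]
    · rintro ⟨⟨y, y2⟩, ⟨⟨hy, hy2⟩, h⟩, rfl⟩
      refine ⟨y, hy, y2, hy2, ?_, ?_, fun j hj => ?_⟩
      · show y i = Function.update (fun j => (y j + y2 j) / 2) i (y i) i
        rw [Function.update_self]
      · show y2 i = - Function.update (fun j => (y j + y2 j) / 2) i (y i) i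
        rw [Function.update_self]
        exact h
      · show Function.update (fun j => (y j + y2 j) / 2) i (y i) j = _
        rw [Function.update_of_ne hj]
  refine ⟨K', L', cK', cL', ?_, ?_, ?_, ?_, ?_, ?_, ?_⟩
  · rintro z ⟨x, hx, x2, hx2, h, hz⟩
    refine ⟨-x, sK x hx, -x2, sK x2 hx2, fun j hj => ?_, ?_⟩
    · simp only [Pi.neg_apply]
      exact ⟨by rw [(h j hj).1], by rw [(h j hj).2]⟩
    · simp only [Pi.neg_apply]
      rw [hz]; ring
  · rintro z ⟨y, hy, y2, hy2, h, h', hz⟩
    refine ⟨-y, sL y hy, -y2, sL y2 hy2, ?_, ?_, fun j hj => ?_⟩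
    · simp only [Pi.neg_apply]; rw [h]
    · simp only [Pi.neg_apply]; rw [h']
    · simp only [Pi.neg_apply]; rw [hz j hj]; ring
  · rintro z ⟨x, hx, x2, hx2, h, hz⟩ w ⟨y, hy, y2, hy2, g, g', hw⟩
    have h1 := hp x hx y hy
    have h2 := hp x2 hx2 y2 hy2
    have h3 : ∑ j, z j * w j = (1/2) * ∑ j, x j * y j + (1/2) * ∑ j, x2 j * y2 j := by
      rw [Finset.mul_sum, Finset.mul_sum, ← Finset.add_sum_erase _ _ (Finset.mem_univ i),
        ← Finset.add_sum_erase Finset.univ (fun j => 1/2 * (x j * y j)) (Finset.mem_univ i),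
        ← Finset.add_sum_erase Finset.univ (fun j => 1/2 * (x2 j * y2 j)) (Finset.mem_univ i)]
      have h4 : ∑ j ∈ Finset.univ.erase i, z j * w j =
          ∑ j ∈ Finset.univ.erase i, 1/2 * (x j * y j) +
          ∑ j ∈ Finset.univ.erase i, 1/2 * (x2 j * y2 j) := by
        rw [← Finset.sum_add_distrib]
        apply Finset.sum_congr rfl
        intro j hj
        have hj' : j ≠ i := Finset.ne_of_mem_erase hj
        rw [hw j hj', (h j hj').1, (h j hj').2]
        ring
      rw [h4, hz, g, g']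
      ring
    rw [h3]
    linarith
  · rintro j hj z ⟨x, hx, x2, hx2, h, hz⟩
    by_cases hji : j = i
    · subst hji
      refine ⟨x2, hx2, x, hx, fun k hk => ?_, ?_⟩
      · rw [Function.update_of_ne hk]
        exact ⟨(h k hk).2, (h k hk).1⟩
      · rw [Function.update_self, hz]; ring
    · have hjT : j ∈ T := by
        rcases Finset.mem_insert.1 hj with h' | h'
        · exact absurd h' hji
        · exact h'
      refine ⟨_, iK j hjT x hx, _, iK j hjT x2 hx2, fun k hk => ?_, ?_⟩
      · by_cases hkj : k = j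
        · subst hkj
          rw [Function.update_self, Function.update_self, Function.update_self]
          exact ⟨by rw [(h k hk).1], by rw [(h k hk).2]⟩
        · rw [Function.update_of_ne hkj, Function.update_of_ne hkj, Function.update_of_ne hkj]
          exact h k hk
      · rw [Function.update_of_ne (Ne.symm hji), Function.update_of_ne (Ne.symm hji),
          Function.update_of_ne (Ne.symm hji)]
        exact hz
  · rintro j hj z ⟨y, hy, y2, hy2, h, h', hz⟩
    by_cases hji : j = i
    · subst hji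
      refine ⟨y2, hy2, y, hy, ?_, ?_, fun k hk => ?_⟩
      · rw [Function.update_self]; exact h'
      · rw [Function.update_self, neg_neg]; exact h
      · rw [Function.update_of_ne hk, hz k hk]; ring
    · have hjT : j ∈ T := by
        rcases Finset.mem_insert.1 hj with h' | h'
        · exact absurd h' hji
        · exact h'
      refine ⟨_, iL j hjT y hy, _, iL j hjT y2 hy2, ?_, ?_, fun k hk => ?_⟩
      · rw [Function.update_of_ne (Ne.symm hji), Function.update_of_ne (Ne.symm hji)]
        exact h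
      · rw [Function.update_of_ne (Ne.symm hji), Function.update_of_ne (Ne.symm hji)]
        exact h'
      · by_cases hkj : k = j
        · subst hkj
          rw [Function.update_self, Function.update_self, Function.update_self, hz k hk]
          ring
        · rw [Function.update_of_ne hkj, Function.update_of_ne hkj, Function.update_of_ne hkj]
          exact hz k hk
  · set e := MeasurableEquiv.piEquivPiSubtypeProd (fun _ : ι => ℝ) (fun j => j ≠ i) with he
    have hmp : MeasurePreserving e.symm (volume.prod volume) volume :=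
      (volume_preserving_piEquivPiSubtypeProd (fun _ : ι => ℝ) (fun j => j ≠ i)).symm _
    rw [← hmp.measure_preimage hK.measurableSet.nullMeasurableSet,
      ← hmp.measure_preimage cK'.measurableSet.nullMeasurableSet,
      Measure.prod_apply (e.symm.measurable hK.measurableSet),
      Measure.prod_apply (e.symm.measurable cK'.measurableSet)]
    apply lintegral_mono
    intro u
    refine (bm_sym {v | e.symm (u, v) ∈ K} (fiber_compact2 _ K hK u)).trans ?_
    apply measure_mono
    rintro v ⟨a, ha, b, hb, rfl⟩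
    refine ⟨_, ha, _, hb, fun j hj => ?_, ?_⟩
    · rw [symm_in (fun j => j ≠ i) _ j hj, symm_in (fun j => j ≠ i) _ j hj, symm_in (fun j => j ≠ i) _ j hj]
      exact ⟨rfl, rfl⟩
    · have hi : ¬ (i ≠ i) := fun h => h rfl
      rw [symm_out (fun j => j ≠ i) _ i hi, symm_out (fun j => j ≠ i) _ i hi, symm_out (fun j => j ≠ i) _ i hi]
      simp only [Pi.smul_apply, Pi.sub_apply, smul_eq_mul]
      ring
  · set e := MeasurableEquiv.piEquivPiSubtypeProd (fun _ : ι => ℝ) (fun j => j ≠ i) with he
    have hmp : MeasurePreserving e.symm (volume.prod volume) volume :=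
      (volume_preserving_piEquivPiSubtypeProd (fun _ : ι => ℝ) (fun j => j ≠ i)).symm _
    rw [← hmp.measure_preimage hL.measurableSet.nullMeasurableSet,
      ← hmp.measure_preimage cL'.measurableSet.nullMeasurableSet,
      Measure.prod_apply_symm (e.symm.measurable hL.measurableSet),
      Measure.prod_apply_symm (e.symm.measurable cL'.measurableSet)]
    apply lintegral_mono
    intro v
    refine (bm_sym {u | e.symm (u, v) ∈ L} (fiber_compact1 _ L hL v)).trans ?_
    apply measure_mono
    rintro u ⟨a, ha, b, hb, rfl⟩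
    have hi : ¬ (i ≠ i) := fun h => h rfl
    refine ⟨_, ha, _, sL _ hb, ?_, ?_, fun j hj => ?_⟩
    · rw [symm_out (fun j => j ≠ i) _ i hi, symm_out (fun j => j ≠ i) _ i hi]
    · rw [Pi.neg_apply, symm_out (fun j => j ≠ i) _ i hi, symm_out (fun j => j ≠ i) _ i hi]
    · rw [Pi.neg_apply, symm_in (fun j => j ≠ i) _ j hj, symm_in (fun j => j ≠ i) _ j hj, symm_in (fun j => j ≠ i) _ j hj]
      simp only [Pi.smul_apply, Pi.sub_apply, smul_eq_mul]
      ring


end Sol_steiner

alias steiner_step := Sol_steiner.steiner_step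

end BSheet
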