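import Pool.Agent.BSheet.Defs
import Pool.Agent.BSheet.L_pln
open MeasureTheory Real
open scoped ENNReal BigOperators

namespace BSheet
open ProbabilityTheory
namespace Sol_uncond




theorem uncond_cov {ι : Type} [Fintype ι] [DecidableEq ι] (G : (ι → ℝ) → ℝ≥0∞) :
    ∫⁻ x in {x : ι → ℝ | ∀ j, 0 < x j}, G x =
      ∫⁻ s : ι → ℝ, ENNReal.ofReal (Real.exp (∑ j, s j)) * G (fun j => Real.exp (s j)) := by
  obtain ⟨Φ, hΦ⟩ : ∃ Φ : (ι → ℝ) → (ι → ℝ), Φ = fun s j => Real.exp (s j) := ⟨_, rfl⟩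
  obtain ⟨Φ', hΦ'⟩ : ∃ Φ' : (ι → ℝ) → ((ι → ℝ) →L[ℝ] (ι → ℝ)), Φ' = fun s =>
      ContinuousLinearMap.pi fun j => Real.exp (s j) •
        (ContinuousLinearMap.proj j : (ι → ℝ) →L[ℝ] ℝ) := ⟨_, rfl⟩
  have himg : Φ '' Set.univ = {x : ι → ℝ | ∀ j, 0 < x j} := by
    ext x
    constructor
    · rintro ⟨s, -, rfl⟩ j
      rw [hΦ]
      exact Real.exp_pos _
    · intro hx
      refine ⟨fun j => Real.log (x j), Set.mem_univ _, ?_⟩
      rw [hΦ]
      funext j
      exact Real.exp_log (hx j)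
  have hd : ∀ s ∈ (Set.univ : Set (ι → ℝ)), HasFDerivWithinAt Φ (Φ' s) Set.univ s := by
    intro s _
    rw [hasFDerivWithinAt_univ, hΦ, hΦ']
    rw [hasFDerivAt_pi]
    intro j
    exact (ContinuousLinearMap.hasFDerivAt (ContinuousLinearMap.proj j : (ι → ℝ) →L[ℝ] ℝ)).exp
  have hinj : Set.InjOn Φ Set.univ := by
    intro s _ t _ hst
    rw [hΦ] at hst
    funext j
    exact Real.exp_injective (congrFun hst j)
  have hdet : ∀ s, |(Φ' s).det| = Real.exp (∑ j, s j) := by
    intro s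
    have h1 : ((Φ' s : (ι → ℝ) →L[ℝ] (ι → ℝ)) : (ι → ℝ) →ₗ[ℝ] (ι → ℝ)) =
        Matrix.toLin' (Matrix.diagonal fun j => Real.exp (s j)) := by
      refine LinearMap.ext fun v => ?_
      funext j
      rw [hΦ', Matrix.toLin'_apply, Matrix.mulVec_diagonal]
      rfl
    rw [ContinuousLinearMap.det, h1, LinearMap.det_toLin', Matrix.det_diagonal, ← Real.exp_sum,
      abs_of_pos (Real.exp_pos _)]
  have h := lintegral_image_eq_lintegral_abs_det_fderiv_mul volume MeasurableSet.univ hd hinj G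
  rw [himg, Measure.restrict_univ] at h
  rw [h]
  refine lintegral_congr fun s => ?_
  rw [hdet, hΦ]

theorem uncond_gauss {ι : Type} [Fintype ι] [DecidableEq ι] (b : ℝ) (hb : 0 < b) (c : ℝ) :
    ∫⁻ z in {x : ι → ℝ | ∀ j, 0 < x j}, ENNReal.ofReal (Real.exp (c - b * ∑ j, z j ^ 2)) =
      ENNReal.ofReal (Real.exp c * (√(π / b) / 2) ^ Fintype.card ι) := by
  have hset : {x : ι → ℝ | ∀ j, 0 < x j} = Set.univ.pi fun _ => Set.Ioi (0 : ℝ) := by
    ext x
    simp [Set.mem_pi]
  have hμ : (volume : Measure (ι → ℝ)).restrict {x : ι → ℝ | ∀ j, 0 < x j} =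
      Measure.pi (fun _ : ι => (volume : Measure ℝ).restrict (Set.Ioi (0 : ℝ))) := by
    rw [hset, volume_pi]
    exact Measure.restrict_pi_pi (μ := fun _ : ι => (volume : Measure ℝ))
      (fun _ => Set.Ioi (0 : ℝ))
  rw [hμ]
  have h1 : ∀ z : ι → ℝ, Real.exp (c - b * ∑ j, z j ^ 2) =
      Real.exp c * ∏ j, Real.exp (-b * z j ^ 2) := by
    intro z
    rw [← Real.exp_sum, ← Real.exp_add, ← Finset.mul_sum]
    congr 1
    ring
  have hint : Integrable (fun z : ι → ℝ => ∏ j, Real.exp (-b * z j ^ 2))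
      (Measure.pi (fun _ : ι => (volume : Measure ℝ).restrict (Set.Ioi (0 : ℝ)))) :=
    Integrable.fintype_prod (f := fun (_ : ι) (x : ℝ) => Real.exp (-b * x ^ 2))
      (fun _ => integrableOn_Ioi_exp_neg_mul_sq_iff.2 hb)
  have h2 : ∫ z : ι → ℝ, ∏ j, Real.exp (-b * z j ^ 2) ∂(Measure.pi
      (fun _ : ι => (volume : Measure ℝ).restrict (Set.Ioi (0 : ℝ)))) =
      (√(π / b) / 2) ^ Fintype.card ι := by
    rw [integral_fintype_prod_eq_pow (fun x : ℝ => Real.exp (-b * x ^ 2)), integral_gaussian_Ioi]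
  calc ∫⁻ z : ι → ℝ, ENNReal.ofReal (Real.exp (c - b * ∑ j, z j ^ 2)) ∂(Measure.pi
      (fun _ : ι => (volume : Measure ℝ).restrict (Set.Ioi (0 : ℝ))))
      = ∫⁻ z : ι → ℝ, ENNReal.ofReal (Real.exp c * ∏ j, Real.exp (-b * z j ^ 2)) ∂(Measure.pi
      (fun _ : ι => (volume : Measure ℝ).restrict (Set.Ioi (0 : ℝ)))) :=
        lintegral_congr fun z => by rw [h1]
    _ = ENNReal.ofReal (∫ z : ι → ℝ, Real.exp c * ∏ j, Real.exp (-b * z j ^ 2) ∂(Measure.pi
      (fun _ : ι => (volume : Measure ℝ).restrict (Set.Ioi (0 : ℝ))))) := by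
        rw [ofReal_integral_eq_lintegral_ofReal (hint.const_mul _)
          (Filter.Eventually.of_forall fun z => by positivity)]
    _ = ENNReal.ofReal (Real.exp c * (√(π / b) / 2) ^ Fintype.card ι) := by
        rw [integral_const_mul, h2]

theorem uncond_flip {ι : Type} [Fintype ι] [DecidableEq ι] (K : Set (ι → ℝ))
    (iK : ∀ j, ∀ x ∈ K, Function.update x j (-(x j)) ∈ K) (hK : MeasurableSet K) :
    volume K ≤ 2 ^ Fintype.card ι * volume (K ∩ {x : ι → ℝ | ∀ j, 0 < x j}) := by
  obtain ⟨fl, hfl⟩ : ∃ fl : Finset ι → (ι → ℝ) → (ι → ℝ),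
      fl = fun T x j => (fun (j : ι) (a : ℝ) => if j ∈ T then -a else a) j (x j) := ⟨_, rfl⟩
  have hfl' : ∀ T x j, fl T x j = if j ∈ T then -(x j) else x j := by
    intro T x j
    rw [hfl]
  have hmp : ∀ T, MeasurePreserving (fl T) volume volume := by
    intro T
    rw [hfl]
    refine volume_preserving_pi (f := fun (j : ι) (a : ℝ) => if j ∈ T then -a else a) fun j => ?_
    by_cases hj : j ∈ T
    · simp only [hj, if_true]
      exact Measure.measurePreserving_neg volume
    · simp only [hj, if_false]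
      exact MeasurePreserving.id volume
  have hmem : ∀ (T : Finset ι) (x : ι → ℝ), x ∈ K → fl T x ∈ K := by
    intro T x hx
    induction T using Finset.induction_on with
    | empty =>
      have : fl ∅ x = x := by
        funext j
        rw [hfl']
        simp
      rw [this]
      exact hx
    | insert j T hj ih =>
      have : fl (insert j T) x = Function.update (fl T x) j (-(fl T x j)) := by
        funext i
        by_cases hi : i = j
        · subst hi
          rw [Function.update_self, hfl', hfl', if_pos (Finset.mem_insert_self _ _), if_neg hj]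
        · rw [Function.update_of_ne hi, hfl', hfl']
          by_cases hiT : i ∈ T
          · rw [if_pos (Finset.mem_insert_of_mem hiT), if_pos hiT]
          · rw [if_neg (by simp [hi, hiT]), if_neg hiT]
      rw [this]
      exact iK j _ ih
  have hpos : MeasurableSet {x : ι → ℝ | ∀ j, 0 < x j} := by
    have : {x : ι → ℝ | ∀ j, 0 < x j} = ⋂ j, {x : ι → ℝ | 0 < x j} := by
      ext x
      simp
    rw [this]
    exact MeasurableSet.iInter fun j => measurableSet_lt measurable_const (measurable_pi_apply j)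
  have hsub : K ⊆ (⋃ T ∈ (Finset.univ : Finset (Finset ι)),
      (fl T) ⁻¹' (K ∩ {x : ι → ℝ | ∀ j, 0 < x j})) ∪ ⋃ j : ι, {x : ι → ℝ | x j = 0} := by
    intro x hx
    by_cases h0 : ∃ j, x j = 0
    · right
      obtain ⟨j, hj⟩ := h0
      exact Set.mem_iUnion.2 ⟨j, hj⟩
    · left
      push Not at h0
      rw [Set.mem_iUnion₂]
      refine ⟨Finset.univ.filter fun j => x j < 0, Finset.mem_univ _, hmem _ x hx, ?_⟩
      intro j
      rw [hfl']
      by_cases hj : x j < 0
      · rw [if_pos (by simp [hj])]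
        linarith
      · rw [if_neg (by simp [hj])]
        exact lt_of_le_of_ne (not_lt.1 hj) (h0 j).symm
  have hnull : volume (⋃ j : ι, {x : ι → ℝ | x j = 0}) = 0 :=
    measure_iUnion_null fun j => Measure.pi_hyperplane (fun _ : ι => (volume : Measure ℝ)) j 0
  calc volume K ≤ volume ((⋃ T ∈ (Finset.univ : Finset (Finset ι)),
      (fl T) ⁻¹' (K ∩ {x : ι → ℝ | ∀ j, 0 < x j})) ∪ ⋃ j : ι, {x : ι → ℝ | x j = 0}) :=
        measure_mono hsub
    _ ≤ volume (⋃ T ∈ (Finset.univ : Finset (Finset ι)),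
      (fl T) ⁻¹' (K ∩ {x : ι → ℝ | ∀ j, 0 < x j})) +
        volume (⋃ j : ι, {x : ι → ℝ | x j = 0}) := measure_union_le _ _
    _ = volume (⋃ T ∈ (Finset.univ : Finset (Finset ι)),
      (fl T) ⁻¹' (K ∩ {x : ι → ℝ | ∀ j, 0 < x j})) := by rw [hnull, add_zero]
    _ ≤ ∑ T ∈ (Finset.univ : Finset (Finset ι)),
      volume ((fl T) ⁻¹' (K ∩ {x : ι → ℝ | ∀ j, 0 < x j})) := measure_biUnion_finset_le _ _
    _ = ∑ T ∈ (Finset.univ : Finset (Finset ι)), volume (K ∩ {x : ι → ℝ | ∀ j, 0 < x j}) :=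
        Finset.sum_congr rfl fun T _ =>
          (hmp T).measure_preimage (hK.inter hpos).nullMeasurableSet
    _ = 2 ^ Fintype.card ι * volume (K ∩ {x : ι → ℝ | ∀ j, 0 < x j}) := by
        rw [Finset.sum_const, Finset.card_univ, Fintype.card_finset, nsmul_eq_mul]
        push_cast
        rfl

theorem uncond_vol {ι : Type} [Fintype ι] [DecidableEq ι] (K : Set (ι → ℝ)) (hK : MeasurableSet K) :
    ∫⁻ s : ι → ℝ, ENNReal.ofReal (Real.exp (∑ j, s j)) *
      K.indicator (fun _ => (1 : ℝ≥0∞)) (fun j => Real.exp (s j)) =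
      volume (K ∩ {x : ι → ℝ | ∀ j, 0 < x j}) := by
  rw [← uncond_cov (K.indicator (fun _ => (1 : ℝ≥0∞))), lintegral_indicator_const hK, one_mul,
    Measure.restrict_apply hK]

theorem uncond_pos {ι : Type} [Fintype ι] [DecidableEq ι] (hN : 0 < Fintype.card ι)
    (K L : Set (ι → ℝ)) (hK : MeasurableSet K) (hL : MeasurableSet L)
    (hp : ∀ x ∈ K, ∀ y ∈ L, ∑ j, x j * y j ≤ 1) :
    volume (K ∩ {x : ι → ℝ | ∀ j, 0 < x j}) * volume (L ∩ {x : ι → ℝ | ∀ j, 0 < x j}) ≤
      (ENNReal.ofReal (Real.exp ((Fintype.card ι : ℝ) / 2) *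
        (√(π / ((Fintype.card ι : ℝ) / 2)) / 2) ^ Fintype.card ι)) ^ 2 := by
  have hNr : (0 : ℝ) < (Fintype.card ι : ℝ) := by exact_mod_cast hN
  have hexpm : Measurable fun (s : ι → ℝ) (j : ι) => Real.exp (s j) :=
    measurable_pi_lambda _ fun j => Real.measurable_exp.comp (measurable_pi_apply j)
  have hsumm : Measurable fun s : ι → ℝ => ENNReal.ofReal (Real.exp (∑ j, s j)) :=
    (Real.measurable_exp.comp (Finset.measurable_sum _ fun j _ => measurable_pi_apply j)).ennreal_ofReal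
  have hind : ∀ M : Set (ι → ℝ), MeasurableSet M → Measurable fun s : ι → ℝ =>
      ENNReal.ofReal (Real.exp (∑ j, s j)) *
      M.indicator (fun _ => (1 : ℝ≥0∞)) (fun j => Real.exp (s j)) := by
    intro M hM
    exact hsumm.mul ((measurable_const.indicator hM).comp hexpm)
  have hGm : Measurable fun z : ι → ℝ => ENNReal.ofReal (Real.exp ((Fintype.card ι : ℝ) / 2 -
      (Fintype.card ι : ℝ) / 2 * ∑ j, z j ^ 2)) := by
    refine Measurable.ennreal_ofReal (Real.measurable_exp.comp ?_)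
    exact measurable_const.sub (measurable_const.mul
      (Finset.measurable_sum _ fun j _ => (measurable_pi_apply j).pow_const 2))
  have key := pln (fun s : ι → ℝ => ENNReal.ofReal (Real.exp (∑ j, s j)) *
      K.indicator (fun _ => (1 : ℝ≥0∞)) (fun j => Real.exp (s j)))
    (fun s : ι → ℝ => ENNReal.ofReal (Real.exp (∑ j, s j)) *
      L.indicator (fun _ => (1 : ℝ≥0∞)) (fun j => Real.exp (s j)))
    (fun s : ι → ℝ => ENNReal.ofReal (Real.exp (∑ j, s j)) *
      (fun z : ι → ℝ => ENNReal.ofReal (Real.exp ((Fintype.card ι : ℝ) / 2 -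
      (Fintype.card ι : ℝ) / 2 * ∑ j, z j ^ 2))) (fun j => Real.exp (s j)))
    (hind K hK) (hind L hL) (hsumm.mul (hGm.comp hexpm)) (by
      intro x y
      by_cases hx : (fun j => Real.exp (x j)) ∈ K
      · by_cases hy : (fun j => Real.exp (y j)) ∈ L
        · rw [Set.indicator_of_mem hx, Set.indicator_of_mem hy, mul_one, mul_one]
          simp only
          rw [← ENNReal.ofReal_mul (Real.exp_pos _).le, ← ENNReal.ofReal_mul (Real.exp_pos _).le,
            ← ENNReal.ofReal_pow (by positivity)]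
          refine ENNReal.ofReal_le_ofReal ?_
          rw [← Real.exp_add, ← Real.exp_add, ← Real.exp_nat_mul]
          refine Real.exp_le_exp.2 ?_
          have h1 := hp _ hx _ hy
          have h2 : ∑ j, Real.exp ((x j + y j) / 2) ^ 2 = ∑ j, Real.exp (x j) * Real.exp (y j) := by
            refine Finset.sum_congr rfl fun j _ => ?_
            rw [← Real.exp_nat_mul, ← Real.exp_add]
            congr 1
            push_cast
            ring
          have h3 : ∑ j, (x j + y j) / 2 = (∑ j, x j + ∑ j, y j) / 2 := by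
            rw [← Finset.sum_add_distrib, Finset.sum_div]
          rw [h2, h3]
          push_cast
          nlinarith
        · rw [Set.indicator_of_notMem hy, mul_zero, mul_zero]
          exact zero_le
      · rw [Set.indicator_of_notMem hx, mul_zero, zero_mul]
        exact zero_le)
  rw [uncond_vol K hK, uncond_vol L hL, ← uncond_cov (fun z : ι → ℝ =>
      ENNReal.ofReal (Real.exp ((Fintype.card ι : ℝ) / 2 -
      (Fintype.card ι : ℝ) / 2 * ∑ j, z j ^ 2))), uncond_gauss _ (by positivity)] at key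
  exact key

theorem uncond {ι : Type} [Fintype ι] [DecidableEq ι] (hN : 0 < Fintype.card ι)
    (K L : Set (ι → ℝ)) (hK : IsCompact K) (hL : IsCompact L)
    (hp : ∀ x ∈ K, ∀ y ∈ L, ∑ j, x j * y j ≤ 1)
    (iK : ∀ j, ∀ x ∈ K, Function.update x j (-(x j)) ∈ K)
    (iL : ∀ j, ∀ x ∈ L, Function.update x j (-(x j)) ∈ L) :
    volume K * volume L ≤ ENNReal.ofReal ((2 * π * Real.exp 1 / Fintype.card ι)^(Fintype.card ι)) := by
  have hNr : (0 : ℝ) < (Fintype.card ι : ℝ) := by exact_mod_cast hN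
  have hKm := hK.measurableSet
  have hLm := hL.measurableSet
  have h1 := uncond_flip K iK hKm
  have h2 := uncond_flip L iL hLm
  have h3 := uncond_pos hN K L hKm hLm hp
  calc volume K * volume L
      ≤ (2 ^ Fintype.card ι * volume (K ∩ {x : ι → ℝ | ∀ j, 0 < x j})) *
        (2 ^ Fintype.card ι * volume (L ∩ {x : ι → ℝ | ∀ j, 0 < x j})) := mul_le_mul' h1 h2
    _ = (2 ^ Fintype.card ι * 2 ^ Fintype.card ι) *
        (volume (K ∩ {x : ι → ℝ | ∀ j, 0 < x j}) * volume (L ∩ {x : ι → ℝ | ∀ j, 0 < x j})) := by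
        ring
    _ ≤ (2 ^ Fintype.card ι * 2 ^ Fintype.card ι) *
        (ENNReal.ofReal (Real.exp ((Fintype.card ι : ℝ) / 2) *
        (√(π / ((Fintype.card ι : ℝ) / 2)) / 2) ^ Fintype.card ι)) ^ 2 := mul_le_mul' le_rfl h3
    _ = ENNReal.ofReal ((2 ^ Fintype.card ι * 2 ^ Fintype.card ι) *
        (Real.exp ((Fintype.card ι : ℝ) / 2) *
        (√(π / ((Fintype.card ι : ℝ) / 2)) / 2) ^ Fintype.card ι) ^ 2) := by
        have h0 : ENNReal.ofReal ((2:ℝ) ^ Fintype.card ι) = 2 ^ Fintype.card ι := by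
          rw [ENNReal.ofReal_pow (by norm_num), ENNReal.ofReal_ofNat]
        have hb : 0 ≤ Real.exp ((Fintype.card ι : ℝ) / 2) *
          (√(π / ((Fintype.card ι : ℝ) / 2)) / 2) ^ Fintype.card ι := by positivity
        generalize Real.exp ((Fintype.card ι : ℝ) / 2) *
          (√(π / ((Fintype.card ι : ℝ) / 2)) / 2) ^ Fintype.card ι = B at hb ⊢
        rw [ENNReal.ofReal_mul (by positivity), ENNReal.ofReal_mul (by positivity),
          ENNReal.ofReal_pow hb, h0]
    _ = ENNReal.ofReal ((2 * π * Real.exp 1 / Fintype.card ι)^(Fintype.card ι)) := by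
        congr 1
        have e1 : Real.exp ((Fintype.card ι : ℝ) / 2) ^ 2 = Real.exp 1 ^ (Fintype.card ι) := by
          rw [← Real.exp_nat_mul, ← Real.exp_nat_mul]
          congr 1
          push_cast
          ring
        have e2 : ((√(π / ((Fintype.card ι : ℝ) / 2)) / 2) ^ Fintype.card ι) ^ 2 =
            (π / (2 * (Fintype.card ι : ℝ))) ^ Fintype.card ι := by
          rw [← pow_mul, mul_comm, pow_mul, div_pow, Real.sq_sqrt (by positivity)]
          congr 1
          field_simp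
        rw [mul_pow (Real.exp ((Fintype.card ι : ℝ) / 2)), e1, e2, ← mul_pow, ← mul_pow, ← mul_pow]
        congr 1
        field_simp


end Sol_uncond

alias uncond := Sol_uncond.uncond

end BSheet
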