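import Pool.Agent.BSheet.Defs
import Pool.Agent.BSheet.L_steiner
import Pool.Agent.BSheet.L_uncond
open MeasureTheory Real
open scoped ENNReal BigOperators

namespace BSheet
open ProbabilityTheory
namespace Sol_santalo





theorem santalo {ι : Type} [Fintype ι] [DecidableEq ι] (hN : 0 < Fintype.card ι)
    (K L : Set (ι → ℝ)) (hK : IsCompact K) (hL : IsCompact L)
    (sK : ∀ x ∈ K, -x ∈ K) (sL : ∀ x ∈ L, -x ∈ L)
    (hp : ∀ x ∈ K, ∀ y ∈ L, ∑ j, x j * y j ≤ 1) :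
    volume K * volume L ≤ ENNReal.ofReal ((2 * π * Real.exp 1 / Fintype.card ι)^(Fintype.card ι)) := by
  have key : ∀ T : Finset ι, ∃ K' L' : Set (ι → ℝ), IsCompact K' ∧ IsCompact L' ∧
      (∀ x ∈ K', -x ∈ K') ∧ (∀ x ∈ L', -x ∈ L') ∧
      (∀ x ∈ K', ∀ y ∈ L', ∑ j, x j * y j ≤ 1) ∧
      (∀ j ∈ T, ∀ x ∈ K', Function.update x j (-(x j)) ∈ K') ∧
      (∀ j ∈ T, ∀ x ∈ L', Function.update x j (-(x j)) ∈ L') ∧
      volume K ≤ volume K' ∧ volume L ≤ volume L' := by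
    intro T
    induction T using Finset.induction_on with
    | empty =>
      exact ⟨K, L, hK, hL, sK, sL, hp, fun j hj => absurd hj (Finset.notMem_empty j),
        fun j hj => absurd hj (Finset.notMem_empty j), le_refl _, le_refl _⟩
    | insert i T _ ih =>
      obtain ⟨K1, L1, h1, h2, h3, h4, h5, h6, h7, h8, h9⟩ := ih
      obtain ⟨K2, L2, g1, g2, g3, g4, g5, g6, g7, g8, g9⟩ :=
        steiner_step i T K1 L1 h1 h2 h3 h4 h5 h6 h7
      exact ⟨K2, L2, g1, g2, g3, g4, g5, g6, g7, h8.trans g8, h9.trans g9⟩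
  obtain ⟨K1, L1, h1, h2, _, _, h5, h6, h7, h8, h9⟩ := key Finset.univ
  exact (mul_le_mul' h8 h9).trans (uncond hN K1 L1 h1 h2 h5 (fun j => h6 j (Finset.mem_univ j))
    (fun j => h7 j (Finset.mem_univ j)))


end Sol_santalo

alias santalo := Sol_santalo.santalo

end BSheet
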