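import Pool.Agent.BSheet.Defs
import Pool.Agent.BSheet.L_chi_bounds
open MeasureTheory Real
open scoped ENNReal BigOperators

namespace BSheet
open ProbabilityTheory
namespace Sol_vec_bound




theorem chiB_bounds {D n k : ℕ} (r : BIdx D n k) (x : Fin D → Str n) :
    0 ≤ chiB r x ∧ chiB r x ≤ 1 := by
  have h : ∀ i : Fin D, 0 ≤ (if trunc (r.1.1 i) (x i) = r.1.2 i then chi (r.1.1 i) (x i) else 0) ∧
      (if trunc (r.1.1 i) (x i) = r.1.2 i then chi (r.1.1 i) (x i) else 0) ≤ 1 := by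
    intro i
    have hb := chi_bounds (Nat.lt_succ_iff.1 (r.1.1 i).2) (x i)
    split_ifs
    · exact hb
    · exact ⟨le_refl _, zero_le_one⟩
  unfold chiB
  exact ⟨Finset.prod_nonneg fun i _ => (h i).1, Finset.prod_le_one (fun i _ => (h i).1) fun i _ => (h i).2⟩

theorem vec_bound {D n : ℕ} (x1 : Str n) (x : Fin D → Str n) (i : Idx D n) :
    0 ≤ vec x1 x i ∧ vec x1 x i ≤ 1 := by
  have h1 := chiB_bounds i.2 x
  have h2 : 0 ≤ (if trunc i.1.1.1 x1 = i.1.1.2 then chi i.1.1.1 x1 else 0) ∧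
      (if trunc i.1.1.1 x1 = i.1.1.2 then chi i.1.1.1 x1 else 0) ≤ 1 := by
    have hb := chi_bounds (Nat.lt_succ_iff.1 i.1.1.1.2) x1
    split_ifs
    · exact hb
    · exact ⟨le_refl _, zero_le_one⟩
  unfold vec
  exact ⟨mul_nonneg h2.1 h1.1, mul_le_one₀ h2.2 h1.1 h1.2⟩


end Sol_vec_bound

alias vec_bound := Sol_vec_bound.vec_bound

end BSheet
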