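import Pool.Agent.BSheet.Defs
open MeasureTheory Real
open scoped ENNReal BigOperators

namespace BSheet
open ProbabilityTheory
namespace Sol_vol_image



theorem U1_prob : IsProbabilityMeasure U1 := by
  constructor
  have h : (1:ℝ) - (-1) = 2 := by norm_num
  simp only [U1, Measure.smul_apply, Measure.restrict_apply MeasurableSet.univ, Set.univ_inter,
    Real.volume_Icc, h, smul_eq_mul]
  rw [show ENNReal.ofReal 2 = 2 by simp]
  exact ENNReal.inv_mul_cancel (by norm_num) (by norm_num)

theorem cube_eq {ι : Type} : {a : ι → ℝ | ∀ i, |a i| ≤ 1} =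
    Set.pi Set.univ (fun _ => Set.Icc (-1:ℝ) 1) := by
  ext a
  simp only [Set.mem_pi, Set.mem_univ, forall_true_left, Set.mem_Icc, abs_le]
  rfl

theorem pi_U1 {ι : Type} [Fintype ι] :
    Measure.pi (fun _ : ι => U1) =
      ((2⁻¹ : ℝ≥0∞) ^ (Fintype.card ι)) • volume.restrict {a : ι → ℝ | ∀ i, |a i| ≤ 1} := by
  have := U1_prob
  refine Measure.pi_eq fun s hs => ?_
  rw [Measure.smul_apply, Measure.restrict_apply (MeasurableSet.univ_pi hs), cube_eq,
    ← Set.pi_inter_distrib, volume_pi_pi]
  simp only [U1, Measure.smul_apply, smul_eq_mul]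
  rw [Finset.prod_mul_distrib, Finset.prod_const, Finset.card_univ]
  congr 1
  refine Finset.prod_congr rfl fun i _ => ?_
  rw [Measure.restrict_apply (hs i)]

theorem vol_image {ι : Type} [Fintype ι] [DecidableEq ι] (F : (ι → ℝ) → (ι → ℝ)) (hF : ContDiff ℝ 1 F)
    (inj : Function.Injective F) (hdet : ∀ a, (∀ i, |a i| ≤ 1) → 0 < (fderiv ℝ F a).det) :
    ENNReal.ofReal (2^(Fintype.card ι) *
      Real.exp (∫ a, Real.log ((fderiv ℝ F a).det) ∂(Measure.pi (fun _ : ι => U1))))
      ≤ volume (F '' {a | ∀ i, |a i| ≤ 1}) := by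
  have := U1_prob
  set Q : Set (ι → ℝ) := {a | ∀ i, |a i| ≤ 1} with hQ
  have hQc : IsCompact Q := by
    rw [hQ, cube_eq]; exact isCompact_univ_pi fun _ => isCompact_Icc
  have hQm : MeasurableSet Q := hQc.measurableSet
  have hdiff : Differentiable ℝ F := hF.differentiable (by norm_num)
  have hvol := lintegral_abs_det_fderiv_eq_addHaar_image (volume : Measure (ι → ℝ)) hQm
    (fun x _ => (hdiff x).hasFDerivAt.hasFDerivWithinAt) inj.injOn
  rw [← hvol]
  have hdc : Continuous fun a => (fderiv ℝ F a).det :=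
    ContinuousLinearMap.continuous_det.comp (hF.continuous_fderiv (by norm_num))
  have hpi := pi_U1 (ι := ι)
  rw [← hQ] at hpi
  have hcne : ((2⁻¹ : ℝ≥0∞) ^ (Fintype.card ι)) ≠ ⊤ := ENNReal.pow_ne_top (by norm_num)
  -- integrability
  have hi1 : Integrable (fun a => (fderiv ℝ F a).det) (Measure.pi (fun _ : ι => U1)) := by
    rw [hpi]
    exact (hdc.continuousOn.integrableOn_compact hQc).integrable.smul_measure hcne
  have hlc : ContinuousOn (fun a => Real.log ((fderiv ℝ F a).det)) Q :=
    hdc.continuousOn.log fun a ha => (hdet a ha).ne'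
  have hi2 : Integrable (fun a => Real.log ((fderiv ℝ F a).det)) (Measure.pi (fun _ : ι => U1)) := by
    rw [hpi]
    exact (hlc.integrableOn_compact hQc).integrable.smul_measure hcne
  set m : ℝ := ∫ a, Real.log ((fderiv ℝ F a).det) ∂(Measure.pi (fun _ : ι => U1)) with hm
  have hae : ∀ᵐ a ∂(Measure.pi (fun _ : ι => U1)), a ∈ Q := by
    rw [hpi]
    exact Measure.ae_smul_measure (ae_restrict_mem hQm) _
  have hJ : Real.exp m ≤ ∫ a, (fderiv ℝ F a).det ∂(Measure.pi (fun _ : ι => U1)) := by
    have h1 : ∫ a, Real.exp m * (1 + (Real.log ((fderiv ℝ F a).det) - m))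
        ∂(Measure.pi (fun _ : ι => U1)) = Real.exp m := by
      have e1 : ∀ a : ι → ℝ, (1:ℝ) + (Real.log ((fderiv ℝ F a).det) - m) =
          Real.log ((fderiv ℝ F a).det) + (1 - m) := fun a => by ring
      simp only [e1]
      rw [integral_const_mul, integral_add hi2 (integrable_const _), ← hm]
      simp
    rw [← h1]
    refine integral_mono_ae ((((integrable_const _).add (hi2.sub (integrable_const _)))).const_mul _)
      hi1 ?_
    filter_upwards [hae] with a ha
    have h2 := Real.add_one_le_exp (Real.log ((fderiv ℝ F a).det) - m)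
    have h3 : (fderiv ℝ F a).det = Real.exp m * Real.exp (Real.log ((fderiv ℝ F a).det) - m) := by
      rw [← Real.exp_add]
      rw [show m + (Real.log ((fderiv ℝ F a).det) - m) = Real.log ((fderiv ℝ F a).det) by ring]
      rw [Real.exp_log (hdet a ha)]
    calc Real.exp m * (1 + (Real.log ((fderiv ℝ F a).det) - m))
        ≤ Real.exp m * Real.exp (Real.log ((fderiv ℝ F a).det) - m) := by
          apply mul_le_mul_of_nonneg_left _ (Real.exp_pos _).le
          linarith
      _ = (fderiv ℝ F a).det := h3.symm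
  have hL : ∫⁻ a in Q, ENNReal.ofReal |(fderiv ℝ F a).det| =
      (2:ℝ≥0∞) ^ (Fintype.card ι) *
        ENNReal.ofReal (∫ a, (fderiv ℝ F a).det ∂(Measure.pi (fun _ : ι => U1))) := by
    rw [ofReal_integral_eq_lintegral_ofReal hi1 (by
      filter_upwards [hae] with a ha
      exact (hdet a ha).le)]
    rw [hpi, lintegral_smul_measure, smul_eq_mul, ← mul_assoc, ← mul_pow,
      ENNReal.mul_inv_cancel (by norm_num) (by norm_num), one_pow, one_mul]
    refine setLIntegral_congr_fun hQm fun a ha => ?_
    rw [abs_of_pos (hdet a ha)]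
  rw [hL, ENNReal.ofReal_mul (by positivity), ENNReal.ofReal_pow (by norm_num)]
  rw [show ENNReal.ofReal 2 = 2 by simp]
  gcongr


end Sol_vol_image

alias vol_image := Sol_vol_image.vol_image

end BSheet
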