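import Pool.Agent.BSheet.Defs
import Pool.Agent.BSheet.L_mu_prob
import Pool.Agent.BSheet.L_mu_cube
import Pool.Agent.BSheet.L_card_BIdx
import Pool.Agent.BSheet.L_card_level
import Pool.Agent.BSheet.L_ms_upper
import Pool.Agent.BSheet.L_ms_mono
import Pool.Agent.BSheet.L_ms_sum
import Pool.Agent.BSheet.L_q_contDiff
import Pool.Agent.BSheet.L_det_fderiv
import Pool.Agent.BSheet.L_q_inj
import Pool.Agent.BSheet.L_vol_image
import Pool.Agent.BSheet.L_Amat_facts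
import Pool.Agent.BSheet.L_int_logdet
open MeasureTheory Real
open scoped ENNReal BigOperators

namespace BSheet
open ProbabilityTheory
namespace Sol_vol_q
















theorem h170_psi_cont {D n : ℕ} (κ : Node n) (x : Fin D → Str n) :
    Continuous (fun a : Idx D n → ℝ => psi a κ x) := by
  unfold psi
  refine continuous_const.mul (continuous_finset_sum _ fun r _ => ?_)
  exact (continuous_apply _).mul continuous_const

theorem h170_W_cont {D n : ℕ} (κ : Node n) (x : Fin D → Str n) :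
    Continuous (fun a : Idx D n → ℝ => W a κ x) := by
  unfold W
  refine continuous_finset_prod _ fun j _ => ?_
  by_cases h : j < κ.1.1
  · simp only [if_pos h]
    exact continuous_const.add (continuous_const.mul (Real.continuous_arctan.comp (h170_psi_cont _ _)))
  · simp only [if_neg h]
    exact continuous_const

theorem h170_det_cont {D n : ℕ} (κ : Node n) :
    Continuous (fun a : Idx D n → ℝ => (Amat a κ).det) := by
  refine Continuous.matrix_det ?_
  refine continuous_pi fun r => continuous_pi fun r' => ?_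
  unfold Amat avg
  refine continuous_const.mul (continuous_const.mul (continuous_finset_sum _ fun x _ => ?_))
  refine ((h170_W_cont κ x).mul (Continuous.inv₀ (continuous_const.add ((h170_psi_cont κ x).pow 2)) ?_)).mul continuous_const
  intro a
  have h : 0 < 1 + psi a κ x ^ 2 := by positivity
  exact h.ne'

theorem h170_log_int {D n : ℕ} (κ : Node n) :
    Integrable (fun a : Idx D n → ℝ => Real.log (Amat a κ).det) (mu D n) := by
  haveI := mu_prob D n
  have hcube : IsCompact (Set.pi Set.univ (fun _ : Idx D n => Set.Icc (-1:ℝ) 1)) :=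
    isCompact_univ_pi fun _ => isCompact_Icc
  have hcont : ContinuousOn (fun a : Idx D n → ℝ => Real.log (Amat a κ).det)
      (Set.pi Set.univ (fun _ : Idx D n => Set.Icc (-1:ℝ) 1)) := by
    refine ContinuousOn.log (h170_det_cont κ).continuousOn ?_
    intro a ha
    refine (Amat_det_pos a (fun i => ?_) κ).ne'
    exact abs_le.2 (ha i (Set.mem_univ i))
  obtain ⟨C, hC⟩ := hcube.exists_bound_of_continuousOn hcont
  refine Integrable.of_bound ((Real.measurable_log.comp (h170_det_cont κ).measurable).aestronglyMeasurable) C ?_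
  filter_upwards [mu_cube D n] with a ha
  exact hC a (fun i _ => abs_le.1 (ha i))

theorem h170_sum4 (n : ℕ) : ∑ κ : Node n, (4:ℝ)^(n-(κ.1.1:ℕ)) = (n+1) * 4^n := by
  have h : ∑ κ : Node n, (4:ℝ)^(n-(κ.1.1:ℕ)) =
      ∑ k : Fin (n+1), ∑ κ ∈ Finset.univ.filter (fun κ : Node n => κ.1.1 = k), (4:ℝ)^(n-(κ.1.1:ℕ)) := by
    rw [Finset.sum_fiberwise]
  rw [h]
  have h2 : ∀ k : Fin (n+1), ∑ κ ∈ Finset.univ.filter (fun κ : Node n => κ.1.1 = k), (4:ℝ)^(n-(κ.1.1:ℕ)) = 4^n := by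
    intro k
    have : ∀ κ ∈ Finset.univ.filter (fun κ : Node n => κ.1.1 = k), (4:ℝ)^(n-(κ.1.1:ℕ)) = 4^(n-(k:ℕ)) := by
      intro κ hκ
      rw [(Finset.mem_filter.1 hκ).2]
    rw [Finset.sum_congr rfl this, Finset.sum_const, card_level, nsmul_eq_mul]
    push_cast
    rw [← pow_add]
    congr 1
    have := k.2
    omega
  rw [Finset.sum_congr rfl fun k _ => h2 k, Finset.sum_const, Finset.card_univ, Fintype.card_fin, nsmul_eq_mul]
  push_cast
  ring

theorem h170_cardIdx (D n : ℕ) :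
    (Fintype.card (Idx D n) : ℝ) = ∑ κ : Node n, (Fintype.card (BIdx D n κ.1.1) : ℝ) := by
  rw [Fintype.card_sigma]
  push_cast
  rfl

theorem h170_cardIdx2 (D n : ℕ) :
    (Fintype.card (Idx D n) : ℝ) = 4^n * ∑ k : Fin (n+1), (ms D n k : ℝ) := by
  rw [h170_cardIdx]
  have h : ∑ κ : Node n, (Fintype.card (BIdx D n κ.1.1) : ℝ) =
      ∑ k : Fin (n+1), ∑ κ ∈ Finset.univ.filter (fun κ : Node n => κ.1.1 = k), (Fintype.card (BIdx D n κ.1.1) : ℝ) := by
    rw [Finset.sum_fiberwise]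
  rw [h, Finset.mul_sum]
  refine Finset.sum_congr rfl fun k _ => ?_
  have : ∀ κ ∈ Finset.univ.filter (fun κ : Node n => κ.1.1 = k), (Fintype.card (BIdx D n κ.1.1) : ℝ)
      = (ms D n k : ℝ) * 4^(n-(k:ℕ)) := by
    intro κ hκ
    have e := (Finset.mem_filter.1 hκ).2
    rw [card_BIdx D n κ.1.1 (by have := κ.1.1.2; omega), e]
    push_cast
    rfl
  rw [Finset.sum_congr rfl this, Finset.sum_const, card_level, nsmul_eq_mul]
  push_cast
  have e4 : (4:ℝ)^n = 4^(k:ℕ) * 4^(n-(k:ℕ)) := by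
    rw [← pow_add]; congr 1; have := k.2; omega
  rw [e4]; ring

theorem vol_q (D : ℕ) (hD : 2 ≤ D) : ∃ c : ℝ, 0 < c ∧ ∀ n : ℕ, 1 ≤ n →
    ENNReal.ofReal ((c * (1/4)^n * (Real.sqrt ((n:ℝ)^(D-1)))⁻¹)^(Fintype.card (Idx D n)))
      ≤ volume ((fun a : Idx D n → ℝ => q a) '' {a | ∀ i, |a i| ≤ 1}) := by
  obtain ⟨C1, hC1, hms⟩ := ms_upper D (by omega)
  obtain ⟨c0, hc0, hsum⟩ := ms_sum D (by omega)
  obtain ⟨C, hC, hint⟩ := int_logdet D (by omega)
  obtain ⟨E, hE⟩ : ∃ E, E = C + 2 * C / c0 := ⟨_, rfl⟩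
  refine ⟨(1/16) * (Real.sqrt C1)⁻¹ * Real.exp (-E), by positivity, fun n hn => ?_⟩
  have hn' : (1:ℝ) ≤ n := by exact_mod_cast hn
  have hmspos : ∀ κ : Node n, (0:ℝ) < ms D n κ.1.1 := fun κ => by
    have := ms_pos D n κ.1.1 (by omega) (by have := κ.1.1.2; omega)
    exact_mod_cast this
  have hw : ∀ κ : Node n, 0 < (1/16) * (Real.sqrt (ms D n κ.1.1))⁻¹ * (1/4:ℝ)^n := fun κ => by
    have := hmspos κ
    positivity
  have hdetform : ∀ a : Idx D n → ℝ, (∀ i, |a i| ≤ 1) → 0 < (fderiv ℝ (fun a : Idx D n → ℝ => q a) a).det := by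
    intro a ha
    rw [det_fderiv]
    exact Finset.prod_pos fun κ _ => mul_pos (pow_pos (hw κ) _) (Amat_det_pos a ha κ)
  refine le_trans (ENNReal.ofReal_le_ofReal ?_) (vol_image (fun a : Idx D n → ℝ => q a) (q_contDiff D n) (q_inj D n) hdetform)
  -- the integral
  have hI : ∫ a, Real.log ((fderiv ℝ (fun a : Idx D n → ℝ => q a) a).det) ∂(Measure.pi (fun _ : Idx D n => U1))
      = ∑ κ : Node n, ((Fintype.card (BIdx D n κ.1.1) : ℝ) * Real.log ((1/16) * (Real.sqrt (ms D n κ.1.1))⁻¹ * (1/4)^n)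
        + ∫ a, Real.log (Amat a κ).det ∂(mu D n)) := by
    haveI := mu_prob D n
    have h1 : ∫ a, Real.log ((fderiv ℝ (fun a : Idx D n → ℝ => q a) a).det) ∂(mu D n)
        = ∫ a, (∑ κ : Node n, ((Fintype.card (BIdx D n κ.1.1) : ℝ) * Real.log ((1/16) * (Real.sqrt (ms D n κ.1.1))⁻¹ * (1/4)^n)
        + Real.log (Amat a κ).det)) ∂(mu D n) := by
      refine integral_congr_ae ?_
      filter_upwards [mu_cube D n] with a ha
      rw [det_fderiv, Real.log_prod]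
      · refine Finset.sum_congr rfl fun κ _ => ?_
        rw [Real.log_mul (pow_pos (hw κ) _).ne' (Amat_det_pos a ha κ).ne', Real.log_pow]
      · intro κ _
        exact (mul_pos (pow_pos (hw κ) _) (Amat_det_pos a ha κ)).ne'
    have h2 : Measure.pi (fun _ : Idx D n => U1) = mu D n := rfl
    rw [h2, h1, integral_finset_sum]
    · refine Finset.sum_congr rfl fun κ _ => ?_
      rw [integral_add (integrable_const _) (h170_log_int κ), integral_const]
      simp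
    · intro κ _
      exact (integrable_const _).add (h170_log_int κ)
  rw [hI]
  obtain ⟨w0, hw0⟩ : ∃ w0, w0 = (1/16) * (Real.sqrt C1)⁻¹ * (1/4)^n * (Real.sqrt ((n:ℝ)^(D-1)))⁻¹ := ⟨_, rfl⟩
  have hw0pos : 0 < w0 := by
    rw [hw0]
    have : 0 < Real.sqrt C1 := Real.sqrt_pos.2 hC1
    have : 0 < Real.sqrt ((n:ℝ)^(D-1)) := Real.sqrt_pos.2 (by positivity)
    positivity
  have hlogw : ∀ κ : Node n, Real.log w0 ≤ Real.log ((1/16) * (Real.sqrt (ms D n κ.1.1))⁻¹ * (1/4)^n) := by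
    intro κ
    refine Real.log_le_log hw0pos ?_
    have h1 : Real.sqrt (ms D n κ.1.1) ≤ Real.sqrt C1 * Real.sqrt ((n:ℝ)^(D-1)) := by
      rw [← Real.sqrt_mul hC1.le]
      exact Real.sqrt_le_sqrt (hms n κ.1.1 hn)
    have h2 : (Real.sqrt C1 * Real.sqrt ((n:ℝ)^(D-1)))⁻¹ ≤ (Real.sqrt (ms D n κ.1.1))⁻¹ :=
      inv_anti₀ (Real.sqrt_pos.2 (hmspos κ)) h1
    rw [hw0]
    calc (1/16) * (Real.sqrt C1)⁻¹ * (1/4)^n * (Real.sqrt ((n:ℝ)^(D-1)))⁻¹
        = (1/16) * (Real.sqrt C1 * Real.sqrt ((n:ℝ)^(D-1)))⁻¹ * (1/4)^n := by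
          rw [mul_inv]; ring
      _ ≤ _ := by
        refine mul_le_mul_of_nonneg_right (mul_le_mul_of_nonneg_left h2 (by norm_num)) (by positivity)
  obtain ⟨N, hN⟩ : ∃ N : ℕ, N = Fintype.card (Idx D n) := ⟨_, rfl⟩
  have hNsum : (N:ℝ) = ∑ κ : Node n, (Fintype.card (BIdx D n κ.1.1) : ℝ) := by rw [hN]; exact h170_cardIdx D n
  have hNlow : c0 * (n:ℝ)^2 * 4^n ≤ N := by
    have h1 : (N:ℝ) = 4^n * ∑ k : Fin (n+1), (ms D n k : ℝ) := by rw [hN]; exact h170_cardIdx2 D n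
    have h2 := hsum n hn
    have h3 : (n:ℝ)^2 ≤ (n:ℝ)^D := pow_le_pow_right₀ hn' hD
    rw [h1]
    calc c0 * (n:ℝ)^2 * 4^n ≤ c0 * (n:ℝ)^D * 4^n := by
          refine mul_le_mul_of_nonneg_right (mul_le_mul_of_nonneg_left h3 hc0.le) (by positivity)
      _ = 4^n * (c0 * (n:ℝ)^D) := by ring
      _ ≤ _ := mul_le_mul_of_nonneg_left h2 (by positivity)
  have hlow : (N:ℝ) * (Real.log w0 - E) ≤
      ∑ κ : Node n, ((Fintype.card (BIdx D n κ.1.1) : ℝ) * Real.log ((1/16) * (Real.sqrt (ms D n κ.1.1))⁻¹ * (1/4)^n)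
        + ∫ a, Real.log (Amat a κ).det ∂(mu D n)) := by
    have h1 : ∑ κ : Node n, ((Fintype.card (BIdx D n κ.1.1) : ℝ) * Real.log w0 +
        (-C * (Fintype.card (BIdx D n κ.1.1) : ℝ) - C * n * 4^(n-(κ.1.1:ℕ)))) ≤ 
      ∑ κ : Node n, ((Fintype.card (BIdx D n κ.1.1) : ℝ) * Real.log ((1/16) * (Real.sqrt (ms D n κ.1.1))⁻¹ * (1/4)^n)
        + ∫ a, Real.log (Amat a κ).det ∂(mu D n)) := by
      refine Finset.sum_le_sum fun κ _ => add_le_add ?_ (hint n κ hn)
      exact mul_le_mul_of_nonneg_left (hlogw κ) (Nat.cast_nonneg _)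
    refine le_trans ?_ h1
    rw [Finset.sum_add_distrib, Finset.sum_sub_distrib, ← Finset.sum_mul, ← Finset.mul_sum, ← Finset.mul_sum,
      ← hNsum, h170_sum4]
    have h5 : C * n * ((n+1) * 4^n) ≤ 2 * C / c0 * N := by
      have h6 : C * n * ((n+1) * 4^n) ≤ 2 * C * ((n:ℝ)^2 * 4^n) := by
        have : (n:ℝ) * (n + 1) ≤ 2 * (n:ℝ)^2 := by nlinarith
        calc C * n * ((n+1) * 4^n) = (C * 4^n) * ((n:ℝ) * (n + 1)) := by ring
          _ ≤ (C * 4^n) * (2 * (n:ℝ)^2) := mul_le_mul_of_nonneg_left this (by positivity)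
          _ = _ := by ring
      have h7 : (n:ℝ)^2 * 4^n ≤ N / c0 := by
        rw [le_div_iff₀ hc0]
        calc (n:ℝ)^2 * 4^n * c0 = c0 * (n:ℝ)^2 * 4^n := by ring
          _ ≤ _ := hNlow
      calc C * n * ((n+1) * 4^n) ≤ 2 * C * ((n:ℝ)^2 * 4^n) := h6
        _ ≤ 2 * C * (N / c0) := mul_le_mul_of_nonneg_left h7 (by positivity)
        _ = _ := by ring
    rw [hE]
    nlinarith
  have hfin : (((1/16) * (Real.sqrt C1)⁻¹ * Real.exp (-E)) * (1/4)^n * (Real.sqrt ((n:ℝ)^(D-1)))⁻¹)^N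
      = Real.exp ((N:ℝ) * (Real.log w0 - E)) := by
    have e1 : ((1/16) * (Real.sqrt C1)⁻¹ * Real.exp (-E)) * (1/4)^n * (Real.sqrt ((n:ℝ)^(D-1)))⁻¹ = Real.exp (Real.log w0 - E) := by
      rw [sub_eq_add_neg, Real.exp_add, Real.exp_log hw0pos, hw0]; ring
    rw [e1, ← Real.exp_nat_mul]
  rw [← hN, hfin]
  calc Real.exp ((N:ℝ) * (Real.log w0 - E)) ≤ 1 * Real.exp (∑ κ : Node n, ((Fintype.card (BIdx D n κ.1.1) : ℝ) * Real.log ((1/16) * (Real.sqrt (ms D n κ.1.1))⁻¹ * (1/4)^n)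
        + ∫ a, Real.log (Amat a κ).det ∂(mu D n))) := by
        rw [one_mul]; exact Real.exp_le_exp.2 hlow
    _ ≤ _ := mul_le_mul_of_nonneg_right (one_le_pow₀ (by norm_num)) (Real.exp_nonneg _)


end Sol_vol_q

alias vol_q := Sol_vol_q.vol_q

end BSheet
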