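import Pool.Agent.BSheet.Defs
import Pool.Agent.BSheet.L_q_polar
import Pool.Agent.BSheet.L_card_BIdx
import Pool.Agent.BSheet.L_card_level
import Pool.Agent.BSheet.L_ms_mono
import Pool.Agent.BSheet.L_ms_sum
import Pool.Agent.BSheet.L_Kset_compact
import Pool.Agent.BSheet.L_vec_bound
import Pool.Agent.BSheet.L_santalo
import Pool.Agent.BSheet.L_vol_q
open MeasureTheory Real
open scoped ENNReal BigOperators

namespace BSheet
open ProbabilityTheory
namespace Sol_vol_K












theorem vK_card (D n : ℕ) : (Fintype.card (Idx D n) : ℝ) = 4^n * ∑ k : Fin (n+1), (ms D n k : ℝ) := by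
  have h1 : Fintype.card (Idx D n) = ∑ κ : Node n, ms D n κ.1.1 * 4^(n - (κ.1.1:ℕ)) := by
    rw [Fintype.card_sigma]
    refine Finset.sum_congr rfl (fun κ _ => ?_)
    rw [card_BIdx D n κ.1.1 (Nat.lt_succ_iff.mp κ.1.1.2)]
  have h2 : ∑ κ : Node n, ms D n κ.1.1 * 4^(n - (κ.1.1:ℕ)) =
      ∑ k : Fin (n+1), 4^n * ms D n k := by
    rw [← Finset.sum_fiberwise Finset.univ (fun κ : Node n => κ.1.1)]
    refine Finset.sum_congr rfl (fun k _ => ?_)
    rw [Finset.sum_congr rfl (g := fun _ => ms D n k * 4^(n - (k:ℕ)))]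
    · rw [Finset.sum_const, card_level n k, smul_eq_mul]
      have : (4:ℕ)^n = 4^(k:ℕ) * 4^(n - (k:ℕ)) := by
        rw [← pow_add]; congr 1; have := k.2; omega
      rw [this]; ring
    · intro κ hκ
      rw [Finset.mem_filter] at hκ
      rw [hκ.2]
  rw [h1, h2]
  push_cast
  rw [Finset.mul_sum]

theorem vK_L (D n : ℕ) (hN : 0 < Fintype.card (Idx D n)) (β : ℝ) (hβ : 0 < β)
    (hv : ENNReal.ofReal (β^(Fintype.card (Idx D n)))
      ≤ volume ((fun a : Idx D n → ℝ => q a) '' {a | ∀ i, |a i| ≤ 1})) :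
    volume (Kset D n) ≤ ENNReal.ofReal ((2 * π * Real.exp 1 / (Fintype.card (Idx D n) * β))^(Fintype.card (Idx D n))) := by
  set N := Fintype.card (Idx D n) with hNdef
  have hN' : (0:ℝ) < N := by exact_mod_cast hN
  let L : Set (Idx D n → ℝ) := {y | ∀ a ∈ Kset D n, |∑ i, a i * y i| ≤ 1}
  have hLc : IsClosed L := by
    have : L = ⋂ a ∈ Kset D n, {y : Idx D n → ℝ | |∑ i, a i * y i| ≤ 1} := by
      ext y; simp [L]
    rw [this]
    refine isClosed_biInter (fun a _ => ?_)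
    exact isClosed_le (by fun_prop) continuous_const
  have hsingle : ∀ i : Idx D n, (Pi.single i (1/(N:ℝ)) : Idx D n → ℝ) ∈ Kset D n := by
    intro i x1 x
    rw [Finset.sum_eq_single i]
    · rw [Pi.single_eq_same]
      obtain ⟨h0, h1⟩ := vec_bound x1 x i
      rw [abs_of_nonneg (by positivity)]
      have hN1 : (1:ℝ) ≤ N := by exact_mod_cast hN
      have : 1/(N:ℝ) ≤ 1 := by rw [div_le_one hN']; exact hN1
      calc 1/(N:ℝ) * vec x1 x i ≤ 1 * 1 := mul_le_mul this h1 h0 zero_le_one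
        _ = 1 := one_mul 1
    · intro j _ hj
      rw [Pi.single_eq_of_ne hj, zero_mul]
    · intro h; exact absurd (Finset.mem_univ i) h
  have hLcomp : IsCompact L := by
    refine IsCompact.of_isClosed_subset (isCompact_Icc (a := fun _ : Idx D n => -(N:ℝ)) (b := fun _ => (N:ℝ))) hLc ?_
    intro y hy
    have key : ∀ i, |y i| ≤ N := by
      intro i
      have := hy _ (hsingle i)
      rw [Finset.sum_eq_single i] at this
      · rw [Pi.single_eq_same, abs_mul, abs_of_pos (by positivity)] at this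
        rw [one_div, inv_mul_le_iff₀ hN', mul_one] at this
        exact this
      · intro j _ hj
        rw [Pi.single_eq_of_ne hj, zero_mul]
      · intro h; exact absurd (Finset.mem_univ i) h
    rw [Set.mem_Icc]
    constructor
    · intro i; exact (abs_le.mp (key i)).1
    · intro i; exact (abs_le.mp (key i)).2
  have sK : ∀ x ∈ Kset D n, -x ∈ Kset D n := by
    intro a ha x1 x
    have := ha x1 x
    have e : ∑ i, (-a) i * vec x1 x i = - ∑ i, a i * vec x1 x i := by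
      rw [← Finset.sum_neg_distrib]; exact Finset.sum_congr rfl (fun i _ => by rw [Pi.neg_apply]; ring)
    rw [e, abs_neg]; exact this
  have sL : ∀ x ∈ L, -x ∈ L := by
    intro y hy a ha
    have := hy a ha
    have e : ∑ i, a i * (-y) i = - ∑ i, a i * y i := by
      rw [← Finset.sum_neg_distrib]; exact Finset.sum_congr rfl (fun i _ => by rw [Pi.neg_apply]; ring)
    rw [e, abs_neg]; exact this
  have hS := santalo hN (Kset D n) L (Kset_compact D n) hLcomp sK sL
    (fun x hx y hy => (le_abs_self _).trans (hy x hx))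
  have himg : (fun a : Idx D n → ℝ => q a) '' {a | ∀ i, |a i| ≤ 1} ⊆ L := by
    rintro _ ⟨a, _, rfl⟩ a' ha'
    exact q_polar a a' ha'
  have hLv : ENNReal.ofReal (β^N) ≤ volume L := hv.trans (measure_mono himg)
  have hβN : 0 < β^N := pow_pos hβ _
  have h3 : volume (Kset D n) * ENNReal.ofReal (β^N) ≤ ENNReal.ofReal ((2 * π * Real.exp 1 / N)^N) :=
    (mul_le_mul_right hLv _).trans hS
  have h4 : (2 * π * Real.exp 1 / (N * β))^N = (2 * π * Real.exp 1 / N)^N / β^N := by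
    rw [← div_pow, div_div]
  rw [h4, ENNReal.ofReal_div_of_pos hβN]
  rw [ENNReal.le_div_iff_mul_le (Or.inl (by positivity)) (Or.inl ENNReal.ofReal_ne_top)]
  exact h3

theorem vol_K (D : ℕ) (hD : 2 ≤ D) : ∃ C : ℝ, 0 < C ∧ ∀ n : ℕ, 1 ≤ n →
    volume (Kset D n)
      ≤ ENNReal.ofReal ((C * (Real.sqrt ((n:ℝ)^(D+1)))⁻¹)^(Fintype.card (Idx D n))) := by
  obtain ⟨c, hc, hq⟩ := vol_q D hD
  obtain ⟨c', hc', hms⟩ := ms_sum D (by omega)
  refine ⟨2 * π * Real.exp 1 / (c * c'), by positivity, ?_⟩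
  intro n hn
  have hn0 : (0:ℝ) < n := by exact_mod_cast hn
  have hcard := vK_card D n
  have hms' := hms n hn
  have h4 : (0:ℝ) < 4^n := by positivity
  have hNr : c' * (4^n * (n:ℝ)^D) ≤ (Fintype.card (Idx D n) : ℝ) := by
    rw [hcard]; nlinarith
  have hNpos' : (0:ℝ) < (Fintype.card (Idx D n) : ℝ) := lt_of_lt_of_le (by positivity) hNr
  have hN : 0 < Fintype.card (Idx D n) := by exact_mod_cast hNpos'
  set β := c * (1/4)^n * (Real.sqrt ((n:ℝ)^(D-1)))⁻¹ with hβ
  have hsq : 0 < Real.sqrt ((n:ℝ)^(D-1)) := Real.sqrt_pos.mpr (by positivity)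
  have hβ0 : 0 < β := by rw [hβ]; positivity
  refine (vK_L D n hN β hβ0 (hq n hn)).trans ?_
  apply ENNReal.ofReal_le_ofReal
  apply pow_le_pow_left₀ (by positivity)
  -- base estimate
  have hsq2 : 0 < Real.sqrt ((n:ℝ)^(D+1)) := Real.sqrt_pos.mpr (by positivity)
  have hkey : c * c' * Real.sqrt ((n:ℝ)^(D+1)) ≤ (Fintype.card (Idx D n) : ℝ) * β := by
    have e1 : Real.sqrt ((n:ℝ)^(D+1)) * Real.sqrt ((n:ℝ)^(D-1)) = (n:ℝ)^D := by
      rw [← Real.sqrt_mul (by positivity), ← pow_add]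
      have : D + 1 + (D - 1) = D * 2 := by omega
      rw [this, pow_mul, Real.sqrt_sq (by positivity)]
    have e2 : Real.sqrt ((n:ℝ)^(D+1)) = (n:ℝ)^D * (Real.sqrt ((n:ℝ)^(D-1)))⁻¹ := by
      rw [← e1]; field_simp
    have e3 : (4:ℝ)^n * (1/4)^n = 1 := by rw [← mul_pow]; norm_num
    calc c * c' * Real.sqrt ((n:ℝ)^(D+1)) = c * c' * ((n:ℝ)^D * (Real.sqrt ((n:ℝ)^(D-1)))⁻¹) * (4^n * (1/4)^n) := by
          rw [e2, e3, mul_one]
      _ = (c' * (4^n * (n:ℝ)^D)) * β := by rw [hβ]; ring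
      _ ≤ (Fintype.card (Idx D n) : ℝ) * β := mul_le_mul_of_nonneg_right hNr hβ0.le
  have hpi : 0 < 2 * π * Real.exp 1 := by positivity
  calc 2 * π * Real.exp 1 / ((Fintype.card (Idx D n) : ℝ) * β)
      ≤ 2 * π * Real.exp 1 / (c * c' * Real.sqrt ((n:ℝ)^(D+1))) :=
        div_le_div_of_nonneg_left hpi.le (by positivity) hkey
    _ = 2 * π * Real.exp 1 / (c * c') * (Real.sqrt ((n:ℝ)^(D+1)))⁻¹ := by
        rw [← div_div, div_eq_mul_inv]



end Sol_vol_K

alias vol_K := Sol_vol_K.vol_K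

end BSheet
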