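import Pool.Agent.BSheet.Defs
import Pool.Agent.BSheet.L_card_BIdx
import Pool.Agent.BSheet.L_card_level
import Pool.Agent.BSheet.L_ms_mono
import Pool.Agent.BSheet.L_ms_sum
import Pool.Agent.BSheet.L_vol_K
import Pool.Agent.BSheet.L_sheet_bound
import Pool.Agent.BSheet.L_one_point
import Pool.Agent.BSheet.L_final_num
open MeasureTheory Real
open scoped ENNReal BigOperators

namespace BSheet
open ProbabilityTheory
namespace Sol_result











theorem card_Idx_eq (D n : ℕ) :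
    Fintype.card (Idx D n) = 4^n * ∑ k : Fin (n+1), ms D n k := by
  have h1 : Fintype.card (Idx D n) = ∑ κ : Node n, Fintype.card (BIdx D n κ.1.1) :=
    Fintype.card_sigma
  rw [h1]
  have h2 : ∀ κ : Node n, Fintype.card (BIdx D n κ.1.1) =
      ms D n κ.1.1 * 4^(n - (κ.1.1 : ℕ)) := fun κ => card_BIdx D n κ.1.1 (by omega)
  simp only [h2]
  rw [← Finset.sum_fiberwise (s := (Finset.univ : Finset (Node n))) (g := fun κ : Node n => κ.1.1)
    (f := fun κ : Node n => ms D n κ.1.1 * 4^(n - (κ.1.1 : ℕ)))]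
  rw [Finset.mul_sum]
  apply Finset.sum_congr rfl
  intro k _
  have h3 : ∀ κ ∈ Finset.univ.filter (fun κ : Node n => κ.1.1 = k),
      ms D n κ.1.1 * 4^(n - (κ.1.1 : ℕ)) = ms D n k * 4^(n - (k : ℕ)) := by
    intro κ hκ
    rw [Finset.mem_filter] at hκ
    rw [hκ.2]
  rw [Finset.sum_congr rfl h3, Finset.sum_const, card_level, smul_eq_mul]
  have h4 : 4^n = 4^(k:ℕ) * 4^(n - (k:ℕ)) := by
    rw [← pow_add]; congr 1; omega
  rw [h4]
  ring

theorem small_ball (d : ℕ) (hd : 3 ≤ d) : ∃ c : ℝ, 0 < c ∧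
    ∀ {Ω : Type*} {mΩ : MeasurableSpace Ω} (P : Measure Ω) (B : (Fin d → unitInterval) → Ω → ℝ),
      IsBrownianSheet d B P → ∀ ε : ℝ, 0 < ε → ε < 1/2 →
        P {ω | ∀ x, |B x ω| ≤ ε}
          ≤ ENNReal.ofReal (Real.exp (-c * (ε^2)⁻¹ * (Real.log (1/ε))^(2*d-1))) := by
  obtain ⟨D, rfl⟩ : ∃ D, d = D + 1 := ⟨d - 1, by omega⟩
  have hD : 2 ≤ D := by omega
  obtain ⟨c1, hc1, hms⟩ := ms_sum D (by omega)
  obtain ⟨Cv, hCv, hvol⟩ := vol_K D hD
  obtain ⟨c2, hc2, hone⟩ := one_point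
  have h2π : 0 < Real.sqrt (2 * π) := Real.sqrt_pos.2 (by positivity)
  obtain ⟨C, hC⟩ : ∃ C : ℝ, C = 2 * 2^(D+1) / Real.sqrt (2 * π) * Cv := ⟨_, rfl⟩
  have hC0 : 0 < C := by rw [hC]; positivity
  obtain ⟨c, hc, hfin⟩ := final_num D (by omega) C c1 c2 hC0 hc1 hc2
  refine ⟨c, hc, ?_⟩
  intro Ω mΩ P B hB ε hε hε2
  have hle1 := hone P (D+1) B hB ε hε2
  have hne : P {ω | ∀ x, |B x ω| ≤ ε} ≠ ⊤ := ne_top_of_le_ne_top ENNReal.ofReal_ne_top hle1
  have key := hfin (P {ω | ∀ x, |B x ω| ≤ ε}).toReal ε (fun n => Fintype.card (Idx D n))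
    ENNReal.toReal_nonneg hε hε2
    (ENNReal.toReal_le_of_le_ofReal (Real.exp_pos _).le hle1)
    (by
      intro n hn
      show _ ≤ ((Fintype.card (Idx D n) : ℕ) : ℝ)
      rw [card_Idx_eq]
      push_cast
      have h1 := hms n hn
      have h2 : (4:ℝ)^n * (c1 * (n:ℝ)^D) ≤ 4^n * ∑ k : Fin (n+1), (ms D n k : ℝ) :=
        mul_le_mul_of_nonneg_left h1 (by positivity)
      calc c1 * 4^n * (n:ℝ)^D = (4:ℝ)^n * (c1 * (n:ℝ)^D) := by ring
        _ ≤ _ := h2)
    (by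
      intro n hn
      have h1 := sheet_bound P D n B hB ε hε
      have h2 := hvol n hn
      have h3 : P {ω | ∀ x, |B x ω| ≤ ε} ≤ ENNReal.ofReal
          ((C * ε * 2^n * (Real.sqrt ((n:ℝ)^(D+1)))⁻¹)^(Fintype.card (Idx D n))) := by
        refine h1.trans ?_
        refine (mul_le_mul_right h2 _).trans ?_
        rw [← ENNReal.ofReal_mul (by positivity), ← mul_pow]
        apply le_of_eq
        congr 2
        rw [hC, pow_add 2 (D+1) n]
        ring
      exact ENNReal.toReal_le_of_le_ofReal (by positivity) h3)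
  rw [show 2 * (D + 1) - 1 = 2 * D + 1 by omega]
  rw [← ENNReal.ofReal_toReal hne]
  exact ENNReal.ofReal_le_ofReal key


end Sol_result

alias small_ball := Sol_result.small_ball

end BSheet
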